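import Mathlib

/-!
Systems of realizations (with chosen bases), mixed tensors and absolute Hodge tensors.
-/

open Matrix

namespace Pool.Agent.Work.MP_0da4e0_ag

variable {ι : Type} [Fintype ι] [DecidableEq ι]

/-- Mixed tensors with `m` upper and `n` lower indices and entries in `R`: the elements of
`V^{⊗m} ⊗ (V^∨)^{⊗n}`, for `V = R^ι`, in coordinates. -/
abbrev Tens (ι : Type) (m n : ℕ) (R : Type) : Type := (Fin m → ι) × (Fin n → ι) → R

/-- The natural action of an invertible matrix `g` on mixed tensors: `g` acts on every upper index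
and the contragredient of `g` on every lower index. -/
def act {R : Type} [CommRing R] {m n : ℕ} (g : GL ι R) (t : Tens ι m n R) : Tens ι m n R :=
  fun e => ∑ f : (Fin m → ι) × (Fin n → ι),
    ((∏ j, (g : Matrix ι ι R) (e.1 j) (f.1 j)) *
      (∏ j, ((g⁻¹ : GL ι R) : Matrix ι ι R) (f.2 j) (e.2 j))) * t f

/-- A rational tensor, regarded as a tensor with entries in `R`. -/
def ratT {m n : ℕ} (R : Type) [DivisionRing R] (t : Tens ι m n ℚ) : Tens ι m n R :=
  fun e => (t e : R)

/-- A rational Hodge structure (direct sum of pure ones) on the rational vector space `ℚ^ι`: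
the bigrading `V (p, q)` of `ℂ^ι`, exchanged by complex conjugation, such that every weight space
is defined over `ℚ`. -/
structure HodgeStr (ι : Type) where
  /-- the subspace of type (p, q) -/
  V : ℤ × ℤ → Submodule ℂ (ι → ℂ)
  /-- the complexification is the direct sum of the subspaces `V (p, q)` -/
  internal : DirectSum.IsInternal V
  /-- complex conjugation exchanges types (p, q) and (q, p) -/
  conj_mem : ∀ (p q : ℤ) (v : ι → ℂ), v ∈ V (p, q) → (fun i => starRingEnd ℂ (v i)) ∈ V (q, p)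
  /-- the weight spaces are rational -/
  weight_rational : ∀ n : ℤ, ∃ W : Submodule ℚ (ι → ℚ),
    (⨆ p : ℤ, V (p, n - p)) = Submodule.span ℂ {w | ∃ u ∈ W, w = fun i => (u i : ℂ)}

/-- `g` is the action of the point (z, w) of the Deligne torus: multiplication by `z ^ p * w ^ q`
on vectors of type (p, q). -/
def IsTorus (h : HodgeStr ι) (z w : ℂˣ) (g : GL ι ℂ) : Prop :=
  ∀ (p q : ℤ) (v : ι → ℂ), v ∈ h.V (p, q) →
    (g : Matrix ι ι ℂ) *ᵥ v = ((z ^ p * w ^ q : ℂˣ) : ℂ) • v

/-- A rational mixed tensor is a Hodge tensor (rational of type (0, 0)) if it is fixed by the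
Deligne torus. -/
def IsHodge (h : HodgeStr ι) {m n : ℕ} (t : Tens ι m n ℚ) : Prop :=
  ∀ (z w : ℂˣ) (g : GL ι ℂ), IsTorus h z w g → act g (ratT ℂ t) = ratT ℂ t

/-- A system of realizations over the field `k`, with bases indexed by `ι` chosen in all
realizations: de Rham realization `k^ι`, `l`-adic realizations `ℚ_l^ι`, and for every embedding
`τ : k → ℂ` the Betti realization `ℚ^ι` with its Hodge structure, the comparison isomorphism `per τ`
from the complexified Betti realization at `τ` to k^ι tensored with ℂ along τ, and the comparison isomorphism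
`et τ l` from Betti tensor `ℚ_l` to the `l`-adic realization. -/
structure RealSys (k : Type) [Field k] (ι : Type) [Fintype ι] [DecidableEq ι] where
  /-- the Hodge structure on the Betti realization at `τ` -/
  hodge : (k →+* ℂ) → HodgeStr ι
  /-- comparison Betti - de Rham at `τ` -/
  per : (k →+* ℂ) → GL ι ℂ
  /-- comparison Betti at `τ` - `l`-adic -/
  et : (k →+* ℂ) → (l : ℕ) → [Fact l.Prime] → GL ι ℚ_[l]

variable {k : Type} [Field k]

/-- Absolute Hodge tensors on `H` (Deligne): a de Rham tensor over `k` and `l`-adic tensors for all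
`l` whose images at every embedding `τ` are one rational tensor `betti τ`, of type (0, 0). -/
structure AHTensor (H : RealSys k ι) (m n : ℕ) where
  /-- the de Rham component -/
  dR : Tens ι m n k
  /-- the `l`-adic components -/
  ad : (l : ℕ) → [Fact l.Prime] → Tens ι m n ℚ_[l]
  /-- the Betti components -/
  betti : (k →+* ℂ) → Tens ι m n ℚ
  comp_dR : ∀ τ : k →+* ℂ, act (H.per τ) (ratT ℂ (betti τ)) = fun e => τ (dR e)
  comp_ad : ∀ (τ : k →+* ℂ) (l : ℕ) [Fact l.Prime],
    act (H.et τ l) (ratT ℚ_[l] (betti τ)) = ad l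
  hodge : ∀ τ : k →+* ℂ, IsHodge (H.hodge τ) (betti τ)

/-! ### Elementary properties of the action -/

section act
variable {R S : Type} [CommRing R] [CommRing S] {m n : ℕ}

/-- The matrix of the action on mixed tensors. -/
def actMat (g : GL ι R) : Matrix ((Fin m → ι) × (Fin n → ι)) ((Fin m → ι) × (Fin n → ι)) R :=
  fun e f => (∏ j, (g : Matrix ι ι R) (e.1 j) (f.1 j)) *
      (∏ j, ((g⁻¹ : GL ι R) : Matrix ι ι R) (f.2 j) (e.2 j))

theorem act_eq (g : GL ι R) (t : Tens ι m n R) : act g t = (actMat g : Matrix _ _ R) *ᵥ t := rfl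

theorem actMat_mul (g h : GL ι R) :
    (actMat (g * h) : Matrix ((Fin m → ι) × (Fin n → ι)) _ R) = actMat g * actMat h := by
  ext e f
  have hinv : ((g * h)⁻¹ : GL ι R) = h⁻¹ * g⁻¹ := _root_.mul_inv_rev g h
  have h1 : (∏ j, ((g * h : GL ι R) : Matrix ι ι R) (e.1 j) (f.1 j)) =
      ∑ x : Fin m → ι, (∏ j, (g : Matrix ι ι R) (e.1 j) (x j)) *
        ∏ j, (h : Matrix ι ι R) (x j) (f.1 j) := by
    simp only [Units.val_mul, Matrix.mul_apply]
    rw [Finset.prod_univ_sum]
    simp only [Fintype.piFinset_univ, Finset.prod_mul_distrib]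
  have h2 : (∏ j, (((g * h)⁻¹ : GL ι R) : Matrix ι ι R) (f.2 j) (e.2 j)) =
      ∑ y : Fin n → ι, (∏ j, ((h⁻¹ : GL ι R) : Matrix ι ι R) (f.2 j) (y j)) *
        ∏ j, ((g⁻¹ : GL ι R) : Matrix ι ι R) (y j) (e.2 j) := by
    rw [hinv]
    simp only [Units.val_mul, Matrix.mul_apply]
    rw [Finset.prod_univ_sum]
    simp only [Fintype.piFinset_univ, Finset.prod_mul_distrib]
  rw [actMat, h1, h2, Matrix.mul_apply, Fintype.sum_prod_type, Finset.sum_mul_sum]
  apply Finset.sum_congr rfl
  intro x _
  apply Finset.sum_congr rfl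
  intro y _
  simp only [actMat]
  ring

theorem actMat_one : (actMat (1 : GL ι R) : Matrix ((Fin m → ι) × (Fin n → ι)) _ R) = 1 := by
  ext e f
  simp only [actMat, inv_one, Units.val_one, Matrix.one_apply]
  by_cases h : e = f
  · subst h; simp
  · rw [if_neg h]
    by_cases h1 : e.1 = f.1
    · have h2 : e.2 ≠ f.2 := fun h2 => h (Prod.ext h1 h2)
      obtain ⟨j, hj⟩ := Function.ne_iff.1 h2
      rw [Finset.prod_eq_zero (i := j) (Finset.mem_univ _) (by rw [if_neg (Ne.symm hj)]), mul_zero]
    · obtain ⟨j, hj⟩ := Function.ne_iff.1 h1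
      rw [Finset.prod_eq_zero (i := j) (Finset.mem_univ _) (by rw [if_neg hj]), zero_mul]

theorem act_mul (g h : GL ι R) (t : Tens ι m n R) : act (g * h) t = act g (act h t) := by
  rw [act_eq, act_eq, act_eq, actMat_mul, Matrix.mulVec_mulVec]

theorem act_one (t : Tens ι m n R) : act (1 : GL ι R) t = t := by
  rw [act_eq, actMat_one, Matrix.one_mulVec]

theorem act_inv_act (g : GL ι R) (t : Tens ι m n R) : act g⁻¹ (act g t) = t := by
  rw [← act_mul, inv_mul_cancel, act_one]

theorem act_act_inv (g : GL ι R) (t : Tens ι m n R) : act g (act g⁻¹ t) = t := by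
  rw [← act_mul, mul_inv_cancel, act_one]

theorem act_injective (g : GL ι R) : Function.Injective (act (m := m) (n := n) g) := by
  intro s t h
  rw [← act_inv_act g s, h, act_inv_act]

theorem act_add (g : GL ι R) (s t : Tens ι m n R) : act g (s + t) = act g s + act g t := by
  rw [act_eq, Matrix.mulVec_add]; rfl

theorem act_smul (g : GL ι R) (c : R) (t : Tens ι m n R) : act g (c • t) = c • act g t := by
  rw [act_eq, Matrix.mulVec_smul]; rfl

theorem map_act (f : R →+* S) (g : GL ι R) (t : Tens ι m n R) :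
    (fun e => f (act g t e)) = act (Matrix.GeneralLinearGroup.map f g) (fun e => f (t e)) := by
  funext e
  simp only [act, map_sum, map_mul, map_prod]
  rfl

end act

omit [Fintype ι] [DecidableEq ι] in
theorem ratT_map {m n : ℕ} {R S : Type} [DivisionRing R] [DivisionRing S] (f : R →+* S)
    (t : Tens ι m n ℚ) : (fun e => f (ratT R t e)) = ratT S t := by
  funext e
  simp [ratT]

omit [Fintype ι] [DecidableEq ι] in
theorem ratT_injective {m n : ℕ} {R : Type} [DivisionRing R] [CharZero R] :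
    Function.Injective (ratT (ι := ι) (m := m) (n := n) R) := by
  intro s t h
  funext e
  have := congrFun h e
  simpa [ratT] using this

/-! ### Elementary properties of Hodge structures -/

omit [Fintype ι] [DecidableEq ι] in
theorem HodgeStr.induct (h : HodgeStr ι) {P : (ι → ℂ) → Prop} (h0 : P 0)
    (hadd : ∀ v w, P v → P w → P (v + w)) (hV : ∀ p q v, v ∈ h.V (p, q) → P v) (v : ι → ℂ) :
    P v := by
  have hv : v ∈ ⨆ i, h.V i := by
    rw [h.internal.submodule_iSup_eq_top]; trivial
  exact Submodule.iSup_induction h.V (motive := P) hv (fun i x hx => hV i.1 i.2 x hx) h0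
    (fun x y => hadd x y)

theorem IsTorus.unique {h : HodgeStr ι} {z w : ℂˣ} {g g' : GL ι ℂ} (hg : IsTorus h z w g)
    (hg' : IsTorus h z w g') : g = g' := by
  apply Units.ext
  apply Matrix.mulVec_injective
  funext v
  refine h.induct (P := fun v => (g : Matrix ι ι ℂ) *ᵥ v = (g' : Matrix ι ι ℂ) *ᵥ v) ?_ ?_ ?_ v
  · simp
  · intro v w h1 h2
    rw [Matrix.mulVec_add, Matrix.mulVec_add, h1, h2]
  · intro p q v hv
    rw [hg p q v hv, hg' p q v hv]

theorem IsTorus.mul {h : HodgeStr ι} {z w z' w' : ℂˣ} {g g' : GL ι ℂ} (hg : IsTorus h z w g)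
    (hg' : IsTorus h z' w' g') : IsTorus h (z * z') (w * w') (g * g') := by
  intro p q v hv
  rw [Units.val_mul, ← Matrix.mulVec_mulVec, hg' p q v hv, Matrix.mulVec_smul, hg p q v hv,
    smul_smul, ← Units.val_mul]
  congr 2
  rw [mul_zpow, mul_zpow]
  exact mul_comm _ _ |>.trans (by rw [mul_mul_mul_comm])

theorem IsTorus.one {h : HodgeStr ι} : IsTorus h 1 1 (1 : GL ι ℂ) := by
  intro p q v hv
  simp

theorem IsTorus.pow {h : HodgeStr ι} {z w : ℂˣ} {g : GL ι ℂ} (hg : IsTorus h z w g) (N : ℕ) :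
    IsTorus h (z ^ N) (w ^ N) (g ^ N) := by
  induction N with
  | zero => simpa using IsTorus.one
  | succ N ih => rw [pow_succ, pow_succ, pow_succ]; exact ih.mul hg

omit [DecidableEq ι] in
theorem exists_eigen (h : HodgeStr ι) (c : ℤ × ℤ → ℂ) :
    ∃ f : (ι → ℂ) →ₗ[ℂ] (ι → ℂ), ∀ i v, v ∈ h.V i → f v = c i • v := by
  let e := LinearEquiv.ofBijective (DirectSum.coeLinearMap h.V) h.internal
  refine ⟨(DirectSum.toModule ℂ (ℤ × ℤ) (ι → ℂ) (fun i => c i • (h.V i).subtype)) ∘ₗ
    e.symm.toLinearMap, ?_⟩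
  intro i v hv
  have : e.symm v = DirectSum.lof ℂ (ℤ × ℤ) (fun i => h.V i) i ⟨v, hv⟩ := by
    rw [LinearEquiv.symm_apply_eq]
    exact (DirectSum.coeLinearMap_lof h.V i ⟨v, hv⟩).symm
  simp only [LinearMap.comp_apply, LinearEquiv.coe_coe]
  rw [this, DirectSum.toModule_lof]
  simp

theorem exists_torus (h : HodgeStr ι) (z w : ℂˣ) : ∃ g : GL ι ℂ, IsTorus h z w g := by
  obtain ⟨f, hf⟩ := exists_eigen h (fun i => ((z ^ i.1 * w ^ i.2 : ℂˣ) : ℂ))
  obtain ⟨f', hf'⟩ := exists_eigen h (fun i => (((z ^ i.1 * w ^ i.2)⁻¹ : ℂˣ) : ℂ))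
  have h1 : ∀ v, f (f' v) = v := by
    intro v
    refine h.induct (P := fun v => f (f' v) = v) (by simp) ?_ ?_ v
    · intro v w h1 h2; rw [map_add, map_add, h1, h2]
    · intro p q v hv
      rw [hf' (p,q) v hv, map_smul, hf (p,q) v hv, smul_smul, ← Units.val_mul, inv_mul_cancel]
      simp
  have h2 : ∀ v, f' (f v) = v := by
    intro v
    refine h.induct (P := fun v => f' (f v) = v) (by simp) ?_ ?_ v
    · intro v w h1 h2; rw [map_add, map_add, h1, h2]
    · intro p q v hv
      rw [hf (p,q) v hv, map_smul, hf' (p,q) v hv, smul_smul, ← Units.val_mul, mul_inv_cancel]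
      simp
  have e1 : LinearMap.toMatrix' f * LinearMap.toMatrix' f' = 1 := by
    rw [← LinearMap.toMatrix'_comp, ← LinearMap.toMatrix'_id]
    congr 1
    exact LinearMap.ext h1
  have e2 : LinearMap.toMatrix' f' * LinearMap.toMatrix' f = 1 := by
    rw [← LinearMap.toMatrix'_comp, ← LinearMap.toMatrix'_id]
    congr 1
    exact LinearMap.ext h2
  refine ⟨⟨LinearMap.toMatrix' f, LinearMap.toMatrix' f', e1, e2⟩, ?_⟩
  intro p q v hv
  change LinearMap.toMatrix' f *ᵥ v = _
  rw [← hf (p, q) v hv]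
  exact LinearMap.toMatrix'_mulVec f v

end Pool.Agent.Work.MP_0da4e0_ag
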