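import Mathlib

/-! MP_0da4e0_ag, module Aut: automorphisms of ℂ. -/

open Cardinal

namespace Pool.Agent.Work.MP_0da4e0_ag

theorem extend_aux (R K L : Type) [CommRing R] [Nontrivial R] [Countable R]
    [Field K] [Algebra R K] [Field L] [Algebra R L] [FaithfulSMul R K] [FaithfulSMul R L]
    [IsAlgClosed K] [IsAlgClosed L] (hK : ℵ₀ < #K) (hKL : #K = #L) :
    ∃ φ : K ≃+* L, ∀ r : R, φ (algebraMap R K r) = algebraMap R L r := by
  obtain ⟨s, hs⟩ := exists_isTranscendenceBasis R K
  obtain ⟨t, ht⟩ := exists_isTranscendenceBasis R L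
  have hR : #R ≤ ℵ₀ := mk_le_aleph0
  have h1 : #K = #s := IsAlgClosed.cardinal_eq_cardinal_transcendence_basis_of_aleph0_lt' _ hs hR hK
  have h2 : #L = #t := IsAlgClosed.cardinal_eq_cardinal_transcendence_basis_of_aleph0_lt' _ ht hR
    (hKL ▸ hK)
  have h3 : #s = #t := by rw [← h1, ← h2, hKL]
  obtain ⟨e⟩ := Cardinal.eq.1 h3
  letI := IsAlgClosed.isAlgClosure_of_transcendence_basis _ hs
  letI := IsAlgClosed.isAlgClosure_of_transcendence_basis _ ht
  let ε : Algebra.adjoin R (Set.range ((↑) : s → K)) ≃ₐ[R] Algebra.adjoin R (Set.range ((↑) : t → L)) :=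
    hs.1.aevalEquiv.symm.trans ((MvPolynomial.renameEquiv R e).trans ht.1.aevalEquiv)
  refine ⟨IsAlgClosure.equivOfEquiv K L ε.toRingEquiv, fun r => ?_⟩
  have h4 : algebraMap R K r = algebraMap (Algebra.adjoin R (Set.range ((↑) : s → K))) K
      (algebraMap R _ r) := by
    rfl
  rw [h4, IsAlgClosure.equivOfEquiv_algebraMap]
  have h5 : ε.toRingEquiv (algebraMap R _ r) = algebraMap R _ r := ε.commutes r
  rw [h5]
  rfl

/-- Two embeddings of a countable domain into ℂ differ by an automorphism of ℂ. -/
theorem exists_extend {R : Type} [CommRing R] [IsDomain R] [Countable R] (f g : R →+* ℂ)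
    (hf : Function.Injective f) (hg : Function.Injective g) :
    ∃ θ : ℂ ≃+* ℂ, ∀ r, θ (f r) = g r := by
  have hC : ℵ₀ < #ℂ := by
    rw [Cardinal.mk_complex]; exact aleph0_lt_continuum
  exact @extend_aux R ℂ ℂ _ _ _ _ f.toAlgebra _ g.toAlgebra
    (@FaithfulSMul.mk R ℂ (f.toAlgebra.toSMul) (fun {a b} h => hf (by
      have := h 1
      simpa [RingHom.smul_toAlgebra] using this)))
    (@FaithfulSMul.mk R ℂ (g.toAlgebra.toSMul) (fun {a b} h => hg (by
      have := h 1
      simpa [RingHom.smul_toAlgebra] using this))) _ _ hC rfl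

open Polynomial in
theorem exists_aut (c : ℂ) (hc : ∀ q : ℚ, (q : ℂ) ≠ c) : ∃ θ : ℂ ≃+* ℂ, θ c ≠ c := by
  have hcount : Countable ℚ[X] := by
    rw [← Cardinal.mk_le_aleph0_iff]
    refine Polynomial.cardinalMk_le_max.trans ?_
    simp
  by_cases halg : IsAlgebraic ℚ c
  · have hint : IsIntegral ℚ c := halg.isIntegral
    -- another root
    have hirr := minpoly.irreducible hint
    have hsep : (minpoly ℚ c).Separable := hirr.separable
    obtain ⟨d, hd, hdc⟩ : ∃ d : ℂ, aeval d (minpoly ℚ c) = 0 ∧ d ≠ c := by
      by_contra hcon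
      push Not at hcon
      have hroots : (minpoly ℚ c).rootSet ℂ ⊆ {c} := by
        intro d hd
        exact hcon d (Polynomial.aeval_eq_zero_of_mem_rootSet hd)
      have hcard := Polynomial.card_rootSet_eq_natDegree (K := ℂ) hsep
        (IsAlgClosed.splits _)
      have hle : Fintype.card ((minpoly ℚ c).rootSet ℂ) ≤ 1 := by
        rw [Fintype.card_le_one_iff_subsingleton]
        exact Set.subsingleton_coe _ |>.2 (Set.subsingleton_singleton.anti hroots)
      rw [hcard] at hle
      have hdeg : (minpoly ℚ c).degree = 1 := by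
        have h1 := minpoly.natDegree_pos hint
        have h2 : (minpoly ℚ c).natDegree = 1 := by omega
        rw [Polynomial.degree_eq_natDegree (minpoly.ne_zero hint), h2]
        rfl
      obtain ⟨q, hq⟩ := (minpoly.degree_eq_one_iff.1 hdeg)
      exact hc q (by simpa using hq)
    haveI : Fact (Irreducible (minpoly ℚ c)) := ⟨hirr⟩
    haveI : Countable (AdjoinRoot (minpoly ℚ c)) :=
      (AdjoinRoot.mk_surjective (g := minpoly ℚ c)).countable
    obtain ⟨θ, hθ⟩ := exists_extend (R := AdjoinRoot (minpoly ℚ c))
      (AdjoinRoot.lift (algebraMap ℚ ℂ) c (by simpa [aeval_def] using minpoly.aeval ℚ c))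
      (AdjoinRoot.lift (algebraMap ℚ ℂ) d (by simpa [aeval_def] using hd))
      (RingHom.injective _) (RingHom.injective _)
    refine ⟨θ, ?_⟩
    have := hθ (AdjoinRoot.root _)
    rw [AdjoinRoot.lift_root, AdjoinRoot.lift_root] at this
    rw [this]
    exact hdc
  · have htr : Transcendental ℚ c := halg
    have htr' : Transcendental ℚ (c + 1) := by
      intro h
      apply halg
      have := h.sub (isAlgebraic_one (R := ℚ) (A := ℂ))
      simpa using this
    obtain ⟨θ, hθ⟩ := exists_extend (R := ℚ[X]) (aeval c).toRingHom (aeval (c + 1)).toRingHom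
      (transcendental_iff_injective.1 htr) (transcendental_iff_injective.1 htr')
    refine ⟨θ, ?_⟩
    have := hθ X
    simp only [AlgHom.toRingHom_eq_coe, RingHom.coe_coe, aeval_X] at this
    rw [this]
    simp

theorem aut_indep {S : Type} [Fintype S] (b : S → ℂ) (hb : LinearIndependent ℚ b) (c : S → ℂ)
    (h : ∀ θ : ℂ ≃+* ℂ, ∑ s, c s * θ (b s) = 0) : c = 0 := by
  classical
  suffices H : ∀ n : ℕ, ∀ c : S → ℂ, (Finset.univ.filter (fun s => c s ≠ 0)).card ≤ n →
      (∀ θ : ℂ ≃+* ℂ, ∑ s, c s * θ (b s) = 0) → c = 0 from H _ c le_rfl h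
  intro n
  induction n with
  | zero =>
    intro c hc _
    funext s
    by_contra hs
    have : s ∈ Finset.univ.filter (fun s => c s ≠ 0) := by simpa using hs
    rw [Nat.le_zero, Finset.card_eq_zero] at hc
    rw [hc] at this
    simp at this
  | succ n ih =>
    intro c hc hrel
    by_contra hne
    obtain ⟨s0, hs0⟩ : ∃ s, c s ≠ 0 := by
      by_contra hcon
      push Not at hcon
      exact hne (funext hcon)
    -- normalise
    set e : S → ℂ := fun s => c s / c s0 with he
    have he0 : e s0 = 1 := by simp [he, hs0]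
    have hesupp : ∀ s, e s ≠ 0 ↔ c s ≠ 0 := by
      intro s
      simp [he, hs0]
    have herel : ∀ θ : ℂ ≃+* ℂ, ∑ s, e s * θ (b s) = 0 := by
      intro θ
      have : ∑ s, e s * θ (b s) = (∑ s, c s * θ (b s)) / c s0 := by
        rw [Finset.sum_div]
        refine Finset.sum_congr rfl fun s _ => ?_
        simp only [he]
        ring
      rw [this, hrel, zero_div]
    have hfix : ∀ (σ : ℂ ≃+* ℂ) s, σ (e s) = e s := by
      intro σ
      have hz : (fun s => σ (e s) - e s) = 0 := by
        apply ih
        · have hsub : (Finset.univ.filter (fun s => (fun s => σ (e s) - e s) s ≠ 0)) ⊆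
              (Finset.univ.filter (fun s => c s ≠ 0)).erase s0 := by
            intro s hs
            simp only [Finset.mem_filter, Finset.mem_univ, true_and] at hs
            rw [Finset.mem_erase]
            constructor
            · rintro rfl
              exact hs (by simp [he0])
            · simp only [Finset.mem_filter, Finset.mem_univ, true_and]
              rw [← hesupp]
              intro h0
              exact hs (by simp [h0])
          have h1 := Finset.card_le_card hsub
          rw [Finset.card_erase_of_mem (by simp [hs0])] at h1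
          exact h1.trans (by omega)
        · intro θ
          have h1 : ∑ s, σ (e s) * θ (b s) = 0 := by
            have h2 := herel (θ.trans σ.symm)
            have h3 := congrArg σ h2
            rw [map_sum, map_zero] at h3
            rw [← h3]
            refine Finset.sum_congr rfl fun s _ => ?_
            rw [map_mul]
            simp
          simp only [sub_mul, Finset.sum_sub_distrib]
          rw [h1, herel, sub_zero]
      intro s
      have := congrFun hz s
      simp only [Pi.zero_apply] at this
      linear_combination this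
    have hrat : ∀ s, ∃ q : ℚ, (q : ℂ) = e s := by
      intro s
      by_contra hcon
      push Not at hcon
      obtain ⟨θ, hθ⟩ := exists_aut (e s) hcon
      exact hθ (hfix θ s)
    choose q hq using hrat
    have hz : ∑ s, q s • b s = 0 := by
      have h1 := herel (RingEquiv.refl ℂ)
      rw [← h1]
      refine Finset.sum_congr rfl fun s _ => ?_
      rw [Rat.smul_def, hq]
      rfl
    have hq0 := (Fintype.linearIndependent_iff.1 hb) q hz s0
    have := hq s0
    rw [hq0, he0] at this
    simp at this

end Pool.Agent.Work.MP_0da4e0_ag
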