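import Mathlib

/-! MP_0da4e0_ag, module Bic: the double commutant theorem for matrix monoids closed under the
adjoint of a positive definite form. -/

open Matrix ComplexOrder MatrixOrder

namespace Pool.Agent.Work.MP_0da4e0_ag

section core

variable {κ : Type} [Fintype κ] [DecidableEq κ]

/-- matrices as a Euclidean space -/
noncomputable def vecE : Matrix κ κ ℂ ≃ₗ[ℂ] EuclideanSpace ℂ (κ × κ) where
  toFun X := WithLp.toLp 2 (fun p => X p.1 p.2)
  invFun x := fun i j => x (i, j)
  map_add' X Y := by ext p; simp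
  map_smul' c X := by ext p; simp
  left_inv X := by ext i j; simp
  right_inv x := by ext p; simp

theorem inner_vecE (X Y : Matrix κ κ ℂ) :
    inner ℂ (vecE X) (vecE Y) = (Xᴴ * Y).trace := by
  simp only [vecE, PiLp.inner_apply, LinearEquiv.coe_mk, LinearMap.coe_mk, AddHom.coe_mk,
    Matrix.trace, Matrix.diag_apply, Matrix.mul_apply, Matrix.conjTranspose_apply]
  rw [Fintype.sum_prod_type_right]
  refine Finset.sum_congr rfl fun j _ => Finset.sum_congr rfl fun i _ => ?_
  simp [mul_comm]

theorem inner_vecE_mul (a X Y : Matrix κ κ ℂ) :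
    inner ℂ (vecE (a * X)) (vecE Y) = inner ℂ (vecE X) (vecE (aᴴ * Y)) := by
  rw [inner_vecE, inner_vecE, Matrix.conjTranspose_mul, Matrix.mul_assoc]

theorem bicommutant_one (A : Submonoid (Matrix κ κ ℂ))
    (hstar : ∀ a ∈ A, aᴴ ∈ A) (g : Matrix κ κ ℂ)
    (hg : ∀ X : Matrix κ κ ℂ, (∀ a ∈ A, a * X = X * a) → g * X = X * g) :
    g ∈ Submodule.span ℂ (A : Set (Matrix κ κ ℂ)) := by
  classical
  set W : Submodule ℂ (Matrix κ κ ℂ) := Submodule.span ℂ (A : Set (Matrix κ κ ℂ)) with hW
  set W' : Submodule ℂ (EuclideanSpace ℂ (κ × κ)) := W.map (vecE (κ := κ)).toLinearMap with hW'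
  -- the projection
  let π : Matrix κ κ ℂ →ₗ[ℂ] Matrix κ κ ℂ :=
    (vecE (κ := κ)).symm.toLinearMap ∘ₗ (W'.starProjection : _ →L[ℂ] _).toLinearMap ∘ₗ
      (vecE (κ := κ)).toLinearMap
  have hπ : ∀ X, vecE (π X) = W'.starProjection (vecE X) := by
    intro X
    simp [π]
  have hπ1 : ∀ X, π X ∈ W := by
    intro X
    have h1 : vecE (π X) ∈ W' := by rw [hπ]; exact Submodule.starProjection_apply_mem _ _
    rw [hW', Submodule.mem_map] at h1
    obtain ⟨Y, hY, hYX⟩ := h1
    have : Y = π X := (vecE (κ := κ)).injective hYX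
    rwa [← this]
  have hπ2 : ∀ X ∈ W, π X = X := by
    intro X hX
    apply (vecE (κ := κ)).injective
    rw [hπ, Submodule.starProjection_eq_self_iff]
    exact Submodule.mem_map_of_mem hX
  have hmulW : ∀ a ∈ A, ∀ X ∈ W, a * X ∈ W := by
    intro a ha X hX
    induction hX using Submodule.span_induction with
    | mem x hx => exact Submodule.subset_span (A.mul_mem ha hx)
    | zero => simp
    | add x y _ _ hx hy => rw [mul_add]; exact W.add_mem hx hy
    | smul c x _ hx => rw [mul_smul_comm]; exact W.smul_mem c hx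
  have horth : ∀ X, ∀ Y ∈ W, inner ℂ (vecE (X - π X)) (vecE Y) = 0 := by
    intro X Y hY
    rw [map_sub, hπ]
    exact Submodule.starProjection_inner_eq_zero _ _ (Submodule.mem_map_of_mem hY)
  have hπ3 : ∀ a ∈ A, ∀ X, π (a * X) = a * π X := by
    intro a ha X
    apply (vecE (κ := κ)).injective
    rw [hπ]
    apply Submodule.eq_starProjection_of_mem_of_inner_eq_zero
    · exact Submodule.mem_map_of_mem (hmulW a ha _ (hπ1 X))
    · intro w hw
      rw [hW', Submodule.mem_map] at hw
      obtain ⟨Y, hY, rfl⟩ := hw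
      have h1 := horth X (aᴴ * Y) (hmulW _ (hstar a ha) Y hY)
      rw [← inner_vecE_mul, mul_sub, map_sub] at h1
      exact h1
  -- blocks
  let P : κ → κ → Matrix κ κ ℂ := fun j k => fun i i' => π (Matrix.single i' k 1) i j
  have hsum : ∀ (b : Matrix κ κ ℂ) (l k : κ),
      b * Matrix.single l k 1 = ∑ i', b i' l • Matrix.single i' k (1 : ℂ) := by
    intro b l k
    ext i j
    rw [Matrix.sum_apply]
    by_cases hj : j = k
    · subst hj
      rw [Matrix.mul_single_apply_same]
      simp [Matrix.single_apply]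
    · rw [Matrix.mul_single_apply_of_ne _ _ _ _ _ hj]
      symm
      apply Finset.sum_eq_zero
      intro i' _
      simp [Matrix.single_apply, Ne.symm hj]
  have key : ∀ b : Matrix κ κ ℂ, (∀ j k, b * P j k = P j k * b) ↔
      (∀ l k, π (b * Matrix.single l k 1) = b * π (Matrix.single l k 1)) := by
    intro b
    constructor
    · intro h l k
      ext i j
      have h1 := congrFun (congrFun (h j k) i) l
      rw [Matrix.mul_apply, Matrix.mul_apply] at h1
      rw [hsum, map_sum, Matrix.sum_apply, Matrix.mul_apply]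
      simp only [P] at h1
      rw [h1]
      refine Finset.sum_congr rfl fun i' _ => ?_
      rw [map_smul, Matrix.smul_apply, smul_eq_mul, mul_comm]
    · intro h j k
      ext i l
      have h1 := congrFun (congrFun (h l k) i) j
      rw [hsum, map_sum, Matrix.sum_apply, Matrix.mul_apply] at h1
      rw [Matrix.mul_apply, Matrix.mul_apply]
      simp only [P]
      rw [← h1]
      refine Finset.sum_congr rfl fun i' _ => ?_
      rw [map_smul, Matrix.smul_apply, smul_eq_mul, mul_comm]
  have hgP : ∀ j k, g * P j k = P j k * g := by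
    intro j k
    apply hg
    intro a ha
    exact (key a).2 (fun l k => hπ3 a ha _) j k
  have hgπ : ∀ l k, π (g * Matrix.single l k 1) = g * π (Matrix.single l k 1) := (key g).1 hgP
  have hgπ' : ∀ X, π (g * X) = g * π X := by
    intro X
    rw [Matrix.matrix_eq_sum_single X]
    simp only [Finset.mul_sum, map_sum]
    refine Finset.sum_congr rfl fun i _ => Finset.sum_congr rfl fun j _ => ?_
    have h1 : Matrix.single i j (X i j) = X i j • Matrix.single i j (1 : ℂ) := by
      rw [Matrix.smul_single, smul_eq_mul, mul_one]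
    rw [h1, mul_smul_comm, map_smul, map_smul, hgπ, mul_smul_comm]
  have h1W : (1 : Matrix κ κ ℂ) ∈ W := Submodule.subset_span A.one_mem
  have h2 := hgπ' 1
  rw [mul_one, hπ2 1 h1W, mul_one] at h2
  rw [← h2]
  exact hπ1 g

end core

theorem bicommutant {κ : Type} [Fintype κ] [DecidableEq κ] (A : Submonoid (Matrix κ κ ℂ))
    (H : Matrix κ κ ℂ) (hH : H.PosDef) (hstar : ∀ a ∈ A, ∃ a' ∈ A, H * a' = aᴴ * H)
    (g : Matrix κ κ ℂ)
    (hg : ∀ X : Matrix κ κ ℂ, (∀ a ∈ A, a * X = X * a) → g * X = X * g) :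
    g ∈ Submodule.span ℂ (A : Set (Matrix κ κ ℂ)) := by
  obtain ⟨B, hB, hHB⟩ : ∃ B : Matrix κ κ ℂ, IsUnit B ∧ H = Bᴴ * B := by
    obtain ⟨B, hB, h⟩ := CStarAlgebra.isStrictlyPositive_iff_eq_star_mul_self.mp
      (Matrix.PosDef.isStrictlyPositive hH)
    exact ⟨B, hB, h⟩
  obtain ⟨u, rfl⟩ := hB
  set C : Matrix κ κ ℂ := ↑u⁻¹ with hC
  set B : Matrix κ κ ℂ := ↑u with hBdef
  have hCB : C * B = 1 := u.inv_mul
  have hBC : B * C = 1 := u.mul_inv
  -- conjugation
  let φ : Matrix κ κ ℂ →* Matrix κ κ ℂ :=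
    { toFun := fun X => B * X * C
      map_one' := by rw [mul_one, hBC]
      map_mul' := fun X Y => by
        calc B * (X * Y) * C = B * X * (1 : Matrix κ κ ℂ) * Y * C := by
              simp only [mul_one, mul_assoc]
          _ = B * X * C * (B * Y * C) := by rw [← hCB]; simp only [mul_assoc] }
  have hφ : ∀ X, C * φ X * B = X := by
    intro X
    show C * (B * X * C) * B = X
    calc C * (B * X * C) * B = (C * B) * X * (C * B) := by simp only [mul_assoc]
      _ = X := by rw [hCB, one_mul, mul_one]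
  have hCB' : Bᴴ * Cᴴ = 1 := by
    rw [← Matrix.conjTranspose_mul, hCB, Matrix.conjTranspose_one]
  have hBC' : Cᴴ * Bᴴ = 1 := by
    rw [← Matrix.conjTranspose_mul, hBC, Matrix.conjTranspose_one]
  have h1 := bicommutant_one (A.map φ) (by
    rintro _ ⟨a, ha, rfl⟩
    obtain ⟨a', ha', h⟩ := hstar a ha
    refine ⟨a', ha', ?_⟩
    show B * a' * C = (B * a * C)ᴴ
    rw [hHB] at h
    rw [Matrix.conjTranspose_mul, Matrix.conjTranspose_mul]
    calc B * a' * C = (Cᴴ * Bᴴ) * (B * a' * C) := by rw [hBC', one_mul]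
      _ = Cᴴ * (Bᴴ * B * a') * C := by simp only [mul_assoc]
      _ = Cᴴ * (aᴴ * (Bᴴ * B)) * C := by rw [h]
      _ = Cᴴ * (aᴴ * Bᴴ) * (B * C) := by simp only [mul_assoc]
      _ = Cᴴ * (aᴴ * Bᴴ) := by rw [hBC, mul_one]) (φ g) (by
    intro X hX
    have h2 := hg (C * X * B) (by
      intro a ha
      have h3 := hX (φ a) ⟨a, ha, rfl⟩
      have h4 : (B * a * C) * X = X * (B * a * C) := h3
      calc a * (C * X * B) = (C * B) * a * (C * X * B) := by rw [hCB, one_mul]
        _ = C * ((B * a * C) * X) * B := by simp only [mul_assoc]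
        _ = C * (X * (B * a * C)) * B := by rw [h4]
        _ = (C * X * B) * a * (C * B) := by simp only [mul_assoc]
        _ = (C * X * B) * a := by rw [hCB, mul_one])
    show (B * g * C) * X = X * (B * g * C)
    calc (B * g * C) * X = (B * g * C) * X * (B * C) := by rw [hBC, mul_one]
      _ = B * (g * (C * X * B)) * C := by simp only [mul_assoc]
      _ = B * ((C * X * B) * g) * C := by rw [h2]
      _ = (B * C) * X * (B * g * C) := by simp only [mul_assoc]
      _ = X * (B * g * C) := by rw [hBC, one_mul])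
  -- transport back
  let ψ : Matrix κ κ ℂ →ₗ[ℂ] Matrix κ κ ℂ :=
    { toFun := fun X => C * X * B
      map_add' := fun X Y => by rw [mul_add, add_mul]
      map_smul' := fun c X => by simp }
  have h2 : ψ (φ g) ∈ (Submodule.span ℂ ((A.map φ : Submonoid _) : Set (Matrix κ κ ℂ))).map ψ :=
    Submodule.mem_map_of_mem h1
  rw [Submodule.map_span] at h2
  have h3 : ψ (φ g) = g := hφ g
  rw [h3] at h2
  refine Submodule.span_mono ?_ h2
  rintro _ ⟨_, ⟨a, ha, rfl⟩, rfl⟩
  have : ψ (φ a) = a := hφ a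
  rw [this]
  exact ha

end Pool.Agent.Work.MP_0da4e0_ag
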