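import Mathlib

/-! MP_0da4e0_ag, module Count: linear dependence by counting monomials. -/

open MvPolynomial

namespace Pool.Agent.Work.MP_0da4e0_ag

theorem count_ineq (d h m N : ℕ) (hm : d + 1 ≤ m) (hN : N = (2 * h * m + 1) ^ d) :
    (2 * (h * (m * N)) + 1) ^ d < (N + 1) ^ m := by
  have hN1 : 1 ≤ N := by rw [hN]; exact Nat.one_le_pow _ _ (by omega)
  calc (2 * (h * (m * N)) + 1) ^ d ≤ ((2 * h * m + 1) * N) ^ d := by
        apply Nat.pow_le_pow_left
        nlinarith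
    _ = N * N ^ d := by rw [mul_pow, ← hN]
    _ = N ^ (d + 1) := by ring
    _ < (N + 1) ^ (d + 1) := Nat.pow_lt_pow_left (by omega) (by omega)
    _ ≤ (N + 1) ^ m := Nat.pow_le_pow_right (by omega) hm

theorem pow_mem_L {K : Type} [Field K] [Algebra ℂ K] (h : ℕ) (L : ℕ → Submodule ℂ K)
    (hL1 : (1 : K) ∈ L 0) (hLmul : ∀ a b x y, x ∈ L a → y ∈ L b → x * y ∈ L (a + b))
    {y : K} (hy : y ∈ L h) (n : ℕ) : y ^ n ∈ L (h * n) := by
  induction n with
  | zero => simpa using hL1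
  | succ n ih =>
    rw [pow_succ, Nat.mul_succ]
    exact hLmul _ _ _ _ ih hy

theorem prod_mem_L {K : Type} [Field K] [Algebra ℂ K] (h : ℕ) (L : ℕ → Submodule ℂ K)
    (hL1 : (1 : K) ∈ L 0) (hLmul : ∀ a b x y, x ∈ L a → y ∈ L b → x * y ∈ L (a + b))
    {ι : Type} (s : Finset ι) (y : ι → K) (hy : ∀ i, y i ∈ L h) (α : ι → ℕ) :
    ∏ i ∈ s, y i ^ α i ∈ L (h * ∑ i ∈ s, α i) := by
  classical
  induction s using Finset.induction_on with
  | empty => simpa using hL1
  | insert a s ha ih =>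
    rw [Finset.prod_insert ha, Finset.sum_insert ha, Nat.mul_add]
    exact hLmul _ _ _ _ (pow_mem_L h L hL1 hLmul (hy a) _) ih

/-- common core -/
theorem count_core {K : Type} [Field K] [Algebra ℂ K] (d h : ℕ) (L : ℕ → Submodule ℂ K)
    (hL1 : (1 : K) ∈ L 0) (hLmul : ∀ a b x y, x ∈ L a → y ∈ L b → x * y ∈ L (a + b))
    (hLmono : Monotone L) (hLfin : ∀ a, Module.Finite ℂ (L a))
    (hLrank : ∀ a, Module.finrank ℂ (L a) ≤ (2 * a + 1) ^ d)
    {m : ℕ} (hm : d + 1 ≤ m) {ι : Type} [Fintype ι] (y : ι → K) (hy : ∀ i, y i ∈ L h)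
    (N : ℕ) (hN : N = (2 * h * m + 1) ^ d)
    (ex : (Fin m → Fin (N + 1)) → (ι →₀ ℕ)) (hex : Function.Injective ex)
    (hdeg : ∀ α, (∑ i, ex α i) ≤ m * N) :
    ∃ R : MvPolynomial ι ℂ, R ≠ 0 ∧ (∀ e ∈ R.support, e ∈ Set.range ex) ∧ aeval y R = 0 := by
  classical
  have hmem : ∀ α, (∏ i, y i ^ ex α i) ∈ L (h * (m * N)) := fun α =>
    hLmono (Nat.mul_le_mul_left h (hdeg α)) (prod_mem_L h L hL1 hLmul Finset.univ y hy (ex α))
  let v : (Fin m → Fin (N + 1)) → L (h * (m * N)) := fun α => ⟨_, hmem α⟩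
  have := hLfin (h * (m * N))
  have hdep : ¬ LinearIndependent ℂ v := by
    intro hli
    have h1 := hli.fintype_card_le_finrank
    rw [Fintype.card_pi] at h1
    simp only [Fintype.card_fin, Finset.prod_const, Finset.card_univ] at h1
    have h2 := hLrank (h * (m * N))
    have h3 := count_ineq d h m N hm hN
    omega
  rw [Fintype.linearIndependent_iff] at hdep
  push Not at hdep
  obtain ⟨c, hc, α0, hα0⟩ := hdep
  refine ⟨∑ α, monomial (ex α) (c α), ?_, ?_, ?_⟩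
  · intro h0
    have h1 := congrArg (coeff (ex α0)) h0
    rw [coeff_sum, Finset.sum_eq_single α0] at h1
    · simp at h1
      exact hα0 h1
    · intro β _ hβ
      rw [coeff_monomial, if_neg (fun hh => hβ (hex hh))]
    · simp
  · intro e he
    by_contra hcon
    rw [mem_support_iff, coeff_sum] at he
    apply he
    apply Finset.sum_eq_zero
    intro β _
    rw [coeff_monomial, if_neg]
    rintro rfl
    exact hcon ⟨β, rfl⟩
  · rw [map_sum]
    have h1 := congrArg (Submodule.subtype _) hc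
    rw [map_sum] at h1
    simp only [map_smul, map_zero] at h1
    rw [← h1]
    refine Finset.sum_congr rfl fun α _ => ?_
    rw [aeval_monomial]
    simp only [v, Submodule.subtype_apply]
    rw [Algebra.smul_def, Finsupp.prod_fintype]
    intro i
    exact pow_zero _

theorem count_rel {K : Type} [Field K] [Algebra ℂ K] (d h : ℕ) (L : ℕ → Submodule ℂ K)
    (hL1 : (1 : K) ∈ L 0) (hLmul : ∀ a b x y, x ∈ L a → y ∈ L b → x * y ∈ L (a + b))
    (hLmono : Monotone L) (hLfin : ∀ a, Module.Finite ℂ (L a))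
    (hLrank : ∀ a, Module.finrank ℂ (L a) ≤ (2 * a + 1) ^ d)
    {m : ℕ} (hm : d + 1 ≤ m) (y : Fin m → K) (hy : ∀ i, y i ∈ L h) :
    ∃ R : MvPolynomial (Fin m) ℂ, R ≠ 0 ∧ R.totalDegree ≤ m * (2 * h * m + 1) ^ d ∧
      aeval y R = 0 := by
  set N := (2 * h * m + 1) ^ d with hN
  have hsum : ∀ α : Fin m → Fin (N + 1), ∑ i, (α i : ℕ) ≤ m * N := by
    intro α
    calc ∑ i, (α i : ℕ) ≤ ∑ _i : Fin m, N := Finset.sum_le_sum fun i _ => Nat.lt_succ_iff.1 (α i).2
      _ = m * N := by simp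
  obtain ⟨R, hR, hsupp, hy0⟩ := count_core d h L hL1 hLmul hLmono hLfin hLrank hm y hy N hN
    (fun α => Finsupp.equivFunOnFinite.symm (fun i => (α i : ℕ)))
    (by
      intro α β hαβ
      have := Finsupp.equivFunOnFinite.symm.injective hαβ
      funext i
      exact Fin.ext (congrFun this i))
    (by
      intro α
      simpa using hsum α)
  refine ⟨R, hR, ?_, hy0⟩
  refine Finset.sup_le fun e he => ?_
  obtain ⟨α, rfl⟩ := hsupp e he
  rw [Finsupp.sum_fintype]
  · simpa using hsum α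
  · simp

theorem count_homog {K : Type} [Field K] [Algebra ℂ K] (d h : ℕ) (L : ℕ → Submodule ℂ K)
    (hL1 : (1 : K) ∈ L 0) (hLmul : ∀ a b x y, x ∈ L a → y ∈ L b → x * y ∈ L (a + b))
    (hLmono : Monotone L) (hLfin : ∀ a, Module.Finite ℂ (L a))
    (hLrank : ∀ a, Module.finrank ℂ (L a) ≤ (2 * a + 1) ^ d)
    {m : ℕ} (hm : d + 1 ≤ m) (y : Fin (m + 1) → K) (hy : ∀ i, y i ∈ L h) :
    ∃ (e : ℕ) (Q : MvPolynomial (Fin (m + 1)) ℂ), 0 < e ∧ Q ≠ 0 ∧ Q.IsHomogeneous e ∧
      aeval y Q = 0 := by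
  set N := (2 * h * m + 1) ^ d with hN
  have hN1 : 1 ≤ N := by rw [hN]; exact Nat.one_le_pow _ _ (by omega)
  have hsum : ∀ α : Fin m → Fin (N + 1), ∑ i, (α i : ℕ) ≤ m * N := by
    intro α
    calc ∑ i, (α i : ℕ) ≤ ∑ _i : Fin m, N := Finset.sum_le_sum fun i _ => Nat.lt_succ_iff.1 (α i).2
      _ = m * N := by simp
  have hdeg : ∀ α : Fin m → Fin (N + 1), ∑ i, (Finsupp.equivFunOnFinite.symm
      (Fin.snoc (α := fun _ => ℕ) (fun i => (α i : ℕ)) (m * N - ∑ i, (α i : ℕ)))) i = m * N := by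
    intro α
    have := hsum α
    simp only [Finsupp.equivFunOnFinite_symm_apply_apply]
    rw [Fin.sum_univ_castSucc]
    simp only [Fin.snoc_castSucc, Fin.snoc_last]
    omega
  obtain ⟨Q, hQ, hsupp, hy0⟩ := count_core d h L hL1 hLmul hLmono hLfin hLrank hm y hy N hN
    (fun α => Finsupp.equivFunOnFinite.symm
      (Fin.snoc (α := fun _ => ℕ) (fun i => (α i : ℕ)) (m * N - ∑ i, (α i : ℕ))))
    (by
      intro α β hαβ
      have := Finsupp.equivFunOnFinite.symm.injective hαβ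
      funext i
      have h1 := congrFun this i.castSucc
      simp only [Fin.snoc_castSucc] at h1
      exact Fin.ext h1)
    (fun α => (hdeg α).le)
  refine ⟨m * N, Q, Nat.mul_pos (by omega) hN1, hQ, ?_, hy0⟩
  intro e he
  obtain ⟨α, rfl⟩ := hsupp e (mem_support_iff.2 he)
  rw [Finsupp.weight_apply, Finsupp.sum_fintype]
  · simpa using hdeg α
  · simp

end Pool.Agent.Work.MP_0da4e0_ag
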