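import Mathlib

open MvPolynomial

namespace Pool.Agent.Work.MP_0da4e0_ag

/-- Evaluation through `finSuccEquiv`. -/
lemma gauss_eval {K : Type} [Field K] [Algebra ℂ K] {d : ℕ} (y : Fin (d + 1) → K)
    (G : MvPolynomial (Fin (d + 1)) ℂ) :
    Polynomial.eval₂ ((MvPolynomial.aeval (fun i : Fin d => y i.succ) :
      MvPolynomial (Fin d) ℂ →ₐ[ℂ] K) : MvPolynomial (Fin d) ℂ →+* K) (y 0)
        (finSuccEquiv ℂ d G) = MvPolynomial.aeval y G := by
  have hX : ∀ i : Fin (d + 1), Polynomial.eval₂ ((MvPolynomial.aeval (fun i : Fin d => y i.succ) :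
      MvPolynomial (Fin d) ℂ →ₐ[ℂ] K) : MvPolynomial (Fin d) ℂ →+* K) (y 0)
        (finSuccEquiv ℂ d (X i)) = y i := by
    intro i
    rcases Fin.eq_zero_or_eq_succ i with h | ⟨j, h⟩
    · rw [h, finSuccEquiv_X_zero, Polynomial.eval₂_X]
    · rw [h, finSuccEquiv_X_succ, Polynomial.eval₂_C, RingHom.coe_coe, aeval_X]
  induction G using MvPolynomial.induction_on with
  | C a =>
    rw [finSuccEquiv_apply]
    simp
  | add p q hp hq => rw [map_add, Polynomial.eval₂_add, hp, hq, map_add]
  | mul_X p i hp =>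
    rw [map_mul, Polynomial.eval₂_mul, hp, map_mul, hX, aeval_X]

/-- Gauss's lemma step. -/
lemma gauss_poly {B L K : Type} [CommRing B] [IsDomain B] [UniqueFactorizationMonoid B]
    [Field L] [Algebra B L] [IsFractionRing B L] [Field K] (ev : B →+* K)
    (hinj : Function.Injective ev) (t : K) (p f : Polynomial B) (hp : Irreducible p)
    (hp0 : p.eval₂ ev t = 0) (hf0 : f.eval₂ ev t = 0) : p ∣ f := by
  have hdeg : p.natDegree ≠ 0 := by
    intro h
    rw [Polynomial.eq_C_of_natDegree_eq_zero h, Polynomial.eval₂_C] at hp0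
    have h1 : p.coeff 0 = 0 := hinj (by rw [hp0, map_zero])
    rw [Polynomial.eq_C_of_natDegree_eq_zero h, h1, Polynomial.C_0] at hp
    exact not_irreducible_zero hp
  have hprim : p.IsPrimitive := hp.isPrimitive hdeg
  have hirr' : Irreducible (p.map (algebraMap B L)) :=
    hprim.irreducible_iff_irreducible_map_fraction_map.1 hp
  set ev' : L →+* K := IsFractionRing.lift hinj with hev'
  have hcomp : ev'.comp (algebraMap B L) = ev := by
    refine RingHom.ext fun x => ?_
    rw [RingHom.comp_apply, hev', IsFractionRing.lift_algebraMap]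
  have hdvd : p.map (algebraMap B L) ∣ f.map (algebraMap B L) := by
    by_contra h
    obtain ⟨a, b, hab⟩ := (hirr'.coprime_iff_not_dvd).2 h
    have h1 := congrArg (Polynomial.eval₂ ev' t) hab
    rw [Polynomial.eval₂_add, Polynomial.eval₂_mul, Polynomial.eval₂_mul, Polynomial.eval₂_map,
      Polynomial.eval₂_map, hcomp, hp0, hf0] at h1
    simp at h1
  exact hprim.dvd_of_fraction_map_dvd_fraction_map hdvd

/-- Two relations, one of them irreducible, between `y 0` and an algebraically independent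
family. -/
lemma gauss_dvd {K : Type} [Field K] [Algebra ℂ K] {d : ℕ} (y : Fin (d + 1) → K)
    (hy : AlgebraicIndependent ℂ (fun i : Fin d => y i.succ))
    (P F : MvPolynomial (Fin (d + 1)) ℂ) (hP : Irreducible P) (hPy : aeval y P = 0)
    (hF : aeval y F = 0) : P ∣ F := by
  have h2 : finSuccEquiv ℂ d P ∣ finSuccEquiv ℂ d F := by
    refine gauss_poly (L := FractionRing (MvPolynomial (Fin d) ℂ))
      ((MvPolynomial.aeval (fun i : Fin d => y i.succ) :
      MvPolynomial (Fin d) ℂ →ₐ[ℂ] K) : MvPolynomial (Fin d) ℂ →+* K) hy (y 0) _ _ ?_ ?_ ?_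
    · exact (MulEquiv.irreducible_iff (finSuccEquiv ℂ d)).2 hP
    · rw [gauss_eval, hPy]
    · rw [gauss_eval, hF]
  exact (map_dvd_iff (finSuccEquiv ℂ d)).1 h2

lemma gauss_exists {K : Type} [Field K] [Algebra ℂ K] {d : ℕ} (y : Fin (d + 1) → K)
    (halg : Algebra.IsAlgebraic (Algebra.adjoin ℂ (Set.range y)) K)
    (htr : (d : Cardinal) ≤ Algebra.trdeg ℂ K)
    (R : MvPolynomial (Fin (d + 1)) ℂ) (hR : R ≠ 0) (hRy : aeval y R = 0) :
    ∃ i₀ : Fin (d + 1), AlgebraicIndependent ℂ (fun i : Fin d => y (i₀.succAbove i)) := by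
  classical
  obtain ⟨t, hts, ht⟩ := exists_isTranscendenceBasis_subset (R := ℂ) (Set.range y)
  choose s hs using fun x : t => hts x.2
  have hsinj : Function.Injective s := by
    intro x x' h
    apply Subtype.ext
    rw [← hs x, ← hs x', h]
  have hcard : (d : Cardinal) ≤ Cardinal.mk t := by
    rw [ht.cardinalMk_eq_trdeg]; exact htr
  have hfin : Finite t := Finite.of_injective s hsinj
  have hnc : d ≤ Nat.card t := by
    have := Fintype.ofFinite t
    rw [Nat.card_eq_fintype_card]
    rw [Cardinal.mk_fintype] at hcard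
    exact_mod_cast hcard
  have hnsurj : ∃ i₀, i₀ ∉ Set.range s := by
    by_contra h
    push Not at h
    apply hR
    have hsurj : Function.Surjective s := h
    obtain ⟨r, hr⟩ := hsurj.hasRightInverse
    have hrinj : Function.Injective r := hr.injective
    have h1 : AlgebraicIndependent ℂ (((↑) : t → K) ∘ r) := ht.1.comp r hrinj
    have h2 : ((↑) : t → K) ∘ r = y := by
      funext i
      show ((r i : t) : K) = y i
      rw [← hs (r i), hr i]
    rw [h2] at h1
    exact h1.eq_zero_of_aeval_eq_zero R hRy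
  obtain ⟨i₀, hi₀⟩ := hnsurj
  have hsub : Set.range s ⊆ {i₀}ᶜ := by
    rintro _ ⟨x, rfl⟩
    rw [Set.mem_compl_singleton_iff]
    intro h
    exact hi₀ ⟨x, h⟩
  have heq : Set.range s = {i₀}ᶜ := by
    refine Set.eq_of_subset_of_ncard_le hsub ?_ (Set.toFinite _)
    rw [Set.ncard_compl, Set.ncard_singleton, Nat.card_eq_fintype_card, Fintype.card_fin]
    have : (Set.range s).ncard = Nat.card t := by
      rw [← Set.image_univ, Set.ncard_image_of_injective _ hsinj, Set.ncard_univ]
    rw [this]
    omega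
  refine ⟨i₀, ?_⟩
  have h3 : ∀ k : Fin d, ∃ x : t, s x = i₀.succAbove k := by
    intro k
    have : i₀.succAbove k ∈ Set.range s := by
      rw [heq, Set.mem_compl_singleton_iff]
      exact Fin.succAbove_ne _ _
    exact this
  choose x hx using h3
  have hxinj : Function.Injective x := by
    intro k l h
    have := hx k
    rw [h, hx l] at this
    exact (Fin.succAbove_right_injective this).symm
  have h4 : AlgebraicIndependent ℂ (((↑) : t → K) ∘ x) := ht.1.comp x hxinj
  have h5 : ((↑) : t → K) ∘ x = fun i : Fin d => y (i₀.succAbove i) := by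
    funext i
    show ((x i : t) : K) = _
    rw [← hs (x i), hx i]
  rw [h5] at h4
  exact h4

theorem gauss_step {K : Type} [Field K] [Algebra ℂ K] {d : ℕ} (y : Fin (d + 1) → K)
    (halg : Algebra.IsAlgebraic (Algebra.adjoin ℂ (Set.range y)) K)
    (htr : (d : Cardinal) ≤ Algebra.trdeg ℂ K)
    (R F : MvPolynomial (Fin (d + 1)) ℂ) (hR : R ≠ 0) (hRy : aeval y R = 0)
    (hF : aeval y F = 0) (hF0 : constantCoeff F ≠ 0) :
    ∃ P : MvPolynomial (Fin (d + 1)) ℂ, P.totalDegree ≤ R.totalDegree ∧ aeval y P = 0 ∧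
      constantCoeff P ≠ 0 := by
  classical
  obtain ⟨i₀, hi₀⟩ := gauss_exists y halg htr R hR hRy
  -- an irreducible factor of `R` vanishing at `y`
  obtain ⟨P, hPirr, hPR, hPy⟩ : ∃ P, Irreducible P ∧ P ∣ R ∧ aeval y P = 0 := by
    have h1 := UniqueFactorizationMonoid.factors_prod hR
    have h2 : aeval y (UniqueFactorizationMonoid.factors R).prod = 0 := by
      obtain ⟨u, hu⟩ := h1
      rw [← hu, map_mul] at hRy
      rcases mul_eq_zero.1 hRy with h | h
      · exact h
      · exact absurd h ((u.isUnit.map (aeval y)).ne_zero)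
    rw [map_multiset_prod, Multiset.prod_eq_zero_iff, Multiset.mem_map] at h2
    obtain ⟨P, hP, hPy⟩ := h2
    exact ⟨P, UniqueFactorizationMonoid.irreducible_of_factor P hP,
      UniqueFactorizationMonoid.dvd_of_mem_factors hP, hPy⟩
  -- the permutation
  let w : Fin (d + 1) → Fin (d + 1) := Fin.cases i₀ i₀.succAbove
  have hw : Function.Bijective w := by
    rw [← Finite.injective_iff_bijective]
    intro a b
    refine Fin.cases ?_ (fun a' => ?_) a
    · refine Fin.cases ?_ (fun b' => ?_) b
      · intro _; rfl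
      · intro h
        exact absurd h.symm (Fin.succAbove_ne i₀ b')
    · refine Fin.cases ?_ (fun b' => ?_) b
      · intro h
        exact absurd h (Fin.succAbove_ne i₀ a')
      · intro h
        have : a' = b' := Fin.succAbove_right_injective (p := i₀) h
        rw [this]
  let σ : Fin (d + 1) ≃ Fin (d + 1) := Equiv.ofBijective w hw
  have hσ : ∀ G : MvPolynomial (Fin (d + 1)) ℂ,
      aeval (y ∘ σ) (renameEquiv ℂ σ.symm G) = aeval y G := by
    intro G
    rw [renameEquiv_apply, aeval_rename]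
    congr 1
    congr 1
    funext i
    simp
  have hdvd : renameEquiv ℂ σ.symm P ∣ renameEquiv ℂ σ.symm F := by
    refine gauss_dvd (y ∘ σ) ?_ _ _ ?_ ?_ ?_
    · exact hi₀
    · exact (MulEquiv.irreducible_iff (renameEquiv ℂ σ.symm)).2 hPirr
    · rw [hσ, hPy]
    · rw [hσ, hF]
  have hPF : P ∣ F := (map_dvd_iff (renameEquiv ℂ σ.symm)).1 hdvd
  refine ⟨P, ?_, hPy, ?_⟩
  · exact MvPolynomial.totalDegree_le_of_dvd_of_isDomain hPR hR
  · obtain ⟨G, hG⟩ := hPF
    intro h
    apply hF0
    rw [hG, map_mul, h, zero_mul]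

end Pool.Agent.Work.MP_0da4e0_ag
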