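import Pool.Agent.Work.MP_0da4e0_ag.EffElim
import Pool.Agent.Work.MP_0da4e0_ag.EffGauss
import Pool.Agent.Work.MP_0da4e0_ag.EffCount

open MvPolynomial

namespace Pool.Agent.Work.MP_0da4e0_ag

theorem totalDegree_aeval_le {σ τ : Type} (P : MvPolynomial σ ℂ) (l : σ → MvPolynomial τ ℂ)
    (hl : ∀ i, (l i).totalDegree ≤ 1) : (aeval l P).totalDegree ≤ P.totalDegree := by
  rw [aeval_def, eval₂_eq]
  apply totalDegree_finsetSum_le
  intro m hm
  refine (totalDegree_mul _ _).trans ?_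
  have h1 : (algebraMap ℂ (MvPolynomial τ ℂ) (coeff m P)).totalDegree = 0 := totalDegree_C _
  rw [h1, zero_add]
  refine (totalDegree_finsetProd _ _).trans ?_
  refine le_trans ?_ (le_totalDegree hm)
  rw [Finsupp.sum]
  apply Finset.sum_le_sum
  intro i _
  refine (totalDegree_pow _ _).trans ?_
  calc m i * (l i).totalDegree ≤ m i * 1 := Nat.mul_le_mul_left _ (hl i)
    _ = m i := mul_one _

theorem ca_bound {K : Type} [Field K] [Algebra ℂ K] {κ : Type} [Fintype κ] (u : κ → K) (d h : ℕ)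
    (L : ℕ → Submodule ℂ K)
    (hL1 : (1 : K) ∈ L 0) (hLmul : ∀ a b x y, x ∈ L a → y ∈ L b → x * y ∈ L (a + b))
    (hLmono : Monotone L) (hLfin : ∀ a, Module.Finite ℂ (L a))
    (hLrank : ∀ a, Module.finrank ℂ (L a) ≤ (2 * a + 1) ^ d)
    (hu : ∀ e, u e ∈ L h) (halg : Algebra.IsAlgebraic (Algebra.adjoin ℂ (Set.range u)) K)
    (htr : (d : Cardinal) ≤ Algebra.trdeg ℂ K)
    (F : MvPolynomial κ ℂ) (hF : aeval u F = 0) (hF0 : constantCoeff F ≠ 0) :
    ∃ f : MvPolynomial κ ℂ, f.totalDegree ≤ (d + 1) * (2 * h * (d + 1) + 1) ^ d ∧ aeval u f = 0 ∧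
      constantCoeff f ≠ 0 := by
  classical
  -- reindex
  obtain ⟨D, ⟨ε⟩⟩ : ∃ D, Nonempty (Fin D ≃ κ) := ⟨Fintype.card κ, ⟨(Fintype.equivFin κ).symm⟩⟩
  have hDcard : Fintype.card κ = D := by rw [← Fintype.card_congr ε, Fintype.card_fin]
  have hD : d + 1 ≤ D := by
    have h1 : Algebra.trdeg ℂ K ≤ Cardinal.mk (Set.range u) := Algebra.IsAlgebraic.trdeg_le_cardinalMk ℂ (Set.range u)
    have h2 : (d : Cardinal) ≤ Cardinal.mk κ := htr.trans (h1.trans Cardinal.mk_range_le)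
    have h3 : d ≤ D := by
      rw [Cardinal.mk_fintype, hDcard] at h2
      exact_mod_cast h2
    by_contra hlt
    have h4 : D = d := by omega
    have h5 : IsTranscendenceBasis ℂ u := by
      apply Algebra.IsAlgebraic.isTranscendenceBasis_of_le_trdeg_of_finite ℂ u
      rw [Cardinal.mk_fintype, hDcard, h4]
      exact htr
    have h6 := h5.1
    rw [algebraicIndependent_iff] at h6
    rw [h6 F hF, map_zero] at hF0
    exact hF0 rfl
  set U : Submodule ℂ K := Submodule.span ℂ (Set.range u) with hU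
  have hUL : U ≤ L h := by
    rw [hU, Submodule.span_le]
    rintro _ ⟨e, rfl⟩
    exact hu e
  have key : ∀ (m : ℕ) (y : Fin (d + 1 + m) → K), (∀ i, y i ∈ U) →
      (∃ F' : MvPolynomial (Fin (d + 1 + m)) ℂ, aeval y F' = 0 ∧ constantCoeff F' ≠ 0) →
      Algebra.IsAlgebraic (Algebra.adjoin ℂ (Set.range y)) K →
      ∃ y' : Fin (d + 1) → K, (∀ i, y' i ∈ U) ∧
      (∃ F' : MvPolynomial (Fin (d + 1)) ℂ, aeval y' F' = 0 ∧ constantCoeff F' ≠ 0) ∧
      Algebra.IsAlgebraic (Algebra.adjoin ℂ (Set.range y')) K := by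
    intro m
    induction m with
    | zero => intro y h1 h2 h3; exact ⟨y, h1, h2, h3⟩
    | succ m ih =>
      intro y h1 ⟨F', h2, h2'⟩ h3
      obtain ⟨e, Q, he, hQ0, hQ, hQy⟩ := count_homog d h L hL1 hLmul hLmono hLfin hLrank
        (m := d + 1 + m) (by omega) y (fun i => hUL (h1 i))
      obtain ⟨y', h4, h5, h6⟩ := elim_step y e he Q hQ0 hQ hQy F' h2 h2' h3
      apply ih y' _ h5 h6
      intro i
      refine Submodule.span_le.2 ?_ (h4 i)
      rintro _ ⟨j, rfl⟩
      exact h1 j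
  obtain ⟨m, hm⟩ : ∃ m, D = d + 1 + m := ⟨D - (d + 1), by omega⟩
  subst hm
  have hrange : Set.range (fun i => u (ε i)) = Set.range u := by
    ext x
    constructor
    · rintro ⟨i, rfl⟩; exact ⟨_, rfl⟩
    · rintro ⟨e, rfl⟩; exact ⟨ε.symm e, by simp⟩
  obtain ⟨y, hy1, ⟨F', hF', hF'0⟩, hy3⟩ := key m (fun i => u (ε i))
    (fun i => Submodule.subset_span ⟨_, rfl⟩)
    ⟨rename ε.symm F, by
      rw [aeval_rename]
      have : (fun i => u (ε i)) ∘ ε.symm = u := by funext e; simp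
      rw [this, hF], by
      rw [constantCoeff_rename]; exact hF0⟩
    (by rw [hrange]; exact halg)
  obtain ⟨R, hR0, hRdeg, hRy⟩ := count_rel d h L hL1 hLmul hLmono hLfin hLrank
    (m := d + 1) le_rfl y (fun i => hUL (hy1 i))
  obtain ⟨P, hPdeg, hPy, hP0⟩ := gauss_step y hy3 htr R F' hR0 hRy hF' hF'0
  have hc : ∀ i, ∃ c : κ → ℂ, y i = ∑ e, c e • u e := by
    intro i
    obtain ⟨c, hc⟩ := (Submodule.mem_span_range_iff_exists_fun ℂ).1 (hy1 i)
    exact ⟨c, hc.symm⟩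
  choose c hc using hc
  set l : Fin (d + 1) → MvPolynomial κ ℂ := fun i => ∑ e, C (c i e) * X e with hl
  have hl1 : ∀ i, (l i).totalDegree ≤ 1 := by
    intro i
    apply totalDegree_finsetSum_le
    intro e _
    refine (totalDegree_mul _ _).trans ?_
    rw [totalDegree_C, totalDegree_X]
  refine ⟨aeval l P, ?_, ?_, ?_⟩
  · exact (totalDegree_aeval_le P l hl1).trans (hPdeg.trans hRdeg)
  · have h1 : (aeval u).comp (aeval l) = (aeval y : MvPolynomial (Fin (d + 1)) ℂ →ₐ[ℂ] K) := by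
      apply MvPolynomial.algHom_ext
      intro i
      rw [AlgHom.comp_apply, aeval_X, aeval_X, hl, hc i, map_sum]
      apply Finset.sum_congr rfl
      intro e _
      rw [map_mul, aeval_X, aeval_C, Algebra.smul_def]
    have h2 := congrArg (fun φ : MvPolynomial (Fin (d + 1)) ℂ →ₐ[ℂ] K => φ P) h1
    exact h2.trans hPy
  · have h1 : (constantCoeff : MvPolynomial κ ℂ →+* ℂ).comp (aeval l : MvPolynomial (Fin (d + 1)) ℂ →ₐ[ℂ] MvPolynomial κ ℂ).toRingHom = constantCoeff := by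
      apply MvPolynomial.ringHom_ext
      · intro r
        simp
      · intro i
        simp [hl]
    have h2 := congrArg (fun φ : MvPolynomial (Fin (d + 1)) ℂ →+* ℂ => φ P) h1
    intro h0
    apply hP0
    rw [← h2]
    exact h0

end Pool.Agent.Work.MP_0da4e0_ag
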