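import Pool.Agent.Work.MP_0da4e0_ag.EffWord
import Pool.Agent.Work.MP_0da4e0_ag.EffCA

open MvPolynomial

namespace Pool.Agent.Work.MP_0da4e0_ag

/-- the explicit bound -/
def effN (D h : ℕ) : ℕ := (D + 1) * (2 * h * (D + 1) + 1) ^ D

theorem effN_mono {d D h : ℕ} (hd : d ≤ D) : (d + 1) * (2 * h * (d + 1) + 1) ^ d ≤ effN D h := by
  rw [effN]
  apply Nat.mul_le_mul (by omega)
  calc (2 * h * (d + 1) + 1) ^ d ≤ (2 * h * (D + 1) + 1) ^ d := by
        apply Nat.pow_le_pow_left
        have := Nat.mul_le_mul_left (2 * h) (show d + 1 ≤ D + 1 by omega)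
        omega
    _ ≤ (2 * h * (D + 1) + 1) ^ D := Nat.pow_le_pow_right (by omega) hd

section
variable {d : ℕ} (B : Subalgebra ℂ (lring d))

/-- elements of B as functions -/
def linB : B →ₗ[ℂ] ((Fin d → ℂˣ) → ℂ) where
  toFun b := (b : lring d).1
  map_add' _ _ := rfl
  map_smul' _ _ := rfl

theorem linB_inj : Function.Injective (linB B) := by
  intro a b hab
  exact Subtype.ext (Subtype.ext hab)

/-- bounded exponents -/
def filtB (a : ℕ) : Submodule ℂ B := (lspan d a).comap (linB B)

theorem filtB_inj (a : ℕ) : ∃ ψ : filtB B a →ₗ[ℂ] lspan d a, Function.Injective ψ := by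
  refine ⟨(linB B).restrict (fun b hb => hb), ?_⟩
  intro b c hbc
  apply Subtype.ext
  apply linB_inj
  have := Subtype.ext_iff.1 hbc
  exact this

instance finite_filtB (a : ℕ) : Module.Finite ℂ (filtB B a) := by
  obtain ⟨ψ, hψ⟩ := filtB_inj B a
  exact Module.Finite.of_injective ψ hψ

theorem finrank_filtB (a : ℕ) : Module.finrank ℂ (filtB B a) ≤ (2 * a + 1) ^ d := by
  obtain ⟨ψ, hψ⟩ := filtB_inj B a
  exact (LinearMap.finrank_le_finrank_of_injective hψ).trans (finrank_lspan d a)

variable (K : Type) [Field K] [Algebra ℂ K] [Algebra B K] [IsScalarTower ℂ B K]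

/-- the filtration of K -/
noncomputable def filtK (a : ℕ) : Submodule ℂ K := (filtB B a).map (IsScalarTower.toAlgHom ℂ B K).toLinearMap

theorem mem_filtK {a : ℕ} {x : K} : x ∈ filtK B K a ↔ ∃ b : B, (b : lring d).1 ∈ lspan d a ∧ algebraMap B K b = x := by
  constructor
  · rintro ⟨b, hb, rfl⟩
    exact ⟨b, hb, rfl⟩
  · rintro ⟨b, hb, rfl⟩
    exact ⟨b, hb, rfl⟩

theorem filtK_one : (1 : K) ∈ filtK B K 0 := by
  rw [mem_filtK]
  exact ⟨1, one_mem_lspan d, map_one _⟩

theorem filtK_mul (a b : ℕ) (y z : K) (hy : y ∈ filtK B K a) (hz : z ∈ filtK B K b) :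
    y * z ∈ filtK B K (a + b) := by
  rw [mem_filtK] at *
  obtain ⟨y, hy, rfl⟩ := hy
  obtain ⟨z, hz, rfl⟩ := hz
  exact ⟨y * z, mul_mem_lspan hy hz, map_mul _ _ _⟩

theorem filtK_mono : Monotone (filtK B K) := by
  intro a b hab
  exact Submodule.map_mono (Submodule.comap_mono (lspan_mono d hab))

theorem filtK_finite (a : ℕ) : Module.Finite ℂ (filtK B K a) := Module.Finite.map _ _

theorem filtK_rank (a : ℕ) : Module.finrank ℂ (filtK B K a) ≤ (2 * a + 1) ^ d :=
  (Submodule.finrank_map_le _ _).trans (finrank_filtB B a)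

end

/-- the bound, abstractly -/
theorem bound_aux {d h : ℕ} {κ : Type} [Fintype κ] (u0 : κ → lring d)
    (hu0 : ∀ e, (u0 e).1 ∈ lspan d h) (s : Fin d → κ) (hs : AlgebraicIndependent ℂ (fun i => u0 (s i)))
    (F : MvPolynomial κ ℂ) (hF : aeval u0 F = 0) (hF0 : constantCoeff F ≠ 0)
    (B : Subalgebra ℂ (lring d)) (hB : B = Algebra.adjoin ℂ (Set.range u0))
    (K : Type) [Field K] [Algebra ℂ K] [Algebra B K] [IsScalarTower ℂ B K] [IsFractionRing B K] :
    ∃ f : MvPolynomial κ ℂ, f.totalDegree ≤ (d + 1) * (2 * h * (d + 1) + 1) ^ d ∧ aeval u0 f = 0 ∧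
      constantCoeff f ≠ 0 := by
  set u1 : κ → B := fun e => ⟨u0 e, by rw [hB]; exact Algebra.subset_adjoin ⟨e, rfl⟩⟩ with hu1
  set u : κ → K := fun e => algebraMap B K (u1 e) with hu
  have hinjK : Function.Injective (algebraMap B K) := IsFractionRing.injective B K
  have h1 : ∀ P : MvPolynomial κ ℂ, aeval u P = algebraMap B K (aeval u1 P) := by
    intro P
    exact (MvPolynomial.aeval_algebraMap_apply K u1 P)
  have h2 : ∀ P : MvPolynomial κ ℂ, aeval u0 P = (aeval u1 P : B) := by
    intro P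
    exact (MvPolynomial.aeval_algebraMap_apply (lring d) u1 P)
  have haev : ∀ P : MvPolynomial κ ℂ, aeval u P = 0 ↔ aeval u0 P = 0 := by
    intro P
    rw [h1, h2, map_eq_zero_iff _ hinjK]
    constructor
    · intro h3; rw [h3]; rfl
    · intro h3; exact Subtype.ext h3
  have hind : AlgebraicIndependent ℂ (fun i => u (s i)) := by
    rw [algebraicIndependent_iff]
    intro P hP
    have h3 : aeval (fun i => u (s i)) P = aeval u (rename s P) := by
      rw [aeval_rename]; rfl
    rw [h3, haev, aeval_rename] at hP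
    rw [algebraicIndependent_iff] at hs
    exact hs P hP
  have htr : (d : Cardinal) ≤ Algebra.trdeg ℂ K := by
    have := hind.cardinalMk_le_trdeg
    simpa using this
  have halg : Algebra.IsAlgebraic (Algebra.adjoin ℂ (Set.range u)) K := by
    refine ⟨fun x => ?_⟩
    obtain ⟨a, b, hb, rfl⟩ := IsFractionRing.div_surjective (A := B) x
    have hmem : ∀ b : B, algebraMap B K b ∈ Algebra.adjoin ℂ (Set.range u) := by
      intro b
      have h3 : (b : lring d) ∈ (aeval u0 : MvPolynomial κ ℂ →ₐ[ℂ] lring d).range := by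
        rw [← Algebra.adjoin_range_eq_range_aeval, ← hB]
        exact b.2
      obtain ⟨P, hP⟩ := h3
      have h4 : aeval u1 P = b := by
        apply Subtype.ext
        rw [← h2]
        exact hP
      rw [← h4, ← h1, Algebra.adjoin_range_eq_range_aeval]
      exact ⟨P, rfl⟩
    have h5 : ∀ b : B, IsAlgebraic (Algebra.adjoin ℂ (Set.range u)) (algebraMap B K b) := fun b =>
      isAlgebraic_algebraMap (⟨algebraMap B K b, hmem b⟩ : Algebra.adjoin ℂ (Set.range u))
    rw [div_eq_mul_inv]
    exact (h5 a).mul (h5 b).inv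
  obtain ⟨f, hf1, hf2, hf3⟩ := ca_bound u d h (filtK B K) (filtK_one B K) (filtK_mul B K)
    (filtK_mono B K) (filtK_finite B K) (filtK_rank B K)
    (fun e => (mem_filtK B K).2 ⟨u1 e, hu0 e, rfl⟩) halg htr F ((haev F).2 hF) hF0
  exact ⟨f, hf1, (haev f).1 hf2, hf3⟩

variable {ι : Type} [Fintype ι] [DecidableEq ι] {J : Type}

/-- translation of polynomials by a point -/
noncomputable def shift {κ : Type} (x : κ → ℂ) : MvPolynomial κ ℂ →ₐ[ℂ] MvPolynomial κ ℂ :=
  aeval (fun e => X e + C (x e))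

theorem shift_neg {κ : Type} (x : κ → ℂ) (P : MvPolynomial κ ℂ) : shift x (shift (-x) P) = P := by
  have h1 : (shift x).comp (shift (-x)) = AlgHom.id ℂ (MvPolynomial κ ℂ) := by
    apply MvPolynomial.algHom_ext
    intro e
    simp only [shift, AlgHom.comp_apply, aeval_X, map_add, AlgHom.id_apply]
    rw [algHom_C, MvPolynomial.algebraMap_eq, Pi.neg_apply, C_neg, add_neg_cancel_right]
  exact congrArg (fun φ : MvPolynomial κ ℂ →ₐ[ℂ] MvPolynomial κ ℂ => φ P) h1

theorem totalDegree_shift {κ : Type} (x : κ → ℂ) (P : MvPolynomial κ ℂ) :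
    (shift x P).totalDegree ≤ P.totalDegree := by
  apply totalDegree_aeval_le
  intro e
  refine (totalDegree_add _ _).trans ?_
  rw [totalDegree_X, totalDegree_C]
  simp

theorem constantCoeff_shift {κ : Type} (x : κ → ℂ) (P : MvPolynomial κ ℂ) :
    constantCoeff (shift x P) = eval x P := by
  have h1 : (constantCoeff : MvPolynomial κ ℂ →+* ℂ).comp (shift x).toRingHom = eval x := by
    apply MvPolynomial.ringHom_ext
    · intro r
      simp [shift]
    · intro e
      simp [shift]
  exact congrArg (fun φ : MvPolynomial κ ℂ →+* ℂ => φ P) h1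

theorem aeval_shift {κ : Type} {d : ℕ} (y : κ → lring d) (x : κ → ℂ) (P : MvPolynomial κ ℂ) :
    aeval (fun e => y e - algebraMap ℂ (lring d) (x e)) (shift x P) = aeval y P := by
  have h1 : (aeval (fun e => y e - algebraMap ℂ (lring d) (x e))).comp (shift x) =
      (aeval y : MvPolynomial κ ℂ →ₐ[ℂ] lring d) := by
    apply MvPolynomial.algHom_ext
    intro e
    simp only [shift, AlgHom.comp_apply, aeval_X, map_add]
    rw [algHom_C, sub_add_cancel]
  exact congrArg (fun φ : MvPolynomial κ ℂ →ₐ[ℂ] lring d => φ P) h1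

/-- equations of the monoid generated by one-parameter families with bounded exponents: if all
equations of bounded degree hold at x, then all equations hold at x. -/
theorem word_bound {μ : J → ℂˣ → Matrix ι ι ℂ} {h : ℕ} (hμ1 : ∀ j, μ j 1 = 1)
    (hμ : IsLaurent μ h) (x : Matrix ι ι ℂ)
    (hx : ∀ f : MvPolynomial (ι × ι) ℂ, f.totalDegree ≤ effN (Fintype.card (ι × ι)) h →
      (∀ g ∈ Submonoid.closure {y | ∃ j t, y = μ j t}, evM g f = 0) → evM x f = 0)
    (f : MvPolynomial (ι × ι) ℂ)
    (hf : ∀ g ∈ Submonoid.closure {y | ∃ j t, y = μ j t}, evM g f = 0) : evM x f = 0 := by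
  by_contra hne
  obtain ⟨d, w, hw, hmax⟩ := exists_max μ
  have hdD := ind_le hw
  obtain ⟨s, hs⟩ := hw
  let X0 : ι × ι → ℂ := fun e => x e.1 e.2
  have hev0 : ∀ P : MvPolynomial (ι × ι) ℂ, aeval (entry hμ w) P = 0 ↔ ∀ z, evM (phi μ d w z) P = 0 := by
    intro P
    constructor
    · intro h z
      have := evl_aeval z (entry hμ w) P
      rw [h, map_zero] at this
      exact this.symm
    · intro h
      apply lring_ext
      intro z
      rw [evl_aeval, map_zero]
      exact h z
  let u0 : ι × ι → lring d := fun e => entry hμ w e - algebraMap ℂ (lring d) (X0 e)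
  have hu0 : ∀ e, (u0 e).1 ∈ lspan d h := by
    intro e
    apply Submodule.sub_mem
    · exact entries_mem hμ d w e.1 e.2
    · have h1 : (algebraMap ℂ (lring d) (X0 e)).1 = (X0 e) • (1 : (Fin d → ℂˣ) → ℂ) := by
        funext z
        simp
      rw [h1]
      exact Submodule.smul_mem _ _ (lspan_mono d (Nat.zero_le _) (one_mem_lspan d))
  have hind : AlgebraicIndependent ℂ (fun i => u0 (s i)) := by
    rw [algebraicIndependent_iff]
    intro P hP
    rw [← shift_neg (X0 ∘ s) P] at hP
    have h1 := aeval_shift (fun i => entry hμ w (s i)) (X0 ∘ s) (shift (-(X0 ∘ s)) P)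
    have h2 : aeval (fun i => entry hμ w (s i)) (shift (-(X0 ∘ s)) P) = 0 := by
      rw [← h1]
      exact hP
    have h3 : shift (-(X0 ∘ s)) P = 0 := by
      apply hs
      intro z
      have := congrArg (evl z) h2
      rw [evl_aeval, map_zero] at this
      exact this
    rw [← shift_neg (X0 ∘ s) P, h3, map_zero]
  have hF : aeval u0 (shift X0 f) = 0 := by
    have h1 := aeval_shift (entry hμ w) X0 f
    refine h1.trans ((hev0 f).2 ?_)
    intro z
    exact hf _ (phi_mem μ d w z)
  have hF0 : constantCoeff (shift X0 f) ≠ 0 := by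
    rw [constantCoeff_shift]; exact hne
  obtain ⟨f1, hf1deg, hf1, hf1c⟩ := bound_aux u0 hu0 s hind (shift X0 f) hF hF0
    (Algebra.adjoin ℂ (Set.range u0)) rfl (FractionRing (Algebra.adjoin ℂ (Set.range u0)))
  have hf1' : f1 = shift X0 (shift (-X0) f1) := (shift_neg X0 f1).symm
  rw [hf1', constantCoeff_shift] at hf1c
  apply hf1c
  apply hx (shift (-X0) f1) ((totalDegree_shift _ _).trans (hf1deg.trans (effN_mono hdD)))
  intro g hg
  refine max_word_closure hμ1 hμ ⟨s, hs⟩ hmax _ ?_ g hg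
  rw [← hev0]
  have h1 := aeval_shift (entry hμ w) X0 (shift (-X0) f1)
  rw [← h1, ← hf1']
  exact hf1

end Pool.Agent.Work.MP_0da4e0_ag
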