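import Mathlib

open MvPolynomial

namespace Pool.Agent.Work.MP_0da4e0_ag

/-- `p` has degree at most `n`, the coefficient of degree `n` is the constant `c`, and the lower
coefficients are in the ideal `I`. -/
def ElimGood {A : Type} [CommRing A] [Algebra ℂ A] (I : Ideal A) (n : ℕ) (p : Polynomial A)
    (c : ℂ) : Prop :=
  p.natDegree ≤ n ∧ p.coeff n = algebraMap ℂ A c ∧ ∀ k < n, p.coeff k ∈ I

lemma ElimGood.one {A : Type} [CommRing A] [Algebra ℂ A] (I : Ideal A) :
    ElimGood I 0 1 1 := by
  refine ⟨by simp, by simp, by simp⟩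

lemma ElimGood.mul {A : Type} [CommRing A] [Algebra ℂ A] {I : Ideal A} {n m : ℕ}
    {p q : Polynomial A} {c d : ℂ} (hp : ElimGood I n p c) (hq : ElimGood I m q d) :
    ElimGood I (n + m) (p * q) (c * d) := by
  obtain ⟨h1, h2, h3⟩ := hp
  obtain ⟨k1, k2, k3⟩ := hq
  refine ⟨Polynomial.natDegree_mul_le_of_le h1 k1, ?_, ?_⟩
  · rw [Polynomial.coeff_mul_add_eq_of_natDegree_le h1 k1, h2, k2, map_mul]
  · intro k hk
    rw [Polynomial.coeff_mul]
    refine Ideal.sum_mem _ fun x hx => ?_
    have hx := Finset.HasAntidiagonal.mem_antidiagonal.1 hx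
    rcases lt_or_ge x.1 n with h | h
    · exact Ideal.mul_mem_right _ _ (h3 _ h)
    · exact Ideal.mul_mem_left _ _ (k3 _ (by omega))

lemma ElimGood.pow {A : Type} [CommRing A] [Algebra ℂ A] {I : Ideal A} {n : ℕ}
    {p : Polynomial A} {c : ℂ} (hp : ElimGood I n p c) (k : ℕ) :
    ElimGood I (k * n) (p ^ k) (c ^ k) := by
  induction k with
  | zero => simpa using ElimGood.one I
  | succ k ih =>
    rw [pow_succ, pow_succ, add_mul, one_mul]
    exact ih.mul hp

lemma ElimGood.prod {A : Type} [CommRing A] [Algebra ℂ A] {I : Ideal A} {ι : Type}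
    (s : Finset ι) (n : ι → ℕ) (p : ι → Polynomial A) (c : ι → ℂ)
    (hp : ∀ i ∈ s, ElimGood I (n i) (p i) (c i)) :
    ElimGood I (∑ i ∈ s, n i) (∏ i ∈ s, p i) (∏ i ∈ s, c i) := by
  classical
  induction s using Finset.induction_on with
  | empty => simpa using ElimGood.one I
  | insert a s ha ih =>
    rw [Finset.sum_insert ha, Finset.prod_insert ha, Finset.prod_insert ha]
    exact (hp a (Finset.mem_insert_self _ _)).mul
      (ih fun i hi => hp i (Finset.mem_insert_of_mem hi))

lemma ElimGood.const_mul {A : Type} [CommRing A] [Algebra ℂ A] {I : Ideal A} {n : ℕ}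
    {p : Polynomial A} {c : ℂ} (hp : ElimGood I n p c) (r : ℂ) :
    ElimGood I n (Polynomial.C (algebraMap ℂ A r) * p) (r * c) := by
  have h : ElimGood I 0 (Polynomial.C (algebraMap ℂ A r)) r := by
    refine ⟨by simp, by simp, by simp⟩
  simpa using h.mul hp

lemma ElimGood.sum {A : Type} [CommRing A] [Algebra ℂ A] {I : Ideal A} {ι : Type}
    (s : Finset ι) (n : ℕ) (p : ι → Polynomial A) (c : ι → ℂ)
    (hp : ∀ i ∈ s, ElimGood I n (p i) (c i)) :
    ElimGood I n (∑ i ∈ s, p i) (∑ i ∈ s, c i) := by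
  refine ⟨?_, ?_, ?_⟩
  · exact Polynomial.natDegree_sum_le_of_forall_le _ _ fun i hi => (hp i hi).1
  · rw [Polynomial.finsetSum_coeff, map_sum]
    exact Finset.sum_congr rfl fun i hi => (hp i hi).2.1
  · intro k hk
    rw [Polynomial.finsetSum_coeff]
    exact Ideal.sum_mem _ fun i hi => (hp i hi).2.2 k hk

lemma ElimGood.aeval {A : Type} [CommRing A] [Algebra ℂ A] {I : Ideal A} {σ : Type}
    {Q : MvPolynomial σ ℂ} {e : ℕ} (hQ : Q.IsHomogeneous e) (a : σ → A) (ha : ∀ i, a i ∈ I)
    (v : σ → ℂ) :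
    ElimGood I e (MvPolynomial.aeval (fun i => Polynomial.C (a i) +
      Polynomial.C (algebraMap ℂ A (v i)) * Polynomial.X) Q) (MvPolynomial.eval v Q) := by
  rw [MvPolynomial.aeval_def, MvPolynomial.eval₂_eq, MvPolynomial.eval_eq]
  refine ElimGood.sum _ _ _ _ fun d hd => ?_
  have h1 : ∀ i ∈ d.support, ElimGood I (d i) ((Polynomial.C (a i) +
      Polynomial.C (algebraMap ℂ A (v i)) * Polynomial.X) ^ d i) (v i ^ d i) := by
    intro i _
    have : ElimGood I 1 (Polynomial.C (a i) +
      Polynomial.C (algebraMap ℂ A (v i)) * Polynomial.X) (v i) := by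
      refine ⟨?_, ?_, ?_⟩
      · rw [add_comm]
        exact Polynomial.natDegree_linear_le
      · simp
      · intro k hk
        obtain rfl : k = 0 := by omega
        simpa using ha i
    simpa using this.pow (d i)
  have h2 := (ElimGood.prod d.support _ _ _ h1).const_mul (coeff d Q)
  have h3 : ∑ i ∈ d.support, d i = e := by
    have := hQ (mem_support_iff.1 hd)
    rw [← this]
    simp [Finsupp.weight_apply, Finsupp.sum]
  rw [h3] at h2
  exact h2

lemma elim_top {B σ : Type} [CommRing B] [Algebra ℂ B] (J : Ideal B) (y : σ → B)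
    (hy : ∀ i, y i ∈ J) (F : MvPolynomial σ ℂ) (hF : MvPolynomial.aeval y F = 0)
    (hF0 : constantCoeff F ≠ 0) : J = ⊤ := by
  have h1 : (Ideal.Quotient.mkₐ ℂ J) (MvPolynomial.aeval y F) =
      algebraMap ℂ _ (constantCoeff F) := by
    rw [MvPolynomial.comp_aeval_apply]
    have : (fun i => (Ideal.Quotient.mkₐ ℂ J) (y i)) = fun _ => 0 := by
      funext i
      rw [Ideal.Quotient.mkₐ_eq_mk]
      exact Ideal.Quotient.eq_zero_iff_mem.2 (hy i)
    rw [this, MvPolynomial.aeval_zero']
  rw [hF, map_zero] at h1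
  have h2 : algebraMap ℂ B (constantCoeff F) ∈ J := by
    rw [← Ideal.Quotient.eq_zero_iff_mem]
    exact h1.symm
  refine Ideal.eq_top_of_isUnit_mem _ h2 ?_
  exact (isUnit_iff_ne_zero.2 hF0).map (algebraMap ℂ B)

lemma elim_pow {A B : Type} [CommRing A] [CommRing B] [Algebra ℂ A] [Algebra A B] (I : Ideal A)
    (e : ℕ) (q : Polynomial A) (hq : ElimGood I e q 1) (t : B) (ht : Polynomial.aeval t q = 0) :
    t ^ e ∈ I.map (algebraMap A B) := by
  rw [Polynomial.aeval_eq_sum_range' (n := e + 1) (by have := hq.1; omega),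
    Finset.sum_range_succ, hq.2.1, map_one, one_smul] at ht
  have h2 : t ^ e = - ∑ i ∈ Finset.range e, q.coeff i • t ^ i := by
    linear_combination ht
  rw [h2]
  refine Ideal.neg_mem_iff _ |>.2 (Ideal.sum_mem _ fun i hi => ?_)
  rw [Algebra.smul_def]
  exact Ideal.mul_mem_right _ _ (Ideal.mem_map_of_mem _ (hq.2.2 i (Finset.mem_range.1 hi)))

theorem elim_step {K : Type} [Field K] [Algebra ℂ K] {m : ℕ} (y : Fin (m + 1) → K) (e : ℕ)
    (he : 0 < e) (Q : MvPolynomial (Fin (m + 1)) ℂ) (hQ0 : Q ≠ 0) (hQ : Q.IsHomogeneous e)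
    (hQy : aeval y Q = 0) (F : MvPolynomial (Fin (m + 1)) ℂ) (hF : aeval y F = 0)
    (hF0 : constantCoeff F ≠ 0)
    (halg : Algebra.IsAlgebraic (Algebra.adjoin ℂ (Set.range y)) K) :
    ∃ y' : Fin m → K, (∀ i, y' i ∈ Submodule.span ℂ (Set.range y)) ∧
      (∃ F' : MvPolynomial (Fin m) ℂ, aeval y' F' = 0 ∧ constantCoeff F' ≠ 0) ∧
      Algebra.IsAlgebraic (Algebra.adjoin ℂ (Set.range y')) K := by
  classical
  obtain ⟨v, hv⟩ : ∃ v : Fin (m + 1) → ℂ, eval v Q ≠ 0 := by
    by_contra h
    push Not at h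
    exact hQ0 (MvPolynomial.funext (fun x => by simpa using h x))
  obtain ⟨j, hj⟩ : ∃ j, v j ≠ 0 := by
    by_contra h
    push Not at h
    have h0 : v = 0 := by
      funext i
      exact h i
    apply hv
    rw [h0, MvPolynomial.eval_zero]
    by_contra h1
    have h2 := hQ (d := 0) h1
    simp at h2
    omega
  set t : K := algebraMap ℂ K (v j)⁻¹ * y j with ht
  set y' : Fin m → K := fun i => y (j.succAbove i) - algebraMap ℂ K (v (j.succAbove i)) * t
    with hy'
  have hvj : algebraMap ℂ K (v j) * algebraMap ℂ K (v j)⁻¹ = 1 := by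
    rw [← map_mul, mul_inv_cancel₀ hj, map_one]
  set A' : Subalgebra ℂ K := Algebra.adjoin ℂ (Set.range y') with hA'
  have hmem : ∀ i, y' i ∈ A' := fun i => Algebra.subset_adjoin ⟨i, rfl⟩
  set g : Fin m → A' := fun i => ⟨y' i, hmem i⟩ with hg
  set I' : Ideal A' := Ideal.span (Set.range g) with hI'
  set a : Fin (m + 1) → A' := j.insertNth 0 g with ha
  have haj : a j = 0 := by rw [ha, Fin.insertNth_apply_same]
  have hai : ∀ i, a (j.succAbove i) = g i := fun i => by rw [ha, Fin.insertNth_apply_succAbove]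
  have haI : ∀ i, a i ∈ I' := by
    intro i
    rcases Fin.eq_self_or_eq_succAbove j i with rfl | ⟨k, rfl⟩
    · rw [haj]; exact I'.zero_mem
    · rw [hai]; exact Ideal.subset_span ⟨k, rfl⟩
  have hya : ∀ i, y i = (a i : K) + algebraMap ℂ K (v i) * t := by
    intro i
    rcases Fin.eq_self_or_eq_succAbove j i with rfl | ⟨k, rfl⟩
    · rw [haj, ht, ← mul_assoc, hvj]; simp
    · rw [hai]; simp [hg, hy']
  set q : Polynomial A' := MvPolynomial.aeval (fun i => Polynomial.C (a i) +
      Polynomial.C (algebraMap ℂ A' (v i)) * Polynomial.X) Q with hq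
  have hqg : ElimGood I' e q (eval v Q) := ElimGood.aeval hQ a haI v
  have hqt : Polynomial.aeval t q = 0 := by
    have h1 : Polynomial.aeval t q =
        ((Polynomial.aeval t : Polynomial A' →ₐ[A'] K).restrictScalars ℂ) q := rfl
    rw [h1, hq, MvPolynomial.comp_aeval_apply, ← hQy]
    congr 1
    congr 1
    funext i
    rw [hya i]
    simp [AlgHom.restrictScalars_apply]
  set q' : Polynomial A' := Polynomial.C (algebraMap ℂ A' (eval v Q)⁻¹) * q with hq'
  have hqg' : ElimGood I' e q' 1 := by
    have := hqg.const_mul (eval v Q)⁻¹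
    rwa [inv_mul_cancel₀ hv] at this
  have hqt' : Polynomial.aeval t q' = 0 := by
    rw [hq', map_mul, hqt, mul_zero]
  have hmonic : q'.Monic :=
    Polynomial.monic_of_natDegree_le_of_coeff_eq_one e hqg'.1 (by rw [hqg'.2.1, map_one])
  have htint : IsIntegral A' t := ⟨q', hmonic, hqt'⟩
  set B : Subalgebra A' K := Algebra.adjoin A' {t} with hB
  have hBint : Algebra.IsIntegral A' B := by
    refine Algebra.IsIntegral.adjoin ?_
    intro x hx
    rw [Set.mem_singleton_iff] at hx
    rw [hx]; exact htint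
  have htB : t ∈ B := Algebra.subset_adjoin rfl
  set tB : B := ⟨t, htB⟩ with htBdef
  -- the elements `y i` in `B`
  set yB : Fin (m + 1) → B := fun i => algebraMap A' B (a i) +
    algebraMap A' B (algebraMap ℂ A' (v i)) * tB with hyB
  have hyBy : ∀ i, (yB i : K) = y i := by
    intro i
    rw [hya i]
    rfl
  have hyset : ∀ x ∈ Algebra.adjoin ℂ (Set.range y), x ∈ B := by
    intro x hx
    have h1 : Algebra.adjoin ℂ (Set.range y) ≤ B.restrictScalars ℂ := by
      refine Algebra.adjoin_le ?_
      rintro _ ⟨i, rfl⟩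
      rw [← hyBy i]
      exact (yB i).2
    exact h1 hx
  refine ⟨y', ?_, ?_, ?_⟩
  · intro i
    have h1 : ∀ k, y k ∈ Submodule.span ℂ (Set.range y) := fun k => Submodule.subset_span ⟨k, rfl⟩
    have h2 : y' i = y (j.succAbove i) - (v (j.succAbove i)) • ((v j)⁻¹ • y j) := by
      simp only [hy', ht, Algebra.smul_def]
    rw [h2]
    exact Submodule.sub_mem _ (h1 _) (Submodule.smul_mem _ _ (Submodule.smul_mem _ _ (h1 _)))
  · set J : Ideal B := I'.map (algebraMap A' B) with hJ
    have haJ : ∀ x ∈ I', algebraMap A' B x ∈ J := fun x hx => Ideal.mem_map_of_mem _ hx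
    have htJ : tB ^ e ∈ J := by
      have h1 : Polynomial.aeval tB q' = 0 := by
        apply Subtype.ext
        have : (B.val) (Polynomial.aeval tB q') = Polynomial.aeval t q' := by
          rw [← Polynomial.aeval_algHom_apply]
          rfl
        rw [hqt'] at this
        exact this
      exact elim_pow I' e q' hqg' tB h1
    have htR : tB ∈ J.radical := ⟨e, htJ⟩
    have hyR : ∀ i, yB i ∈ J.radical := by
      intro i
      refine Ideal.add_mem _ (Ideal.le_radical (haJ _ (haI i))) ?_
      exact Ideal.mul_mem_left _ _ htR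
    have hFB : MvPolynomial.aeval yB F = 0 := by
      apply Subtype.ext
      have h1 : ((B.val).restrictScalars ℂ) (MvPolynomial.aeval yB F) = aeval y F := by
        rw [MvPolynomial.comp_aeval_apply]
        congr 1
        congr 1
        funext i
        exact hyBy i
      rw [hF] at h1
      exact h1
    have hJtop : J = ⊤ := Ideal.radical_eq_top.1 (elim_top _ yB hyR F hFB hF0)
    have hItop : I' = ⊤ := by
      refine (Ideal.map_eq_top_iff (algebraMap A' B) ?_ ?_).1 hJtop
      · intro x w h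
        apply Subtype.ext
        exact congrArg (fun u : B => (u : K)) h
      · exact algebraMap_isIntegral_iff.2 hBint
    have h1 : (1 : A') ∈ Ideal.span (Set.range g) := by
      rw [← hI', hItop]; trivial
    obtain ⟨c, hc⟩ := (Ideal.mem_span_range_iff_exists_fun).1 h1
    have hG : ∀ i, ∃ G : MvPolynomial (Fin m) ℂ, aeval y' G = (c i : K) := by
      intro i
      have h3 : (c i : K) ∈ Algebra.adjoin ℂ (Set.range y') := (c i).2
      rw [Algebra.adjoin_range_eq_range_aeval] at h3
      exact h3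
    choose G hG using hG
    refine ⟨1 - ∑ i, G i * X i, ?_, ?_⟩
    · have h3 : ∑ i, (c i : K) * y' i = 1 := by
        have := congrArg (A'.val) hc
        rw [map_sum, map_one] at this
        rw [← this]
        refine Finset.sum_congr rfl fun i _ => ?_
        rw [map_mul]
        rfl
      rw [map_sub, map_one, map_sum, ← h3, sub_eq_zero]
      refine Finset.sum_congr rfl fun i _ => ?_
      rw [map_mul, hG, aeval_X]
    · simp
  · have hB2 : Algebra.IsAlgebraic B K := by
      constructor
      intro x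
      obtain ⟨p, hp0, hpx⟩ := halg.isAlgebraic x
      let ι : Algebra.adjoin ℂ (Set.range y) →+* B :=
        { toFun := fun z => ⟨z.1, hyset z.1 z.2⟩
          map_one' := rfl
          map_mul' := fun _ _ => rfl
          map_zero' := rfl
          map_add' := fun _ _ => rfl }
      have hι : Function.Injective ι := by
        intro z w h
        apply Subtype.ext
        exact congrArg (fun u : B => (u : K)) h
      refine ⟨p.map ι, (Polynomial.map_ne_zero_iff hι).2 hp0, ?_⟩
      rw [Polynomial.aeval_def, Polynomial.eval₂_map]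
      exact hpx
    have : Algebra.IsAlgebraic A' B := hBint.isAlgebraic
    exact Algebra.IsAlgebraic.trans A' B K

end Pool.Agent.Work.MP_0da4e0_ag
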