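import Mathlib

open MvPolynomial

namespace Pool.Agent.Work.MP_0da4e0_ag

/-- Laurent monomials as functions on the torus. -/
noncomputable def lmono {d : ℕ} (e : Fin d → ℤ) : (Fin d → ℂˣ) → ℂ :=
  fun z => ∏ i, ((z i ^ e i : ℂˣ) : ℂ)

theorem lmono_mul {d : ℕ} (e f : Fin d → ℤ) : lmono e * lmono f = lmono (e + f) := by
  funext z
  simp only [lmono, Pi.mul_apply, Pi.add_apply, ← Finset.prod_mul_distrib]
  apply Finset.prod_congr rfl
  intro i _
  rw [← Units.val_mul, zpow_add]

/-- Functions on the torus which are combinations of monomials with all exponents in [-a, a]. -/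
def lspan (d a : ℕ) : Submodule ℂ ((Fin d → ℂˣ) → ℂ) :=
  Submodule.span ℂ {f | ∃ e : Fin d → ℤ, (∀ i, |e i| ≤ a) ∧ f = lmono e}

theorem lmono_mem {d a : ℕ} {e : Fin d → ℤ} (he : ∀ i, |e i| ≤ a) : lmono e ∈ lspan d a :=
  Submodule.subset_span ⟨e, he, rfl⟩

theorem one_mem_lspan (d : ℕ) : (1 : (Fin d → ℂˣ) → ℂ) ∈ lspan d 0 := by
  have : (1 : (Fin d → ℂˣ) → ℂ) = lmono 0 := by
    funext z; simp [lmono]
  rw [this]
  exact lmono_mem (by simp)

theorem mul_mem_lspan {d a b : ℕ} {x y : (Fin d → ℂˣ) → ℂ} (hx : x ∈ lspan d a) (hy : y ∈ lspan d b) :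
    x * y ∈ lspan d (a + b) := by
  induction hx using Submodule.span_induction with
  | mem x h =>
    obtain ⟨e, he, rfl⟩ := h
    induction hy using Submodule.span_induction with
    | mem y h =>
      obtain ⟨f, hf, rfl⟩ := h
      rw [lmono_mul]
      apply lmono_mem
      intro i
      push_cast
      exact (abs_add_le _ _).trans (add_le_add (he i) (hf i))
    | zero => rw [mul_zero]; exact Submodule.zero_mem _
    | add y z _ _ h1 h2 => rw [mul_add]; exact Submodule.add_mem _ h1 h2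
    | smul c y _ h => rw [mul_smul_comm]; exact Submodule.smul_mem _ _ h
  | zero => rw [zero_mul]; exact Submodule.zero_mem _
  | add y z _ _ h1 h2 => rw [add_mul]; exact Submodule.add_mem _ h1 h2
  | smul c y _ h => rw [smul_mul_assoc]; exact Submodule.smul_mem _ _ h

theorem lspan_mono (d : ℕ) : Monotone (lspan d) := by
  intro a b hab
  apply Submodule.span_mono
  rintro _ ⟨e, he, rfl⟩
  exact ⟨e, fun i => (he i).trans (by exact_mod_cast hab), rfl⟩

theorem lspan_eq (d a : ℕ) : lspan d a =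
    Submodule.span ℂ (Set.range (fun e : Fin d → Fin (2 * a + 1) => lmono (fun i => ((e i : ℕ) : ℤ) - a))) := by
  rw [lspan]
  congr 1
  ext f
  constructor
  · rintro ⟨e, he, rfl⟩
    refine ⟨fun i => ⟨(e i + a).toNat, ?_⟩, ?_⟩
    · have := abs_le.1 (he i)
      omega
    · simp only
      congr 1
      funext i
      have := abs_le.1 (he i)
      rw [Int.toNat_of_nonneg (by omega)]
      ring
  · rintro ⟨e, rfl⟩
    refine ⟨_, ?_, rfl⟩
    intro i
    have := (e i).2
    rw [abs_le]
    constructor <;> omega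

instance finite_lspan (d a : ℕ) : Module.Finite ℂ (lspan d a) := by
  rw [lspan_eq]
  exact FiniteDimensional.span_of_finite ℂ (Set.finite_range _)

theorem finrank_lspan (d a : ℕ) : Module.finrank ℂ (lspan d a) ≤ (2 * a + 1) ^ d := by
  rw [lspan_eq]
  refine (finrank_range_le_card _).trans ?_
  simp

/-- Laurent functions times a monomial are polynomials -/
theorem exists_poly {d a : ℕ} {f : (Fin d → ℂˣ) → ℂ} (hf : f ∈ lspan d a) :
    ∃ p : MvPolynomial (Fin d) ℂ, ∀ z : Fin d → ℂˣ,
      (∏ i, (z i : ℂ)) ^ a * f z = eval (fun i => (z i : ℂ)) p := by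
  induction hf using Submodule.span_induction with
  | mem x h =>
    obtain ⟨e, he, rfl⟩ := h
    refine ⟨∏ i, (X i) ^ (e i + a).toNat, ?_⟩
    intro z
    rw [map_prod, ← Finset.prod_pow, lmono, ← Finset.prod_mul_distrib]
    apply Finset.prod_congr rfl
    intro i _
    rw [map_pow, eval_X]
    have := abs_le.1 (he i)
    rw [Units.val_zpow_eq_zpow_val, ← zpow_natCast, ← zpow_natCast, Int.toNat_of_nonneg (by omega),
      ← zpow_add₀ (z i).ne_zero, add_comm]
  | zero => exact ⟨0, by simp⟩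
  | add x y _ _ h1 h2 =>
    obtain ⟨p, hp⟩ := h1
    obtain ⟨q, hq⟩ := h2
    refine ⟨p + q, fun z => ?_⟩
    rw [Pi.add_apply, mul_add, hp, hq, map_add]
  | smul c x _ h =>
    obtain ⟨p, hp⟩ := h
    refine ⟨C c * p, fun z => ?_⟩
    rw [Pi.smul_apply, smul_eq_mul, mul_left_comm, hp, map_mul, eval_C]

/-- a polynomial vanishing on the torus is zero -/
theorem poly_eq_zero {d : ℕ} (p : MvPolynomial (Fin d) ℂ)
    (hp : ∀ z : Fin d → ℂˣ, eval (fun i => (z i : ℂ)) p = 0) : p = 0 := by
  have h1 : p * ∏ i, X i = 0 := by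
    apply MvPolynomial.funext
    intro x
    rw [map_mul, map_prod, map_zero]
    by_cases hx : ∀ i, x i ≠ 0
    · have := hp (fun i => Units.mk0 (x i) (hx i))
      simp only [Units.val_mk0] at this
      rw [this, zero_mul]
    · push Not at hx
      obtain ⟨i, hi⟩ := hx
      rw [Finset.prod_eq_zero (i := i) (Finset.mem_univ _) (by rw [eval_X, hi]), mul_zero]
  rcases mul_eq_zero.1 h1 with h | h
  · exact h
  · exact absurd h (Finset.prod_ne_zero_iff.2 fun i _ => X_ne_zero i)

theorem lspan_mul_eq_zero {d a b : ℕ} {f g : (Fin d → ℂˣ) → ℂ} (hf : f ∈ lspan d a)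
    (hg : g ∈ lspan d b) (h : f * g = 0) : f = 0 ∨ g = 0 := by
  obtain ⟨p, hp⟩ := exists_poly hf
  obtain ⟨q, hq⟩ := exists_poly hg
  have hne : ∀ z : Fin d → ℂˣ, (∏ i, (z i : ℂ)) ≠ 0 := fun z =>
    Finset.prod_ne_zero_iff.2 fun i _ => (z i).ne_zero
  have hpq : p * q = 0 := by
    apply poly_eq_zero
    intro z
    rw [map_mul, ← hp, ← hq]
    have : f z * g z = 0 := congrFun h z
    linear_combination (∏ i, (z i : ℂ)) ^ a * (∏ i, (z i : ℂ)) ^ b * this
  rcases mul_eq_zero.1 hpq with h0 | h0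
  · left
    funext z
    have := hp z
    rw [h0, map_zero] at this
    rcases mul_eq_zero.1 this with h1 | h1
    · exact absurd h1 (pow_ne_zero _ (hne z))
    · exact h1
  · right
    funext z
    have := hq z
    rw [h0, map_zero] at this
    rcases mul_eq_zero.1 this with h1 | h1
    · exact absurd h1 (pow_ne_zero _ (hne z))
    · exact h1

/-- The ring of Laurent polynomial functions on the torus. -/
def lring (d : ℕ) : Subalgebra ℂ ((Fin d → ℂˣ) → ℂ) where
  carrier := {f | ∃ a, f ∈ lspan d a}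
  mul_mem' := by
    rintro x y ⟨a, ha⟩ ⟨b, hb⟩
    exact ⟨a + b, mul_mem_lspan ha hb⟩
  add_mem' := by
    rintro x y ⟨a, ha⟩ ⟨b, hb⟩
    exact ⟨max a b, Submodule.add_mem _ (lspan_mono d (le_max_left _ _) ha)
      (lspan_mono d (le_max_right _ _) hb)⟩
  algebraMap_mem' := by
    intro r
    refine ⟨0, ?_⟩
    have : algebraMap ℂ ((Fin d → ℂˣ) → ℂ) r = r • 1 := Algebra.algebraMap_eq_smul_one r
    rw [this]
    exact Submodule.smul_mem _ _ (one_mem_lspan d)

instance lring_domain (d : ℕ) : IsDomain (lring d) := by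
  have : NoZeroDivisors (lring d) := by
    refine ⟨?_⟩
    rintro ⟨x, a, hx⟩ ⟨y, b, hy⟩ h
    rcases lspan_mul_eq_zero hx hy (congrArg Subtype.val h) with h1 | h1
    · left; exact Subtype.ext h1
    · right; exact Subtype.ext h1
  exact NoZeroDivisors.to_isDomain _

end Pool.Agent.Work.MP_0da4e0_ag
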