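import Pool.Agent.Work.MP_0da4e0_ag.EffLaurent

open MvPolynomial

namespace Pool.Agent.Work.MP_0da4e0_ag

variable {ι : Type} [Fintype ι] [DecidableEq ι] {J : Type}

/-- products of values of one-parameter families -/
noncomputable def phi (μ : J → ℂˣ → Matrix ι ι ℂ) :
    (d : ℕ) → (Fin d → J) → (Fin d → ℂˣ) → Matrix ι ι ℂ
  | 0, _, _ => 1
  | d + 1, w, z => phi μ d (Fin.init w) (Fin.init z) * μ (w (Fin.last d)) (z (Fin.last d))

/-- evaluation of a polynomial in the matrix entries -/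
noncomputable def evM (x : Matrix ι ι ℂ) : MvPolynomial (ι × ι) ℂ →+* ℂ :=
  eval (fun e => x e.1 e.2)

/-- the entries are Laurent polynomials with exponents in [-h, h] -/
def IsLaurent (μ : J → ℂˣ → Matrix ι ι ℂ) (h : ℕ) : Prop :=
  ∀ j i k, ∃ c : ℤ → ℂ, ∀ z : ℂˣ,
    μ j z i k = ∑ p ∈ Finset.Icc (-(h : ℤ)) h, c p * ((z ^ p : ℂˣ) : ℂ)

omit [Fintype ι] [DecidableEq ι] in
theorem snoc_mem_lspan {d h : ℕ} {f : (Fin d → ℂˣ) → ℂ} (hf : f ∈ lspan d h) {p : ℤ} (hp : |p| ≤ h) :
    (fun z : Fin (d + 1) → ℂˣ => f (Fin.init z) * ((z (Fin.last d) ^ p : ℂˣ) : ℂ)) ∈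
      lspan (d + 1) h := by
  induction hf using Submodule.span_induction with
  | mem x hx =>
    obtain ⟨e, he, rfl⟩ := hx
    have : (fun z : Fin (d + 1) → ℂˣ => lmono e (Fin.init z) * ((z (Fin.last d) ^ p : ℂˣ) : ℂ)) =
        lmono (Fin.snoc e p) := by
      funext z
      simp only [lmono]
      rw [Fin.prod_univ_castSucc]
      simp [Fin.init]
    rw [this]
    apply lmono_mem
    intro i
    refine Fin.lastCases ?_ (fun j => ?_) i
    · simpa using hp
    · simpa using he j
  | zero =>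
    simp only [Pi.zero_apply, zero_mul]
    exact Submodule.zero_mem _
  | add x y _ _ h1 h2 =>
    simp only [Pi.add_apply, add_mul]
    exact Submodule.add_mem _ h1 h2
  | smul c x _ h1 =>
    simp only [Pi.smul_apply, smul_eq_mul, mul_assoc]
    exact Submodule.smul_mem _ c h1

theorem entries_mem {μ : J → ℂˣ → Matrix ι ι ℂ} {h : ℕ} (hμ : IsLaurent μ h) :
    ∀ (d : ℕ) (w : Fin d → J) (i k : ι), (fun z => phi μ d w z i k) ∈ lspan d h := by
  intro d
  induction d with
  | zero =>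
    intro w i k
    have : (fun z : Fin 0 → ℂˣ => phi μ 0 w z i k) = ((1 : Matrix ι ι ℂ) i k) • (1 : (Fin 0 → ℂˣ) → ℂ) := by
      funext z
      simp [phi]
    rw [this]
    exact Submodule.smul_mem _ _ (lspan_mono 0 (Nat.zero_le _) (one_mem_lspan 0))
  | succ d ih =>
    intro w i k
    have : (fun z : Fin (d + 1) → ℂˣ => phi μ (d + 1) w z i k) =
        ∑ l, (fun z : Fin (d + 1) → ℂˣ => phi μ d (Fin.init w) (Fin.init z) i l *
          μ (w (Fin.last d)) (z (Fin.last d)) l k) := by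
      funext z
      rw [Finset.sum_apply]
      rfl
    rw [this]
    apply Submodule.sum_mem
    intro l _
    obtain ⟨c, hc⟩ := hμ (w (Fin.last d)) l k
    have h2 : (fun z : Fin (d + 1) → ℂˣ => phi μ d (Fin.init w) (Fin.init z) i l *
          μ (w (Fin.last d)) (z (Fin.last d)) l k) =
        ∑ p ∈ Finset.Icc (-(h : ℤ)) h, c p • (fun z : Fin (d + 1) → ℂˣ =>
          (fun z => phi μ d (Fin.init w) z i l) (Fin.init z) * ((z (Fin.last d) ^ p : ℂˣ) : ℂ)) := by
      funext z
      rw [Finset.sum_apply, hc, Finset.mul_sum]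
      apply Finset.sum_congr rfl
      intro p _
      simp only [Pi.smul_apply, smul_eq_mul]
      ring
    rw [h2]
    apply Submodule.sum_mem
    intro p hp
    apply Submodule.smul_mem
    apply snoc_mem_lspan (ih _ _ _)
    rw [Finset.mem_Icc] at hp
    exact abs_le.2 hp

/-- an entry of a word as element of the ring of Laurent functions -/
noncomputable def entry {μ : J → ℂˣ → Matrix ι ι ℂ} {h : ℕ} (hμ : IsLaurent μ h) {d : ℕ}
    (w : Fin d → J) (e : ι × ι) : lring d :=
  ⟨fun z => phi μ d w z e.1 e.2, h, entries_mem hμ d w e.1 e.2⟩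

/-- evaluation at a point of the torus -/
noncomputable def evl {d : ℕ} (z : Fin d → ℂˣ) : lring d →ₐ[ℂ] ℂ :=
  (Pi.evalAlgHom ℂ (fun _ => ℂ) z).comp (lring d).val

theorem evl_apply {d : ℕ} (z : Fin d → ℂˣ) (f : lring d) : evl z f = f.1 z := rfl

theorem evl_aeval {d : ℕ} (z : Fin d → ℂˣ) {κ : Type} (y : κ → lring d) (P : MvPolynomial κ ℂ) :
    evl z (aeval y P) = eval (fun i => (y i).1 z) P := by
  have h1 : (evl z).comp (aeval y) = aeval (fun i => evl z (y i)) := MvPolynomial.comp_aeval y (evl z)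
  have h2 := congrArg (fun φ : MvPolynomial κ ℂ →ₐ[ℂ] ℂ => φ P) h1
  simp only [AlgHom.comp_apply] at h2
  rw [h2, MvPolynomial.aeval_eq_eval]
  rfl

theorem lring_ext {d : ℕ} {f g : lring d} (h : ∀ z, evl z f = evl z g) : f = g :=
  Subtype.ext (funext h)

/-- the word w is independent: there are as many algebraically independent entries as letters -/
def Ind (μ : J → ℂˣ → Matrix ι ι ℂ) (d : ℕ) (w : Fin d → J) : Prop :=
  ∃ s : Fin d → ι × ι, ∀ P : MvPolynomial (Fin d) ℂ,
    (∀ z, eval (fun i => phi μ d w z (s i).1 (s i).2) P = 0) → P = 0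

theorem ind_le {μ : J → ℂˣ → Matrix ι ι ℂ} {d : ℕ} {w : Fin d → J} (hw : Ind μ d w) :
    d ≤ Fintype.card (ι × ι) := by
  obtain ⟨s, hs⟩ := hw
  have hinj : Function.Injective s := by
    intro i j hij
    by_contra hne
    have := hs (X i - X j) (fun z => by rw [map_sub, eval_X, eval_X, hij, sub_self])
    rw [sub_eq_zero] at this
    exact hne (X_injective this)
  simpa using Fintype.card_le_of_injective s hinj

theorem exists_max (μ : J → ℂˣ → Matrix ι ι ℂ) :
    ∃ d w, Ind μ d w ∧ ∀ w', ¬ Ind μ (d + 1) w' := by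
  by_contra hcon
  push Not at hcon
  have : ∀ d, ∃ w, Ind μ d w := by
    intro d
    induction d with
    | zero =>
      refine ⟨Fin.elim0, Fin.elim0, ?_⟩
      intro P hP
      obtain ⟨c, rfl⟩ := MvPolynomial.C_surjective (Fin 0) P
      have := hP Fin.elim0
      rw [eval_C] at this
      rw [this, map_zero]
    | succ d ih =>
      obtain ⟨w, hw⟩ := ih
      exact hcon d w hw
  obtain ⟨w, hw⟩ := this (Fintype.card (ι × ι) + 1)
  have := ind_le hw
  omega

theorem alg_dvd {B : Type} [CommRing B] [IsDomain B] [Algebra ℂ B] {d : ℕ} (y : Fin d → B)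
    (hy : AlgebraicIndependent ℂ y) {κ : Type} (x : κ → B)
    (hx : ∀ e, ¬ AlgebraicIndependent ℂ (fun o : Option (Fin d) => o.elim (x e) y)) (f : B)
    (hf : f ∈ Algebra.adjoin ℂ (Set.range x)) (hf0 : f ≠ 0) :
    ∃ (p : MvPolynomial (Fin d) ℂ) (g : B), p ≠ 0 ∧ aeval y p = f * g := by
  have h1 : ∀ e, IsAlgebraic (Algebra.adjoin ℂ (Set.range y)) (x e) := by
    intro e
    have := hx e
    rw [hy.option_iff_transcendental] at this
    by_contra h
    exact this h
  have h2 : IsAlgebraic (Algebra.adjoin ℂ (Set.range y)) f := by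
    apply IsAlgebraic.adjoin_of_forall_isAlgebraic (s := Set.range x)
    · rintro _ ⟨⟨e, rfl⟩, -⟩
      exact h1 e
    · exact isAlgebraic_algebraMap (⟨f, hf⟩ : Algebra.adjoin ℂ (Set.range x))
  obtain ⟨r, hr, g, hg⟩ := h2.exists_nonzero_dvd (mem_nonZeroDivisors_of_ne_zero hf0)
  have h3 : (r : B) ∈ (aeval y : MvPolynomial (Fin d) ℂ →ₐ[ℂ] B).range := by
    rw [← Algebra.adjoin_range_eq_range_aeval]
    exact r.2
  obtain ⟨p, hp⟩ := h3
  refine ⟨p, g, ?_, ?_⟩
  · rintro rfl
    rw [map_zero] at hp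
    exact hr (Subtype.ext hp.symm)
  · exact hp.trans hg

theorem phi_snoc (μ : J → ℂˣ → Matrix ι ι ℂ) {d : ℕ} (w : Fin d → J) (j : J) (z : Fin d → ℂˣ)
    (t : ℂˣ) : phi μ (d + 1) (Fin.snoc w j) (Fin.snoc z t) = phi μ d w z * μ j t := by
  rw [phi]
  simp

/-- maximal independent words have the same equations as their continuations -/
theorem max_word {μ : J → ℂˣ → Matrix ι ι ℂ} {h : ℕ} (hμ1 : ∀ j, μ j 1 = 1) (hμ : IsLaurent μ h)
    {d : ℕ} {w : Fin d → J} (hw : Ind μ d w) (hmax : ∀ w', ¬ Ind μ (d + 1) w')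
    (f : MvPolynomial (ι × ι) ℂ) (hf : ∀ z, evM (phi μ d w z) f = 0) (j : J) (z : Fin d → ℂˣ)
    (t : ℂˣ) : evM (phi μ d w z * μ j t) f = 0 := by
  obtain ⟨s, hs⟩ := hw
  set w' : Fin (d + 1) → J := Fin.snoc w j with hw'
  set x : ι × ι → lring (d + 1) := entry hμ w' with hx
  set y : Fin d → lring (d + 1) := fun i => x (s i) with hy
  have hyind : AlgebraicIndependent ℂ y := by
    rw [algebraicIndependent_iff]
    intro P hP
    apply hs
    intro z
    have h1 := congrArg (evl (Fin.snoc z 1)) hP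
    rw [evl_aeval, map_zero] at h1
    have h2 : (fun i => (y i).1 (Fin.snoc z 1 : Fin (d + 1) → ℂˣ)) =
        fun i => phi μ d w z (s i).1 (s i).2 := by
      funext i
      change phi μ (d + 1) w' (Fin.snoc z 1) (s i).1 (s i).2 = _
      rw [hw', phi_snoc, hμ1, mul_one]
    rw [← h2]
    exact h1
  have hdep : ∀ e, ¬ AlgebraicIndependent ℂ (fun o : Option (Fin d) => o.elim (x e) y) := by
    intro e he
    apply hmax w'
    refine ⟨Fin.snoc s e, ?_⟩
    intro P hP
    have he2 : AlgebraicIndependent ℂ (fun i : Fin (d + 1) => x ((Fin.snoc s e : Fin (d + 1) → ι × ι) i)) := by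
      have := he.comp (finSuccEquivLast : Fin (d + 1) ≃ Option (Fin d)) (Equiv.injective _)
      convert this using 1
      funext i
      refine Fin.lastCases ?_ (fun i => ?_) i
      · simp
      · simp [hy]
    rw [algebraicIndependent_iff] at he2
    apply he2
    apply lring_ext
    intro z
    rw [evl_aeval, map_zero]
    exact hP z
  by_contra hne
  set F : lring (d + 1) := aeval x f with hF
  have hF0 : F ≠ 0 := by
    intro h0
    apply hne
    have h1 := congrArg (evl (Fin.snoc z t)) h0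
    rw [hF, evl_aeval, map_zero] at h1
    rw [← phi_snoc]
    exact h1
  obtain ⟨p, g, hp, hpg⟩ := alg_dvd y hyind x hdep F
    (by rw [Algebra.adjoin_range_eq_range_aeval]; exact ⟨f, rfl⟩) hF0
  apply hp
  apply hs
  intro z
  have h1 := congrArg (evl (Fin.snoc z 1)) hpg
  rw [evl_aeval, map_mul, hF, evl_aeval] at h1
  have h2 : (fun i => (y i).1 (Fin.snoc z 1 : Fin (d + 1) → ℂˣ)) =
      fun i => phi μ d w z (s i).1 (s i).2 := by
    funext i
    change phi μ (d + 1) w' (Fin.snoc z 1) (s i).1 (s i).2 = _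
    rw [hw', phi_snoc, hμ1, mul_one]
  have h3 : (fun i => (x i).1 (Fin.snoc z 1 : Fin (d + 1) → ℂˣ)) =
      fun e : ι × ι => phi μ d w z e.1 e.2 := by
    funext e
    change phi μ (d + 1) w' (Fin.snoc z 1) e.1 e.2 = _
    rw [hw', phi_snoc, hμ1, mul_one]
  have h4 : eval (fun e : ι × ι => phi μ d w z e.1 e.2) f = 0 := hf z
  rw [h2, h3, h4, zero_mul] at h1
  exact h1

/-- right translation of polynomials -/
noncomputable def rtr (x : Matrix ι ι ℂ) : MvPolynomial (ι × ι) ℂ →ₐ[ℂ] MvPolynomial (ι × ι) ℂ :=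
  aeval (fun e => ∑ l, X (e.1, l) * C (x l e.2))

omit [DecidableEq ι] in
theorem evM_rtr (x y : Matrix ι ι ℂ) (f : MvPolynomial (ι × ι) ℂ) :
    evM y (rtr x f) = evM (y * x) f := by
  have : (evM y).comp (rtr x).toRingHom = evM (y * x) := by
    apply MvPolynomial.ringHom_ext
    · intro r
      simp [evM, rtr]
    · intro e
      simp [evM, rtr, Matrix.mul_apply]
  exact congrArg (fun φ : MvPolynomial (ι × ι) ℂ →+* ℂ => φ f) this

theorem phi_one {μ : J → ℂˣ → Matrix ι ι ℂ} (hμ1 : ∀ j, μ j 1 = 1) :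
    ∀ (d : ℕ) (w : Fin d → J), phi μ d w (fun _ => 1) = 1 := by
  intro d
  induction d with
  | zero => intro w; rfl
  | succ d ih =>
    intro w
    rw [phi, hμ1, mul_one]
    exact ih _

theorem phi_mem (μ : J → ℂˣ → Matrix ι ι ℂ) :
    ∀ (d : ℕ) (w : Fin d → J) (z : Fin d → ℂˣ),
      phi μ d w z ∈ Submonoid.closure {y | ∃ j t, y = μ j t} := by
  intro d
  induction d with
  | zero => intro w z; exact Submonoid.one_mem _
  | succ d ih =>
    intro w z
    exact Submonoid.mul_mem _ (ih _ _) (Submonoid.subset_closure ⟨_, _, rfl⟩)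

/-- maximal independent words have the same equations as the generated monoid -/
theorem max_word_closure {μ : J → ℂˣ → Matrix ι ι ℂ} {h : ℕ} (hμ1 : ∀ j, μ j 1 = 1)
    (hμ : IsLaurent μ h) {d : ℕ} {w : Fin d → J} (hw : Ind μ d w)
    (hmax : ∀ w', ¬ Ind μ (d + 1) w') (f : MvPolynomial (ι × ι) ℂ)
    (hf : ∀ z, evM (phi μ d w z) f = 0) (x : Matrix ι ι ℂ)
    (hx : x ∈ Submonoid.closure {y | ∃ j t, y = μ j t}) : evM x f = 0 := by
  have key : ∀ f : MvPolynomial (ι × ι) ℂ, (∀ z, evM (phi μ d w z) f = 0) →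
      ∀ z, evM (phi μ d w z * x) f = 0 := by
    induction hx using Submonoid.closure_induction with
    | mem y hy =>
      obtain ⟨j, t, rfl⟩ := hy
      intro f hf z
      exact max_word hμ1 hμ hw hmax f hf j z t
    | one =>
      intro f hf z
      rw [mul_one]; exact hf z
    | mul a b _ _ ha hb =>
      intro f hf z
      rw [← mul_assoc, ← evM_rtr]
      apply ha
      intro z
      rw [evM_rtr]
      exact hb f hf z
  have := key f hf (fun _ => 1)
  rwa [phi_one hμ1, one_mul] at this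

end Pool.Agent.Work.MP_0da4e0_ag
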