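import Pool.Agent.Work.MP_0da4e0_ag.Defs
import Pool.Agent.Work.MP_0da4e0_ag.EffWord

open Matrix

namespace Pool.Agent.Work.MP_0da4e0_ag

variable {ι : Type} [Fintype ι] [DecidableEq ι]

/-- tensor power of a matrix -/
def tpow {R : Type} [CommRing R] (a : ℕ) (x : Matrix ι ι R) : Matrix (Fin a → ι) (Fin a → ι) R :=
  fun e f => ∏ j, x (e j) (f j)

section
variable {R : Type} [CommRing R]

omit [DecidableEq ι] in
theorem tpow_mul (a : ℕ) (x y : Matrix ι ι R) : tpow a (x * y) = tpow a x * tpow a y := by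
  ext e f
  rw [Matrix.mul_apply]
  simp only [tpow, Matrix.mul_apply]
  rw [Finset.prod_univ_sum]
  simp only [Fintype.piFinset_univ, Finset.prod_mul_distrib]

omit [Fintype ι] in
theorem tpow_one (a : ℕ) : tpow a (1 : Matrix ι ι R) = 1 := by
  ext e f
  rw [tpow, Matrix.one_apply]
  split_ifs with h
  · subst h; simp
  · obtain ⟨j, hj⟩ := Function.ne_iff.1 h
    exact Finset.prod_eq_zero (i := j) (Finset.mem_univ _) (by rw [Matrix.one_apply, if_neg hj])

/-- a mixed tensor as a matrix -/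
def toMat {a b : ℕ} (t : Tens ι a b R) : Matrix (Fin a → ι) (Fin b → ι) R := fun e f => t (e, f)

theorem act_toMat {a b : ℕ} (g : GL ι R) (t : Tens ι a b R) :
    toMat (act g t) = tpow a (g : Matrix ι ι R) * toMat t * tpow b ((g⁻¹ : GL ι R) : Matrix ι ι R) := by
  ext e f
  simp only [toMat, act, tpow, Matrix.mul_apply, Finset.sum_mul]
  rw [Fintype.sum_prod_type, Finset.sum_comm]
  apply Finset.sum_congr rfl
  intro y _
  apply Finset.sum_congr rfl
  intro x _
  ring

omit [Fintype ι] [DecidableEq ι] [CommRing R] in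
theorem toMat_injective {a b : ℕ} : Function.Injective (toMat : Tens ι a b R → _) := by
  intro s t h
  funext e
  exact congrFun (congrFun h e.1) e.2

theorem act_eq_iff {a b : ℕ} (g : GL ι R) (t : Tens ι a b R) :
    act g t = t ↔ tpow a (g : Matrix ι ι R) * toMat t = toMat t * tpow b (g : Matrix ι ι R) := by
  have h1 : tpow b ((g⁻¹ : GL ι R) : Matrix ι ι R) * tpow b (g : Matrix ι ι R) = 1 := by
    rw [← tpow_mul, ← Units.val_mul, inv_mul_cancel, Units.val_one, tpow_one]
  have h2 : tpow b (g : Matrix ι ι R) * tpow b ((g⁻¹ : GL ι R) : Matrix ι ι R) = 1 := by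
    rw [← tpow_mul, ← Units.val_mul, mul_inv_cancel, Units.val_one, tpow_one]
  constructor
  · intro h
    have h3 := congrArg toMat h
    rw [act_toMat] at h3
    calc tpow a (g : Matrix ι ι R) * toMat t
        = tpow a (g : Matrix ι ι R) * toMat t * (tpow b ((g⁻¹ : GL ι R) : Matrix ι ι R) * tpow b (g : Matrix ι ι R)) := by
          rw [h1, Matrix.mul_one]
      _ = _ := by rw [← Matrix.mul_assoc, h3]
  · intro h
    apply toMat_injective
    rw [act_toMat, h, Matrix.mul_assoc, h2, Matrix.mul_one]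

end

/-- index set for tensors of all degrees at most N -/
abbrev Idx (ι : Type) (N : ℕ) : Type := Σ a : Fin (N + 1), (Fin (a : ℕ) → ι)

/-- the action on the sum of all tensor powers up to N -/
noncomputable def rho (N : ℕ) : Matrix ι ι ℂ →* Matrix (Idx ι N) (Idx ι N) ℂ where
  toFun x := blockDiagonal' (fun a : Fin (N + 1) => tpow (a : ℕ) x)
  map_one' := by
    have : (fun a : Fin (N + 1) => tpow (a : ℕ) (1 : Matrix ι ι ℂ)) = fun a => 1 := by
      funext a
      exact tpow_one _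
    rw [this]
    exact blockDiagonal'_one
  map_mul' x y := by
    rw [← blockDiagonal'_mul]
    congr 1
    funext a
    exact tpow_mul _ x y

theorem rho_apply_eq {N : ℕ} (x : Matrix ι ι ℂ) (a : Fin (N + 1)) (e f : Fin (a : ℕ) → ι) :
    rho N x ⟨a, e⟩ ⟨a, f⟩ = ∏ j, x (e j) (f j) :=
  blockDiagonal'_apply_eq (fun a : Fin (N + 1) => tpow (a : ℕ) x) a e f

theorem rho_apply_ne {N : ℕ} (x : Matrix ι ι ℂ) {a b : Fin (N + 1)} (hab : a ≠ b)
    (e : Fin (a : ℕ) → ι) (f : Fin (b : ℕ) → ι) :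
    rho N x ⟨a, e⟩ ⟨b, f⟩ = 0 :=
  blockDiagonal'_apply_ne (fun a : Fin (N + 1) => tpow (a : ℕ) x) e f hab

theorem rho_star {N : ℕ} (x : Matrix ι ι ℂ) : rho N xᴴ = (rho N x)ᴴ := by
  change blockDiagonal' (fun a : Fin (N + 1) => tpow (a : ℕ) xᴴ) =
    (blockDiagonal' (fun a : Fin (N + 1) => tpow (a : ℕ) x))ᴴ
  rw [blockDiagonal'_conjTranspose]
  congr 1
  funext a
  ext e f
  simp [tpow, Matrix.conjTranspose_apply]

/-- a block of a matrix -/
def blk {N : ℕ} (X : Matrix (Idx ι N) (Idx ι N) ℂ) (a b : Fin (N + 1)) :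
    Tens ι (a : ℕ) (b : ℕ) ℂ := fun e => X ⟨a, e.1⟩ ⟨b, e.2⟩

theorem rho_mul_blk {N : ℕ} (x : Matrix ι ι ℂ) (X : Matrix (Idx ι N) (Idx ι N) ℂ)
    (a b : Fin (N + 1)) : toMat (blk (rho N x * X) a b) = tpow (a : ℕ) x * toMat (blk X a b) := by
  ext e f
  change (rho N x * X) ⟨a, e⟩ ⟨b, f⟩ = _
  rw [Matrix.mul_apply, Fintype.sum_sigma, Finset.sum_eq_single a]
  · rw [Matrix.mul_apply]
    apply Finset.sum_congr rfl
    intro g _
    rw [rho_apply_eq]
    rfl
  · intro c _ hc
    apply Finset.sum_eq_zero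
    intro g _
    rw [rho_apply_ne x hc.symm, zero_mul]
  · intro h; exact absurd (Finset.mem_univ _) h

theorem mul_rho_blk {N : ℕ} (x : Matrix ι ι ℂ) (X : Matrix (Idx ι N) (Idx ι N) ℂ)
    (a b : Fin (N + 1)) : toMat (blk (X * rho N x) a b) = toMat (blk X a b) * tpow (b : ℕ) x := by
  ext e f
  change (X * rho N x) ⟨a, e⟩ ⟨b, f⟩ = _
  rw [Matrix.mul_apply, Fintype.sum_sigma, Finset.sum_eq_single b]
  · rw [Matrix.mul_apply]
    apply Finset.sum_congr rfl
    intro g _
    rw [rho_apply_eq]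
    rfl
  · intro c _ hc
    apply Finset.sum_eq_zero
    intro g _
    rw [rho_apply_ne x hc, mul_zero]
  · intro h; exact absurd (Finset.mem_univ _) h

/-- commutation with rho means invariance of all blocks -/
theorem commute_iff {N : ℕ} (g : GL ι ℂ) (X : Matrix (Idx ι N) (Idx ι N) ℂ) :
    rho N (g : Matrix ι ι ℂ) * X = X * rho N (g : Matrix ι ι ℂ) ↔
      ∀ a b, act g (blk X a b) = blk X a b := by
  constructor
  · intro h a b
    rw [act_eq_iff, ← rho_mul_blk, h, mul_rho_blk]
  · intro h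
    ext ⟨a, e⟩ ⟨b, f⟩
    have h1 := h a b
    rw [act_eq_iff, ← rho_mul_blk, ← mul_rho_blk] at h1
    exact congrFun (congrFun h1 e) f

/-- polynomials of degree at most N are linear functions of rho N -/
theorem exists_functional {N : ℕ} (f : MvPolynomial (ι × ι) ℂ) (hf : f.totalDegree ≤ N) :
    ∃ F : Matrix (Idx ι N) (Idx ι N) ℂ →ₗ[ℂ] ℂ, ∀ x, evM x f = F (rho N x) := by
  classical
  have key : ∀ m ∈ f.support, ∃ F : Matrix (Idx ι N) (Idx ι N) ℂ →ₗ[ℂ] ℂ,
      ∀ x : Matrix ι ι ℂ, (m.prod fun e k => (x e.1 e.2) ^ k) = F (rho N x) := by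
    intro m hm
    have hdeg : Multiset.card (Finsupp.toMultiset m) ≤ N := by
      have := MvPolynomial.le_totalDegree hm
      rw [Finsupp.card_toMultiset]
      exact this.trans hf
    set l : List (ι × ι) := (Finsupp.toMultiset m).toList with hl
    have hlen : l.length = Multiset.card (Finsupp.toMultiset m) := by
      rw [hl, Multiset.length_toList]
    let a : Fin (N + 1) := ⟨l.length, by omega⟩
    refine ⟨{ toFun := fun X => X ⟨a, fun j => (l.get j).1⟩ ⟨a, fun j => (l.get j).2⟩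
              map_add' := fun _ _ => rfl
              map_smul' := fun _ _ => rfl }, ?_⟩
    intro x
    change _ = rho N x ⟨a, fun j => (l.get j).1⟩ ⟨a, fun j => (l.get j).2⟩
    rw [rho_apply_eq]
    have h1 : (∏ j : Fin l.length, x (l.get j).1 (l.get j).2) = (l.map (fun e => x e.1 e.2)).prod := by
      rw [← List.prod_ofFn]
      congr 1
      conv_rhs => rw [← List.ofFn_get l]
      rw [List.map_ofFn]
      rfl
    refine Eq.trans ?_ h1.symm
    have h2 : ((Finsupp.toMultiset m).map (fun e => x e.1 e.2)).prod = (l.map (fun e => x e.1 e.2)).prod := by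
      conv_lhs => rw [← Multiset.coe_toList (Finsupp.toMultiset m)]
      rw [Multiset.map_coe, Multiset.prod_coe]
    rw [← h2, Finsupp.toMultiset_map, Finsupp.prod_toMultiset,
      Finsupp.prod_mapDomain_index (by intro b; exact pow_zero b) (by intro b k l; exact pow_add b k l)]
  choose! F hF using key
  refine ⟨∑ m ∈ f.support, (MvPolynomial.coeff m f) • F m, ?_⟩
  intro x
  rw [LinearMap.sum_apply, evM, MvPolynomial.eval_eq]
  apply Finset.sum_congr rfl
  intro m hm
  rw [LinearMap.smul_apply, ← hF m hm x, smul_eq_mul, Finsupp.prod]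

omit [DecidableEq ι] in
/-- the equation saying that a tensor is invariant -/
theorem exists_equation {a b : ℕ} (t : Tens ι a b ℂ) (e : Fin a → ι) (f : Fin b → ι) :
    ∃ P : MvPolynomial (ι × ι) ℂ, ∀ x, evM x P = (tpow a x * toMat t) e f - (toMat t * tpow b x) e f := by
  refine ⟨∑ g : Fin a → ι, (∏ j, MvPolynomial.X (e j, g j)) * MvPolynomial.C (t (g, f)) -
    ∑ g : Fin b → ι, MvPolynomial.C (t (e, g)) * (∏ j, MvPolynomial.X (g j, f j)), ?_⟩
  intro x
  simp only [evM, map_sub, map_sum, map_mul, map_prod, MvPolynomial.eval_X, MvPolynomial.eval_C, Matrix.mul_apply]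
  rfl

end Pool.Agent.Work.MP_0da4e0_ag
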