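import Pool.Agent.Work.MP_0da4e0_ag.EffPolar
import Pool.Agent.Work.MP_0da4e0_ag.EffTens
import Pool.Agent.Work.MP_0da4e0_ag.EffAut
import Pool.Agent.Work.MP_0da4e0_ag.EffBound

open Matrix

namespace Pool.Agent.Work.MP_0da4e0_ag

variable {ι : Type} [Fintype ι] [DecidableEq ι]

/-- the point (z, w) of the Deligne torus -/
noncomputable def tor (h : HodgeStr ι) (z w : ℂˣ) : GL ι ℂ := (exists_torus h z w).choose

theorem tor_spec (h : HodgeStr ι) (z w : ℂˣ) : IsTorus h z w (tor h z w) :=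
  (exists_torus h z w).choose_spec

theorem tor_one (h : HodgeStr ι) : tor h 1 1 = 1 := (tor_spec h 1 1).unique IsTorus.one

theorem tor_mul (h : HodgeStr ι) (z w z' w' : ℂˣ) :
    tor h (z * z') (w * w') = tor h z w * tor h z' w' :=
  (tor_spec h _ _).unique ((tor_spec h z w).mul (tor_spec h z' w'))

/-- the conjugates of the two one-parameter subgroups of the Deligne torus -/
noncomputable def muG (h : HodgeStr ι) (j : (ℂ ≃+* ℂ) × Bool) (t : ℂˣ) : GL ι ℂ :=
  GeneralLinearGroup.map (j.1 : ℂ →+* ℂ)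
    (if j.2 then tor h (Units.map (j.1.symm : ℂ →* ℂ) t) 1
      else tor h 1 (Units.map (j.1.symm : ℂ →* ℂ) t))

noncomputable def mu (h : HodgeStr ι) (j : (ℂ ≃+* ℂ) × Bool) (t : ℂˣ) : Matrix ι ι ℂ :=
  (muG h j t : Matrix ι ι ℂ)

/-- the monoid generated by all conjugates of the Deligne torus -/
noncomputable def MTm (h : HodgeStr ι) : Submonoid (Matrix ι ι ℂ) :=
  Submonoid.closure {y | ∃ j t, y = mu h j t}

theorem mu_one (h : HodgeStr ι) (j : (ℂ ≃+* ℂ) × Bool) : mu h j 1 = 1 := by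
  rw [mu, muG]
  rcases j with ⟨θ, b⟩
  cases b <;> simp [tor_one]

theorem muG_true (h : HodgeStr ι) (θ : ℂ ≃+* ℂ) (z : ℂˣ) :
    muG h (θ, true) (Units.map (θ : ℂ →* ℂ) z) = GeneralLinearGroup.map (θ : ℂ →+* ℂ) (tor h z 1) := by
  rw [muG]
  simp only [if_true]
  congr 2
  apply Units.ext
  simp

theorem muG_false (h : HodgeStr ι) (θ : ℂ ≃+* ℂ) (z : ℂˣ) :
    muG h (θ, false) (Units.map (θ : ℂ →* ℂ) z) = GeneralLinearGroup.map (θ : ℂ →+* ℂ) (tor h 1 z) := by
  rw [muG]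
  simp only [Bool.false_eq_true, if_false]
  congr 2
  apply Units.ext
  simp

theorem map_tor_mem (h : HodgeStr ι) (θ : ℂ ≃+* ℂ) (z w : ℂˣ) :
    ((tor h z w : GL ι ℂ) : Matrix ι ι ℂ).map θ ∈ MTm h := by
  have h1 : tor h z w = tor h z 1 * tor h 1 w := by
    rw [← tor_mul, mul_one, one_mul]
  have h2 : ((tor h z w : GL ι ℂ) : Matrix ι ι ℂ).map θ =
      mu h (θ, true) (Units.map (θ : ℂ →* ℂ) z) * mu h (θ, false) (Units.map (θ : ℂ →* ℂ) w) := by
    rw [mu, mu, muG_true, muG_false, h1]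
    rw [Units.val_mul]
    exact Matrix.map_mul (f := (θ : ℂ →+* ℂ))
  rw [h2]
  exact Submonoid.mul_mem _ (Submonoid.subset_closure ⟨_, _, rfl⟩) (Submonoid.subset_closure ⟨_, _, rfl⟩)

theorem mu_eq (h : HodgeStr ι) (j : (ℂ ≃+* ℂ) × Bool) (t : ℂˣ) :
    ∃ z w, mu h j t = ((tor h z w : GL ι ℂ) : Matrix ι ι ℂ).map j.1 := by
  rcases j with ⟨θ, b⟩
  cases b
  · exact ⟨1, Units.map (θ.symm : ℂ →* ℂ) t, rfl⟩
  · exact ⟨Units.map (θ.symm : ℂ →* ℂ) t, 1, rfl⟩

omit [Fintype ι] [DecidableEq ι] in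
theorem cx_map_aut (S : Matrix ι ι ℚ) (θ : ℂ ≃+* ℂ) : (cx S).map θ = cx S := by
  ext i j
  simp [cx]

theorem star_closed {h : HodgeStr ι} {S : Matrix ι ι ℚ} (hS : Polarizes h S) (a : Matrix ι ι ℂ)
    (ha : a ∈ MTm h) : ∃ a' ∈ MTm h,
      cx S * (((tor h unitI unitI⁻¹)⁻¹ : GL ι ℂ) : Matrix ι ι ℂ) * a' =
        aᴴ * (cx S * (((tor h unitI unitI⁻¹)⁻¹ : GL ι ℂ) : Matrix ι ι ℂ)) := by
  set C := tor h unitI unitI⁻¹ with hC
  have hCmem : (C : Matrix ι ι ℂ) ∈ MTm h := by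
    have := map_tor_mem h (RingEquiv.refl ℂ) unitI unitI⁻¹
    simpa using this
  have hCi : C⁻¹ = tor h unitI⁻¹ unitI := by
    have := (tor_spec h unitI unitI⁻¹).inv
    rw [inv_inv] at this
    exact this.unique (tor_spec h _ _)
  have hCimem : ((C⁻¹ : GL ι ℂ) : Matrix ι ι ℂ) ∈ MTm h := by
    have := map_tor_mem h (RingEquiv.refl ℂ) unitI⁻¹ unitI
    rw [hCi]
    simpa using this
  have hiC : ((C⁻¹ : GL ι ℂ) : Matrix ι ι ℂ) * (C : Matrix ι ι ℂ) = 1 := by
    rw [← Units.val_mul, inv_mul_cancel, Units.val_one]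
  induction ha using Submonoid.closure_induction with
  | mem y hy =>
    obtain ⟨j, t, rfl⟩ := hy
    obtain ⟨z, w, hzw⟩ := mu_eq h j t
    set θ' : ℂ ≃+* ℂ := j.1.trans (starRingAut : ℂ ≃+* ℂ) with hθ'
    set g := tor h z w with hg
    have h1 := torus_bil' hS (tor_spec h z w) (tor_spec h (z * w) (z * w))
    have h2 : tor h (z * w) (z * w) = tor h w z * tor h z w := by
      rw [← tor_mul, mul_comm w z]
    rw [h2, Units.val_mul, ← Matrix.mul_assoc] at h1
    have h3 : (g : Matrix ι ι ℂ)ᵀ * cx S = cx S * ((tor h w z : GL ι ℂ) : Matrix ι ι ℂ) := by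
      have h4 : (g : Matrix ι ι ℂ) * ((g⁻¹ : GL ι ℂ) : Matrix ι ι ℂ) = 1 := by
        rw [← Units.val_mul, mul_inv_cancel, Units.val_one]
      have h5 := congrArg (fun M => M * ((g⁻¹ : GL ι ℂ) : Matrix ι ι ℂ)) h1
      simp only [Matrix.mul_assoc, ← hg] at h5
      rw [h4, Matrix.mul_one, Matrix.mul_one] at h5
      exact h5
    have h6 : (mu h j t)ᴴ = ((g : Matrix ι ι ℂ)ᵀ).map θ' := by
      rw [hzw]
      ext a b
      simp [Matrix.conjTranspose_apply, hθ']
    have h7 : (mu h j t)ᴴ * cx S = cx S * ((tor h w z : GL ι ℂ) : Matrix ι ι ℂ).map θ' := by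
      have h8 := congrArg (fun M : Matrix ι ι ℂ => M.map (θ' : ℂ →+* ℂ)) h3
      simp only [Matrix.map_mul] at h8
      have h9 : (cx S).map (θ' : ℂ →+* ℂ) = cx S := cx_map_aut S θ'
      rw [h9] at h8
      rw [h6]
      exact h8
    refine ⟨(C : Matrix ι ι ℂ) * ((tor h w z : GL ι ℂ) : Matrix ι ι ℂ).map θ' * ((C⁻¹ : GL ι ℂ) : Matrix ι ι ℂ),
      Submonoid.mul_mem _ (Submonoid.mul_mem _ hCmem (map_tor_mem h θ' w z)) hCimem, ?_⟩
    calc cx S * ((C⁻¹ : GL ι ℂ) : Matrix ι ι ℂ) * ((C : Matrix ι ι ℂ) * ((tor h w z : GL ι ℂ) : Matrix ι ι ℂ).map θ' * ((C⁻¹ : GL ι ℂ) : Matrix ι ι ℂ))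
        = cx S * (((C⁻¹ : GL ι ℂ) : Matrix ι ι ℂ) * (C : Matrix ι ι ℂ)) * (((tor h w z : GL ι ℂ) : Matrix ι ι ℂ).map θ' * ((C⁻¹ : GL ι ℂ) : Matrix ι ι ℂ)) := by
          simp only [Matrix.mul_assoc]
      _ = (cx S * ((tor h w z : GL ι ℂ) : Matrix ι ι ℂ).map θ') * ((C⁻¹ : GL ι ℂ) : Matrix ι ι ℂ) := by
          rw [hiC, Matrix.mul_one, Matrix.mul_assoc]
      _ = _ := by rw [← h7, Matrix.mul_assoc]
  | one => exact ⟨1, Submonoid.one_mem _, by simp⟩
  | mul x y _ _ hx hy =>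
    obtain ⟨x', hx'm, hx'⟩ := hx
    obtain ⟨y', hy'm, hy'⟩ := hy
    refine ⟨y' * x', Submonoid.mul_mem _ hy'm hx'm, ?_⟩
    rw [← Matrix.mul_assoc, hy', Matrix.mul_assoc, hx', Matrix.conjTranspose_mul, Matrix.mul_assoc]

/-- Hodge tensors are fixed by the conjugates of the torus -/
theorem hodge_fixed {h : HodgeStr ι} {a b : ℕ} {s : Tens ι a b ℚ} (hs : IsHodge h s)
    (j : (ℂ ≃+* ℂ) × Bool) (t : ℂˣ) : act (muG h j t) (ratT ℂ s) = ratT ℂ s := by
  rcases j with ⟨θ, b⟩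
  have h1 : ∀ g : GL ι ℂ, act g (ratT ℂ s) = ratT ℂ s →
      act (GeneralLinearGroup.map (θ : ℂ →+* ℂ) g) (ratT ℂ s) = ratT ℂ s := by
    intro g hg
    have h2 := map_act (θ : ℂ →+* ℂ) g (ratT ℂ s)
    rw [hg, ratT_map] at h2
    exact h2.symm
  rw [muG]
  apply h1
  cases b
  · exact hs _ _ _ (tor_spec h _ _)
  · exact hs _ _ _ (tor_spec h _ _)

/-- tensors fixed by the conjugates of the torus are spanned by Hodge tensors -/
theorem fixed_span {h : HodgeStr ι} {a b : ℕ} (t : Tens ι a b ℂ)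
    (ht : ∀ j z, act (muG h j z) t = t) :
    t ∈ Submodule.span ℂ {x | ∃ s : Tens ι a b ℚ, IsHodge h s ∧ x = ratT ℂ s} := by
  classical
  let bb := Module.Basis.ofVectorSpace ℚ ℂ
  let T : Finset (Module.Basis.ofVectorSpaceIndex ℚ ℂ) := Finset.univ.biUnion (fun i => (bb.repr (t i)).support)
  have hT : ∀ i, t i = ∑ s ∈ T, bb.repr (t i) s • (bb s : ℂ) := by
    intro i
    conv_lhs => rw [← bb.linearCombination_repr (t i)]
    rw [Finsupp.linearCombination_apply, Finsupp.sum]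
    apply Finset.sum_subset
    · intro s hs
      exact Finset.mem_biUnion.2 ⟨i, Finset.mem_univ _, hs⟩
    · intro s _ hs
      rw [Finsupp.notMem_support_iff.1 hs, zero_smul]
  let c : T → Tens ι a b ℚ := fun s i => bb.repr (t i) s
  let β : T → ℂ := fun s => bb s
  have hβ : LinearIndependent ℚ β := bb.linearIndependent.comp _ Subtype.val_injective
  have hsum : t = ∑ s : T, β s • ratT ℂ (c s) := by
    funext i
    rw [Finset.sum_apply, hT i, ← Finset.sum_coe_sort T]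
    apply Finset.sum_congr rfl
    intro s _
    simp only [Pi.smul_apply, smul_eq_mul, ratT, Rat.smul_def, c, β]
    exact mul_comm _ _
  -- the images of t under automorphisms
  have hθ : ∀ θ : ℂ ≃+* ℂ, (fun i => θ (t i)) = ∑ s : T, θ (β s) • ratT ℂ (c s) := by
    intro θ
    funext i
    rw [congrFun hsum i, Finset.sum_apply, Finset.sum_apply, map_sum]
    apply Finset.sum_congr rfl
    intro s _
    simp only [Pi.smul_apply, smul_eq_mul, map_mul]
    congr 1
    have := congrFun (ratT_map (θ : ℂ →+* ℂ) (c s)) i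
    exact this
  have hfix : ∀ (θ : ℂ ≃+* ℂ) (g : GL ι ℂ),
      act (GeneralLinearGroup.map ((θ.symm : ℂ ≃+* ℂ) : ℂ →+* ℂ) g) t = t →
      act g (fun i => θ (t i)) = fun i => θ (t i) := by
    intro θ g hg
    have h2 := map_act (θ : ℂ →+* ℂ) (GeneralLinearGroup.map ((θ.symm : ℂ ≃+* ℂ) : ℂ →+* ℂ) g) t
    rw [hg] at h2
    have h3 : GeneralLinearGroup.map (θ : ℂ →+* ℂ) (GeneralLinearGroup.map ((θ.symm : ℂ ≃+* ℂ) : ℂ →+* ℂ) g) = g := by
      apply Units.ext
      ext i j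
      simp [GeneralLinearGroup.map]
    rw [h3] at h2
    exact h2.symm
  have hact_sum : ∀ (g : GL ι ℂ) (γ : T → ℂ), act g (∑ s : T, γ s • ratT ℂ (c s)) =
      ∑ s : T, γ s • act g (ratT ℂ (c s)) := by
    intro g γ
    rw [act_eq, Matrix.mulVec_sum]
    apply Finset.sum_congr rfl
    intro s _
    rw [Matrix.mulVec_smul]
    rfl
  have key : ∀ g : GL ι ℂ, (∀ θ : ℂ ≃+* ℂ, act (GeneralLinearGroup.map (θ : ℂ →+* ℂ) g) t = t) →
      ∀ s, act g (ratT ℂ (c s)) = ratT ℂ (c s) := by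
    intro g hg
    have h1 : ∀ (i : (Fin a → ι) × (Fin b → ι)), (fun s => act g (ratT ℂ (c s)) i - ratT ℂ (c s) i) = 0 := by
      intro i
      apply aut_indep β hβ
      intro θ
      have h2 := hfix θ g (hg θ.symm)
      rw [hθ, hact_sum] at h2
      have h3 := congrFun h2 i
      rw [Finset.sum_apply, Finset.sum_apply] at h3
      rw [← sub_eq_zero, ← Finset.sum_sub_distrib] at h3
      rw [← h3]
      apply Finset.sum_congr rfl
      intro s _
      simp only [Pi.smul_apply, smul_eq_mul]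
      ring
    intro s
    funext i
    exact sub_eq_zero.1 (congrFun (h1 i) s)
  have hH : ∀ s, IsHodge h (c s) := by
    intro s z w g hg
    have hg' : g = tor h z 1 * tor h 1 w := by
      rw [← tor_mul, mul_one, one_mul]
      exact hg.unique (tor_spec h z w)
    rw [hg', act_mul]
    have e1 : act (tor h 1 w) (ratT ℂ (c s)) = ratT ℂ (c s) := by
      apply key
      intro θ
      rw [← muG_false]
      exact ht _ _
    have e2 : act (tor h z 1) (ratT ℂ (c s)) = ratT ℂ (c s) := by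
      apply key
      intro θ
      rw [← muG_true]
      exact ht _ _
    rw [e1, e2]
  rw [hsum]
  apply Submodule.sum_mem
  intro s _
  apply Submodule.smul_mem
  exact Submodule.subset_span ⟨_, hH s, rfl⟩

/-- the one-parameter families are Laurent polynomials with exponents in [-H, H] -/
theorem mu_laurent {h : HodgeStr ι} {H : ℕ} (hH : ∀ p q : ℤ, h.V (p, q) ≠ ⊥ → |p| ≤ H) :
    IsLaurent (mu h) H := by
  have hH' : ∀ p q : ℤ, h.V (p, q) ≠ ⊥ → |q| ≤ H := by
    intro p q hne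
    apply hH q p
    intro hbot
    apply hne
    rw [Submodule.eq_bot_iff]
    intro v hv
    have h1 := h.conj_mem p q v hv
    rw [hbot] at h1
    have h2 := (Submodule.mem_bot ℂ).1 h1
    funext i
    have := congrFun h2 i
    simpa using this
  -- projections
  have hproj : ∀ (c : ℤ → ℤ × ℤ → ℂ), ∃ P : ℤ → Matrix ι ι ℂ, ∀ p i v, v ∈ h.V i → P p *ᵥ v = c p i • v := by
    intro c
    choose f hf using fun p => exists_eigen h (c p)
    refine ⟨fun p => LinearMap.toMatrix' (f p), ?_⟩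
    intro p i v hv
    rw [LinearMap.toMatrix'_mulVec]
    exact hf p i v hv
  have main : ∀ b : Bool, ∃ P : ℤ → Matrix ι ι ℂ, ∀ z : ℂˣ,
      ((if b then tor h z 1 else tor h 1 z : GL ι ℂ) : Matrix ι ι ℂ) =
        ∑ p ∈ Finset.Icc (-(H : ℤ)) H, ((z ^ p : ℂˣ) : ℂ) • P p := by
    intro b
    obtain ⟨P, hP⟩ := hproj (fun p i => if (if b then i.1 else i.2) = p then 1 else 0)
    refine ⟨P, ?_⟩
    intro z
    apply mulVec_ext (h := h)
    intro p q v hv
    rw [Matrix.sum_mulVec]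
    have h1 : ∀ r, (((z ^ r : ℂˣ) : ℂ) • P r) *ᵥ v = (if (if b then p else q) = r then ((z ^ r : ℂˣ) : ℂ) else 0) • v := by
      intro r
      rw [Matrix.smul_mulVec, hP r (p, q) v hv, smul_smul]
      simp only
      split_ifs <;> simp
    rw [Finset.sum_congr rfl (fun r _ => h1 r), ← Finset.sum_smul, Finset.sum_ite_eq]
    have h2 : ((if b then tor h z 1 else tor h 1 z : GL ι ℂ) : Matrix ι ι ℂ) *ᵥ v =
        ((z ^ (if b then p else q) : ℂˣ) : ℂ) • v := by
      cases b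
      · simp only [Bool.false_eq_true, if_false]
        rw [tor_spec h 1 z p q v hv, _root_.one_zpow, one_mul]
      · simp only [if_true]
        rw [tor_spec h z 1 p q v hv, _root_.one_zpow, mul_one]
    rw [h2]
    by_cases hv0 : v = 0
    · rw [hv0, smul_zero, smul_zero]
    · have hne : h.V (p, q) ≠ ⊥ := by
        intro hbot
        rw [hbot] at hv
        exact hv0 ((Submodule.mem_bot ℂ).1 hv)
      have hmem : (if b then p else q) ∈ Finset.Icc (-(H : ℤ)) H := by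
        rw [Finset.mem_Icc]
        cases b
        · exact abs_le.1 (hH' p q hne)
        · exact abs_le.1 (hH p q hne)
      rw [if_pos hmem]
  rintro ⟨θ, b⟩ i k
  obtain ⟨P, hP⟩ := main b
  refine ⟨fun p => θ (P p i k), ?_⟩
  intro z
  have h1 : mu h (θ, b) z i k = θ ((((if b then tor h (Units.map (θ.symm : ℂ →* ℂ) z) 1
      else tor h 1 (Units.map (θ.symm : ℂ →* ℂ) z) : GL ι ℂ)) : Matrix ι ι ℂ) i k) := rfl
  rw [h1, hP, Matrix.sum_apply, map_sum]
  apply Finset.sum_congr rfl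
  intro p _
  rw [Matrix.smul_apply, smul_eq_mul, map_mul, mul_comm]
  congr 1
  rw [← map_zpow]
  simp

/-- a matrix with a fixed tensor: closed under products -/
theorem fixed_monoid {h : HodgeStr ι} {a b : ℕ} {t : Tens ι a b ℂ}
    (ht : ∀ j z, act (muG h j z) t = t) (x : Matrix ι ι ℂ) (hx : x ∈ MTm h) :
    tpow a x * toMat t = toMat t * tpow b x := by
  induction hx using Submonoid.closure_induction with
  | mem y hy =>
    obtain ⟨j, z, rfl⟩ := hy
    exact (act_eq_iff (muG h j z) t).1 (ht j z)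
  | one => rw [tpow_one, tpow_one, Matrix.one_mul, Matrix.mul_one]
  | mul x y _ _ hx hy =>
    rw [tpow_mul, tpow_mul, Matrix.mul_assoc, hy, ← Matrix.mul_assoc, hx, Matrix.mul_assoc]

end Pool.Agent.Work.MP_0da4e0_ag
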