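import Pool.Agent.Work.MP_0da4e0_ag.Defs

/-!
Proof of the orbit form of Principle A.
-/

open Matrix Cardinal NumberField

namespace Pool.Agent.Work.MP_0da4e0_ag

/-! ### Fields -/

theorem card_padic_le (p : ℕ) [Fact p.Prime] : #ℚ_[p] ≤ 𝔠 := by
  have h1 : #ℚ_[p] ≤ #(CauSeq ℚ (padicNorm p)) := 
    Cardinal.mk_le_of_surjective (f := fun x => (Quotient.mk _ x : CauSeq.Completion.Cauchy (padicNorm p))) (Quotient.mk_surjective)
  have h2 : #(CauSeq ℚ (padicNorm p)) ≤ #(ℕ → ℚ) := Cardinal.mk_le_of_injective (f := fun x => x.1) Subtype.val_injective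
  refine h1.trans (h2.trans ?_)
  simp

theorem embed_of_card {K : Type} [Field K] (iC : ℂ →+* K) (hK : #K ≤ 𝔠) :
    Nonempty (K →+* ℂ) := by
  have : CharZero K := charZero_of_injective_ringHom iC.injective
  have hLle : #(AlgebraicClosure K) ≤ 𝔠 := by
    exact (Algebra.IsAlgebraic.cardinalMk_le_max K (AlgebraicClosure K)).trans
      (max_le hK aleph0_le_continuum)
  have hLge : 𝔠 ≤ #(AlgebraicClosure K) := by
    rw [← mk_complex]
    exact Cardinal.mk_le_of_injective
      ((algebraMap K (AlgebraicClosure K)).comp iC).injective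
  have heq : #(AlgebraicClosure K) = #ℂ := by rw [mk_complex]; exact le_antisymm hLle hLge
  have : CharZero (AlgebraicClosure K) :=
    charZero_of_injective_ringHom (algebraMap K (AlgebraicClosure K)).injective
  obtain ⟨e⟩ := Cardinal.eq.1 heq
  have hbig : ℵ₀ < #(AlgebraicClosure K) := lt_of_lt_of_le (aleph0_lt_continuum) hLge
  obtain ⟨φ⟩ := IsAlgClosed.ringEquiv_of_equiv_of_charZero hbig ⟨e⟩
  exact ⟨(φ : AlgebraicClosure K →+* ℂ).comp (algebraMap K (AlgebraicClosure K))⟩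

theorem amalg {F A : Type} [Field F] [Field A] (f : F →+* A) (g : F →+* ℂ) (hA : #A ≤ 𝔠) :
    ∃ (a : A →+* ℂ) (b : ℂ →+* ℂ), a.comp f = b.comp g := by
  let _ := f.toAlgebra
  let _ := g.toAlgebra
  have hR : Nontrivial (TensorProduct F A ℂ) := inferInstance
  obtain ⟨M, hM⟩ := Ideal.exists_maximal (TensorProduct F A ℂ)
  -- cardinality
  have hT : #(TensorProduct F A ℂ) ≤ 𝔠 := by
    have hsurj : Function.Surjective (fun l : List (A × ℂ) => (l.map (fun q => (q.1 ⊗ₜ[F] q.2 : TensorProduct F A ℂ))).sum) := by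
      intro x
      induction x using TensorProduct.induction_on with
      | zero => exact ⟨[], by simp⟩
      | tmul a c => exact ⟨[(a,c)], by simp⟩
      | add x y hx hy =>
        obtain ⟨l1, h1⟩ := hx
        obtain ⟨l2, h2⟩ := hy
        exact ⟨l1 ++ l2, by simp only [List.map_append, List.sum_append]; rw [← h1, ← h2]⟩
    refine (Cardinal.mk_le_of_surjective hsurj).trans ?_
    have : #(List (A × ℂ)) ≤ max ℵ₀ #(A × ℂ) := Cardinal.mk_list_le_max _
    refine this.trans ?_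
    rw [Cardinal.mk_prod]
    simp only [lift_id, mk_complex]
    refine max_le aleph0_le_continuum ?_
    calc #A * 𝔠 ≤ 𝔠 * 𝔠 := by gcongr
      _ = 𝔠 := continuum_mul_self
  obtain ⟨φ⟩ := @embed_of_card (TensorProduct F A ℂ ⧸ M) (Ideal.Quotient.field M) 
    ((Ideal.Quotient.mk M).comp (Algebra.TensorProduct.includeRight : ℂ →ₐ[F] TensorProduct F A ℂ).toRingHom)
    ((Cardinal.mk_le_of_surjective Ideal.Quotient.mk_surjective).trans hT)
  refine ⟨φ.comp ((Ideal.Quotient.mk M).comp (Algebra.TensorProduct.includeLeft : A →ₐ[F] TensorProduct F A ℂ).toRingHom),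
    φ.comp ((Ideal.Quotient.mk M).comp (Algebra.TensorProduct.includeRight : ℂ →ₐ[F] TensorProduct F A ℂ).toRingHom), ?_⟩
  ext x
  simp only [RingHom.comp_apply]
  have h1 : (Algebra.TensorProduct.includeLeft : A →ₐ[F] TensorProduct F A ℂ).toRingHom (f x) = algebraMap F _ x := by
    exact AlgHom.commutes _ x
  have h2 : (Algebra.TensorProduct.includeRight : ℂ →ₐ[F] TensorProduct F A ℂ).toRingHom (g x) = algebraMap F _ x := by
    exact AlgHom.commutes _ x
  rw [h1, h2]

theorem embed_padic (p : ℕ) [Fact p.Prime] : Nonempty (ℚ_[p] →+* ℂ) := by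
  obtain ⟨a, b, h⟩ := amalg (algebraMap ℚ ℚ_[p]) (algebraMap ℚ ℂ) (card_padic_le p)
  exact ⟨a⟩
theorem exists_pair_alg {K : Type} [Field K] (σ : K →+* ℂ) (p : Polynomial K) (hp : Irreducible p) (c c' : ℂ)
    (hc : p.eval₂ σ c = 0) (hc' : p.eval₂ σ c' = 0) :
    ∃ a b : ℂ →+* ℂ, a.comp σ = b.comp σ ∧ a c = b c' := by
  have : Fact (Irreducible p) := ⟨hp⟩
  obtain ⟨a, b, h⟩ := amalg (AdjoinRoot.lift σ c hc) (AdjoinRoot.lift σ c' hc') mk_complex.le
  refine ⟨a, b, ?_, ?_⟩
  · ext x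
    have := congrArg (fun φ => φ (AdjoinRoot.of p x)) h
    simpa using this
  · have := congrArg (fun φ => φ (AdjoinRoot.root p)) h
    simpa using this

theorem exists_pair_trans {K : Type} [Field K] (σ : K →+* ℂ) (c : ℂ)
    (hc : ∀ p : Polynomial K, p.eval₂ σ c = 0 → p = 0) (n : ℕ) :
    ∃ a b : ℂ →+* ℂ, a.comp σ = b.comp σ ∧ a c = b c + n := by
  have hinj : Function.Injective (Polynomial.eval₂RingHom σ c) := by
    rw [injective_iff_map_eq_zero]
    intro p hp
    exact hc p (by simpa using hp)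
  have hinj' : Function.Injective (Polynomial.eval₂RingHom σ (c + n)) := by
    rw [injective_iff_map_eq_zero]
    intro p hp
    have h1 : (p.comp (Polynomial.X + Polynomial.C (n : K))).eval₂ σ c = 0 := by
      rw [Polynomial.eval₂_comp]
      simpa using hp
    have h2 := hc _ h1
    have h3 : (p.comp (Polynomial.X + Polynomial.C (n : K))).comp (Polynomial.X - Polynomial.C (n : K)) = 0 := by
      rw [h2]; simp
    rw [Polynomial.comp_assoc] at h3
    simpa using h3
  obtain ⟨a, b, h⟩ := amalg (IsFractionRing.lift (K := FractionRing (Polynomial K)) hinj)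
    (IsFractionRing.lift (K := FractionRing (Polynomial K)) hinj') mk_complex.le
  refine ⟨a, b, ?_, ?_⟩
  · ext x
    have := congrArg (fun φ => φ (algebraMap (Polynomial K) (FractionRing (Polynomial K)) (Polynomial.C x))) h
    simpa using this
  · have := congrArg (fun φ => φ (algebraMap (Polynomial K) (FractionRing (Polynomial K)) (Polynomial.X))) h
    simpa using this

/-- A finite set of complex numbers which is stable under all pairs of embeddings over K consists of 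
algebraic elements and is closed under conjugation. -/
theorem stable_finite {K : Type} [Field K] (σ : K →+* ℂ) (S : Set ℂ) (hS : S.Finite)
    (h : ∀ a b : ℂ →+* ℂ, a.comp σ = b.comp σ → a '' S ⊆ b '' S) (c : ℂ) (hc : c ∈ S) :
    ∃ p : Polynomial K, Irreducible p ∧ p.Monic ∧ p.eval₂ σ c = 0 ∧ ∀ c', p.eval₂ σ c' = 0 → c' ∈ S := by
  let _ := σ.toAlgebra
  by_cases halg : IsAlgebraic K c
  · have hint : IsIntegral K c := halg.isIntegral
    refine ⟨minpoly K c, minpoly.irreducible hint, minpoly.monic hint, minpoly.aeval K c, ?_⟩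
    intro c' hc'
    obtain ⟨a, b, hab, h2⟩ := exists_pair_alg σ (minpoly K c) (minpoly.irreducible hint) c c' (minpoly.aeval K c) hc'
    have : a c ∈ b '' S := h a b hab ⟨c, hc, rfl⟩
    obtain ⟨d, hd, hd2⟩ := this
    have : d = c' := b.injective (by rw [hd2, h2])
    rwa [← this]
  · exfalso
    have hc2 : ∀ p : Polynomial K, p.eval₂ σ c = 0 → p = 0 := by
      intro p hp
      by_contra hne
      exact halg ⟨p, hne, hp⟩
    have : ∀ n : ℕ, c + n ∈ S := by
      intro n
      obtain ⟨a, b, hab, h2⟩ := exists_pair_trans σ c hc2 n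
      obtain ⟨d, hd, hd2⟩ := h a b hab ⟨c, hc, rfl⟩
      have : d = c + n := b.injective (by rw [hd2, h2]; simp)
      rwa [← this]
    have hinf : (Set.range (fun n : ℕ => c + (n : ℂ))).Infinite := by
      apply Set.infinite_range_of_injective
      intro m n hmn
      simpa using hmn
    exact hinf (hS.subset (by rintro _ ⟨n, rfl⟩; exact this n))

/-- A Galois number field embedding into every ℚ_p is ℚ. -/
theorem finrank_eq_one_of_embeds (L : Type) [Field L] [NumberField L] [IsGalois ℚ L]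
    (h : ∀ p : ℕ, ∀ [Fact p.Prime], Nonempty (L →+* ℚ_[p])) : Module.finrank ℚ L = 1 := by
  by_contra hne
  have hpos : 0 < Module.finrank ℚ L := Module.finrank_pos
  obtain ⟨p, hp, hP⟩ := NumberField.exists_not_isUnramifiedAt_int_of_isGalois (K := L) (𝒪 := 𝓞 L) (by omega)
  have : Fact p.Prime := ⟨hp⟩
  obtain ⟨φ⟩ := h p
  -- restrict to integers
  have hint : ∀ x : 𝓞 L, ‖φ (x : L)‖ ≤ 1 := by
    intro x
    have hx : IsIntegral ℤ (φ (x : L)) := by
      have : IsIntegral ℤ (x : L) := x.2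
      exact this.map (φ.toIntAlgHom)
    have hx2 : IsIntegral ℤ_[p] (φ (x : L)) := hx.tower_top
    obtain ⟨y, hy⟩ := IsIntegrallyClosed.isIntegral_iff.1 hx2
    rw [← hy]
    exact y.2
  let ψ : 𝓞 L →+* ℤ_[p] := 
    { toFun := fun x => ⟨φ (x : L), hint x⟩
      map_one' := by apply Subtype.ext; simp
      map_mul' := by intro x y; apply Subtype.ext; change φ ((x * y : 𝓞 L) : L) = φ (x : L) * φ (y : L); simp
      map_zero' := by apply Subtype.ext; simp
      map_add' := by intro x y; apply Subtype.ext; change φ ((x + y : 𝓞 L) : L) = φ (x : L) + φ (y : L); simp }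
  let Q : Ideal (𝓞 L) := (IsLocalRing.maximalIdeal ℤ_[p]).comap ψ
  have hQp : Q.IsPrime := Ideal.comap_isPrime ψ _
  have hpQ : (p : 𝓞 L) ∈ Q := by
    change ψ (p : 𝓞 L) ∈ IsLocalRing.maximalIdeal ℤ_[p]
    rw [map_natCast, PadicInt.maximalIdeal_eq_span_p]
    exact Ideal.mem_span_singleton_self _
  apply hP Q hQp hpQ
  have hp2 : (p : 𝓞 L) ∉ Q ^ 2 := by
    intro hmem
    have h1 : ψ (p : 𝓞 L) ∈ (IsLocalRing.maximalIdeal ℤ_[p]) ^ 2 := by
      have : (Q ^ 2).map ψ ≤ (IsLocalRing.maximalIdeal ℤ_[p]) ^ 2 := by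
        rw [Ideal.map_pow]
        exact Ideal.pow_right_mono Ideal.map_comap_le 2
      exact this (Ideal.mem_map_of_mem ψ hmem)
    rw [map_natCast, PadicInt.maximalIdeal_eq_span_p, Ideal.span_singleton_pow, Ideal.mem_span_singleton] at h1
    have h2 : (p : ℤ_[p]) ^ 2 ∣ (p : ℤ_[p]) ^ 1 := by simpa using h1
    have := (pow_dvd_pow_iff (PadicInt.prime_p.ne_zero) PadicInt.prime_p.not_isUnit).1 h2
    omega
  have hliesover : Q.LiesOver (Ideal.span {(p : ℤ)}) := by
    have hp' : Prime (p : ℤ) := Nat.prime_iff_prime_int.1 hp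
    exact (Ideal.liesOver_span_iff hQp.ne_top hp').2 (by simpa using hpQ)
  have hpne : Ideal.span {(p : ℤ)} ≠ ⊥ := by
    simp [hp.ne_zero]
  rw [← Ideal.ramificationIdx_eq_one_iff, ← Ideal.ramificationIdx'_eq_ramificationIdx (Ideal.span {(p : ℤ)}) Q hpne]
  by_contra hne1
  have hle : (Ideal.span {(p : ℤ)}).map (algebraMap ℤ (𝓞 L)) ≤ Q := by
    rw [Ideal.map_span, Ideal.span_le]
    simpa using hpQ
  have := (Ideal.ramificationIdx'_ne_one_iff hle).1 hne1
  apply hp2
  apply this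
  have := Ideal.mem_map_of_mem (algebraMap ℤ (𝓞 L)) (Ideal.mem_span_singleton_self (p : ℤ))
  simpa using this


/-- An irreducible rational polynomial all of whose complex roots lie, for every p, in an embedded
copy of ℚ_p has degree one. -/
theorem mem_range_of_roots (f : Polynomial ℚ) (hf : Irreducible f)
    (h : ∀ p : ℕ, ∀ [Fact p.Prime], ∃ γ : ℚ_[p] →+* ℂ, ∀ c : ℂ, f.eval₂ (algebraMap ℚ ℂ) c = 0 → c ∈ γ.range)
    (c : ℂ) (hc : f.eval₂ (algebraMap ℚ ℂ) c = 0) :
    ∃ q : ℚ, c = q := by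
  let L : IntermediateField ℚ ℂ := IntermediateField.adjoin ℚ (f.rootSet ℂ)
  have hsp : (f.map (algebraMap ℚ ℂ)).Splits := IsAlgClosed.splits _
  have hSF : f.IsSplittingField ℚ L := IntermediateField.adjoin_rootSet_isSplittingField hsp
  have hfin : FiniteDimensional ℚ L := Polynomial.IsSplittingField.finiteDimensional L f
  have hNF : NumberField L := { to_charZero := inferInstance, to_finiteDimensional := hfin }
  have hG : IsGalois ℚ L := IsGalois.of_separable_splitting_field hf.separable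
  have h1 : Module.finrank ℚ L = 1 := by
    apply finrank_eq_one_of_embeds
    intro p hp
    obtain ⟨γ, hγ⟩ := h p
    have hle : ∀ x : L, (x : ℂ) ∈ γ.fieldRange := by
      intro x
      let γR : IntermediateField ℚ ℂ := γ.fieldRange.toIntermediateField (by
        intro q
        exact ⟨(q : ℚ_[p]), by simp⟩)
      have : L ≤ γR := by
        apply IntermediateField.adjoin_le_iff.2
        intro y hy
        rw [Polynomial.mem_rootSet] at hy
        have := hγ y (by simpa [Polynomial.aeval_def] using hy.2)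
        obtain ⟨z, hz⟩ := this
        exact ⟨z, hz⟩
      exact this x.2
    let e : ℚ_[p] ≃+* γ.fieldRange := RingEquiv.ofBijective γ.rangeRestrictField
      ⟨γ.rangeRestrictField.injective, by
        rintro ⟨x, y, rfl⟩
        exact ⟨y, rfl⟩⟩
    exact ⟨(e.symm : γ.fieldRange →+* ℚ_[p]).comp ((algebraMap L ℂ).codRestrict γ.fieldRange hle)⟩
  have hbot : L = ⊥ := IntermediateField.finrank_eq_one_iff.1 h1
  have hcL : c ∈ L := by
    apply IntermediateField.subset_adjoin
    rw [Polynomial.mem_rootSet]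
    exact ⟨hf.ne_zero, by simpa [Polynomial.aeval_def] using hc⟩
  rw [hbot, IntermediateField.mem_bot] at hcL
  obtain ⟨q, hq⟩ := hcL
  exact ⟨q, by rw [← hq]; simp⟩
theorem stable_algClosed {K : Type} [Field K] [IsAlgClosed K] (σ : K →+* ℂ) (S : Set ℂ) (hS : S.Finite)
    (h : ∀ a b : ℂ →+* ℂ, a.comp σ = b.comp σ → a '' S ⊆ b '' S) (c : ℂ) (hc : c ∈ S) :
    ∃ x : K, c = σ x := by
  obtain ⟨p, hp, hm, h0, -⟩ := stable_finite σ S hS h c hc
  have hd : p.degree = 1 := IsAlgClosed.degree_eq_one_of_irreducible K hp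
  obtain ⟨a, ha⟩ : ∃ a, p = Polynomial.X + Polynomial.C a := by
    exact ⟨p.coeff 0, hm.eq_X_add_C (Polynomial.natDegree_eq_of_degree_eq_some hd)⟩
  refine ⟨-a, ?_⟩
  rw [ha] at h0
  simp at h0
  rw [map_neg]
  exact eq_neg_of_add_eq_zero_left h0

theorem stable_rat (S : Set ℂ) (hS : S.Finite) (h : ∀ a b : ℂ →+* ℂ, a '' S ⊆ b '' S)
    (hp : ∀ p : ℕ, ∀ [Fact p.Prime], ∃ γ : ℚ_[p] →+* ℂ, S ⊆ γ.range) (c : ℂ) (hc : c ∈ S) :
    ∃ q : ℚ, c = q := by
  obtain ⟨p, hp', hm, h0, h1⟩ := stable_finite (algebraMap ℚ ℂ) S hS (fun a b _ => h a b) c hc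
  refine mem_range_of_roots p hp' ?_ c h0
  intro l hl
  obtain ⟨γ, hγ⟩ := hp l
  exact ⟨γ, fun c' hc' => hγ (h1 c' hc')⟩



section
variable {ι : Type} [Fintype ι] [DecidableEq ι]
variable {k : Type} [Field k]
variable {H : RealSys k ι} {I : Type} {m n : I → ℕ}

/-- The group of complex points of the group of automorphisms of the Betti realization at τ that
fix the given absolute Hodge tensors T i. -/
def stab (T : ∀ i, AHTensor H (m i) (n i)) (τ : k →+* ℂ) : Subgroup (GL ι ℂ) where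
  carrier := {g | ∀ i, act g (ratT ℂ ((T i).betti τ)) = ratT ℂ ((T i).betti τ)}
  one_mem' := fun i => act_one _
  mul_mem' := by
    intro g h hg hh i
    rw [act_mul, hh i, hg i]
  inv_mem' := by
    intro g hg i
    have := hg i
    calc act g⁻¹ (ratT ℂ ((T i).betti τ)) = act g⁻¹ (act g (ratT ℂ ((T i).betti τ))) := by rw [this]
      _ = _ := act_inv_act _ _

/-- The rational tensors in the orbit of x under the group stab T σ. -/
def orb (T : ∀ i, AHTensor H (m i) (n i)) (σ : k →+* ℂ) {a b : ℕ} (x : Tens ι a b ℚ) :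
    Set (Tens ι a b ℚ) :=
  {y | ∃ g ∈ stab T σ, ratT ℂ y = act g (ratT ℂ x)}

/-- transporters -/
def Tr (T : ∀ i, AHTensor H (m i) (n i)) (σ τ : k →+* ℂ) : Set (GL ι ℂ) :=
  {u | ∀ i, act u (ratT ℂ ((T i).betti σ)) = ratT ℂ ((T i).betti τ)}

open Matrix.GeneralLinearGroup in
theorem trans_mem (T : ∀ i, AHTensor H (m i) (n i)) {σ τ : k →+* ℂ} (α β : ℂ →+* ℂ)
    (h : α.comp σ = β.comp τ) :
    (map β (H.per τ))⁻¹ * map α (H.per σ) ∈ Tr T σ τ := by
  intro i
  have e1 := congrArg (fun t : Tens ι (m i) (n i) ℂ => fun e => α (t e)) ((T i).comp_dR σ)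
  have e2 := congrArg (fun t : Tens ι (m i) (n i) ℂ => fun e => β (t e)) ((T i).comp_dR τ)
  rw [map_act, ratT_map] at e1 e2
  have e3 : (fun e => α (σ ((T i).dR e))) = fun e => β (τ ((T i).dR e)) := by
    funext e
    exact congrArg (fun φ : k →+* ℂ => φ ((T i).dR e)) h
  rw [act_mul, e1, e3, ← e2, act_inv_act]

open Matrix.GeneralLinearGroup in
theorem trans_mem_adic (T : ∀ i, AHTensor H (m i) (n i)) (σ τ : k →+* ℂ) {l : ℕ} [Fact l.Prime]
    (γ : ℚ_[l] →+* ℂ) :
    (map γ (H.et τ l))⁻¹ * map γ (H.et σ l) ∈ Tr T σ τ := by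
  intro i
  have e1 := congrArg (fun t : Tens ι (m i) (n i) ℚ_[l] => fun e => γ (t e)) ((T i).comp_ad σ l)
  have e2 := congrArg (fun t : Tens ι (m i) (n i) ℚ_[l] => fun e => γ (t e)) ((T i).comp_ad τ l)
  rw [map_act, ratT_map] at e1 e2
  rw [act_mul, e1, ← e2, act_inv_act]

theorem inv_mul_mem (T : ∀ i, AHTensor H (m i) (n i)) {σ τ : k →+* ℂ} {u v : GL ι ℂ}
    (hu : u ∈ Tr T σ τ) (hv : v ∈ Tr T σ τ) : u⁻¹ * v ∈ stab T σ := by
  intro i
  rw [act_mul, hv i, ← hu i, act_inv_act]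

open Matrix.GeneralLinearGroup in
theorem map_mem (T : ∀ i, AHTensor H (m i) (n i)) {σ τ : k →+* ℂ} {u : GL ι ℂ} (θ : ℂ →+* ℂ)
    (hu : u ∈ Tr T σ τ) : map θ u ∈ Tr T σ τ := by
  intro i
  have e1 := congrArg (fun t : Tens ι (m i) (n i) ℂ => fun e => θ (t e)) (hu i)
  rwa [map_act, ratT_map, ratT_map] at e1

theorem mul_stab_mem (T : ∀ i, AHTensor H (m i) (n i)) {σ τ : k →+* ℂ} {u g : GL ι ℂ}
    (hu : u ∈ Tr T σ τ) (hg : g ∈ stab T σ) : u * g ∈ Tr T σ τ := by
  intro i
  rw [act_mul, hg i, hu i]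

theorem stab_mul_mem (T : ∀ i, AHTensor H (m i) (n i)) {σ τ : k →+* ℂ} {u g : GL ι ℂ}
    (hu : u ∈ Tr T σ τ) (hg : g ∈ stab T τ) : g * u ∈ Tr T σ τ := by
  intro i
  rw [act_mul, hu i, hg i]

section main

variable (T : ∀ i, AHTensor H (m i) (n i)) (σ : k →+* ℂ) {a b : ℕ} (x : Tens ι a b ℚ)
  (hfin : (orb T σ x).Finite)
  (hrat : ∀ g ∈ stab T σ, ∃ y : Tens ι a b ℚ, ratT ℂ y = act g (ratT ℂ x))

include hrat in
theorem orb_stable (g : GL ι ℂ) (hg : g ∈ stab T σ) (y : Tens ι a b ℚ) (hy : y ∈ orb T σ x) :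
    ∃ y' ∈ orb T σ x, ratT ℂ y' = act g (ratT ℂ y) := by
  obtain ⟨h, hh, e⟩ := hy
  obtain ⟨y', hy'⟩ := hrat (g * h) (mul_mem hg hh)
  refine ⟨y', ⟨g * h, mul_mem hg hh, hy'⟩, ?_⟩
  rw [hy', e, act_mul]

include hrat in
theorem trans_orb {τ : k →+* ℂ} {u v : GL ι ℂ} (hu : u ∈ Tr T σ τ) (hv : v ∈ Tr T σ τ)
    (y : Tens ι a b ℚ) (hy : y ∈ orb T σ x) :
    ∃ y' ∈ orb T σ x, act u (ratT ℂ y) = act v (ratT ℂ y') := by
  obtain ⟨y', hy', e⟩ := orb_stable T σ x hrat (v⁻¹ * u) (inv_mul_mem T hv hu) y hy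
  refine ⟨y', hy', ?_⟩
  rw [e, act_mul, act_act_inv]

open Matrix.GeneralLinearGroup in
include hfin hrat in
/-- the de Rham components are defined over k -/
theorem exists_dR [IsAlgClosed k] (y : Tens ι a b ℚ) (hy : y ∈ orb T σ x) :
    ∃ d : Tens ι a b k, act (H.per σ) (ratT ℂ y) = fun e => σ (d e) := by
  have key : ∀ e, ∃ d : k, act (H.per σ) (ratT ℂ y) e = σ d := by
    intro e
    refine stable_algClosed σ ((fun y : Tens ι a b ℚ => act (H.per σ) (ratT ℂ y) e) '' orb T σ x)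
      (hfin.image _) ?_ _ ⟨y, hy, rfl⟩
    rintro α β h _ ⟨_, ⟨z, hz, rfl⟩, rfl⟩
    have hu := trans_mem T α β h
    have h1 : (1 : GL ι ℂ) ∈ Tr T σ σ := fun i => act_one _
    obtain ⟨z', hz', e'⟩ := trans_orb T σ x hrat hu h1 z hz
    refine ⟨_, ⟨z', hz', rfl⟩, ?_⟩
    rw [act_one, act_mul] at e'
    have e2 : act (map α (H.per σ)) (ratT ℂ z) = act (map β (H.per σ)) (ratT ℂ z') := by
      rw [← e', act_act_inv]
    have e3 := congrFun (map_act α (H.per σ) (ratT ℂ z)) e
    have e4 := congrFun (map_act β (H.per σ) (ratT ℂ z')) e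
    rw [ratT_map] at e3 e4
    rw [e3, e4, e2]
  choose d hd using key
  exact ⟨d, funext hd⟩

open Matrix.GeneralLinearGroup in
include hfin hrat in
/-- transported tensors are rational -/
theorem exists_rat {τ : k →+* ℂ} {u : GL ι ℂ} (hu : u ∈ Tr T σ τ) (y : Tens ι a b ℚ)
    (hy : y ∈ orb T σ x) :
    ∃ z : Tens ι a b ℚ, ratT ℂ z = act u (ratT ℂ y) := by
  have key : ∀ e, ∃ q : ℚ, act u (ratT ℂ y) e = q := by
    intro e
    refine stable_rat ((fun y : Tens ι a b ℚ => act u (ratT ℂ y) e) '' orb T σ x)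
      (hfin.image _) ?_ ?_ _ ⟨y, hy, rfl⟩
    · rintro α β _ ⟨_, ⟨z, hz, rfl⟩, rfl⟩
      obtain ⟨z', hz', e'⟩ := trans_orb T σ x hrat (map_mem T α hu) (map_mem T β hu) z hz
      refine ⟨_, ⟨z', hz', rfl⟩, ?_⟩
      have e3 := congrFun (map_act α u (ratT ℂ z)) e
      have e4 := congrFun (map_act β u (ratT ℂ z')) e
      rw [ratT_map] at e3 e4
      rw [e3, e4, e']
    · intro l hl
      obtain ⟨γ⟩ := embed_padic l
      refine ⟨γ, ?_⟩
      rintro _ ⟨z, hz, rfl⟩
      obtain ⟨z', hz', e'⟩ := trans_orb T σ x hrat hu (trans_mem_adic T σ τ γ) z hz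
      simp only
      rw [e', ← map_inv, ← map_mul, ← ratT_map γ z', ← map_act]
      exact ⟨_, rfl⟩
  choose z hz using key
  exact ⟨z, funext fun e => (hz e).symm⟩


include hfin hrat in
/-- transported tensors are of Hodge type (0,0) -/
theorem exists_hodge {τ : k →+* ℂ} {u : GL ι ℂ} (hu : u ∈ Tr T σ τ) (y z : Tens ι a b ℚ)
    (hy : y ∈ orb T σ x) (hz : ratT ℂ z = act u (ratT ℂ y)) : IsHodge (H.hodge τ) z := by
  -- the finite set of transported tensors
  set E : Set (Tens ι a b ℂ) := (fun y => act u (ratT ℂ y)) '' orb T σ x with hE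
  have hEfin : E.Finite := hfin.image _
  have hEst : ∀ g ∈ stab T τ, ∀ e ∈ E, act g e ∈ E := by
    rintro g hg _ ⟨w, hw, rfl⟩
    obtain ⟨w', hw', e'⟩ := trans_orb T σ x hrat (stab_mul_mem T hu hg) hu w hw
    exact ⟨w', hw', by simp only; rw [← e', act_mul]⟩
  -- powers act trivially
  have hpow : ∃ N : ℕ, 0 < N ∧ ∀ g ∈ stab T τ, ∀ e ∈ E, act (g ^ N) e = e := by
    have : Finite E := hEfin
    let φ : stab T τ →* Equiv.Perm E :=
      { toFun := fun g =>
          { toFun := fun e => ⟨act g.1 e.1, hEst g.1 g.2 e.1 e.2⟩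
            invFun := fun e => ⟨act g.1⁻¹ e.1, hEst _ (inv_mem g.2) e.1 e.2⟩
            left_inv := fun e => Subtype.ext (act_inv_act _ _)
            right_inv := fun e => Subtype.ext (act_act_inv _ _) }
        map_one' := by
          ext1 e
          exact Subtype.ext (act_one _)
        map_mul' := by
          intro g h
          ext1 e
          exact Subtype.ext (act_mul _ _ _) }
    refine ⟨Nat.card (Equiv.Perm E), Nat.card_pos, ?_⟩
    intro g hg e he
    have h1 : φ (⟨g, hg⟩ ^ Nat.card (Equiv.Perm E)) = 1 := by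
      rw [map_pow, pow_card_eq_one']
    have h2 := congrArg (fun ψ : Equiv.Perm E => (ψ ⟨e, he⟩).1) h1
    exact h2
  obtain ⟨N, hN, hNact⟩ := hpow
  intro z₁ z₂ g hg
  -- N-th roots
  obtain ⟨w₁, hw₁⟩ : ∃ w : ℂˣ, w ^ N = z₁ := by
    obtain ⟨c, hc⟩ := IsAlgClosed.exists_pow_nat_eq (z₁ : ℂ) hN
    have hc0 : c ≠ 0 := by
      rintro rfl
      rw [zero_pow hN.ne'] at hc
      exact z₁.ne_zero hc.symm
    exact ⟨Units.mk0 c hc0, Units.ext (by simpa using hc)⟩
  obtain ⟨w₂, hw₂⟩ : ∃ w : ℂˣ, w ^ N = z₂ := by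
    obtain ⟨c, hc⟩ := IsAlgClosed.exists_pow_nat_eq (z₂ : ℂ) hN
    have hc0 : c ≠ 0 := by
      rintro rfl
      rw [zero_pow hN.ne'] at hc
      exact z₂.ne_zero hc.symm
    exact ⟨Units.mk0 c hc0, Units.ext (by simpa using hc)⟩
  obtain ⟨h, hh⟩ := exists_torus (H.hodge τ) w₁ w₂
  have hgh : g = h ^ N := by
    have := hh.pow N
    rw [hw₁, hw₂] at this
    exact hg.unique this
  have hhs : h ∈ stab T τ := fun i => (T i).hodge τ w₁ w₂ h hh
  rw [hgh]
  apply hNact h hhs
  exact ⟨y, hy, hz.symm⟩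

end main


/-- A prime ideal of a polynomial ring over ℚ in finitely many variables is the kernel of an
evaluation at a complex point. -/
theorem exists_generic_point {V : Type} [Finite V] (P : Ideal (MvPolynomial V ℚ)) [P.IsPrime] :
    ∃ v : V → ℂ, ∀ p : MvPolynomial V ℚ, MvPolynomial.aeval v p = 0 ↔ p ∈ P := by
  have : Fintype V := Fintype.ofFinite V
  let A := MvPolynomial V ℚ ⧸ P
  let K := FractionRing A
  have hA : #A ≤ 𝔠 := by
    refine (Cardinal.mk_le_of_surjective Ideal.Quotient.mk_surjective).trans ?_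
    refine MvPolynomial.cardinalMk_le_max.trans ?_
    refine max_le (max_le ?_ ?_) aleph0_le_continuum
    · rw [Cardinal.mkRat]; exact aleph0_le_continuum
    · exact (Cardinal.lt_aleph0_of_finite V).le.trans aleph0_le_continuum
  have hK : #K ≤ 𝔠 := by
    have hsurj : Function.Surjective (fun z : A × nonZeroDivisors A => IsLocalization.mk' K z.1 z.2) := by
      intro x
      obtain ⟨a, b, h⟩ := IsLocalization.exists_mk'_eq (nonZeroDivisors A) x
      exact ⟨(a, b), h⟩
    refine (Cardinal.mk_le_of_surjective hsurj).trans ?_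
    rw [Cardinal.mk_prod]
    simp only [lift_id]
    calc #A * #(nonZeroDivisors A) ≤ 𝔠 * 𝔠 := by
            gcongr
            exact (Cardinal.mk_le_of_injective Subtype.val_injective).trans hA
      _ = 𝔠 := continuum_mul_self
  obtain ⟨α, β, h⟩ := amalg (algebraMap ℚ K) (algebraMap ℚ ℂ) hK
  let φ : MvPolynomial V ℚ →+* ℂ := α.comp ((algebraMap A K).comp (Ideal.Quotient.mk P))
  refine ⟨fun i => φ (MvPolynomial.X i), fun p => ?_⟩
  have h1 : MvPolynomial.aeval (fun i => φ (MvPolynomial.X i)) p = φ p := by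
    have : (MvPolynomial.aeval (fun i => φ (MvPolynomial.X i)) : MvPolynomial V ℚ →ₐ[ℚ] ℂ).toRingHom = φ := by
      apply MvPolynomial.ringHom_ext
      · intro r
        have h3 := eq_ratCast (φ.comp MvPolynomial.C) r
        rw [RingHom.comp_apply] at h3
        rw [h3]
        simp
      · intro i
        simp
    exact congrArg (fun ψ : MvPolynomial V ℚ →+* ℂ => ψ p) this
  rw [h1]
  simp only [φ, RingHom.comp_apply]
  rw [map_eq_zero_iff _ α.injective, map_eq_zero_iff _ (IsFractionRing.injective A K), Ideal.Quotient.eq_zero_iff_mem]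

/-- the point of affine space given by an invertible matrix and its inverse -/
noncomputable def pt (g : GL ι ℂ) : (ι × ι) ⊕ (ι × ι) → ℂ :=
  Sum.elim (fun e => (g : Matrix ι ι ℂ) e.1 e.2) (fun e => ((g⁻¹ : GL ι ℂ) : Matrix ι ι ℂ) e.1 e.2)

/-- generic action polynomial -/
noncomputable def actPoly {a b : ℕ} (x : Tens ι a b ℚ) (e : (Fin a → ι) × (Fin b → ι)) :
    MvPolynomial ((ι × ι) ⊕ (ι × ι)) ℚ :=
  ∑ f : (Fin a → ι) × (Fin b → ι),
    ((∏ j, MvPolynomial.X (Sum.inl (e.1 j, f.1 j))) *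
      (∏ j, MvPolynomial.X (Sum.inr (f.2 j, e.2 j)))) * MvPolynomial.C (x f)

theorem aeval_actPoly {a b : ℕ} (x : Tens ι a b ℚ) (e : (Fin a → ι) × (Fin b → ι)) (g : GL ι ℂ) :
    MvPolynomial.aeval (pt g) (actPoly x e) = act g (ratT ℂ x) e := by
  simp only [actPoly, act, map_sum, map_mul, map_prod, MvPolynomial.aeval_X, MvPolynomial.aeval_C, pt,
    Sum.elim_inl, Sum.elim_inr, ratT]
  rfl

/-- If every member of the orbit is rational then the orbit is finite. -/
theorem orb_finite (T : ∀ i, AHTensor H (m i) (n i)) (σ : k →+* ℂ) {a b : ℕ} (x : Tens ι a b ℚ)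
    (hrat : ∀ g ∈ stab T σ, ∃ y : Tens ι a b ℚ, ratT ℂ y = act g (ratT ℂ x)) :
    (orb T σ x).Finite := by
  let J : Ideal (MvPolynomial ((ι × ι) ⊕ (ι × ι)) ℚ) :=
    { carrier := {p | ∀ g ∈ stab T σ, MvPolynomial.aeval (pt g) p = 0}
      add_mem' := by
        intro p q hp hq g hg
        rw [map_add, hp g hg, hq g hg, add_zero]
      zero_mem' := by intro g _; exact map_zero _
      smul_mem' := by
        intro c p hp g hg
        rw [smul_eq_mul, map_mul, hp g hg, mul_zero] }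
  have hJ : ∀ p, p ∈ J ↔ ∀ g ∈ stab T σ, MvPolynomial.aeval (pt g) p = 0 := fun p => Iff.rfl
  have hminfin : (J.minimalPrimes).Finite := Ideal.finite_minimalPrimes_of_isNoetherianRing _ J
  -- on each component the orbit map is constant
  have hcomp : ∀ P : J.minimalPrimes, ∃ y : Tens ι a b ℚ,
      ∀ e, actPoly x e - MvPolynomial.C (y e) ∈ P.1 := by
    rintro ⟨P, hP⟩
    have hPp : P.IsPrime := hP.1.1
    have hJP : J ≤ P := hP.1.2
    obtain ⟨v, hv⟩ := exists_generic_point P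
    have hv' : ∀ p ∈ J, MvPolynomial.aeval v p = 0 := fun p hp => (hv p).2 (hJP hp)
    let G1 : Matrix ι ι ℂ := fun i j => v (Sum.inl (i, j))
    let G2 : Matrix ι ι ℂ := fun i j => v (Sum.inr (i, j))
    have hG12 : G1 * G2 = 1 := by
      ext i j
      have := hv' (∑ l, MvPolynomial.X (Sum.inl (i, l)) * MvPolynomial.X (Sum.inr (l, j)) -
        MvPolynomial.C ((1 : Matrix ι ι ℚ) i j)) (by
          intro g hg
          simp only [map_sub, map_sum, map_mul, MvPolynomial.aeval_X, MvPolynomial.aeval_C, pt,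
            Sum.elim_inl, Sum.elim_inr]
          rw [← Matrix.mul_apply, ← Units.val_mul, mul_inv_cancel, Units.val_one, Matrix.one_apply,
            Matrix.one_apply]
          split_ifs <;> simp)
      simp only [map_sub, map_sum, map_mul, MvPolynomial.aeval_X, MvPolynomial.aeval_C] at this
      rw [Matrix.mul_apply]
      rw [sub_eq_zero] at this
      rw [this, Matrix.one_apply, Matrix.one_apply]
      split_ifs <;> simp
    have hG21 : G2 * G1 = 1 := mul_eq_one_comm.1 hG12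
    let g : GL ι ℂ := ⟨G1, G2, hG12, hG21⟩
    have hpt : pt g = v := by
      funext e
      rcases e with e | e <;> rfl
    have hg : g ∈ stab T σ := by
      intro i
      funext e
      have := hv' (actPoly ((T i).betti σ) e - MvPolynomial.C ((T i).betti σ e)) (by
        intro g' hg'
        rw [map_sub, aeval_actPoly, MvPolynomial.aeval_C, congrFun (hg' i) e]
        simp [ratT])
      rw [map_sub, ← hpt, aeval_actPoly, MvPolynomial.aeval_C, sub_eq_zero] at this
      rw [this]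
      simp [ratT]
    obtain ⟨y, hy⟩ := hrat g hg
    refine ⟨y, fun e => ?_⟩
    rw [← hv, map_sub, ← hpt, aeval_actPoly, ← hy, MvPolynomial.aeval_C]
    simp [ratT]
  choose Y hY using hcomp
  have : Finite J.minimalPrimes := hminfin
  refine (Set.finite_range Y).subset ?_
  rintro y ⟨g, hg, hy⟩
  -- the kernel of evaluation at g contains a minimal prime
  let Q : Ideal (MvPolynomial ((ι × ι) ⊕ (ι × ι)) ℚ) := RingHom.ker (MvPolynomial.aeval (pt g) : MvPolynomial ((ι × ι) ⊕ (ι × ι)) ℚ →ₐ[ℚ] ℂ)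
  have hQ : Q.IsPrime := RingHom.ker_isPrime _
  have hJQ : J ≤ Q := fun p hp => hp g hg
  obtain ⟨P, hP, hPQ⟩ := Ideal.exists_minimalPrimes_le hJQ
  refine ⟨⟨P, hP⟩, ?_⟩
  apply ratT_injective (R := ℂ)
  rw [hy]
  funext e
  have := hPQ (hY ⟨P, hP⟩ e)
  have h2 : MvPolynomial.aeval (pt g) (actPoly x e - MvPolynomial.C (Y ⟨P, hP⟩ e)) = 0 := this
  rw [map_sub, aeval_actPoly, MvPolynomial.aeval_C, sub_eq_zero] at h2
  rw [h2]
  simp [ratT]

open Matrix.GeneralLinearGroup in
theorem orbit_principle {k : Type} [Field k] [IsAlgClosed k] {ι : Type} [Fintype ι] [DecidableEq ι]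
    (H : RealSys k ι) {I : Type} {m n : I → ℕ} (T : ∀ i, AHTensor H (m i) (n i))
    (σ : k →+* ℂ) {a b : ℕ} (x : Tens ι a b ℚ) (hfin : (orb T σ x).Finite)
    (hrat : ∀ g ∈ stab T σ, ∃ y : Tens ι a b ℚ, ratT ℂ y = act g (ratT ℂ x)) :
    ∃ (D : orb T σ x → Tens ι a b k) (B : (k →+* ℂ) → orb T σ x → Tens ι a b ℚ),
      (∀ y, B σ y = y) ∧
      (∀ τ y, IsHodge (H.hodge τ) (B τ y)) ∧
      (∀ τ y, act (H.per τ) (ratT ℂ (B τ y)) = fun e => τ (D y e)) ∧
      ∀ (τ : k →+* ℂ) (l : ℕ) [Fact l.Prime], ∃ π : Equiv.Perm (orb T σ x),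
        (∃ g ∈ stab T σ, ∀ y, ratT ℂ (π y : Tens ι a b ℚ) = act g (ratT ℂ (y : Tens ι a b ℚ))) ∧
        ∀ y, act (H.et τ l) (ratT ℚ_[l] (B τ y)) =
          act (H.et σ l) (ratT ℚ_[l] (π y : Tens ι a b ℚ)) := by
  choose D hD using fun y : orb T σ x => exists_dR T σ x hfin hrat y.1 y.2
  have hpair : ∀ τ : k →+* ℂ, ∃ α β : ℂ →+* ℂ, α.comp σ = β.comp τ := fun τ =>
    amalg σ τ mk_complex.le
  choose α β hαβ using hpair
  choose B hB using fun (τ : k →+* ℂ) (y : orb T σ x) =>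
    exists_rat T σ x hfin hrat (trans_mem T (α τ) (β τ) (hαβ τ)) y.1 y.2
  have hdR : ∀ τ y, act (H.per τ) (ratT ℂ (B τ y)) = fun e => τ (D y e) := by
    intro τ y
    funext e
    apply (β τ).injective
    have e1 := congrFun (map_act (β τ) (H.per τ) (ratT ℂ (B τ y))) e
    rw [e1, ratT_map, hB τ y, act_mul, act_act_inv]
    have e2 := congrFun (map_act (α τ) (H.per σ) (ratT ℂ y.1)) e
    rw [ratT_map] at e2
    rw [← e2, hD y]
    exact congrArg (fun φ : k →+* ℂ => φ (D y e)) (hαβ τ)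
  refine ⟨D, B, ?_, ?_, hdR, ?_⟩
  · intro y
    have h1 := hdR σ y
    rw [← hD y] at h1
    exact ratT_injective (act_injective _ h1)
  · intro τ y
    exact exists_hodge T σ x hfin hrat (trans_mem T (α τ) (β τ) (hαβ τ)) y.1 _ y.2 (hB τ y)
  · intro τ l hl
    obtain ⟨γ⟩ := embed_padic l
    set u := (map (β τ) (H.per τ))⁻¹ * map (α τ) (H.per σ) with hu
    set v := (map γ (H.et τ l))⁻¹ * map γ (H.et σ l) with hv
    have hu' : u ∈ Tr T σ τ := trans_mem T (α τ) (β τ) (hαβ τ)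
    have hv' : v ∈ Tr T σ τ := trans_mem_adic T σ τ γ
    have hg : v⁻¹ * u ∈ stab T σ := inv_mul_mem T hv' hu'
    choose π hπ1 hπ2 using fun y : orb T σ x => orb_stable T σ x hrat (v⁻¹ * u) hg y.1 y.2
    choose π' hπ'1 hπ'2 using fun y : orb T σ x => orb_stable T σ x hrat (v⁻¹ * u)⁻¹ (inv_mem hg) y.1 y.2
    refine ⟨⟨fun y => ⟨π y, hπ1 y⟩, fun y => ⟨π' y, hπ'1 y⟩, ?_, ?_⟩, ⟨v⁻¹ * u, hg, fun y => hπ2 y⟩, ?_⟩
    · intro y
      apply Subtype.ext
      apply ratT_injective (R := ℂ)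
      rw [hπ'2, hπ2, act_inv_act]
    · intro y
      apply Subtype.ext
      apply ratT_injective (R := ℂ)
      rw [hπ2, hπ'2, act_act_inv]
    · intro y
      have e1 := map_act γ (H.et τ l) (ratT ℚ_[l] (B τ y))
      have e2 := map_act γ (H.et σ l) (ratT ℚ_[l] (π y))
      rw [ratT_map, hB τ y] at e1
      rw [ratT_map, hπ2 y] at e2
      have e3 : act (map γ (H.et τ l)) (act u (ratT ℂ y.1)) = act (map γ (H.et σ l)) (act (v⁻¹ * u) (ratT ℂ y.1)) := by
        have : map γ (H.et σ l) * (v⁻¹ * u) = map γ (H.et τ l) * u := by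
          rw [hv]; group
        rw [← act_mul, ← act_mul, this]
      funext e
      apply γ.injective
      rw [congrFun e1 e, e3, ← congrFun e2 e]
      rfl

end

end Pool.Agent.Work.MP_0da4e0_ag

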