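import Pool.Agent.Work.MP_0da4e0_ag.EffMT
import Pool.Agent.Work.MP_0da4e0_ag.EffBic
import Pool.Agent.Work.MP_0da4e0_ag.Orbit

open Matrix

namespace Pool.Agent.Work.MP_0da4e0_ag

variable {ι : Type} [Fintype ι] [DecidableEq ι]

section
open scoped ComplexOrder MatrixOrder

theorem rho_posDef {N : ℕ} {B : Matrix ι ι ℂ} (hB : B.PosDef) : (rho N B).PosDef := by
  obtain ⟨y, hy⟩ := CStarAlgebra.nonneg_iff_eq_star_mul_self.mp hB.posSemidef.nonneg
  rw [Matrix.star_eq_conjTranspose] at hy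
  have h1 : rho N B = (rho N y)ᴴ * rho N y := by
    rw [hy, map_mul, rho_star]
  have h2 : IsUnit (rho N B) := hB.isUnit.map (rho N)
  have h3 : (rho N B).PosSemidef := by
    rw [h1]
    exact Matrix.posSemidef_conjTranspose_mul_self _
  exact h3.posDef_iff_isUnit.2 h2

/-- a matrix fixing the Hodge tensors of degree at most N acts on tensors of degree at most N like a
combination of elements of the group generated by the conjugates of the torus -/
theorem rho_mem_span {h : HodgeStr ι} {S : Matrix ι ι ℚ} (hS : Polarizes h S) (N : ℕ) (g : GL ι ℂ)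
    (hg : ∀ a b : ℕ, a ≤ N → b ≤ N → ∀ s : Tens ι a b ℚ, IsHodge h s →
      act g (ratT ℂ s) = ratT ℂ s) :
    rho N (g : Matrix ι ι ℂ) ∈ Submodule.span ℂ (((MTm h).map (rho N) : Submonoid _) : Set (Matrix (Idx ι N) (Idx ι N) ℂ)) := by
  have hpos := weil_posDef' hS (tor_spec h unitI unitI⁻¹)
  refine bicommutant ((MTm h).map (rho N)) (rho N _) (rho_posDef hpos) ?_ _ ?_
  · rintro _ ⟨a, ha, rfl⟩
    obtain ⟨a', ha', h1⟩ := star_closed hS a ha
    refine ⟨rho N a', ⟨a', ha', rfl⟩, ?_⟩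
    rw [← map_mul, h1, map_mul, rho_star]
  · intro X hX
    rw [commute_iff]
    intro a b
    have hfix : ∀ j z, act (muG h j z) (blk X a b) = blk X a b := by
      intro j z
      exact (commute_iff (muG h j z) X).1
        (hX _ ⟨mu h j z, Submonoid.subset_closure ⟨j, z, rfl⟩, rfl⟩) a b
    have hspan := fixed_span (blk X a b) hfix
    generalize blk X a b = y at hspan
    induction hspan using Submodule.span_induction with
    | mem x hx =>
      obtain ⟨s, hs, rfl⟩ := hx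
      exact hg a b (Nat.lt_succ_iff.1 a.2) (Nat.lt_succ_iff.1 b.2) s hs
    | zero => rw [act_eq, Matrix.mulVec_zero]
    | add x y _ _ hx hy => rw [act_add, hx, hy]
    | smul c x _ hx => rw [act_smul, hx]

end

/-- a matrix fixing all Hodge tensors of bounded degree fixes all Hodge tensors -/
theorem fixes_all {h : HodgeStr ι} {S : Matrix ι ι ℚ} (hS : Polarizes h S) {H : ℕ}
    (hH : ∀ p q : ℤ, h.V (p, q) ≠ ⊥ → |p| ≤ H) (g : GL ι ℂ)
    (hg : ∀ a b : ℕ, a ≤ effN (Fintype.card (ι × ι)) H → b ≤ effN (Fintype.card (ι × ι)) H →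
      ∀ s : Tens ι a b ℚ, IsHodge h s → act g (ratT ℂ s) = ratT ℂ s)
    (a b : ℕ) (s : Tens ι a b ℚ) (hs : IsHodge h s) : act g (ratT ℂ s) = ratT ℂ s := by
  set N := effN (Fintype.card (ι × ι)) H with hN
  have hspan := rho_mem_span hS N g hg
  have hlow : ∀ f : MvPolynomial (ι × ι) ℂ, f.totalDegree ≤ N →
      (∀ x ∈ MTm h, evM x f = 0) → evM (g : Matrix ι ι ℂ) f = 0 := by
    intro f hf hf0
    obtain ⟨F, hF⟩ := exists_functional f hf
    rw [hF]
    have h1 : Submodule.span ℂ (((MTm h).map (rho N) : Submonoid _) : Set (Matrix (Idx ι N) (Idx ι N) ℂ)) ≤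
        LinearMap.ker F := by
      rw [Submodule.span_le]
      rintro _ ⟨x, hx, rfl⟩
      change F (rho N x) = 0
      rw [← hF]
      exact hf0 x hx
    exact h1 hspan
  have hall := word_bound (mu_one h) (mu_laurent hH) (g : Matrix ι ι ℂ) hlow
  rw [act_eq_iff]
  ext e f
  obtain ⟨P, hP⟩ := exists_equation (ratT ℂ s) e f
  have h1 := hall P (fun x hx => by
    rw [hP, fixed_monoid (fun j z => hodge_fixed hs j z) x hx, sub_self])
  rw [hP, sub_eq_zero] at h1
  exact h1

/-- Effective criterion: if all Hodge tensors of bounded bidegree are absolutely Hodge, then all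
Hodge tensors are. -/
theorem effective {k : Type} [Field k] [IsAlgClosed k] (X : RealSys k ι) (σ : k →+* ℂ)
    (S : Matrix ι ι ℚ) (hS : Polarizes (X.hodge σ) S) (H : ℕ)
    (hH : ∀ p q : ℤ, (X.hodge σ).V (p, q) ≠ ⊥ → |p| ≤ H)
    (hAH : ∀ a b : ℕ, a ≤ effN (Fintype.card (ι × ι)) H → b ≤ effN (Fintype.card (ι × ι)) H →
      ∀ t : Tens ι a b ℚ, IsHodge (X.hodge σ) t → ∃ s : AHTensor X a b, s.betti σ = t)
    (a b : ℕ) (x : Tens ι a b ℚ) (hx : IsHodge (X.hodge σ) x) :
    ∃ s : AHTensor X a b, s.betti σ = x := by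
  let I := Σ (d : ℕ × ℕ), AHTensor X d.1 d.2
  let T : ∀ i : I, AHTensor X i.1.1 i.1.2 := fun i => i.2
  have hfix : ∀ g ∈ stab T σ, act g (ratT ℂ x) = ratT ℂ x := by
    intro g hg
    apply fixes_all hS hH g _ a b x hx
    intro a' b' ha' hb' s hs
    obtain ⟨t, ht⟩ := hAH a' b' ha' hb' s hs
    rw [← ht]
    exact hg ⟨(a', b'), t⟩
  have hrat : ∀ g ∈ stab T σ, ∃ y : Tens ι a b ℚ, ratT ℂ y = act g (ratT ℂ x) := by
    intro g hg
    exact ⟨x, (hfix g hg).symm⟩
  have horb : ∀ y ∈ orb T σ x, y = x := by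
    rintro y ⟨g, hg, hy⟩
    rw [hfix g hg] at hy
    exact ratT_injective hy
  obtain ⟨D, B, h1, h2, h3, h4⟩ := orbit_principle X T σ x (orb_finite T σ x hrat) hrat
  have hx0 : x ∈ orb T σ x := ⟨1, one_mem _, (act_one _).symm⟩
  let x0 : orb T σ x := ⟨x, hx0⟩
  have hsub : ∀ y : orb T σ x, (y : Tens ι a b ℚ) = x := fun y => horb y y.2
  refine ⟨{ dR := D x0
            ad := fun l _ => act (X.et σ l) (ratT ℚ_[l] x)
            betti := fun τ => B τ x0
            comp_dR := fun τ => h3 τ x0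
            comp_ad := ?_
            hodge := fun τ => h2 τ x0 }, h1 x0⟩
  intro τ l hl
  obtain ⟨π, -, hπ⟩ := h4 τ l
  rw [hπ x0, hsub]

end Pool.Agent.Work.MP_0da4e0_ag
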