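import Pool.Agent.Work.MP_0da4e0_ag.EndT

open Matrix

namespace Pool.Agent.Work.MP_0da4e0_ag

variable {ι : Type} [Fintype ι] [DecidableEq ι]

theorem dact_ratT {m n : ℕ} (Y : Matrix ι ι ℚ) (t : Tens ι m n ℚ) :
    dact (cx Y) (ratT ℂ t) = ratT ℂ (dact Y t) := by
  have := map_dact (Rat.castHom ℂ) Y t
  exact this.symm

theorem ratT_zero {m n : ℕ} : ratT ℂ (0 : Tens ι m n ℚ) = 0 := by
  funext e
  simp [ratT]

theorem dact_one {R : Type} [CommRing R] {a b : ℕ} (t : Tens ι a b R) :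
    dact (1 : Matrix ι ι R) t = ((a : R) - b) • t := by
  have h1 : dmat a b (1 : Matrix ι ι R) = ((a : R) - b) • (actMat (1 : GL ι R)) := by
    ext e f
    simp only [dmat, actMat, Matrix.smul_apply, smul_eq_mul, inv_one, Units.val_one]
    have e1 : ∀ {J : Type} [Fintype J] [DecidableEq J] (φ : J → R),
        ∑ j, (∏ i ∈ Finset.univ.erase j, φ i) * φ j = (Fintype.card J : R) * ∏ i, φ i := by
      intro J _ _ φ
      rw [Finset.sum_congr rfl (fun j _ => Finset.prod_erase_mul Finset.univ φ (Finset.mem_univ j))]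
      simp
    rw [e1, e1, Fintype.card_fin, Fintype.card_fin]
    ring
  rw [dact, h1, actMat_one, Matrix.smul_mulVec, Matrix.one_mulVec]

/-- the Lie algebra of the group fixing all Hodge tensors, over ℚ -/
def mtLie (h : HodgeStr ι) : Submodule ℚ (Matrix ι ι ℚ) where
  carrier := {Y | ∀ (m n : ℕ) (t : Tens ι m n ℚ), IsHodge h t → dact Y t = 0}
  add_mem' := by
    intro X Y hX hY m n t ht
    rw [dact_add, hX m n t ht, hY m n t ht, add_zero]
  zero_mem' := fun m n t _ => dact_zero t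
  smul_mem' := by
    intro c X hX m n t ht
    rw [dact_smul, hX m n t ht, smul_zero]

/-- the Lie algebra of the group fixing all Hodge tensors, over ℂ -/
def mtLieC (h : HodgeStr ι) : Submodule ℂ (Matrix ι ι ℂ) where
  carrier := {Y | ∀ (m n : ℕ) (t : Tens ι m n ℚ), IsHodge h t → dact Y (ratT ℂ t) = 0}
  add_mem' := by
    intro X Y hX hY m n t ht
    rw [dact_add, hX m n t ht, hY m n t ht, add_zero]
  zero_mem' := fun m n t _ => dact_zero _
  smul_mem' := by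
    intro c X hX m n t ht
    rw [dact_smul, hX m n t ht, smul_zero]

theorem cx_mem {h : HodgeStr ι} {Y : Matrix ι ι ℚ} (hY : Y ∈ mtLie h) : cx Y ∈ mtLieC h := by
  intro m n t ht
  rw [dact_ratT, hY m n t ht, ratT_zero]

theorem mtLieC_span {h : HodgeStr ι} {Y : Matrix ι ι ℂ} (hY : Y ∈ mtLieC h) :
    Y ∈ Submodule.span ℂ {Z | ∃ Z' : Matrix ι ι ℚ, Z' ∈ mtLie h ∧ Z = cx Z'} := by
  let M := Σ (d : ℕ × ℕ), {t : Tens ι d.1 d.2 ℚ // IsHodge h t} × ((Fin d.1 → ι) × (Fin d.2 → ι))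
  let L : M → (Matrix ι ι ℚ →ₗ[ℚ] ℚ) := fun r =>
    { toFun := fun Z => dact Z r.2.1.1 r.2.2
      map_add' := fun X Y => by rw [dact_add]; rfl
      map_smul' := fun c X => by rw [dact_smul]; rfl }
  let LC : M → (Matrix ι ι ℂ →ₗ[ℂ] ℂ) := fun r =>
    { toFun := fun Z => dact Z (ratT ℂ r.2.1.1) r.2.2
      map_add' := fun X Y => by rw [dact_add]; rfl
      map_smul' := fun c X => by rw [dact_smul]; rfl }
  have h1 := mat_span L LC (fun r Z => by
    change dact (cx Z) (ratT ℂ r.2.1.1) r.2.2 = _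
    rw [dact_ratT]; rfl) Y (fun r => congrFun (hY _ _ r.2.1.1 r.2.1.2) r.2.2)
  refine Submodule.span_mono ?_ h1
  rintro _ ⟨Z', hZ', rfl⟩
  exact ⟨Z', fun m n t ht => funext fun e => hZ' ⟨(m, n), ⟨t, ht⟩, e⟩, rfl⟩

theorem conj_mem_mt {h : HodgeStr ι} {Y : Matrix ι ι ℂ} (hY : Y ∈ mtLieC h) :
    Y.map (starRingEnd ℂ) ∈ mtLieC h := by
  intro m n t ht
  have h1 := map_dact (starRingEnd ℂ) Y (ratT ℂ t)
  rw [hY m n t ht, ratT_map] at h1
  rw [← h1]
  funext e
  simp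

theorem torus_mem_mt {h : HodgeStr ι} {z w : ℂˣ} {g : GL ι ℂ} (hg : IsTorus h z w g) {Y : Matrix ι ι ℂ}
    (hY : Y ∈ mtLieC h) : (g : Matrix ι ι ℂ) * Y * ((g⁻¹ : GL ι ℂ) : Matrix ι ι ℂ) ∈ mtLieC h := by
  intro m n t ht
  have h1 := act_dact g Y (ratT ℂ t)
  rw [hY m n t ht, ht z w g hg] at h1
  rw [← h1]
  funext e
  simp [act]

theorem IsTorus.inv {h : HodgeStr ι} {z w : ℂˣ} {g : GL ι ℂ} (hg : IsTorus h z w g) :
    IsTorus h z⁻¹ w⁻¹ g⁻¹ := by
  obtain ⟨g', hg'⟩ := exists_torus h z⁻¹ w⁻¹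
  have h1 := hg.mul hg'
  rw [mul_inv_cancel, mul_inv_cancel] at h1
  have h2 := h1.unique IsTorus.one
  have h3 : g' = g⁻¹ := (inv_eq_of_mul_eq_one_right h2).symm
  rwa [h3] at hg'

theorem exists_gen (h : HodgeStr ι) (α β : ℤ) : ∃ F ∈ mtLieC h,
    ∀ p q v, v ∈ h.V (p, q) → F *ᵥ v = ((α * p + β * q : ℤ) : ℂ) • v := by
  obtain ⟨f, hf⟩ := exists_eigen h (fun i => ((α * i.1 + β * i.2 : ℤ) : ℂ))
  have hF : ∀ p q v, v ∈ h.V (p, q) → LinearMap.toMatrix' f *ᵥ v = ((α * p + β * q : ℤ) : ℂ) • v := by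
    intro p q v hv
    rw [LinearMap.toMatrix'_mulVec]
    exact hf (p, q) v hv
  exact ⟨LinearMap.toMatrix' f, fun m n t ht => dact_hodge ht _ α β hF, hF⟩

section exp
open NormedSpace
attribute [local instance] Matrix.linftyOpNormedRing Matrix.linftyOpNormedAlgebra

/-- matrices commuting with the infinitesimal generators commute with the torus -/
theorem commute_torus {h : HodgeStr ι} {B : Matrix ι ι ℂ} (hB : ∀ X ∈ mtLieC h, X * B = B * X)
    {z w : ℂˣ} {g : GL ι ℂ} (hg : IsTorus h z w g) : (g : Matrix ι ι ℂ) * B = B * (g : Matrix ι ι ℂ) := by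
  obtain ⟨F1, hF1, hF1'⟩ := exists_gen h 1 0
  obtain ⟨F2, hF2, hF2'⟩ := exists_gen h 0 1
  obtain ⟨α, hα⟩ : ∃ α, Complex.exp α = z := ⟨Complex.log z, Complex.exp_log z.ne_zero⟩
  obtain ⟨β, hβ⟩ : ∃ β, Complex.exp β = w := ⟨Complex.log w, Complex.exp_log w.ne_zero⟩
  have hgexp : (g : Matrix ι ι ℂ) = exp (α • F1 + β • F2) := by
    apply mulVec_ext (h := h)
    intro p q v hv
    have h1 : (α • F1 + β • F2) *ᵥ v = (α * p + β * q) • v := by
      rw [Matrix.add_mulVec, Matrix.smul_mulVec, Matrix.smul_mulVec, hF1' p q v hv, hF2' p q v hv,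
        smul_smul, smul_smul, ← add_smul]
      congr 1
      push_cast
      ring
    rw [exp_mulVec_eigen _ _ _ h1, hg p q v hv]
    congr 1
    rw [Units.val_mul, Units.val_zpow_eq_zpow_val, Units.val_zpow_eq_zpow_val, ← hα, ← hβ,
      ← Complex.exp_int_mul, ← Complex.exp_int_mul, ← Complex.exp_add]
    congr 1
    ring
  rw [hgexp]
  have hc : Commute B (α • F1 + β • F2) :=
    ((show Commute B F1 from (hB F1 hF1).symm).smul_right α).add_right
      ((show Commute B F2 from (hB F2 hF2).symm).smul_right β)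
  exact (hc.exp_right).eq.symm

end exp

end Pool.Agent.Work.MP_0da4e0_ag
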