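import Pool.Agent.Work.MP_0da4e0_ag.Polar1
import Pool.Agent.Work.MP_0da4e0_ag.MtLie

open Matrix

namespace Pool.Agent.Work.MP_0da4e0_ag

variable {ι : Type} [Fintype ι] [DecidableEq ι]

/-- `S` is the matrix of a rational bilinear form which polarizes every weight space of the Hodge
structure `h`: `V (p, q)` is orthogonal to every `V (p', q')` except `V (q, p)`, the form is
`(-1) ^ (p + q)`-symmetric on `V (p, q) × V (q, p)`, and `i ^ (p - q) * S (v, conj v)` is positive for all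
non-zero `v` in `V (p, q)`. -/
structure Polarizes (h : HodgeStr ι) (S : Matrix ι ι ℚ) : Prop where
  symm : ∀ p q : ℤ, ∀ u ∈ h.V (p, q), ∀ v ∈ h.V (q, p),
    u ⬝ᵥ (cx S *ᵥ v) = (-1 : ℂ) ^ (p + q) * (v ⬝ᵥ (cx S *ᵥ u))
  orth : ∀ (p q p' q' : ℤ), (p', q') ≠ (q, p) → ∀ u ∈ h.V (p, q), ∀ v ∈ h.V (p', q'),
    u ⬝ᵥ (cx S *ᵥ v) = 0
  pos : ∀ (p q : ℤ), ∀ v ∈ h.V (p, q), v ≠ 0 →
    0 < (Complex.I ^ (p - q) * (v ⬝ᵥ (cx S *ᵥ fun i => starRingEnd ℂ (v i)))).re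

/-- action of the torus on the polarization -/
theorem torus_bil' {h : HodgeStr ι} {S : Matrix ι ι ℚ} (hS : Polarizes h S) {z z' : ℂˣ}
    {g g2 : GL ι ℂ} (hg : IsTorus h z z' g) (hg2 : IsTorus h (z * z') (z * z') g2) :
    (g : Matrix ι ι ℂ)ᵀ * cx S * (g : Matrix ι ι ℂ) = cx S * (g2 : Matrix ι ι ℂ) := by
  apply bil_ext (h := h)
  intro p q p' q' u hu v hv
  have h1 : u ⬝ᵥ (((g : Matrix ι ι ℂ)ᵀ * cx S * (g : Matrix ι ι ℂ)) *ᵥ v) =
      ((g : Matrix ι ι ℂ) *ᵥ u) ⬝ᵥ (cx S *ᵥ ((g : Matrix ι ι ℂ) *ᵥ v)) := by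
    rw [← Matrix.mulVec_mulVec, ← Matrix.mulVec_mulVec, Matrix.dotProduct_mulVec, Matrix.vecMul_transpose]
  rw [h1, hg p q u hu, hg p' q' v hv, Matrix.mulVec_smul, smul_dotProduct, dotProduct_smul, smul_smul,
    ← Matrix.mulVec_mulVec, hg2 p' q' v hv, Matrix.mulVec_smul, dotProduct_smul]
  by_cases hne : (p', q') = (q, p)
  · obtain ⟨rfl, rfl⟩ := Prod.mk.inj hne
    congr 1
    rw [← Units.val_mul]
    congr 1
    rw [mul_zpow, mul_zpow]
    ac_rfl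
  · rw [hS.orth p q p' q' hne u hu v hv]
    simp

theorem weil_inv_real {h : HodgeStr ι} {C : GL ι ℂ} (hC : IsTorus h unitI unitI⁻¹ C) :
    ((C⁻¹ : GL ι ℂ) : Matrix ι ι ℂ).map (starRingEnd ℂ) = ((C⁻¹ : GL ι ℂ) : Matrix ι ι ℂ) := by
  have h3 := weil_real hC
  have hiC : ((C⁻¹ : GL ι ℂ) : Matrix ι ι ℂ) * (C : Matrix ι ι ℂ) = 1 := by
    rw [← Units.val_mul, inv_mul_cancel, Units.val_one]
  have hCi : (C : Matrix ι ι ℂ) * ((C⁻¹ : GL ι ℂ) : Matrix ι ι ℂ) = 1 := by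
    rw [← Units.val_mul, mul_inv_cancel, Units.val_one]
  have h4 : ((C⁻¹ : GL ι ℂ) : Matrix ι ι ℂ).map (starRingEnd ℂ) * (C : Matrix ι ι ℂ) = 1 := by
    conv_lhs => rw [← h3]
    rw [← Matrix.map_mul, hiC]
    exact Matrix.map_one _ (map_zero _) (map_one _)
  calc ((C⁻¹ : GL ι ℂ) : Matrix ι ι ℂ).map (starRingEnd ℂ)
      = ((C⁻¹ : GL ι ℂ) : Matrix ι ι ℂ).map (starRingEnd ℂ) * ((C : Matrix ι ι ℂ) * ((C⁻¹ : GL ι ℂ) : Matrix ι ι ℂ)) := by
        rw [hCi, Matrix.mul_one]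
    _ = _ := by rw [← Matrix.mul_assoc, h4, Matrix.one_mul]

omit [Fintype ι] [DecidableEq ι] in
theorem cx_map_conj (S : Matrix ι ι ℚ) : (cx S).map (starRingEnd ℂ) = cx S := by
  ext i j
  simp [cx]

/-- the inverse of the Weil operator on a vector of type (p, q) -/
theorem weil_inv_apply {h : HodgeStr ι} {C : GL ι ℂ} (hC : IsTorus h unitI unitI⁻¹ C) {p q : ℤ}
    {v : ι → ℂ} (hv : v ∈ h.V (p, q)) :
    ((C⁻¹ : GL ι ℂ) : Matrix ι ι ℂ) *ᵥ v = (Complex.I ^ (q - p)) • v := by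
  have h1 := hC.inv
  rw [inv_inv] at h1
  rw [h1 p q v hv]
  congr 1
  rw [Units.val_mul, Units.val_zpow_eq_zpow_val, Units.val_zpow_eq_zpow_val, Units.val_inv_eq_inv_val]
  change (Complex.I)⁻¹ ^ p * Complex.I ^ q = _
  rw [_root_.inv_zpow', ← zpow_add₀ Complex.I_ne_zero]
  congr 1
  ring

section
open scoped ComplexOrder

theorem weil_posDef' {h : HodgeStr ι} {S : Matrix ι ι ℚ} (hS : Polarizes h S) {C : GL ι ℂ}
    (hC : IsTorus h unitI unitI⁻¹ C) :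
    (cx S * ((C⁻¹ : GL ι ℂ) : Matrix ι ι ℂ)).PosDef := by
  set B := cx S * ((C⁻¹ : GL ι ℂ) : Matrix ι ι ℂ) with hB
  have hBreal : B.map (starRingEnd ℂ) = B := by
    rw [hB, Matrix.map_mul, cx_map_conj, weil_inv_real hC]
  have hBv : ∀ p q, ∀ v ∈ h.V (p, q), ∀ u : ι → ℂ,
      u ⬝ᵥ (B *ᵥ v) = Complex.I ^ (q - p) * (u ⬝ᵥ (cx S *ᵥ v)) := by
    intro p q v hv u
    rw [hB, ← Matrix.mulVec_mulVec, weil_inv_apply hC hv, Matrix.mulVec_smul, dotProduct_smul, smul_eq_mul]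
  have hsymm : Bᵀ = B := by
    apply bil_ext (h := h)
    intro p q p' q' u hu v hv
    have h1 : u ⬝ᵥ (Bᵀ *ᵥ v) = v ⬝ᵥ (B *ᵥ u) := by
      rw [Matrix.mulVec_transpose, dotProduct_comm, Matrix.dotProduct_mulVec]
    rw [h1, hBv p q u hu, hBv p' q' v hv]
    by_cases hne : (p', q') = (q, p)
    · obtain ⟨rfl, rfl⟩ := Prod.mk.inj hne
      rw [hS.symm q' p' u hu v hv]
      have h2 : (-1 : ℂ) ^ (q' + p') = Complex.I ^ (2 * (q' + p')) := by
        rw [_root_.zpow_mul]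
        congr 1
        rw [zpow_ofNat, Complex.I_sq]
      rw [h2, ← mul_assoc, ← zpow_add₀ Complex.I_ne_zero]
      congr 1
      have h3 : q' - p' + 2 * (q' + p') = (p' - q') + 4 * q' := by ring
      rw [h3, zpow_add₀ Complex.I_ne_zero, _root_.zpow_mul]
      have h4 : Complex.I ^ (4 : ℤ) = 1 := by
        rw [zpow_ofNat, Complex.I_pow_four]
      rw [h4, _root_.one_zpow, mul_one]
    · rw [hS.orth p q p' q' hne u hu v hv, hS.orth p' q' p q (by
        intro h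
        apply hne
        obtain ⟨h1, h2⟩ := Prod.mk.inj h
        exact Prod.ext h2.symm h1.symm) v hv u hu, mul_zero, mul_zero]
  have hherm : B.IsHermitian := by
    rw [Matrix.IsHermitian]
    have : Bᴴ = (B.map (starRingEnd ℂ))ᵀ := by
      ext i j; simp [Matrix.conjTranspose_apply]
    rw [this, hBreal, hsymm]
  refine PosDef.of_dotProduct_mulVec_pos hherm ?_
  intro x hx
  have him := hherm.im_star_dotProduct_mulVec_self x
  obtain ⟨f, hf, hfx⟩ := hodge_decomp h (star x)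
  have hpure : ∀ i j : ℤ × ℤ, (f i) ⬝ᵥ (B *ᵥ (star (f j))) =
      if i = j then Complex.I ^ (i.1 - i.2) * ((f i) ⬝ᵥ (cx S *ᵥ star (f i))) else 0 := by
    intro i j
    have hj : star (f j) ∈ h.V (j.2, j.1) := h.conj_mem j.1 j.2 _ (hf j)
    rw [hBv j.2 j.1 _ hj]
    split_ifs with hij
    · subst hij
      rfl
    · rw [hS.orth i.1 i.2 j.2 j.1 (by
        intro h
        apply hij
        obtain ⟨h1, h2⟩ := Prod.mk.inj h
        exact Prod.ext h2.symm h1.symm) (f i) (hf i) _ hj, mul_zero]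
  have hval : star x ⬝ᵥ (B *ᵥ x) =
      ∑ i ∈ f.support, Complex.I ^ (i.1 - i.2) * ((f i) ⬝ᵥ (cx S *ᵥ star (f i))) := by
    have hx' : x = ∑ i ∈ f.support, star (f i) := by
      have := congrArg star hfx
      rw [star_star] at this
      rw [this, Finsupp.sum, star_sum]
    conv_lhs => rw [hfx, Finsupp.sum, hx']
    rw [Matrix.mulVec_sum, sum_dotProduct]
    apply Finset.sum_congr rfl
    intro i hi
    rw [dotProduct_sum, Finset.sum_eq_single i]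
    · rw [hpure, if_pos rfl]
    · intro j _ hj
      rw [hpure, if_neg (Ne.symm hj)]
    · intro h; exact absurd hi h
  have hre : 0 < (star x ⬝ᵥ (B *ᵥ x)).re := by
    rw [hval, Complex.re_sum]
    apply Finset.sum_pos
    · intro i hi
      exact hS.pos i.1 i.2 (f i) (hf i) (Finsupp.mem_support_iff.1 hi)
    · rw [Finsupp.support_nonempty_iff]
      rintro rfl
      rw [Finsupp.sum_zero_index] at hfx
      exact hx (by simpa using hfx)
  exact Complex.lt_def.2 ⟨hre, him.symm⟩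

end

end Pool.Agent.Work.MP_0da4e0_ag
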