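import Pool.Agent.Work.MP_0da4e0_ag.Polar2

open Matrix

namespace Pool.Agent.Work.MP_0da4e0_ag

variable {ι : Type} [Fintype ι] [DecidableEq ι]

omit [Fintype ι] in
theorem cx_single (i j : ι) : cx (Matrix.single i j (1 : ℚ)) = Matrix.single i j (1 : ℂ) := by
  ext k l
  simp only [cx, Matrix.map_apply, Matrix.single_apply]
  split_ifs <;> simp

theorem mat_sum_single {R : Type} [CommRing R] (Z : Matrix ι ι R) :
    Z = ∑ e : ι × ι, Z e.1 e.2 • Matrix.single e.1 e.2 (1 : R) := by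
  rw [Fintype.sum_prod_type]
  conv_lhs => rw [Matrix.matrix_eq_sum_single Z]
  apply Finset.sum_congr rfl
  intro i _
  apply Finset.sum_congr rfl
  intro j _
  rw [Matrix.smul_single, smul_eq_mul, mul_one]

/-- solutions over ℂ of rational linear conditions on matrices are spanned by rational solutions -/
theorem mat_span {M : Type} (L : M → (Matrix ι ι ℚ →ₗ[ℚ] ℚ)) (LC : M → (Matrix ι ι ℂ →ₗ[ℂ] ℂ))
    (h : ∀ r Z, LC r (cx Z) = (L r Z : ℂ)) (Y : Matrix ι ι ℂ) (hY : ∀ r, LC r Y = 0) :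
    Y ∈ Submodule.span ℂ {Z | ∃ Z' : Matrix ι ι ℚ, (∀ r, L r Z' = 0) ∧ Z = cx Z'} := by
  let A : Matrix M (ι × ι) ℚ := Matrix.of fun r e => L r (Matrix.single e.1 e.2 1)
  have hlin : ∀ r (Z : Matrix ι ι ℚ), L r Z = ∑ e : ι × ι, A r e * Z e.1 e.2 := by
    intro r Z
    conv_lhs => rw [mat_sum_single Z]
    rw [map_sum]
    apply Finset.sum_congr rfl
    intro e _
    rw [map_smul, smul_eq_mul, mul_comm]
    rfl
  have hlinC : ∀ r (Z : Matrix ι ι ℂ), LC r Z = ∑ e : ι × ι, (A r e : ℂ) * Z e.1 e.2 := by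
    intro r Z
    conv_lhs => rw [mat_sum_single Z]
    rw [map_sum]
    apply Finset.sum_congr rfl
    intro e _
    rw [map_smul, smul_eq_mul, mul_comm, ← cx_single, h]
    rfl
  have hv : (A.map (fun q : ℚ => (q : ℂ))) *ᵥ (fun e => Y e.1 e.2) = 0 := by
    funext r
    have h1 := hY r
    rw [hlinC] at h1
    simpa [Matrix.mulVec, dotProduct] using h1
  have h1 := mem_span_ker A (fun e => Y e.1 e.2) hv
  let Φ : (ι × ι → ℂ) →ₗ[ℂ] Matrix ι ι ℂ :=
    { toFun := fun v => Matrix.of fun i j => v (i, j)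
      map_add' := fun _ _ => rfl
      map_smul' := fun _ _ => rfl }
  have h2 : Φ (fun e => Y e.1 e.2) ∈ (Submodule.span ℂ {w : ι × ι → ℂ | ∃ u : ι × ι → ℚ, A *ᵥ u = 0 ∧ w = fun i => (u i : ℂ)}).map Φ :=
    Submodule.mem_map_of_mem h1
  rw [Submodule.map_span] at h2
  have h3 : Φ (fun e => Y e.1 e.2) = Y := rfl
  rw [h3] at h2
  refine Submodule.span_mono ?_ h2
  rintro _ ⟨_, ⟨u, hu, rfl⟩, rfl⟩
  refine ⟨Matrix.of fun i j => u (i, j), fun r => ?_, rfl⟩
  rw [hlin]
  exact congrFun hu r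

/-- endomorphisms as tensors -/
def matT {R : Type} (A : Matrix ι ι R) : Tens ι 1 1 R := fun e => A (e.1 0) (e.2 0)

omit [Fintype ι] [DecidableEq ι] in
theorem matT_injective {R : Type} : Function.Injective (matT : Matrix ι ι R → Tens ι 1 1 R) := by
  intro S S' h
  ext i j
  have := congrFun h (fun _ => i, fun _ => j)
  simpa [matT] using this

omit [Fintype ι] [DecidableEq ι] in
theorem exists_matT {R : Type} (t : Tens ι 1 1 R) : ∃ S, t = matT S := by
  refine ⟨fun i j => t (fun _ => i, fun _ => j), ?_⟩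
  funext e
  simp only [matT]
  congr 1
  apply Prod.ext
  · funext j
    fin_cases j; rfl
  · funext j
    fin_cases j; rfl

omit [Fintype ι] [DecidableEq ι] in
theorem ratT_matT (A : Matrix ι ι ℚ) : ratT ℂ (matT A) = matT (cx A) := rfl

theorem act_matT {R : Type} [CommRing R] (g : GL ι R) (A : Matrix ι ι R) :
    act g (matT A) = matT ((g : Matrix ι ι R) * A * ((g⁻¹ : GL ι R) : Matrix ι ι R)) := by
  funext e
  simp only [act, matT, Fin.prod_univ_one]
  rw [Fintype.sum_prod_type, ← (Equiv.funUnique (Fin 1) ι).symm.sum_comp]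
  simp only [Matrix.mul_apply, Finset.sum_mul]
  rw [Finset.sum_comm]
  rw [← (Equiv.funUnique (Fin 1) ι).symm.sum_comp]
  apply Finset.sum_congr rfl
  intro j _
  apply Finset.sum_congr rfl
  intro i _
  simp only [Equiv.funUnique_symm_apply, uniqueElim_const]
  ring

theorem dact_matT (Y : Matrix ι ι ℂ) (A : Matrix ι ι ℂ) :
    dact Y (matT A) = matT (Y * A - A * Y) := by
  funext e
  have h1 := hasDerivAt_act_exp Y (matT A) e
  have h2 := hasDerivAt_conj Y A (e.1 0) (e.2 0)
  have h3 : (fun s => act (expGL Y s) (matT A) e) =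
      fun s => ((expGL Y s : Matrix ι ι ℂ) * A * (((expGL Y s)⁻¹ : GL ι ℂ) : Matrix ι ι ℂ)) (e.1 0) (e.2 0) := by
    funext s
    rw [act_matT]
    rfl
  rw [h3] at h1
  exact h1.unique h2

/-- the endomorphism of the matrix algebra defined by a mixed tensor with two upper and two lower
indices -/
def endL {R : Type} [CommRing R] (t : Tens ι 2 2 R) : Matrix ι ι R →ₗ[R] Matrix ι ι R where
  toFun A := Matrix.of fun i j => ∑ a, ∑ b, t (![i, a], ![j, b]) * A b a
  map_add' A B := by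
    ext i j
    simp [mul_add, Finset.sum_add_distrib]
  map_smul' c A := by
    ext i j
    simp only [Matrix.of_apply, Matrix.smul_apply, smul_eq_mul, RingHom.id_apply, Finset.mul_sum]
    apply Finset.sum_congr rfl
    intro a _
    apply Finset.sum_congr rfl
    intro b _
    ring

omit [DecidableEq ι] in
theorem endL_apply {R : Type} [CommRing R] (t : Tens ι 2 2 R) (A : Matrix ι ι R) (i j : ι) :
    endL t A i j = ∑ a, ∑ b, t (![i, a], ![j, b]) * A b a := rfl

theorem endL_single {R : Type} [CommRing R] (t : Tens ι 2 2 R) (b a i j : ι) :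
    endL t (Matrix.single b a 1) i j = t (![i, a], ![j, b]) := by
  rw [endL_apply, Finset.sum_eq_single a, Finset.sum_eq_single b]
  · simp
  · intro b' _ hb'
    simp [Ne.symm hb']
  · simp
  · intro a' _ ha'
    apply Finset.sum_eq_zero
    intro b' _
    simp [Ne.symm ha']
  · simp

theorem endL_injective {R : Type} [CommRing R] {s t : Tens ι 2 2 R} (h : endL s = endL t) : s = t := by
  funext e
  have h1 : ∀ f : Fin 2 → ι, f = ![f 0, f 1] := by
    intro f
    funext j
    fin_cases j <;> rfl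
  have h2 : e = (![e.1 0, e.1 1], ![e.2 0, e.2 1]) := Prod.ext (h1 _) (h1 _)
  rw [h2, ← endL_single s, ← endL_single t, h]

theorem exists_endT {R : Type} [CommRing R] (P : Matrix ι ι R →ₗ[R] Matrix ι ι R) :
    ∃ t : Tens ι 2 2 R, endL t = P := by
  refine ⟨fun e => P (Matrix.single (e.2 1) (e.1 1) 1) (e.1 0) (e.2 0), ?_⟩
  apply LinearMap.ext
  intro A
  ext i j
  rw [endL_apply]
  conv_rhs => rw [mat_sum_single A, map_sum]
  rw [Matrix.sum_apply, Fintype.sum_prod_type, Finset.sum_comm]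
  apply Finset.sum_congr rfl
  intro b _
  apply Finset.sum_congr rfl
  intro a _
  rw [map_smul, Matrix.smul_apply, smul_eq_mul, mul_comm]
  simp

omit [DecidableEq ι] in
theorem endL_ratT (t : Tens ι 2 2 ℚ) (A : Matrix ι ι ℚ) :
    endL (ratT ℂ t) (cx A) = cx (endL t A) := by
  ext i j
  simp [endL_apply, cx, ratT]

theorem endL_act {R : Type} [CommRing R] (g : GL ι R) (t : Tens ι 2 2 R) (A : Matrix ι ι R) :
    endL (act g t) A = (g : Matrix ι ι R) * endL t (((g⁻¹ : GL ι R) : Matrix ι ι R) * A * (g : Matrix ι ι R)) *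
      ((g⁻¹ : GL ι R) : Matrix ι ι R) := by
  set G : Matrix ι ι R := (g : Matrix ι ι R) with hG
  set G' : Matrix ι ι R := ((g⁻¹ : GL ι R) : Matrix ι ι R) with hG'
  ext i j
  have h1 : ∀ a b, act g t (![i, a], ![j, b]) =
      ∑ p, ∑ q, ∑ r, ∑ s, (G i p * G a q) * (G' r j * G' s b) * t (![p, q], ![r, s]) := by
    intro a b
    simp only [act, Fin.prod_univ_two, ← hG, ← hG']
    rw [Fintype.sum_prod_type]
    rw [← (finTwoArrowEquiv ι).symm.sum_comp, Fintype.sum_prod_type]
    apply Finset.sum_congr rfl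
    intro p _
    apply Finset.sum_congr rfl
    intro q _
    rw [← (finTwoArrowEquiv ι).symm.sum_comp, Fintype.sum_prod_type]
    rfl
  rw [endL_apply]
  simp only [h1]
  rw [Matrix.mul_apply]
  simp only [Matrix.mul_apply, endL_apply, Finset.sum_mul, Finset.mul_sum]
  -- reorder the sums
  calc ∑ a, ∑ b, ∑ p, ∑ q, ∑ r, ∑ s, G i p * G a q * (G' r j * G' s b) * t (![p, q], ![r, s]) * A b a
      = ∑ p, ∑ q, ∑ r, ∑ s, ∑ a, ∑ b, G i p * G a q * (G' r j * G' s b) * t (![p, q], ![r, s]) * A b a := by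
        simp only [← Fintype.sum_prod_type']
        refine Fintype.sum_equiv ⟨fun x => (x.2.2.1, x.2.2.2.1, x.2.2.2.2.1, x.2.2.2.2.2, x.1, x.2.1),
          fun x => (x.2.2.2.2.1, x.2.2.2.2.2, x.1, x.2.1, x.2.2.1, x.2.2.2.1), fun _ => rfl, fun _ => rfl⟩ _ _ (fun _ => rfl)
    _ = _ := by
        simp only [← Fintype.sum_prod_type']
        refine Fintype.sum_equiv ⟨fun x => (x.2.2.1, x.1, x.2.1, x.2.2.2.1, x.2.2.2.2.1, x.2.2.2.2.2),
          fun x => (x.2.1, x.2.2.1, x.1, x.2.2.2.1, x.2.2.2.2.1, x.2.2.2.2.2), fun _ => rfl, fun _ => rfl⟩ _ _ ?_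
        intro x
        simp only [Equiv.coe_fn_mk]
        ring

section exp
open NormedSpace
attribute [local instance] Matrix.linftyOpNormedRing Matrix.linftyOpNormedAlgebra

theorem endL_dact (Y : Matrix ι ι ℂ) (t : Tens ι 2 2 ℂ) (A : Matrix ι ι ℂ) :
    endL (dact Y t) A = Y * endL t A - endL t A * Y - endL t (Y * A - A * Y) := by
  ext i j
  have h1 : HasDerivAt (fun s => endL (act (expGL Y s) t) A i j) (endL (dact Y t) A i j) 0 := by
    simp only [endL_apply]
    apply HasDerivAt.fun_sum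
    intro a _
    apply HasDerivAt.fun_sum
    intro b _
    exact (hasDerivAt_act_exp Y t _).mul_const _
  have e1 := hasDerivAt_exp_smul_const (𝕂 := ℂ) Y (0 : ℂ)
  have e2 := hasDerivAt_exp_smul_const (𝕂 := ℂ) (-Y) (0 : ℂ)
  simp only [zero_smul, exp_zero, one_mul] at e1 e2
  have e3 := (e2.mul_const A).mul e1
  have e4 : HasDerivAt (fun s : ℂ => endL t (exp (s • (-Y)) * A * exp (s • Y)))
      (endL t (-Y * A * exp ((0 : ℂ) • Y) + exp ((0 : ℂ) • (-Y)) * A * Y)) 0 := by
    have hc := (endL t).toContinuousLinearMap.hasFDerivAt (x := exp ((0:ℂ) • (-Y)) * A * exp ((0:ℂ) • Y))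
    exact hc.comp_hasDerivAt (0 : ℂ) e3
  have e5 : HasDerivAt (fun s : ℂ => exp (s • Y) * endL t (exp (s • (-Y)) * A * exp (s • Y)) * exp (s • (-Y)))
      (Y * endL t A + endL t (-Y * A + A * Y) + endL t A * (-Y)) 0 := by
    refine HasDerivAt.congr_deriv (show HasDerivAt (fun s : ℂ => exp (s • Y) * endL t (exp (s • (-Y)) * A * exp (s • Y)) * exp (s • (-Y))) _ 0 from (e1.mul e4).mul e2) ?_
    simp
  have e6 := hasDerivAt_pi.1 (hasDerivAt_pi.1 e5 i) j
  have h3 : (fun s => endL (act (expGL Y s) t) A i j) = fun s : ℂ =>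
      (exp (s • Y) * endL t (exp (s • (-Y)) * A * exp (s • Y)) * exp (s • (-Y))) i j := by
    funext s
    rw [endL_act]
    rfl
  rw [h3] at h1
  have e7 : endL t (-Y * A + A * Y) = - endL t (Y * A - A * Y) := by
    rw [← map_neg]
    congr 1
    rw [neg_mul]; abel
  rw [e7] at e6
  rw [h1.unique e6]
  simp only [Matrix.add_apply, Matrix.sub_apply, Matrix.neg_apply, mul_neg]
  ring

end exp

end Pool.Agent.Work.MP_0da4e0_ag
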