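import Mathlib

/-! MP_0da4e0_ag: common eigenvectors of commuting families of matrices. -/

open Matrix

namespace Pool.Agent.Work.MP_0da4e0_ag

variable {E : Type} [Fintype E]

theorem exists_common (F : Set (Matrix E E ℂ)) (hcomm : ∀ A ∈ F, ∀ B ∈ F, A * B = B * A)
    (W : Submodule ℂ (E → ℂ)) (hW : ∀ A ∈ F, ∀ w ∈ W, A *ᵥ w ∈ W) (hne : W ≠ ⊥) :
    ∃ x ∈ W, x ≠ 0 ∧ ∀ A ∈ F, ∃ c : ℂ, A *ᵥ x = c • x := by
  generalize hn : Module.finrank ℂ W = n
  induction n using Nat.strong_induction_on generalizing W with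
  | _ n ih =>
    by_cases hsc : ∀ A ∈ F, ∃ c : ℂ, ∀ w ∈ W, A *ᵥ w = c • w
    · obtain ⟨x, hx, hx0⟩ := (Submodule.ne_bot_iff W).1 hne
      exact ⟨x, hx, hx0, fun A hA => (hsc A hA).imp fun c hc => hc x hx⟩
    · push Not at hsc
      obtain ⟨A, hA, hAc⟩ := hsc
      have hnt : Nontrivial W := (Submodule.nontrivial_iff_ne_bot).2 hne
      obtain ⟨c, hc⟩ := Module.End.exists_eigenvalue ((Matrix.mulVecLin A).restrict (hW A hA))
      obtain ⟨v, hv⟩ := hc.exists_hasEigenvector
      have hv1 : A *ᵥ (v : E → ℂ) = c • (v : E → ℂ) := congrArg Subtype.val hv.apply_eq_smul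
      have hv2 : (v : E → ℂ) ≠ 0 := fun h => hv.2 (Subtype.ext h)
      let K : Submodule ℂ (E → ℂ) :=
        { carrier := {w | A *ᵥ w = c • w}
          add_mem' := by
            intro x y hx hy
            change A *ᵥ (x + y) = c • (x + y)
            rw [Matrix.mulVec_add, hx, hy, smul_add]
          zero_mem' := by
            change A *ᵥ 0 = c • 0
            rw [Matrix.mulVec_zero, smul_zero]
          smul_mem' := by
            intro d x hx
            change A *ᵥ (d • x) = c • d • x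
            rw [Matrix.mulVec_smul, hx, smul_comm] }
      have hlt : W ⊓ K < W := by
        refine lt_of_le_of_ne inf_le_left ?_
        intro h
        obtain ⟨w, hw, hw'⟩ := hAc c
        have : w ∈ W ⊓ K := by rw [h]; exact hw
        exact hw' this.2
      obtain ⟨x, hx, hx0, hxF⟩ := ih _ (hn ▸ Submodule.finrank_lt_finrank_of_lt hlt) (W ⊓ K) (by
        intro B hB w hw
        refine ⟨hW B hB w hw.1, ?_⟩
        change A *ᵥ (B *ᵥ w) = c • (B *ᵥ w)
        rw [Matrix.mulVec_mulVec, hcomm A hA B hB, ← Matrix.mulVec_mulVec]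
        have : A *ᵥ w = c • w := hw.2
        rw [this, Matrix.mulVec_smul]) (by
        rw [Submodule.ne_bot_iff]
        exact ⟨v, ⟨v.2, hv1⟩, hv2⟩) rfl
      exact ⟨x, hx.1, hx0, hxF⟩

end Pool.Agent.Work.MP_0da4e0_ag
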