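import Pool.Agent.Work.MP_0da4e0_ag.WeilKill

/-! MP_0da4e0_ag: the rational projector onto the Lie algebra killing all Hodge tensors. -/

open Matrix

namespace Pool.Agent.Work.MP_0da4e0_ag

variable {ι : Type} [Fintype ι] [DecidableEq ι]

omit [DecidableEq ι] in
theorem trace_cx (A : Matrix ι ι ℚ) : Matrix.trace (cx A) = ((Matrix.trace A : ℚ) : ℂ) := by
  simp [Matrix.trace, cx]

omit [Fintype ι] [DecidableEq ι] in
theorem cx_sub (A B : Matrix ι ι ℚ) : cx (A - B) = cx A - cx B := by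
  ext i j
  simp [cx]

/-- the rational trace form -/
noncomputable def trQ (ι : Type) [Fintype ι] : LinearMap.BilinForm ℚ (Matrix ι ι ℚ) :=
  LinearMap.mk₂ ℚ (fun A B => Matrix.trace (A * B))
    (by intro A A' B; simp [Matrix.add_mul])
    (by intro c A B; simp)
    (by intro A B B'; simp [Matrix.mul_add])
    (by intro c A B; simp)

omit [DecidableEq ι] in
theorem trQ_symm : (trQ ι).IsSymm := ⟨fun A B => Matrix.trace_mul_comm A B⟩

theorem exists_projQ {h : HodgeStr ι} {S : Matrix ι ι ℚ} (hS : Polarizes h S) :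
    ∃ π : Tens ι 2 2 ℚ, IsLieProj h π := by
  have hdisj : Disjoint (mtLie h) ((trQ ι).orthogonal (mtLie h)) := by
    rw [Submodule.disjoint_def]
    intro X hX hX'
    have h1 : cx X = 0 := by
      apply trace_dag_ne hS
      rw [Matrix.trace_mul_comm]
      have h2 : ∀ Z ∈ mtLieC h, Matrix.trace (Z * cx X) = 0 := by
        intro Z hZ
        have hspan := mtLieC_span hZ
        clear hZ
        induction hspan using Submodule.span_induction with
        | mem x hx =>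
          obtain ⟨Y, hY, rfl⟩ := hx
          rw [← cx_mul, trace_cx]
          have : Matrix.trace (Y * X) = 0 := hX' Y hY
          rw [this]; simp
        | zero => rw [Matrix.zero_mul, Matrix.trace_zero]
        | add x y _ _ hx hy => rw [Matrix.add_mul, Matrix.trace_add, hx, hy, add_zero]
        | smul c x _ hx => rw [Matrix.smul_mul, Matrix.trace_smul, hx, smul_zero]
      exact h2 _ (dag_mem hS (cx_mem hX))
    exact cx_injective (by rw [h1]; ext i j; simp [cx])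
  have hcompl := (LinearMap.BilinForm.isCompl_orthogonal_iff_disjoint trQ_symm.isRefl).2 hdisj
  obtain ⟨π, hπ⟩ := exists_endT ((mtLie h).subtype ∘ₗ Submodule.projectionOnto _ _ hcompl)
  refine ⟨π, fun A => ?_⟩
  rw [hπ]
  refine ⟨(Submodule.projectionOnto _ _ hcompl A).2, ?_⟩
  intro X hX
  have h1 : A - (mtLie h).subtype (Submodule.projectionOnto _ _ hcompl A) ∈
      LinearMap.ker (Submodule.projectionOnto _ _ hcompl) := by
    rw [LinearMap.mem_ker, map_sub]
    have : Submodule.projectionOnto _ _ hcompl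
        ((mtLie h).subtype (Submodule.projectionOnto _ _ hcompl A)) =
        Submodule.projectionOnto _ _ hcompl A :=
      Submodule.projectionOnto_apply_left hcompl _
    rw [this, sub_self]
  rw [Submodule.ker_projectionOnto hcompl] at h1
  exact h1 X hX

theorem IsLieProj.mem {h : HodgeStr ι} {π : Tens ι 2 2 ℚ} (hπ : IsLieProj h π) (A : Matrix ι ι ℂ) :
    endL (ratT ℂ π) A ∈ mtLieC h := by
  rw [mat_sum_single A, map_sum]
  apply Submodule.sum_mem
  intro e _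
  rw [map_smul, ← cx_single, endL_ratT]
  exact Submodule.smul_mem _ _ (cx_mem (hπ _).1)

theorem IsLieProj.orth {h : HodgeStr ι} {π : Tens ι 2 2 ℚ} (hπ : IsLieProj h π) (A X : Matrix ι ι ℂ)
    (hX : X ∈ mtLieC h) : Matrix.trace (X * (A - endL (ratT ℂ π) A)) = 0 := by
  have hspan := mtLieC_span hX
  clear hX
  induction hspan using Submodule.span_induction with
  | mem x hx =>
    obtain ⟨Y, hY, rfl⟩ := hx
    have h1 : ∀ e : ι × ι, Matrix.trace (cx Y * (Matrix.single e.1 e.2 (1 : ℂ) -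
        endL (ratT ℂ π) (Matrix.single e.1 e.2 (1 : ℂ)))) = 0 := by
      intro e
      rw [← cx_single, endL_ratT, ← cx_sub, ← cx_mul, trace_cx, (hπ _).2 Y hY]
      simp
    have h2 : A - endL (ratT ℂ π) A = ∑ e : ι × ι, A e.1 e.2 • (Matrix.single e.1 e.2 (1 : ℂ) -
        endL (ratT ℂ π) (Matrix.single e.1 e.2 (1 : ℂ))) := by
      conv_lhs => rw [mat_sum_single A, map_sum]
      rw [← Finset.sum_sub_distrib]
      apply Finset.sum_congr rfl
      intro e _
      rw [map_smul, smul_sub]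
    rw [h2, Matrix.mul_sum, Matrix.trace_sum]
    apply Finset.sum_eq_zero
    intro e _
    rw [Matrix.mul_smul, Matrix.trace_smul, h1, smul_zero]
  | zero => rw [Matrix.zero_mul, Matrix.trace_zero]
  | add x y _ _ hx hy => rw [Matrix.add_mul, Matrix.trace_add, hx, hy, add_zero]
  | smul c x _ hx => rw [Matrix.smul_mul, Matrix.trace_smul, hx, smul_zero]

theorem IsLieProj.uniq {h : HodgeStr ι} {S : Matrix ι ι ℚ} (hS : Polarizes h S) {π : Tens ι 2 2 ℚ}
    (hπ : IsLieProj h π) (A B : Matrix ι ι ℂ) (hB : B ∈ mtLieC h)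
    (hAB : ∀ X ∈ mtLieC h, Matrix.trace (X * (A - B)) = 0) : endL (ratT ℂ π) A = B := by
  have h1 : endL (ratT ℂ π) A - B ∈ mtLieC h := Submodule.sub_mem _ (hπ.mem A) hB
  have h2 : ∀ X ∈ mtLieC h, Matrix.trace (X * (endL (ratT ℂ π) A - B)) = 0 := by
    intro X hX
    have e1 : endL (ratT ℂ π) A - B = (A - B) - (A - endL (ratT ℂ π) A) := by abel
    rw [e1, Matrix.mul_sub, Matrix.trace_sub, hAB X hX, hπ.orth A X hX, sub_zero]
  have h3 : endL (ratT ℂ π) A - B = 0 := by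
    apply trace_dag_ne hS
    rw [Matrix.trace_mul_comm]
    exact h2 _ (dag_mem hS h1)
  exact sub_eq_zero.1 h3

theorem IsLieProj.fix {h : HodgeStr ι} {S : Matrix ι ι ℚ} (hS : Polarizes h S) {π : Tens ι 2 2 ℚ}
    (hπ : IsLieProj h π) (A : Matrix ι ι ℂ) (hA : A ∈ mtLieC h) : endL (ratT ℂ π) A = A :=
  hπ.uniq hS A A hA (fun X _ => by rw [sub_self, Matrix.mul_zero, Matrix.trace_zero])

/-- the projector is invariant -/
theorem IsLieProj.fixed {h : HodgeStr ι} {S : Matrix ι ι ℚ} (hS : Polarizes h S) {π : Tens ι 2 2 ℚ}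
    (hπ : IsLieProj h π) (j : (ℂ ≃+* ℂ) × Bool) (z : ℂˣ) : act (muG h j z) (ratT ℂ π) = ratT ℂ π := by
  apply endL_injective
  apply LinearMap.ext
  intro A
  rw [endL_act]
  set g := muG h j z with hg
  have hgg : (g : Matrix ι ι ℂ) * ((g⁻¹ : GL ι ℂ) : Matrix ι ι ℂ) = 1 := by
    rw [← Units.val_mul, mul_inv_cancel, Units.val_one]
  symm
  apply hπ.uniq hS
  · exact muG_mem_mt j z (hπ.mem _)
  · intro X hX
    have h1 := hπ.orth (((g⁻¹ : GL ι ℂ) : Matrix ι ι ℂ) * A * (g : Matrix ι ι ℂ)) _ (muG_inv_mem_mt j z hX)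
    rw [← hg] at h1
    set Q := endL (ratT ℂ π) (((g⁻¹ : GL ι ℂ) : Matrix ι ι ℂ) * A * (g : Matrix ι ι ℂ)) with hQ
    have e1 : A = (g : Matrix ι ι ℂ) * (((g⁻¹ : GL ι ℂ) : Matrix ι ι ℂ) * A * (g : Matrix ι ι ℂ)) *
        ((g⁻¹ : GL ι ℂ) : Matrix ι ι ℂ) := by
      calc A = ((g : Matrix ι ι ℂ) * ((g⁻¹ : GL ι ℂ) : Matrix ι ι ℂ)) * A *
            ((g : Matrix ι ι ℂ) * ((g⁻¹ : GL ι ℂ) : Matrix ι ι ℂ)) := by
            rw [hgg, Matrix.one_mul, Matrix.mul_one]
        _ = _ := by simp only [Matrix.mul_assoc]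
    have e2 : A - (g : Matrix ι ι ℂ) * Q * ((g⁻¹ : GL ι ℂ) : Matrix ι ι ℂ) =
        (g : Matrix ι ι ℂ) * ((((g⁻¹ : GL ι ℂ) : Matrix ι ι ℂ) * A * (g : Matrix ι ι ℂ)) - Q) *
        ((g⁻¹ : GL ι ℂ) : Matrix ι ι ℂ) := by
      conv_lhs => rw [e1]
      rw [Matrix.mul_sub, Matrix.sub_mul]
    rw [e2]
    calc Matrix.trace (X * ((g : Matrix ι ι ℂ) * ((((g⁻¹ : GL ι ℂ) : Matrix ι ι ℂ) * A * (g : Matrix ι ι ℂ)) - Q) *
        ((g⁻¹ : GL ι ℂ) : Matrix ι ι ℂ)))
        = Matrix.trace ((X * (g : Matrix ι ι ℂ) * ((((g⁻¹ : GL ι ℂ) : Matrix ι ι ℂ) * A * (g : Matrix ι ι ℂ)) - Q)) *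
        ((g⁻¹ : GL ι ℂ) : Matrix ι ι ℂ)) := by simp only [Matrix.mul_assoc]
      _ = Matrix.trace (((g⁻¹ : GL ι ℂ) : Matrix ι ι ℂ) * (X * (g : Matrix ι ι ℂ) *
          ((((g⁻¹ : GL ι ℂ) : Matrix ι ι ℂ) * A * (g : Matrix ι ι ℂ)) - Q))) := by
            rw [Matrix.trace_mul_comm]
      _ = 0 := by
            rw [← h1]
            simp only [Matrix.mul_assoc]

/-- a rational tensor fixed by the conjugates of the torus is a Hodge tensor -/
theorem isHodge_of_fixed {h : HodgeStr ι} {a b : ℕ} {u : Tens ι a b ℚ}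
    (hu : ∀ j z, act (muG h j z) (ratT ℂ u) = ratT ℂ u) : IsHodge h u := by
  intro z w g hg
  have hg' : g = tor h z 1 * tor h 1 w := by
    rw [← tor_mul, mul_one, one_mul]
    exact hg.unique (tor_spec h z w)
  have e1 := hu (RingEquiv.refl ℂ, true) (Units.map ((RingEquiv.refl ℂ : ℂ ≃+* ℂ) : ℂ →* ℂ) z)
  have e2 := hu (RingEquiv.refl ℂ, false) (Units.map ((RingEquiv.refl ℂ : ℂ ≃+* ℂ) : ℂ →* ℂ) w)
  rw [muG_true] at e1
  rw [muG_false] at e2
  have e3 : ∀ g : GL ι ℂ, GeneralLinearGroup.map ((RingEquiv.refl ℂ : ℂ ≃+* ℂ) : ℂ →+* ℂ) g = g := by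
    intro g
    apply Units.ext
    ext i j
    simp [GeneralLinearGroup.map]
  rw [e3] at e1 e2
  rw [hg', act_mul, e2, e1]

theorem IsLieProj.isHodge {h : HodgeStr ι} {S : Matrix ι ι ℚ} (hS : Polarizes h S) {π : Tens ι 2 2 ℚ}
    (hπ : IsLieProj h π) : IsHodge h π := isHodge_of_fixed (hπ.fixed hS)

/-- matrices killing the projector and the Hodge endomorphisms differ from an element of the Lie algebra
by a matrix commuting with it and with all Hodge endomorphisms -/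
theorem splitProj {h : HodgeStr ι} {S : Matrix ι ι ℚ} (hS : Polarizes h S) {π : Tens ι 2 2 ℚ}
    (hπ : IsLieProj h π) (Y : Matrix ι ι ℂ) (hYπ : dact Y (ratT ℂ π) = 0)
    (hYE : ∀ A : Matrix ι ι ℚ, IsHodge h (matT A) → dact Y (ratT ℂ (matT A)) = 0) :
    ∃ Y1 ∈ mtLieC h, Cen h (Y - Y1) := by
  have hH := hπ.isHodge hS
  have hcomP : ∀ Z : Matrix ι ι ℂ, dact Z (ratT ℂ π) = 0 → ∀ A, endL (ratT ℂ π) (Z * A - A * Z) =
      Z * endL (ratT ℂ π) A - endL (ratT ℂ π) A * Z := by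
    intro Z hZ A
    have h1 := endL_dact Z (ratT ℂ π) A
    rw [hZ] at h1
    have h3 : endL (0 : Tens ι 2 2 ℂ) A = 0 := by
      ext i j
      simp [endL_apply]
    rw [h3] at h1
    exact (sub_eq_zero.1 h1.symm).symm
  refine ⟨endL (ratT ℂ π) Y, hπ.mem Y, ?_, ?_⟩
  · intro X hX
    have h1 := hcomP Y hYπ X
    rw [hπ.fix hS X hX] at h1
    have h2 := hcomP X (hX 2 2 π hH) Y
    have h3 : endL (ratT ℂ π) (X * Y - Y * X) = X * Y - Y * X := by
      have e1 : X * Y - Y * X = - (Y * X - X * Y) := by abel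
      rw [e1, map_neg, h1]
    rw [h3] at h2
    rw [Matrix.mul_sub, Matrix.sub_mul]
    rw [sub_eq_sub_iff_add_eq_add] at h2 ⊢
    rw [h2]
    abel
  · intro A hA
    have h1 := hYE A hA
    rw [ratT_matT, dact_matT] at h1
    have h2 : Y * cx A - cx A * Y = 0 := matT_injective (by rw [h1]; rfl)
    have h3 := mt_commute (hπ.mem Y) hA
    rw [Matrix.mul_sub, Matrix.sub_mul, sub_eq_zero.1 h2, h3]

end Pool.Agent.Work.MP_0da4e0_ag
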