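import Pool.Agent.Work.MP_0da4e0_ag.LieAct

/-! MP_0da4e0_ag: products and alternating products of tensors. -/

open Matrix

namespace Pool.Agent.Work.MP_0da4e0_ag

variable {ι : Type} [Fintype ι] [DecidableEq ι] {N a b : ℕ}

/-- cutting an index of a tensor of bidegree (N a, N b) into N indices of bidegree (a, b) -/
def splt (e : (Fin (N * a) → ι) × (Fin (N * b) → ι)) (j : Fin N) : (Fin a → ι) × (Fin b → ι) :=
  (fun i => e.1 (finProdFinEquiv (j, i)), fun i => e.2 (finProdFinEquiv (j, i)))

/-- the cutting as an equivalence -/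
def spltEquiv (ι : Type) (N a b : ℕ) :
    ((Fin (N * a) → ι) × (Fin (N * b) → ι)) ≃ (Fin N → (Fin a → ι) × (Fin b → ι)) where
  toFun := splt
  invFun f := (fun i => (f (finProdFinEquiv.symm i).1).1 (finProdFinEquiv.symm i).2,
    fun i => (f (finProdFinEquiv.symm i).1).2 (finProdFinEquiv.symm i).2)
  left_inv e := by
    apply Prod.ext
    · funext i
      simp only [splt]
      rw [Prod.mk.eta, Equiv.apply_symm_apply]
    · funext i
      simp only [splt]
      rw [Prod.mk.eta, Equiv.apply_symm_apply]
  right_inv f := by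
    funext j
    apply Prod.ext
    · funext i
      simp only [splt]
      rw [Equiv.symm_apply_apply]
    · funext i
      simp only [splt]
      rw [Equiv.symm_apply_apply]

/-- the product of N tensors of the same bidegree -/
def tprod {R : Type} [CommRing R] (s : Fin N → Tens ι a b R) : Tens ι (N * a) (N * b) R :=
  fun e => ∏ j, s j (splt e j)

theorem actMat_splt {R : Type} [CommRing R] (g : GL ι R) (e f : (Fin (N * a) → ι) × (Fin (N * b) → ι)) :
    actMat g e f = ∏ j, actMat g (splt e j) (splt f j) := by
  simp only [actMat, splt]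
  rw [Finset.prod_mul_distrib]
  congr 1
  · rw [← finProdFinEquiv.prod_comp, Fintype.prod_prod_type]
  · rw [← finProdFinEquiv.prod_comp, Fintype.prod_prod_type]

theorem act_tprod {R : Type} [CommRing R] (g : GL ι R) (s : Fin N → Tens ι a b R) :
    act g (tprod s) = tprod (fun j => act g (s j)) := by
  funext e
  have h1 : act g (tprod s) e = ∑ f, ∏ j, (actMat g (splt e j) (splt f j) * s j (splt f j)) := by
    rw [act_eq]
    simp only [Matrix.mulVec, dotProduct]
    apply Finset.sum_congr rfl
    intro f _
    rw [actMat_splt, tprod, Finset.prod_mul_distrib]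
  rw [h1]
  have h2 : (∑ f : (Fin (N * a) → ι) × (Fin (N * b) → ι), ∏ j, (actMat g (splt e j) (splt f j) * s j (splt f j))) =
      ∑ φ : Fin N → (Fin a → ι) × (Fin b → ι), ∏ j, (actMat g (splt e j) (φ j) * s j (φ j)) :=
    Fintype.sum_equiv (spltEquiv ι N a b) _ _ (fun _ => rfl)
  rw [h2]
  simp only [tprod, act_eq, Matrix.mulVec, dotProduct]
  rw [Finset.prod_univ_sum, Fintype.piFinset_univ]

omit [Fintype ι] [DecidableEq ι] in
theorem map_tprod {R S : Type} [CommRing R] [CommRing S] (f : R →+* S) (s : Fin N → Tens ι a b R) :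
    (fun e => f (tprod s e)) = tprod (fun j e => f (s j e)) := by
  funext e
  simp only [tprod, map_prod]

theorem dact_tprod (X : Matrix ι ι ℂ) (s : Fin N → Tens ι a b ℂ) :
    dact X (tprod s) = ∑ j, tprod (Function.update s j (dact X (s j))) := by
  funext e
  have h1 := hasDerivAt_act_exp X (tprod s) e
  have h2 : (fun r => act (expGL X r) (tprod s) e) =
      fun r => ∏ j, (fun r => act (expGL X r) (s j) (splt e j)) r := by
    funext r
    rw [act_tprod]
    rfl
  rw [h2] at h1
  have h3 := HasDerivAt.fun_finsetProd (u := Finset.univ)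
    (f := fun (j : Fin N) r => act (expGL X r) (s j) (splt e j))
    (f' := fun j => dact X (s j) (splt e j)) (x := 0) (fun j _ => hasDerivAt_act_exp X (s j) (splt e j))
  rw [h1.unique h3, Finset.sum_apply]
  apply Finset.sum_congr rfl
  intro j _
  simp only [tprod, expGL_zero, act_one, smul_eq_mul]
  rw [← Finset.prod_erase_mul Finset.univ _ (Finset.mem_univ j), Function.update_self]
  congr 1
  apply Finset.prod_congr rfl
  intro i hi
  rw [Function.update_of_ne (Finset.ne_of_mem_erase hi)]

/-- the alternating product of N tensors -/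
def altT {R : Type} [CommRing R] (t : Fin N → Tens ι a b R) : Tens ι (N * a) (N * b) R :=
  fun e => Matrix.det (Matrix.of fun i j => t i (splt e j))

omit [Fintype ι] [DecidableEq ι] in
theorem altT_eq {R : Type} [CommRing R] (t : Fin N → Tens ι a b R) :
    altT t = ∑ σ : Equiv.Perm (Fin N), ((Equiv.Perm.sign σ : ℤ) : R) • tprod (fun j => t (σ j)) := by
  funext e
  rw [altT, Matrix.det_apply, Finset.sum_apply]
  apply Finset.sum_congr rfl
  intro σ _
  rw [Pi.smul_apply, Units.smul_def, zsmul_eq_mul, smul_eq_mul]
  rfl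

theorem dact_sum {J : Type} (s : Finset J) (X : Matrix ι ι ℂ) (t : J → Tens ι a b ℂ) :
    dact X (∑ j ∈ s, t j) = ∑ j ∈ s, dact X (t j) := by
  simp only [dact, Matrix.mulVec_sum]

theorem dact_tsmul {R : Type} [CommRing R] (X : Matrix ι ι R) (c : R) (t : Tens ι a b R) :
    dact X (c • t) = c • dact X t := by
  simp only [dact, Matrix.mulVec_smul]

theorem dact_altT (X : Matrix ι ι ℂ) (t : Fin N → Tens ι a b ℂ) :
    dact X (altT t) = ∑ j, altT (Function.update t j (dact X (t j))) := by
  simp only [altT_eq]
  rw [dact_sum, Finset.sum_comm]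
  apply Finset.sum_congr rfl
  intro σ _
  rw [dact_tsmul, dact_tprod, ← Finset.smul_sum]
  congr 1
  rw [← Equiv.sum_comp σ (fun j => tprod (fun i => Function.update t j (dact X (t j)) (σ i)))]
  apply Finset.sum_congr rfl
  intro j _
  congr 1
  funext i
  by_cases hij : i = j
  · subst hij
    rw [Function.update_self, Function.update_self]
  · rw [Function.update_of_ne hij, Function.update_of_ne (fun h => hij (σ.injective h))]

omit [Fintype ι] [DecidableEq ι] in
theorem altT_update {R : Type} [CommRing R] (t : Fin N → Tens ι a b R) (i : Fin N) (c : Fin N → R) :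
    altT (Function.update t i (∑ k, c k • t k)) = c i • altT t := by
  funext e
  rw [Pi.smul_apply, altT, altT]
  have h1 : (Matrix.of fun i' j => Function.update t i (∑ k, c k • t k) i' (splt e j)) =
      (Matrix.of fun i j => t i (splt e j)).updateRow i (∑ k, c k • (Matrix.of fun i j => t i (splt e j)) k) := by
    ext i' j
    by_cases h : i' = i
    · subst h
      rw [Matrix.updateRow_self, Matrix.of_apply, Function.update_self, Finset.sum_apply, Finset.sum_apply]
      rfl
    · rw [Matrix.updateRow_ne h, Matrix.of_apply, Function.update_of_ne h, Matrix.of_apply]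
  rw [h1, Matrix.det_updateRow_sum]

/-- the alternating product is an eigenvector with eigenvalue the trace -/
theorem dact_altT_eigen (X : Matrix ι ι ℂ) (t : Fin N → Tens ι a b ℂ) (P : Fin N → Fin N → ℂ)
    (hP : ∀ i, dact X (t i) = ∑ k, P i k • t k) : dact X (altT t) = (∑ i, P i i) • altT t := by
  rw [dact_altT, Finset.sum_smul]
  apply Finset.sum_congr rfl
  intro i _
  rw [hP, altT_update]

theorem exists_minor {E : Type} [Fintype E] (t : Fin N → E → ℂ) (ht : LinearIndependent ℂ t) :
    ∃ e : Fin N → E, (Matrix.of fun i j => t i (e j)).det ≠ 0 := by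
  classical
  let c : E → (Fin N → ℂ) := fun e i => t i e
  have hspan : Submodule.span ℂ (Set.range c) = ⊤ := by
    by_contra hne
    obtain ⟨f, hf0, hf⟩ := Submodule.exists_le_ker_of_lt_top _ (lt_top_iff_ne_top.2 hne)
    have h1 : ∀ e, f (c e) = 0 := fun e => hf (Submodule.subset_span ⟨e, rfl⟩)
    let v : Fin N → ℂ := fun i => f (Pi.single i 1)
    have h2 : ∀ w : Fin N → ℂ, f w = ∑ i, w i * v i := by
      intro w
      have : w = ∑ i, w i • (Pi.single i (1 : ℂ) : Fin N → ℂ) := by
        funext k
        simp [Finset.sum_apply, Pi.single_apply]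
      conv_lhs => rw [this]
      rw [map_sum]
      apply Finset.sum_congr rfl
      intro i _
      rw [map_smul, smul_eq_mul]
    have h3 : ∑ i, v i • t i = 0 := by
      funext e
      have := h1 e
      rw [h2] at this
      rw [Finset.sum_apply, Pi.zero_apply, ← this]
      apply Finset.sum_congr rfl
      intro i _
      rw [Pi.smul_apply, smul_eq_mul, mul_comm]
    have h4 := (Fintype.linearIndependent_iff.1 ht) v h3
    apply hf0
    apply LinearMap.ext
    intro w
    rw [h2]
    simp [h4]
  obtain ⟨s, hs, hs1, hs2⟩ := exists_linearIndependent ℂ (Set.range c)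
  rw [hspan] at hs1
  let bb := Module.Basis.mk hs2 (by rw [Subtype.range_coe, hs1])
  have : Fintype s := bb.fintypeIndexOfRankLtAleph0 (by exact Module.rank_lt_aleph0 ℂ _)
  have hcard : Fintype.card s = N := by
    have h1 := Module.finrank_eq_card_basis bb
    rw [Module.finrank_fin_fun] at h1
    exact h1.symm
  let ε : Fin N ≃ s := (Fintype.equivFinOfCardEq hcard).symm
  choose e he using fun x : s => hs x.2
  refine ⟨fun j => e (ε j), ?_⟩
  have h5 : (Matrix.of fun i j => t i (e (ε j)))ᵀ = Matrix.of fun j i => (ε j : Fin N → ℂ) i := by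
    ext j i
    rw [Matrix.transpose_apply, Matrix.of_apply, Matrix.of_apply]
    exact congrFun (he (ε j)) i
  rw [← Matrix.det_transpose, h5]
  have h6 : LinearIndependent ℂ (fun j => ((ε j : s) : Fin N → ℂ)) := hs2.comp ε ε.injective
  have h7 : IsUnit (Matrix.of fun j i => ((ε j : s) : Fin N → ℂ) i) :=
    Matrix.linearIndependent_rows_iff_isUnit.1 h6
  exact ((Matrix.isUnit_iff_isUnit_det _).1 h7).ne_zero

omit [DecidableEq ι] in
theorem altT_ne_zero (t : Fin N → Tens ι a b ℂ) (ht : LinearIndependent ℂ t) : altT t ≠ 0 := by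
  obtain ⟨e, he⟩ := exists_minor t ht
  intro h0
  apply he
  have h1 := congrFun h0 ((spltEquiv ι N a b).symm e)
  have h2 : ∀ j, splt ((spltEquiv ι N a b).symm e) j = e j := by
    intro j
    exact congrFun ((spltEquiv ι N a b).apply_symm_apply e) j
  simp only [altT, h2] at h1
  exact h1

end Pool.Agent.Work.MP_0da4e0_ag
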