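import Pool.Agent.Work.MP_0da4e0_ag.WeilEig
import Pool.Agent.Work.MP_0da4e0_ag.WeilTens

/-! MP_0da4e0_ag: some linear algebra over ℂ: simultaneous diagonalization, traces of idempotents and small
integral vectors separating a vector from a subspace. -/

open Matrix

namespace Pool.Agent.Work.MP_0da4e0_ag

variable {E : Type} [Fintype E] [DecidableEq E]

/-- a spanning set of vectors contains a basis, which can be put in the columns of a matrix -/
theorem exists_cols (F : Set (E → ℂ)) (hF : Submodule.span ℂ F = ⊤) :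
    ∃ U : GL E ℂ, ∀ j, (fun i => (U : Matrix E E ℂ) i j) ∈ F := by
  obtain ⟨s, hs, hs1, hs2⟩ := exists_linearIndependent ℂ F
  rw [hF] at hs1
  let bb := Module.Basis.mk hs2 (by rw [Subtype.range_coe, hs1])
  have : Fintype s := bb.fintypeIndexOfRankLtAleph0 (by exact Module.rank_lt_aleph0 ℂ _)
  have hcard : Fintype.card s = Fintype.card E := by
    have h1 := Module.finrank_eq_card_basis bb
    rw [Module.finrank_fintype_fun_eq_card] at h1
    exact h1.symm
  let ε : E ≃ s := (Fintype.equivOfCardEq hcard).symm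
  have h6 : LinearIndependent ℂ (fun j => ((ε j : s) : E → ℂ)) := hs2.comp ε ε.injective
  have h7 : IsUnit (Matrix.of fun j i => ((ε j : s) : E → ℂ) i) :=
    Matrix.linearIndependent_rows_iff_isUnit.1 h6
  have h8 : IsUnit (Matrix.of fun j i => ((ε j : s) : E → ℂ) i)ᵀ := Matrix.isUnit_transpose _ |>.2 h7
  obtain ⟨U, hU⟩ := h8
  refine ⟨U, fun j => ?_⟩
  rw [hU]
  exact hs (ε j).2

open scoped ComplexOrder in
/-- commuting families closed under the conjugate transpose are simultaneously diagonalizable -/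
theorem exists_diag (F : Set (Matrix E E ℂ)) (hcomm : ∀ A ∈ F, ∀ B ∈ F, A * B = B * A)
    (hstar : ∀ A ∈ F, Aᴴ ∈ F) :
    ∃ U : GL E ℂ, ∀ A ∈ F, ∃ c : E → ℂ, A * (U : Matrix E E ℂ) = (U : Matrix E E ℂ) * Matrix.diagonal c := by
  let Eig : Set (E → ℂ) := {v | ∀ A ∈ F, ∃ c : ℂ, A *ᵥ v = c • v}
  have hspan : Submodule.span ℂ Eig = ⊤ := by
    by_contra hne
    obtain ⟨f, hf0, hf⟩ := Submodule.exists_le_ker_of_lt_top _ (lt_top_iff_ne_top.2 hne)
    let W : Submodule ℂ (E → ℂ) :=
      { carrier := {w | ∀ v ∈ Eig, star v ⬝ᵥ w = 0}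
        add_mem' := by
          intro a b ha hb v hv
          rw [dotProduct_add, ha v hv, hb v hv, add_zero]
        zero_mem' := by
          intro v _
          rw [dotProduct_zero]
        smul_mem' := by
          intro d a ha v hv
          rw [dotProduct_smul, ha v hv, smul_zero] }
    have hWne : W ≠ ⊥ := by
      rw [Submodule.ne_bot_iff]
      refine ⟨fun i => starRingEnd ℂ (f (Pi.single i 1)), ?_, ?_⟩
      · intro v hv
        have h1 : f v = 0 := hf (Submodule.subset_span hv)
        have h2 : f v = ∑ i, v i * f (Pi.single i 1) := by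
          have : v = ∑ i, v i • (Pi.single i (1 : ℂ) : E → ℂ) := by
            funext k
            simp [Finset.sum_apply, Pi.single_apply]
          conv_lhs => rw [this]
          rw [map_sum]
          apply Finset.sum_congr rfl
          intro i _
          rw [map_smul, smul_eq_mul]
        rw [h1] at h2
        have h3 := congrArg (starRingEnd ℂ) h2
        rw [map_zero, map_sum] at h3
        rw [dotProduct, h3]
        apply Finset.sum_congr rfl
        intro i _
        rw [map_mul]
        rfl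
      · intro h0
        apply hf0
        apply LinearMap.pi_ext
        intro i c
        have h1 := congrFun h0 i
        simp only [Pi.zero_apply, map_eq_zero] at h1
        have h2 : (Pi.single i c : E → ℂ) = c • Pi.single i 1 := by
          rw [← Pi.single_smul, smul_eq_mul, mul_one]
        rw [h2, map_smul, h1, smul_zero, LinearMap.zero_apply]
    obtain ⟨x, hx, hx0, hxF⟩ := exists_common F hcomm W (by
      intro A hA w hw v hv
      obtain ⟨c, hc⟩ := hv Aᴴ (hstar A hA)
      have h1 : star v ⬝ᵥ (A *ᵥ w) = star (Aᴴ *ᵥ v) ⬝ᵥ w := by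
        rw [Matrix.dotProduct_mulVec, Matrix.star_mulVec, Matrix.conjTranspose_conjTranspose]
      rw [h1, hc, star_smul, smul_dotProduct, hw v hv, smul_zero]) hWne
    exact hx0 (dotProduct_star_self_eq_zero.1 (hx x hxF))
  obtain ⟨U, hU⟩ := exists_cols Eig hspan
  refine ⟨U, fun A hA => ?_⟩
  choose c hc using fun j => hU j A hA
  refine ⟨c, ?_⟩
  ext i j
  rw [Matrix.mul_diagonal]
  have h1 := congrFun (hc j) i
  rw [Pi.smul_apply, smul_eq_mul, mul_comm] at h1
  rw [← h1]
  rfl

/-- the trace of an idempotent matrix is a natural number at most the size -/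
theorem trace_idem (p : Matrix E E ℂ) (hp : p * p = p) :
    ∃ m : ℕ, Matrix.trace p = m ∧ m ≤ Fintype.card E := by
  have h1 : IsIdempotentElem (Matrix.toLin' p) := by
    change (Matrix.toLin' p) ∘ₗ (Matrix.toLin' p) = Matrix.toLin' p
    rw [← Matrix.toLin'_mul, hp]
  have h2 := ((LinearMap.isProj_range_iff_isIdempotentElem _).2 h1).trace
  refine ⟨Module.finrank ℂ (LinearMap.range (Matrix.toLin' p)), ?_, ?_⟩
  · rw [← h2, Matrix.trace_toLin'_eq]
  · calc _ ≤ Module.finrank ℂ (E → ℂ) := Submodule.finrank_le _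
      _ = _ := Module.finrank_fintype_fun_eq_card ℂ

/-- a small integral vector orthogonal to given integral vectors, but not to a vector outside their
span -/
theorem small_orth {J : Type} [Fintype J] [DecidableEq J] (F : Set (J → ℤ)) (K : ℕ)
    (hK : ∀ d ∈ F, ∀ j, |d j| ≤ K) (y : J → ℂ)
    (hy : y ∉ Submodule.span ℂ {v : J → ℂ | ∃ d ∈ F, v = fun j => (d j : ℂ)}) :
    ∃ e : J → ℤ, (∀ j, |e j| ≤ (Fintype.card J).factorial * (K + 1) ^ (Fintype.card J)) ∧
      (∀ d ∈ F, ∑ j, e j * d j = 0) ∧ ∑ j, (e j : ℂ) * y j ≠ 0 := by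
  classical
  obtain ⟨s, hs, hs1, hs2⟩ := exists_linearIndependent ℂ {v : J → ℂ | ∃ d ∈ F, v = fun j => (d j : ℂ)}
  have hfin : Finite s := by
    have := hs2.setFinite
    exact this
  obtain ⟨ρ, ⟨ε⟩⟩ := Finite.exists_equiv_fin s
  choose d hd hd' using fun i : Fin ρ => hs (ε.symm i).2
  let v : Fin ρ → (J → ℂ) := fun i => ((ε.symm i : s) : J → ℂ)
  have hv : ∀ i, v i = fun j => (d i j : ℂ) := hd'
  have hvli : LinearIndependent ℂ v := hs2.comp ε.symm ε.symm.injective
  have hvspan : Submodule.span ℂ (Set.range v) = Submodule.span ℂ {v : J → ℂ | ∃ d ∈ F, v = fun j => (d j : ℂ)} := by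
    rw [← hs1]
    congr 1
    ext x
    constructor
    · rintro ⟨i, rfl⟩
      exact (ε.symm i).2
    · intro hx
      exact ⟨ε ⟨x, hx⟩, by simp [v]⟩
  have hli : LinearIndependent ℂ (Fin.cons y v : Fin (ρ + 1) → (J → ℂ)) :=
    hvli.finCons (by rw [hvspan]; exact hy)
  have hρ : ρ + 1 ≤ Fintype.card J := by
    have := hli.fintype_card_le_finrank
    rwa [Fintype.card_fin, Module.finrank_fintype_fun_eq_card] at this
  obtain ⟨c, hc⟩ := exists_minor (E := J) (Fin.cons y v : Fin (ρ + 1) → (J → ℂ)) hli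
  -- the integral minors
  let m : Fin (ρ + 1) → ℤ := fun l => (Matrix.of fun (i k : Fin ρ) => d i (c (l.succAbove k))).det
  have hexp : ∀ w : J → ℂ, (Matrix.of fun i j => (Fin.cons w v : Fin (ρ + 1) → (J → ℂ)) i (c j)).det =
      ∑ l : Fin (ρ + 1), (-1) ^ (l : ℕ) * w (c l) * (m l : ℂ) := by
    intro w
    rw [Matrix.det_succ_row_zero]
    apply Finset.sum_congr rfl
    intro l _
    congr 1
    have : ((m l : ℤ) : ℂ) = (Int.castRingHom ℂ) (m l) := rfl
    rw [this]
    change _ = (Int.castRingHom ℂ) (Matrix.det _)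
    rw [RingHom.map_det]
    congr 1
    ext i k
    rw [Matrix.submatrix_apply, Matrix.of_apply, Fin.cons_succ, hv, RingHom.mapMatrix_apply, Matrix.map_apply,
      Matrix.of_apply]
    rfl
  let e : J → ℤ := fun x => ∑ l : Fin (ρ + 1), if c l = x then (-1) ^ (l : ℕ) * m l else 0
  have he : ∀ w : J → ℂ, ∑ j, (e j : ℂ) * w j =
      (Matrix.of fun i j => (Fin.cons w v : Fin (ρ + 1) → (J → ℂ)) i (c j)).det := by
    intro w
    rw [hexp]
    simp only [e, Int.cast_sum, Finset.sum_mul]
    rw [Finset.sum_comm]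
    apply Finset.sum_congr rfl
    intro l _
    rw [Finset.sum_eq_single (c l)]
    · rw [if_pos rfl]
      push_cast
      ring
    · intro x _ hx
      rw [if_neg (Ne.symm hx)]
      simp
    · intro h; exact absurd (Finset.mem_univ _) h
  refine ⟨e, ?_, ?_, ?_⟩
  · intro x
    have hm : ∀ l, |m l| ≤ (ρ.factorial : ℤ) * (K : ℤ) ^ ρ := by
      intro l
      have := Matrix.det_le (A := Matrix.of fun (i k : Fin ρ) => d i (c (l.succAbove k)))
        (abv := AbsoluteValue.abs) (x := (K : ℤ)) (fun i k => hK _ (hd i) _)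
      rw [Fintype.card_fin, nsmul_eq_mul] at this
      exact this
    calc |e x| ≤ ∑ l : Fin (ρ + 1), |if c l = x then (-1) ^ (l : ℕ) * m l else 0| :=
          Finset.abs_sum_le_sum_abs _ _
      _ ≤ ∑ l : Fin (ρ + 1), (ρ.factorial : ℤ) * (K : ℤ) ^ ρ := by
          apply Finset.sum_le_sum
          intro l _
          split_ifs
          · rw [abs_mul, abs_pow, abs_neg, abs_one, one_pow, one_mul]
            exact hm l
          · rw [abs_zero]; positivity
      _ = (((ρ + 1).factorial * K ^ ρ : ℕ) : ℤ) := by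
          rw [Finset.sum_const, Finset.card_univ, Fintype.card_fin, nsmul_eq_mul, Nat.factorial_succ]
          push_cast
          ring
      _ ≤ (((Fintype.card J).factorial * (K + 1) ^ (Fintype.card J) : ℕ) : ℤ) := by
          rw [Nat.cast_le]
          apply Nat.mul_le_mul (Nat.factorial_le hρ)
          calc K ^ ρ ≤ (K + 1) ^ ρ := Nat.pow_le_pow_left (Nat.le_succ K) ρ
            _ ≤ (K + 1) ^ (Fintype.card J) := Nat.pow_le_pow_right (Nat.succ_pos K) (by omega)
      _ = _ := by push_cast; ring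
  · intro d' hd'F
    have h1 : ∑ j, (e j : ℂ) * (fun j => ((d' j : ℤ) : ℂ)) j = 0 := by
      rw [he]
      by_contra hne
      have hunit : IsUnit (Matrix.of fun i j => (Fin.cons (fun j => ((d' j : ℤ) : ℂ)) v : Fin (ρ + 1) → (J → ℂ)) i (c j)) := by
        rw [Matrix.isUnit_iff_isUnit_det]
        exact isUnit_iff_ne_zero.2 hne
      have hrows := Matrix.linearIndependent_rows_iff_isUnit.2 hunit
      have hli' : LinearIndependent ℂ (Fin.cons (fun j => ((d' j : ℤ) : ℂ)) v : Fin (ρ + 1) → (J → ℂ)) := by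
        let L : (J → ℂ) →ₗ[ℂ] (Fin (ρ + 1) → ℂ) := LinearMap.funLeft ℂ ℂ c
        exact LinearIndependent.of_comp L hrows
      have h2 := (linearIndependent_finCons.1 hli').2
      rw [hvspan] at h2
      exact h2 (Submodule.subset_span ⟨d', hd'F, rfl⟩)
    have h2 : ((∑ j, e j * d' j : ℤ) : ℂ) = 0 := by
      push_cast
      exact h1
    exact_mod_cast h2
  · rw [he]
    exact hc

end Pool.Agent.Work.MP_0da4e0_ag
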