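import Pool.Agent.Work.MP_0da4e0_ag.MtLie

/-! MP_0da4e0_ag: Weil tensors and the projector onto the Lie algebra killing the Hodge tensors. -/

open Matrix

namespace Pool.Agent.Work.MP_0da4e0_ag

variable {ι : Type} [Fintype ι] [DecidableEq ι]

/-- A rational mixed tensor is a Weil tensor if it is killed by all commutators `A * B - B * A` of
rational matrices `A`, `B` which commute with all Hodge endomorphisms. -/
def IsWeil (h : HodgeStr ι) {a b : ℕ} (t : Tens ι a b ℚ) : Prop :=
  ∀ A B : Matrix ι ι ℚ, (∀ C : Matrix ι ι ℚ, IsHodge h (matT C) → A * C = C * A) →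
    (∀ C : Matrix ι ι ℚ, IsHodge h (matT C) → B * C = C * B) → dact (A * B - B * A) t = 0

/-- The tensor `π` is the orthogonal projector, for the trace form, onto the Lie algebra of all
rational matrices killing the Hodge tensors. -/
def IsLieProj (h : HodgeStr ι) (π : Tens ι 2 2 ℚ) : Prop :=
  ∀ A : Matrix ι ι ℚ, endL π A ∈ mtLie h ∧ ∀ X ∈ mtLie h, Matrix.trace (X * (A - endL π A)) = 0

end Pool.Agent.Work.MP_0da4e0_ag
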