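import Pool.Agent.Work.MP_0da4e0_ag.FinOrbit0

open Matrix

namespace Pool.Agent.Work.MP_0da4e0_ag

variable {ι : Type} [Fintype ι] [DecidableEq ι]
variable {k : Type} [Field k]
variable {H : RealSys k ι} {I : Type} {m n : I → ℕ}

/-- A complex mixed tensor is of Hodge type (0, 0) if it is fixed by the Deligne torus. -/
def IsTypeZero (h : HodgeStr ι) {m n : ℕ} (t : Tens ι m n ℂ) : Prop :=
  ∀ (z w : ℂˣ) (g : GL ι ℂ), IsTorus h z w g → act g t = t

open Matrix.GeneralLinearGroup in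
/-- The rational tensor `x` of the Betti realization at `σ` is absolutely Hodge up to a finite
ambiguity of order at most `N₀`: it belongs to a family of `N ≤ N₀` tensors `B σ j` of the
complexified Betti realization at `σ`, which at every embedding `τ` corresponds to a family
`B τ j` of pairwise distinct tensors with algebraic entries and of type (0, 0), stable under field
endomorphisms of `ℂ`, with common de Rham components `D j` defined over `k` and, up to a
permutation, common `l`-adic components. -/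
def IsFinAH (H : RealSys k ι) (σ : k →+* ℂ) (N₀ : ℕ) {a b : ℕ} (x : Tens ι a b ℚ) : Prop :=
  ∃ N ≤ N₀, ∃ (j₀ : Fin N) (D : Fin N → Tens ι a b k) (B : (k →+* ℂ) → Fin N → Tens ι a b ℂ),
    B σ j₀ = ratT ℂ x ∧
    (∀ τ, Function.Injective (B τ)) ∧
    (∀ τ j e, IsAlgebraic ℚ (B τ j e)) ∧
    (∀ τ j, IsTypeZero (H.hodge τ) (B τ j)) ∧
    (∀ τ j, act (H.per τ) (B τ j) = fun e => τ (D j e)) ∧
    (∀ τ (θ : ℂ →+* ℂ), ∃ π : Equiv.Perm (Fin N), ∀ j, (fun e => θ (B τ j e)) = B τ (π j)) ∧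
    (∀ (τ : k →+* ℂ) (l : ℕ) [Fact l.Prime] (γ : ℚ_[l] →+* ℂ), ∃ π : Equiv.Perm (Fin N), ∀ j,
      act (map γ (H.et τ l)) (B τ j) = act (map γ (H.et σ l)) (B σ (π j)))

section
variable (T : ∀ i, AHTensor H (m i) (n i)) {σ τ : k →+* ℂ} {a b : ℕ} (x : Tens ι a b ℚ)

theorem orbT_finite {u : GL ι ℂ} (hu : u ∈ Tr T σ τ) (hfin : (orbC T σ x).Finite) :
    (orbT T σ τ x).Finite := by
  refine (hfin.image (fun y => act u y)).subset ?_
  intro z hz
  exact ⟨act u⁻¹ z, orbT_of_tr T x hu hz, act_act_inv _ _⟩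

theorem orbT_map_surj (hfin : (orbT T σ τ x).Finite) (θ : ℂ →+* ℂ) {z} (hz : z ∈ orbT T σ τ x) :
    ∃ y ∈ orbT T σ τ x, (fun e => θ (y e)) = z := by
  have h1 : Set.MapsTo (fun (y : Tens ι a b ℂ) => (fun e => θ (y e))) (orbT T σ τ x) (orbT T σ τ x) :=
    fun y hy => orbT_map T x θ hy
  have h2 : Set.InjOn (fun (y : Tens ι a b ℂ) => (fun e => θ (y e))) (orbT T σ τ x) := by
    intro y _ y' _ h
    funext e
    exact θ.injective (congrFun h e)
  exact ((hfin.injOn_iff_bijOn_of_mapsTo h1).1 h2).surjOn hz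

theorem orbT_algebraic (hfin : (orbT T σ τ x).Finite) {z} (hz : z ∈ orbT T σ τ x) (e) :
    IsAlgebraic ℚ (z e) := by
  obtain ⟨p, hp, -, h0, -⟩ := stable_finite (algebraMap ℚ ℂ)
    ((fun y : Tens ι a b ℂ => y e) '' orbT T σ τ x) (hfin.image _) (by
      rintro α β - _ ⟨_, ⟨y, hy, rfl⟩, rfl⟩
      obtain ⟨y', hy', h⟩ := orbT_map_surj T x hfin β (orbT_map T x α hy)
      exact ⟨y' e, ⟨y', hy', rfl⟩, congrFun h e⟩) (z e) ⟨z, hz, rfl⟩
  exact ⟨p, hp.ne_zero, h0⟩

open Matrix.GeneralLinearGroup in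
theorem orb_exists_dR [IsAlgClosed k] (hfin : (orbC T σ x).Finite) {y} (hy : y ∈ orbC T σ x) :
    ∃ d : Tens ι a b k, act (H.per σ) y = fun e => σ (d e) := by
  have key : ∀ e, ∃ d : k, act (H.per σ) y e = σ d := by
    intro e
    refine stable_algClosed σ ((fun y : Tens ι a b ℂ => act (H.per σ) y e) '' orbC T σ x)
      (hfin.image _) ?_ _ ⟨y, hy, rfl⟩
    rintro α β h _ ⟨_, ⟨z, hz, rfl⟩, rfl⟩
    have hu := trans_mem T α β h
    have hz1 : (fun e => α (z e)) ∈ orbC T σ x := orbT_map T x α hz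
    have hz2 := orbT_mem_of_tr T x hu hz1
    obtain ⟨z', hz', e'⟩ := orbT_map_surj T x hfin β hz2
    refine ⟨_, ⟨z', hz', rfl⟩, ?_⟩
    have e3 := congrFun (map_act α (H.per σ) z) e
    have e4 := congrFun (map_act β (H.per σ) z') e
    simp only
    rw [e3, e4, e', act_mul, act_act_inv]
  choose d hd using key
  exact ⟨d, funext hd⟩

/-- transported tensors are of Hodge type (0,0) -/
theorem orbT_typeZero (hfin : (orbT T σ τ x).Finite) {z} (hz : z ∈ orbT T σ τ x) :
    IsTypeZero (H.hodge τ) z := by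
  set E : Set (Tens ι a b ℂ) := orbT T σ τ x with hE
  have hEst : ∀ g ∈ stab T τ, ∀ e ∈ E, act g e ∈ E := fun g hg e he => orbT_stab T x hg he
  -- powers act trivially
  have hpow : ∃ N : ℕ, 0 < N ∧ ∀ g ∈ stab T τ, ∀ e ∈ E, act (g ^ N) e = e := by
    have : Finite E := hfin
    let φ : stab T τ →* Equiv.Perm E :=
      { toFun := fun g =>
          { toFun := fun e => ⟨act g.1 e.1, hEst g.1 g.2 e.1 e.2⟩
            invFun := fun e => ⟨act g.1⁻¹ e.1, hEst _ (inv_mem g.2) e.1 e.2⟩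
            left_inv := fun e => Subtype.ext (act_inv_act _ _)
            right_inv := fun e => Subtype.ext (act_act_inv _ _) }
        map_one' := by
          ext1 e
          exact Subtype.ext (act_one _)
        map_mul' := by
          intro g h
          ext1 e
          exact Subtype.ext (act_mul _ _ _) }
    refine ⟨Nat.card (Equiv.Perm E), Nat.card_pos, ?_⟩
    intro g hg e he
    have h1 : φ (⟨g, hg⟩ ^ Nat.card (Equiv.Perm E)) = 1 := by
      rw [map_pow, pow_card_eq_one']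
    have h2 := congrArg (fun ψ : Equiv.Perm E => (ψ ⟨e, he⟩).1) h1
    exact h2
  obtain ⟨N, hN, hNact⟩ := hpow
  intro z₁ z₂ g hg
  -- N-th roots
  obtain ⟨w₁, hw₁⟩ : ∃ w : ℂˣ, w ^ N = z₁ := by
    obtain ⟨c, hc⟩ := IsAlgClosed.exists_pow_nat_eq (z₁ : ℂ) hN
    have hc0 : c ≠ 0 := by
      rintro rfl
      rw [zero_pow hN.ne'] at hc
      exact z₁.ne_zero hc.symm
    exact ⟨Units.mk0 c hc0, Units.ext (by simpa using hc)⟩
  obtain ⟨w₂, hw₂⟩ : ∃ w : ℂˣ, w ^ N = z₂ := by
    obtain ⟨c, hc⟩ := IsAlgClosed.exists_pow_nat_eq (z₂ : ℂ) hN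
    have hc0 : c ≠ 0 := by
      rintro rfl
      rw [zero_pow hN.ne'] at hc
      exact z₂.ne_zero hc.symm
    exact ⟨Units.mk0 c hc0, Units.ext (by simpa using hc)⟩
  obtain ⟨h, hh⟩ := exists_torus (H.hodge τ) w₁ w₂
  have hgh : g = h ^ N := by
    have := hh.pow N
    rw [hw₁, hw₂] at this
    exact hg.unique this
  have hhs : h ∈ stab T τ := fun i => (T i).hodge τ w₁ w₂ h hh
  rw [hgh]
  exact hNact h hhs z hz

theorem perm_of_inj {J : Type} [Finite J] (f : J → J) (hf : Function.Injective f) :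
    ∃ π : Equiv.Perm J, ∀ j, π j = f j :=
  ⟨Equiv.ofBijective f (Finite.injective_iff_bijective.1 hf), fun _ => rfl⟩

open Matrix.GeneralLinearGroup in
/-- a rational tensor with finite orbit is absolutely Hodge up to finite ambiguity -/
theorem isFinAH_of_finite [IsAlgClosed k] (σ : k →+* ℂ) (hfin : (orbC T σ x).Finite) (N₀ : ℕ)
    (hN₀ : Nat.card (orbC T σ x) ≤ N₀) : IsFinAH H σ N₀ x := by
  have hJ : Finite (orbC T σ x) := hfin
  choose D hD using fun y : orbC T σ x => orb_exists_dR T x hfin y.2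
  have hpair : ∀ τ : k →+* ℂ, ∃ α β : ℂ →+* ℂ, α.comp σ = β.comp τ := fun τ =>
    amalg σ τ Cardinal.mk_complex.le
  choose α β hαβ using hpair
  have hTr : ∀ τ, (map (β τ) (H.per τ))⁻¹ * map (α τ) (H.per σ) ∈ Tr T σ τ := fun τ =>
    trans_mem T (α τ) (β τ) (hαβ τ)
  have hfinT : ∀ τ, (orbT T σ τ x).Finite := fun τ => orbT_finite T x (hTr τ) hfin
  let B : (k →+* ℂ) → orbC T σ x → Tens ι a b ℂ := fun τ y => act (H.per τ)⁻¹ (fun e => τ (D y e))
  have hdR : ∀ τ y, act (H.per τ) (B τ y) = fun e => τ (D y e) := fun τ y => act_act_inv _ _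
  have hBβ : ∀ τ y, (fun e => β τ (B τ y e)) =
      act ((map (β τ) (H.per τ))⁻¹ * map (α τ) (H.per σ)) (fun e => α τ (y.1 e)) := by
    intro τ y
    apply act_injective (map (β τ) (H.per τ))
    rw [← map_act, hdR, act_mul, act_act_inv, ← map_act, hD y]
    funext e
    exact (congrArg (fun φ : k →+* ℂ => φ (D y e)) (hαβ τ)).symm
  have hBmem : ∀ τ y, B τ y ∈ orbT T σ τ x := by
    intro τ y
    have h1 : (fun e => β τ (B τ y e)) ∈ orbT T σ τ x := by
      rw [hBβ]
      exact orbT_mem_of_tr T x (hTr τ) (orbT_map T x (α τ) y.2)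
    obtain ⟨z, hz, h2⟩ := orbT_map_surj T x (hfinT τ) (β τ) h1
    have : z = B τ y := by
      funext e
      exact (β τ).injective (congrFun h2 e)
    rwa [← this]
  have hDinj : Function.Injective D := by
    intro y y' h
    apply Subtype.ext
    apply act_injective (H.per σ)
    rw [hD, hD, h]
  have hBinj : ∀ τ, Function.Injective (B τ) := by
    intro τ y y' h
    apply hDinj
    funext e
    apply τ.injective
    have := congrArg (act (H.per τ)) h
    rw [hdR, hdR] at this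
    exact congrFun this e
  have hBsurj : ∀ τ z, z ∈ orbT T σ τ x → ∃ y, B τ y = z := by
    intro τ z hz
    -- compare with the bijection given by a transporter
    let f : orbC T σ x → orbC T σ x := fun y =>
      ⟨act ((map (β τ) (H.per τ))⁻¹ * map (α τ) (H.per σ))⁻¹ (B τ y), orbT_of_tr T x (hTr τ) (hBmem τ y)⟩
    have hf : Function.Injective f := by
      intro y y' h
      apply hBinj τ
      exact act_injective _ (congrArg Subtype.val h)
    obtain ⟨y, hy⟩ := (Finite.injective_iff_surjective.1 hf) ⟨_, orbT_of_tr T x (hTr τ) hz⟩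
    exact ⟨y, act_injective _ (congrArg Subtype.val hy)⟩
  have hBσ : ∀ y, B σ y = y.1 := by
    intro y
    apply act_injective (H.per σ)
    rw [hdR, hD]
  -- indexing by Fin N
  obtain ⟨N, ⟨ε⟩⟩ := Finite.exists_equiv_fin (orbC T σ x)
  have hN : N ≤ N₀ := by
    have := Nat.card_congr ε
    rw [Nat.card_fin] at this
    rw [← this]
    exact hN₀
  refine ⟨N, hN, ε ⟨ratT ℂ x, ⟨1, one_mem _, (act_one _).symm⟩⟩, fun j => D (ε.symm j), fun τ j => B τ (ε.symm j), ?_, ?_, ?_, ?_, ?_, ?_, ?_⟩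
  · simp only [Equiv.symm_apply_apply]
    exact hBσ _
  · intro τ
    exact (hBinj τ).comp ε.symm.injective
  · intro τ j e
    exact orbT_algebraic T x (hfinT τ) (hBmem τ _) e
  · intro τ j
    exact orbT_typeZero T x (hfinT τ) (hBmem τ _)
  · intro τ j
    exact hdR τ _
  · intro τ θ
    choose f hf using fun j => hBsurj τ _ (orbT_map T x θ (hBmem τ (ε.symm j)))
    obtain ⟨π, hπ⟩ := perm_of_inj (fun j => ε (f j)) (by
      intro j j' h
      have h1 : f j = f j' := ε.injective h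
      have h2 := hf j
      rw [h1, hf j'] at h2
      have h3 : B τ (ε.symm j') = B τ (ε.symm j) := by
        funext e
        exact θ.injective (congrFun h2 e)
      exact (ε.symm.injective (hBinj τ h3)).symm)
    refine ⟨π, fun j => ?_⟩
    simp only [hπ, Equiv.symm_apply_apply]
    exact (hf j).symm
  · intro τ l hl γ
    have hv := trans_mem_adic T σ τ γ
    choose f hf using fun j => hBsurj σ _ (orbT_of_tr T x hv (hBmem τ (ε.symm j)))
    obtain ⟨π, hπ⟩ := perm_of_inj (fun j => ε (f j)) (by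
      intro j j' h
      have h1 : f j = f j' := ε.injective h
      have h2 := hf j
      rw [h1, hf j'] at h2
      exact (ε.symm.injective (hBinj τ (act_injective _ h2))).symm)
    refine ⟨π, fun j => ?_⟩
    simp only [hπ, Equiv.symm_apply_apply]
    rw [hf j, _root_.mul_inv_rev, inv_inv, act_mul, act_act_inv]

end

/-- generic action polynomial with complex coefficients -/
noncomputable def actPolyC {a b : ℕ} (x : Tens ι a b ℚ) (e : (Fin a → ι) × (Fin b → ι)) :
    MvPolynomial ((ι × ι) ⊕ (ι × ι)) ℂ :=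
  MvPolynomial.map (algebraMap ℚ ℂ) (actPoly x e)

theorem aeval_actPolyC {a b : ℕ} (x : Tens ι a b ℚ) (e : (Fin a → ι) × (Fin b → ι)) (g : GL ι ℂ) :
    MvPolynomial.aeval (pt g) (actPolyC x e) = act g (ratT ℂ x) e := by
  rw [← aeval_actPoly, actPolyC, MvPolynomial.aeval_map_algebraMap]

/-- a uniform bound for the size of finite orbits -/
theorem exists_orb_bound (T : ∀ i, AHTensor H (m i) (n i)) (σ : k →+* ℂ) :
    ∃ N₀ : ℕ, ∀ (a b : ℕ) (x : Tens ι a b ℚ), (orbC T σ x).Finite → Nat.card (orbC T σ x) ≤ N₀ := by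
  let J : Ideal (MvPolynomial ((ι × ι) ⊕ (ι × ι)) ℂ) :=
    { carrier := {p | ∀ g ∈ stab T σ, MvPolynomial.aeval (pt g) p = 0}
      add_mem' := by
        intro p q hp hq g hg
        rw [map_add, hp g hg, hq g hg, add_zero]
      zero_mem' := by intro g _; exact map_zero _
      smul_mem' := by
        intro c p hp g hg
        rw [smul_eq_mul, map_mul, hp g hg, mul_zero] }
  have hminfin : (J.minimalPrimes).Finite := Ideal.finite_minimalPrimes_of_isNoetherianRing _ J
  have : Finite J.minimalPrimes := hminfin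
  refine ⟨Nat.card J.minimalPrimes, fun a b x hfin => ?_⟩
  have key : ∀ y : orbC T σ x, ∃ (g : GL ι ℂ) (P : J.minimalPrimes), y.1 = act g (ratT ℂ x) ∧
      P.1 ≤ RingHom.ker (MvPolynomial.aeval (pt g) : MvPolynomial ((ι × ι) ⊕ (ι × ι)) ℂ →ₐ[ℂ] ℂ) := by
    rintro ⟨y, g, hg, hy⟩
    let Q : Ideal (MvPolynomial ((ι × ι) ⊕ (ι × ι)) ℂ) := RingHom.ker (MvPolynomial.aeval (pt g) : MvPolynomial ((ι × ι) ⊕ (ι × ι)) ℂ →ₐ[ℂ] ℂ)
    have hQ : Q.IsPrime := RingHom.ker_isPrime _
    have hJQ : J ≤ Q := fun p hp => hp g hg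
    obtain ⟨P, hP, hPQ⟩ := Ideal.exists_minimalPrimes_le hJQ
    exact ⟨g, ⟨P, hP⟩, hy, hPQ⟩
  choose g P hg hP using key
  apply Nat.card_le_card_of_injective P
  intro y y' hyy
  apply Subtype.ext
  funext e
  have hR : ((fun z : Tens ι a b ℂ => z e) '' orbC T σ x).Finite := hfin.image _
  have hmem : ∏ c ∈ hR.toFinset, (actPolyC x e - MvPolynomial.C c) ∈ (P y).1 := by
    apply (P y).2.1.2
    intro g' hg'
    rw [map_prod]
    apply Finset.prod_eq_zero (i := act g' (ratT ℂ x) e)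
    · rw [Set.Finite.mem_toFinset]
      exact ⟨_, ⟨g', hg', rfl⟩, rfl⟩
    · rw [map_sub, aeval_actPolyC, MvPolynomial.aeval_C]
      simp
  obtain ⟨c, -, hc⟩ := (Ideal.IsPrime.prod_mem_iff (hp := (P y).2.1.1)).1 hmem
  have h1 := hP y hc
  have h2 := hP y' (hyy ▸ hc)
  rw [RingHom.mem_ker, map_sub, aeval_actPolyC, MvPolynomial.aeval_C, sub_eq_zero, ← hg] at h1 h2
  rw [h1, h2]

end Pool.Agent.Work.MP_0da4e0_ag
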