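import Pool.Agent.Work.MP_0da4e0_ag.LieAlg

open Matrix

namespace Pool.Agent.Work.MP_0da4e0_ag

variable {ι : Type} [Fintype ι] [DecidableEq ι]
variable {k : Type} [Field k]
variable {H : RealSys k ι} {I : Type} {m n : I → ℕ}

/-- The orbit of the rational tensor x under the group stab T σ. -/
def orbC (T : ∀ i, AHTensor H (m i) (n i)) (σ : k →+* ℂ) {a b : ℕ} (x : Tens ι a b ℚ) :
    Set (Tens ι a b ℂ) :=
  {y | ∃ g ∈ stab T σ, y = act g (ratT ℂ x)}

/-- If every member of the orbit has algebraic entries then the orbit is finite. -/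
theorem orbC_finite (T : ∀ i, AHTensor H (m i) (n i)) (σ : k →+* ℂ) {a b : ℕ} (x : Tens ι a b ℚ)
    (halg : ∀ g ∈ stab T σ, ∀ e, IsAlgebraic ℚ (act g (ratT ℂ x) e)) :
    (orbC T σ x).Finite := by
  let J : Ideal (MvPolynomial ((ι × ι) ⊕ (ι × ι)) ℚ) :=
    { carrier := {p | ∀ g ∈ stab T σ, MvPolynomial.aeval (pt g) p = 0}
      add_mem' := by
        intro p q hp hq g hg
        rw [map_add, hp g hg, hq g hg, add_zero]
      zero_mem' := by intro g _; exact map_zero _
      smul_mem' := by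
        intro c p hp g hg
        rw [smul_eq_mul, map_mul, hp g hg, mul_zero] }
  have hJ : ∀ p, p ∈ J ↔ ∀ g ∈ stab T σ, MvPolynomial.aeval (pt g) p = 0 := fun p => Iff.rfl
  have hminfin : (J.minimalPrimes).Finite := Ideal.finite_minimalPrimes_of_isNoetherianRing _ J
  -- on each component the orbit map satisfies polynomial equations
  have hcomp : ∀ (P : J.minimalPrimes) (e : (Fin a → ι) × (Fin b → ι)), ∃ y : Polynomial ℚ, y ≠ 0 ∧
      Polynomial.aeval (actPoly x e) y ∈ P.1 := by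
    rintro ⟨P, hP⟩ e
    have hPp : P.IsPrime := hP.1.1
    have hJP : J ≤ P := hP.1.2
    obtain ⟨v, hv⟩ := exists_generic_point P
    have hv' : ∀ p ∈ J, MvPolynomial.aeval v p = 0 := fun p hp => (hv p).2 (hJP hp)
    let G1 : Matrix ι ι ℂ := fun i j => v (Sum.inl (i, j))
    let G2 : Matrix ι ι ℂ := fun i j => v (Sum.inr (i, j))
    have hG12 : G1 * G2 = 1 := by
      ext i j
      have := hv' (∑ l, MvPolynomial.X (Sum.inl (i, l)) * MvPolynomial.X (Sum.inr (l, j)) -
        MvPolynomial.C ((1 : Matrix ι ι ℚ) i j)) (by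
          intro g hg
          simp only [map_sub, map_sum, map_mul, MvPolynomial.aeval_X, MvPolynomial.aeval_C, pt,
            Sum.elim_inl, Sum.elim_inr]
          rw [← Matrix.mul_apply, ← Units.val_mul, mul_inv_cancel, Units.val_one, Matrix.one_apply,
            Matrix.one_apply]
          split_ifs <;> simp)
      simp only [map_sub, map_sum, map_mul, MvPolynomial.aeval_X, MvPolynomial.aeval_C] at this
      rw [Matrix.mul_apply]
      rw [sub_eq_zero] at this
      rw [this, Matrix.one_apply, Matrix.one_apply]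
      split_ifs <;> simp
    have hG21 : G2 * G1 = 1 := mul_eq_one_comm.1 hG12
    let g : GL ι ℂ := ⟨G1, G2, hG12, hG21⟩
    have hpt : pt g = v := by
      funext e
      rcases e with e | e <;> rfl
    have hg : g ∈ stab T σ := by
      intro i
      funext e
      have := hv' (actPoly ((T i).betti σ) e - MvPolynomial.C ((T i).betti σ e)) (by
        intro g' hg'
        rw [map_sub, aeval_actPoly, MvPolynomial.aeval_C, congrFun (hg' i) e]
        simp [ratT])
      rw [map_sub, ← hpt, aeval_actPoly, MvPolynomial.aeval_C, sub_eq_zero] at this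
      rw [this]
      simp [ratT]
    obtain ⟨y, hy0, hy⟩ := halg g hg e
    refine ⟨y, hy0, ?_⟩
    rw [← hv, ← hpt, ← Polynomial.aeval_algHom_apply, aeval_actPoly]
    exact hy
  choose Y hY0 hY using hcomp
  have : Finite J.minimalPrimes := hminfin
  let R : (Fin a → ι) × (Fin b → ι) → Set ℂ := fun e => ⋃ P : J.minimalPrimes, (Y P e).rootSet ℂ
  have hR : ∀ e, (R e).Finite := fun e => Set.finite_iUnion (fun P => Polynomial.rootSet_finite _ _)
  refine (Set.Finite.pi' (t := R) hR).subset ?_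
  rintro y ⟨g, hg, hy⟩ e
  -- the kernel of evaluation at g contains a minimal prime
  let Q : Ideal (MvPolynomial ((ι × ι) ⊕ (ι × ι)) ℚ) := RingHom.ker (MvPolynomial.aeval (pt g) : MvPolynomial ((ι × ι) ⊕ (ι × ι)) ℚ →ₐ[ℚ] ℂ)
  have hQ : Q.IsPrime := RingHom.ker_isPrime _
  have hJQ : J ≤ Q := fun p hp => hp g hg
  obtain ⟨P, hP, hPQ⟩ := Ideal.exists_minimalPrimes_le hJQ
  refine Set.mem_iUnion.2 ⟨⟨P, hP⟩, ?_⟩
  rw [Polynomial.mem_rootSet]
  refine ⟨hY0 _ _, ?_⟩
  have := hPQ (hY ⟨P, hP⟩ e)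
  have h2 : MvPolynomial.aeval (pt g) (Polynomial.aeval (actPoly x e) (Y ⟨P, hP⟩ e)) = 0 := this
  rw [← Polynomial.aeval_algHom_apply, aeval_actPoly, ← hy] at h2
  exact h2


/-- the transports of x to the Betti realization at τ -/
def orbT (T : ∀ i, AHTensor H (m i) (n i)) (σ τ : k →+* ℂ) {a b : ℕ} (x : Tens ι a b ℚ) :
    Set (Tens ι a b ℂ) :=
  {y | ∃ u ∈ Tr T σ τ, y = act u (ratT ℂ x)}

section
variable (T : ∀ i, AHTensor H (m i) (n i)) {σ τ : k →+* ℂ} {a b : ℕ} (x : Tens ι a b ℚ)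

theorem orbC_eq : orbC T σ x = orbT T σ σ x := rfl

theorem orbT_mem_of_tr {u : GL ι ℂ} (hu : u ∈ Tr T σ τ) {y} (hy : y ∈ orbC T σ x) :
    act u y ∈ orbT T σ τ x := by
  obtain ⟨g, hg, rfl⟩ := hy
  exact ⟨u * g, mul_stab_mem T hu hg, by rw [act_mul]⟩

theorem orbT_of_tr {u : GL ι ℂ} (hu : u ∈ Tr T σ τ) {y} (hy : y ∈ orbT T σ τ x) :
    act u⁻¹ y ∈ orbC T σ x := by
  obtain ⟨v, hv, rfl⟩ := hy
  exact ⟨u⁻¹ * v, inv_mul_mem T hu hv, by rw [act_mul]⟩

theorem orbT_stab {g : GL ι ℂ} (hg : g ∈ stab T τ) {y} (hy : y ∈ orbT T σ τ x) :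
    act g y ∈ orbT T σ τ x := by
  obtain ⟨v, hv, rfl⟩ := hy
  exact ⟨g * v, stab_mul_mem T hv hg, by rw [act_mul]⟩

open Matrix.GeneralLinearGroup in
theorem orbT_map (θ : ℂ →+* ℂ) {y} (hy : y ∈ orbT T σ τ x) :
    (fun e => θ (y e)) ∈ orbT T σ τ x := by
  obtain ⟨v, hv, rfl⟩ := hy
  exact ⟨map θ v, map_mem T θ hv, by rw [map_act, ratT_map]⟩

end

end Pool.Agent.Work.MP_0da4e0_ag
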