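import Pool.Agent.Work.MP_0da4e0_ag.FinOrbit
import Pool.Agent.Work.MP_0da4e0_ag.WeilTens
import Pool.Agent.Work.MP_0da4e0_ag.EffAut

/-! MP_0da4e0_ag: power sums of a family of tensors which is absolutely Hodge up to permutations are
absolutely Hodge; a matrix killing all absolutely Hodge tensors kills the members of the family. -/

open Matrix

namespace Pool.Agent.Work.MP_0da4e0_ag

variable {ι : Type} [Fintype ι] [DecidableEq ι]

/-- the power sum of a family of tensors -/
def psum {R : Type} [CommRing R] {N a b : ℕ} (B : Fin N → Tens ι a b R) (r : ℕ) : Tens ι (r * a) (r * b) R :=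
  ∑ j, tprod (fun _ : Fin r => B j)

theorem act_sum {R : Type} [CommRing R] {J : Type} {a b : ℕ} (s : Finset J) (g : GL ι R) (t : J → Tens ι a b R) :
    act g (∑ j ∈ s, t j) = ∑ j ∈ s, act g (t j) := by
  simp only [act_eq, Matrix.mulVec_sum]

theorem act_psum {R : Type} [CommRing R] {N a b : ℕ} (g : GL ι R) (B : Fin N → Tens ι a b R) (r : ℕ) :
    act g (psum B r) = psum (fun j => act g (B j)) r := by
  rw [psum, act_sum, psum]
  apply Finset.sum_congr rfl
  intro j _
  rw [act_tprod]

omit [Fintype ι] [DecidableEq ι] in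
theorem map_psum {R S : Type} [CommRing R] [CommRing S] {N a b : ℕ} (f : R →+* S) (B : Fin N → Tens ι a b R)
    (r : ℕ) : (fun e => f (psum B r e)) = psum (fun j e => f (B j e)) r := by
  funext e
  simp only [psum, Finset.sum_apply, map_sum]
  apply Finset.sum_congr rfl
  intro j _
  exact congrFun (map_tprod f (fun _ : Fin r => B j)) e

omit [Fintype ι] [DecidableEq ι] in
theorem psum_perm {R : Type} [CommRing R] {N a b : ℕ} (B : Fin N → Tens ι a b R) (π : Equiv.Perm (Fin N))
    (r : ℕ) : psum (fun j => B (π j)) r = psum B r := by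
  rw [psum, psum]
  exact Equiv.sum_comp π (fun j => tprod (fun _ : Fin r => B j))

/-- the polynomial of a tensor -/
noncomputable def polT {a b : ℕ} (t : Tens ι a b ℂ) : Polynomial ℂ :=
  ∑ x, Polynomial.C (t x) * Polynomial.X ^ (Fintype.equivFin ((Fin a → ι) × (Fin b → ι)) x : ℕ)

theorem polT_coeff {a b : ℕ} (t : Tens ι a b ℂ) (x) :
    (polT t).coeff (Fintype.equivFin ((Fin a → ι) × (Fin b → ι)) x : ℕ) = t x := by
  rw [polT, Polynomial.finset_sum_coeff, Finset.sum_eq_single x]
  · rw [Polynomial.coeff_C_mul, Polynomial.coeff_X_pow_self, mul_one]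
  · intro y _ hy
    rw [Polynomial.coeff_C_mul, Polynomial.coeff_X_pow, if_neg, mul_zero]
    intro h
    exact hy ((Fintype.equivFin _).injective (Fin.ext h)).symm
  · intro h; exact absurd (Finset.mem_univ _) h

theorem polT_injective {a b : ℕ} : Function.Injective (polT : Tens ι a b ℂ → _) := by
  intro s t h
  funext x
  rw [← polT_coeff s x, h, polT_coeff]

/-- the functional on tensors of bidegree (r a, r b) extending the r-th power of `polT` -/
noncomputable def polR {a b : ℕ} (r : ℕ) : Tens ι (r * a) (r * b) ℂ →ₗ[ℂ] Polynomial ℂ where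
  toFun u := ∑ e, Polynomial.C (u e) * ∏ j, Polynomial.X ^ (Fintype.equivFin ((Fin a → ι) × (Fin b → ι)) (splt e j) : ℕ)
  map_add' u v := by
    rw [← Finset.sum_add_distrib]
    apply Finset.sum_congr rfl
    intro e _
    rw [Pi.add_apply, Polynomial.C_add, add_mul]
  map_smul' c u := by
    rw [RingHom.id_apply, Finset.smul_sum]
    apply Finset.sum_congr rfl
    intro e _
    rw [Pi.smul_apply, smul_eq_mul, Polynomial.C_mul, Polynomial.smul_eq_C_mul, mul_assoc]

theorem polR_tprod {a b r : ℕ} (s : Fin r → Tens ι a b ℂ) : polR r (tprod s) = ∏ j, polT (s j) := by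
  have h1 : polR r (tprod s) = ∑ e : (Fin (r * a) → ι) × (Fin (r * b) → ι),
      ∏ j, (Polynomial.C (s j (splt e j)) *
        Polynomial.X ^ (Fintype.equivFin ((Fin a → ι) × (Fin b → ι)) (splt e j) : ℕ)) := by
    change (∑ e, Polynomial.C (tprod s e) * ∏ j, Polynomial.X ^ (Fintype.equivFin ((Fin a → ι) × (Fin b → ι)) (splt e j) : ℕ)) = _
    apply Finset.sum_congr rfl
    intro e _
    rw [tprod, map_prod, Finset.prod_mul_distrib]
  rw [h1]
  have h2 : (∑ e : (Fin (r * a) → ι) × (Fin (r * b) → ι),
      ∏ j, (Polynomial.C (s j (splt e j)) *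
        Polynomial.X ^ (Fintype.equivFin ((Fin a → ι) × (Fin b → ι)) (splt e j) : ℕ))) =
      ∑ φ : Fin r → (Fin a → ι) × (Fin b → ι), ∏ j, (Polynomial.C (s j (φ j)) *
        Polynomial.X ^ (Fintype.equivFin ((Fin a → ι) × (Fin b → ι)) (φ j) : ℕ)) :=
    Fintype.sum_equiv (spltEquiv ι r a b) _ _ (fun _ => rfl)
  rw [h2]
  simp only [polT]
  rw [Finset.prod_univ_sum, Fintype.piFinset_univ]

/-- if the power sums are killed by Y then so are the members of the family -/
theorem killed_of_psum {N a b : ℕ} (B : Fin N → Tens ι a b ℂ) (hB : Function.Injective B)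
    (Y : Matrix ι ι ℂ) (hY : ∀ r, dact Y (psum B r) = 0) (j : Fin N) : dact Y (B j) = 0 := by
  have key : ∀ n : ℕ, ∑ i, polT (dact Y (B i)) * polT (B i) ^ n = 0 := by
    intro n
    have h1 : dact Y (psum B (n + 1)) = ∑ i, ∑ l : Fin (n + 1),
        tprod (Function.update (fun _ : Fin (n + 1) => B i) l (dact Y (B i))) := by
      rw [psum, dact_sum]
      apply Finset.sum_congr rfl
      intro i _
      rw [dact_tprod]
    have h2 := congrArg (polR (a := a) (b := b) (n + 1)) (hY (n + 1))
    rw [h1, map_zero, map_sum] at h2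
    have h3 : ∀ (i : Fin N) (l : Fin (n + 1)), polR (a := a) (b := b) (n + 1)
        (tprod (Function.update (fun _ : Fin (n + 1) => B i) l (dact Y (B i)))) =
        polT (dact Y (B i)) * polT (B i) ^ n := by
      intro i l
      rw [polR_tprod, ← Finset.mul_prod_erase Finset.univ _ (Finset.mem_univ l), Function.update_self]
      congr 1
      rw [Finset.prod_congr rfl (fun k hk => by
        rw [Function.update_of_ne (Finset.ne_of_mem_erase hk)])]
      rw [Finset.prod_const, Finset.card_erase_of_mem (Finset.mem_univ l), Finset.card_univ, Fintype.card_fin,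
        Nat.add_sub_cancel]
    have h4 : ∑ i, polR (a := a) (b := b) (n + 1) (∑ l : Fin (n + 1),
        tprod (Function.update (fun _ : Fin (n + 1) => B i) l (dact Y (B i)))) =
        ((n + 1 : ℕ) : Polynomial ℂ) * ∑ i, polT (dact Y (B i)) * polT (B i) ^ n := by
      rw [Finset.mul_sum]
      apply Finset.sum_congr rfl
      intro i _
      rw [map_sum, Finset.sum_congr rfl (fun l _ => h3 i l), Finset.sum_const, Finset.card_univ,
        Fintype.card_fin, nsmul_eq_mul]
    rw [h4] at h2
    rcases mul_eq_zero.1 h2 with h | h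
    · exact absurd h (Nat.cast_ne_zero.2 (Nat.succ_ne_zero n))
    · exact h
  have h1 := Matrix.eq_zero_of_forall_pow_sum_mul_pow_eq_zero (f := fun i => polT (B i))
    (v := fun i => polT (dact Y (B i))) (polT_injective.comp hB) (fun i => key i)
  have h2 : polT (dact Y (B j)) = 0 := congrFun h1 j
  apply polT_injective
  rw [h2]
  simp [polT]

variable {k : Type} [Field k]

open Matrix.GeneralLinearGroup in
/-- a matrix killing all absolutely Hodge tensors kills all tensors which are absolutely Hodge up to a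
finite ambiguity -/
theorem finAH_killed {H : RealSys k ι} {σ : k →+* ℂ} {N₀ : ℕ} {a b : ℕ} {x : Tens ι a b ℚ}
    (hx : IsFinAH H σ N₀ x) (Y : Matrix ι ι ℂ)
    (hY : ∀ (m n : ℕ) (s : AHTensor H m n), dact Y (ratT ℂ (s.betti σ)) = 0) :
    dact Y (ratT ℂ x) = 0 := by
  obtain ⟨N, -, j₀, D, B, h0, hinj, -, htype, hdR, hgal, had⟩ := hx
  have hrat : ∀ (τ : k →+* ℂ) (r : ℕ), ∃ t : Tens ι (r * a) (r * b) ℚ, ratT ℂ t = psum (B τ) r := by
    intro τ r
    have key : ∀ e, ∃ q : ℚ, (q : ℂ) = psum (B τ) r e := by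
      intro e
      by_contra hcon
      push Not at hcon
      obtain ⟨θ, hθ⟩ := exists_aut _ hcon
      apply hθ
      obtain ⟨π, hπ⟩ := hgal τ (θ : ℂ →+* ℂ)
      have h1 := congrFun (map_psum (θ : ℂ →+* ℂ) (B τ) r) e
      have h2 : (fun j e => (θ : ℂ →+* ℂ) (B τ j e)) = fun j => B τ (π j) := funext hπ
      rw [h2, psum_perm] at h1
      exact h1
    choose q hq using key
    exact ⟨q, funext hq⟩
  choose t ht using hrat
  have hAH : ∀ r : ℕ, ∃ s : AHTensor H (r * a) (r * b), s.betti σ = t σ r := by
    intro r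
    refine ⟨{ dR := psum D r
              ad := fun l _ => act (H.et σ l) (ratT ℚ_[l] (t σ r))
              betti := fun τ => t τ r
              comp_dR := ?_
              comp_ad := ?_
              hodge := ?_ }, rfl⟩
    · intro τ
      rw [ht, act_psum]
      have h2 : (fun j => act (H.per τ) (B τ j)) = fun j e => τ (D j e) := funext (hdR τ)
      rw [h2, ← map_psum]
    · intro τ l hl
      obtain ⟨γ⟩ := embed_padic l
      have key : ∀ τ' : k →+* ℂ, (fun e => γ (act (H.et τ' l) (ratT ℚ_[l] (t τ' r)) e)) =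
          psum (fun j => act (map γ (H.et τ' l)) (B τ' j)) r := by
        intro τ'
        rw [map_act, ratT_map, ht, act_psum]
      obtain ⟨π, hπ⟩ := had τ l γ
      have h3 : (fun j => act (map γ (H.et τ l)) (B τ j)) = fun j => act (map γ (H.et σ l)) (B σ (π j)) :=
        funext hπ
      have h4 : (fun e => γ (act (H.et τ l) (ratT ℚ_[l] (t τ r)) e)) =
          (fun e => γ (act (H.et σ l) (ratT ℚ_[l] (t σ r)) e)) := by
        rw [key τ, key σ, h3]
        exact psum_perm (fun j => act (map γ (H.et σ l)) (B σ j)) π r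
      funext e
      exact γ.injective (congrFun h4 e)
    · intro τ z w g hg
      rw [ht, act_psum]
      have h5 : (fun j => act g (B τ j)) = B τ := funext (fun j => htype τ j z w g hg)
      rw [h5]
  have hkill : ∀ r, dact Y (psum (B σ) r) = 0 := by
    intro r
    obtain ⟨s, hs⟩ := hAH r
    rw [← ht, ← hs]
    exact hY _ _ s
  rw [← h0]
  exact killed_of_psum (B σ) (hinj σ) Y hkill j₀

end Pool.Agent.Work.MP_0da4e0_ag
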