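import Pool.Agent.Work.MP_0da4e0_ag.WeilLie

/-! MP_0da4e0_ag: the Lie algebra killing the Hodge tensors, and the center. -/

open Matrix

namespace Pool.Agent.Work.MP_0da4e0_ag

variable {ι : Type} [Fintype ι] [DecidableEq ι]

/-- the bilinear trace form -/
noncomputable def trB (ι : Type) [Fintype ι] : LinearMap.BilinForm ℂ (Matrix ι ι ℂ) :=
  LinearMap.mk₂ ℂ (fun A B => Matrix.trace (A * B))
    (by intro A A' B; simp [Matrix.add_mul])
    (by intro c A B; simp)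
    (by intro A B B'; simp [Matrix.mul_add])
    (by intro c A B; simp)

omit [DecidableEq ι] in
theorem trB_symm : (trB ι).IsSymm := ⟨fun A B => Matrix.trace_mul_comm A B⟩

/-- brackets of elements of the Lie algebra -/
theorem bracket_mem_mt {h : HodgeStr ι} {X Y : Matrix ι ι ℂ} (hX : X ∈ mtLieC h) (hY : Y ∈ mtLieC h) :
    X * Y - Y * X ∈ mtLieC h := by
  intro m n t ht
  rw [dact_bracket, hX m n t ht, hY m n t ht, dact, dact, Matrix.mulVec_zero, Matrix.mulVec_zero, sub_zero]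

theorem mt_commute {h : HodgeStr ι} {X : Matrix ι ι ℂ} (hX : X ∈ mtLieC h) {A : Matrix ι ι ℚ}
    (hA : IsHodge h (matT A)) : X * cx A = cx A * X := by
  have h1 := hX 1 1 (matT A) hA
  rw [ratT_matT, dact_matT] at h1
  have h2 : X * cx A - cx A * X = 0 := matT_injective (by rw [h1]; rfl)
  exact sub_eq_zero.1 h2

theorem muG_mem_mt {h : HodgeStr ι} (j : (ℂ ≃+* ℂ) × Bool) (z : ℂˣ) {Y : Matrix ι ι ℂ}
    (hY : Y ∈ mtLieC h) :
    (muG h j z : Matrix ι ι ℂ) * Y * (((muG h j z)⁻¹ : GL ι ℂ) : Matrix ι ι ℂ) ∈ mtLieC h := by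
  intro m n t ht
  have h1 := act_dact (muG h j z) Y (ratT ℂ t)
  rw [hY m n t ht, hodge_fixed ht j z] at h1
  rw [← h1, act_eq, Matrix.mulVec_zero]

theorem muG_inv_mem_mt {h : HodgeStr ι} (j : (ℂ ≃+* ℂ) × Bool) (z : ℂˣ) {Y : Matrix ι ι ℂ}
    (hY : Y ∈ mtLieC h) :
    (((muG h j z)⁻¹ : GL ι ℂ) : Matrix ι ι ℂ) * Y * (muG h j z : Matrix ι ι ℂ) ∈ mtLieC h := by
  intro m n t ht
  have h0 : act (muG h j z)⁻¹ (ratT ℂ t) = ratT ℂ t := by
    conv_lhs => rw [← hodge_fixed ht j z]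
    rw [act_inv_act]
  have h1 := act_dact (muG h j z)⁻¹ Y (ratT ℂ t)
  rw [hY m n t ht, h0, inv_inv] at h1
  rw [← h1, act_eq, Matrix.mulVec_zero]

theorem map_mem_mt {h : HodgeStr ι} (θ : ℂ →+* ℂ) {Y : Matrix ι ι ℂ} (hY : Y ∈ mtLieC h) :
    Y.map θ ∈ mtLieC h := by
  intro m n t ht
  have h1 := map_dact θ Y (ratT ℂ t)
  rw [hY m n t ht, ratT_map] at h1
  rw [← h1]
  funext e
  simp

/-- the projector onto the Lie algebra -/
theorem exists_projC {h : HodgeStr ι} {S : Matrix ι ι ℚ} (hS : Polarizes h S) :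
    ∃ P : Matrix ι ι ℂ →ₗ[ℂ] Matrix ι ι ℂ, (∀ A, P A ∈ mtLieC h) ∧ (∀ A ∈ mtLieC h, P A = A) ∧
      (∀ A, ∀ X ∈ mtLieC h, Matrix.trace (X * (A - P A)) = 0) := by
  have hdisj : Disjoint (mtLieC h) ((trB ι).orthogonal (mtLieC h)) := by
    rw [Submodule.disjoint_def]
    intro X hX hX'
    apply trace_dag_ne hS
    rw [Matrix.trace_mul_comm]
    exact hX' _ (dag_mem hS hX)
  have hcompl := (LinearMap.BilinForm.isCompl_orthogonal_iff_disjoint trB_symm.isRefl).2 hdisj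
  refine ⟨(mtLieC h).subtype ∘ₗ Submodule.projectionOnto _ _ hcompl,
    fun A => (Submodule.projectionOnto _ _ hcompl A).2, ?_, ?_⟩
  · intro A hA
    have := Submodule.projectionOnto_apply_left hcompl ⟨A, hA⟩
    simp only [LinearMap.comp_apply, Submodule.subtype_apply]
    rw [this]
  · intro A X hX
    have h1 : A - (mtLieC h).subtype (Submodule.projectionOnto _ _ hcompl A) ∈
        LinearMap.ker (Submodule.projectionOnto _ _ hcompl) := by
      rw [LinearMap.mem_ker, map_sub]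
      have : Submodule.projectionOnto _ _ hcompl
          ((mtLieC h).subtype (Submodule.projectionOnto _ _ hcompl A)) =
          Submodule.projectionOnto _ _ hcompl A :=
        Submodule.projectionOnto_apply_left hcompl _
      rw [this, sub_self]
    rw [Submodule.ker_projectionOnto hcompl] at h1
    exact h1 X hX

/-- the matrices commuting with the Lie algebra killing the Hodge tensors and with all Hodge
endomorphisms -/
def Cen (h : HodgeStr ι) (Z : Matrix ι ι ℂ) : Prop :=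
  (∀ X ∈ mtLieC h, X * Z = Z * X) ∧ ∀ A : Matrix ι ι ℚ, IsHodge h (matT A) → cx A * Z = Z * cx A

theorem commute_mu {h : HodgeStr ι} {Z : Matrix ι ι ℂ} (hZ : ∀ X ∈ mtLieC h, X * Z = Z * X)
    (j : (ℂ ≃+* ℂ) × Bool) (z : ℂˣ) :
    (muG h j z : Matrix ι ι ℂ) * Z = Z * (muG h j z : Matrix ι ι ℂ) := by
  obtain ⟨z', w', hzw⟩ := mu_eq h j z
  change mu h j z * Z = Z * mu h j z
  rw [hzw]
  set θ : ℂ →+* ℂ := (j.1 : ℂ →+* ℂ) with hθ
  set θ' : ℂ →+* ℂ := (j.1.symm : ℂ →+* ℂ) with hθ'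
  have e1 : (Z.map θ').map θ = Z := by
    ext a b
    simp [hθ, hθ']
  have h1 : ∀ X ∈ mtLieC h, X * Z.map θ' = Z.map θ' * X := by
    intro X hX
    have h2 := hZ _ (map_mem_mt θ hX)
    have h3 := congrArg (fun M : Matrix ι ι ℂ => M.map θ') h2
    simp only [Matrix.map_mul] at h3
    have e2 : (X.map θ).map θ' = X := by
      ext a b
      simp [hθ, hθ']
    rwa [e2] at h3
  have h4 := commute_torus h1 (tor_spec h z' w')
  have h5 := congrArg (fun M : Matrix ι ι ℂ => M.map θ) h4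
  simp only [Matrix.map_mul] at h5
  rw [e1] at h5
  exact h5

theorem mem_span_endo {h : HodgeStr ι} {Z : Matrix ι ι ℂ} (hZ : ∀ X ∈ mtLieC h, X * Z = Z * X) :
    Z ∈ Submodule.span ℂ {x : Matrix ι ι ℂ | ∃ A : Matrix ι ι ℚ, IsHodge h (matT A) ∧ x = cx A} := by
  have h1 : ∀ j z, act (muG h j z) (matT Z) = matT Z := by
    intro j z
    rw [act_matT, commute_mu hZ j z, Matrix.mul_assoc, ← Units.val_mul, mul_inv_cancel, Units.val_one,
      Matrix.mul_one]
  have h2 := fixed_span (matT Z) h1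
  let Φ : Tens ι 1 1 ℂ →ₗ[ℂ] Matrix ι ι ℂ :=
    { toFun := fun t => Matrix.of fun i j => t (fun _ => i, fun _ => j)
      map_add' := fun _ _ => rfl
      map_smul' := fun _ _ => rfl }
  have h3 : Φ (matT Z) ∈ (Submodule.span ℂ {x | ∃ s : Tens ι 1 1 ℚ, IsHodge h s ∧ x = ratT ℂ s}).map Φ :=
    Submodule.mem_map_of_mem h2
  have h4 : Φ (matT Z) = Z := rfl
  rw [Submodule.map_span, h4] at h3
  refine Submodule.span_mono ?_ h3
  rintro _ ⟨_, ⟨s, hs, rfl⟩, rfl⟩
  obtain ⟨A, rfl⟩ := exists_matT s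
  exact ⟨A, hs, rfl⟩

theorem Cen.comm {h : HodgeStr ι} {Z Z' : Matrix ι ι ℂ} (hZ : Cen h Z) (hZ' : Cen h Z') : Z * Z' = Z' * Z := by
  have h1 := mem_span_endo hZ.1
  have h2 := hZ'.2
  clear hZ hZ'
  induction h1 using Submodule.span_induction with
  | mem x hx => obtain ⟨A, hA, rfl⟩ := hx; exact h2 A hA
  | zero => rw [Matrix.zero_mul, Matrix.mul_zero]
  | add x y _ _ hx hy => rw [Matrix.add_mul, Matrix.mul_add, hx, hy]
  | smul c x _ hx => rw [Matrix.smul_mul, Matrix.mul_smul, hx]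

theorem Cen.dag {h : HodgeStr ι} {S : Matrix ι ι ℚ} (hS : Polarizes h S) {Z : Matrix ι ι ℂ} (hZ : Cen h Z) :
    Cen h (dag h S Z) := by
  have key : ∀ B : Matrix ι ι ℂ, (∀ X ∈ mtLieC h, X * B = B * X) →
      ∀ X ∈ mtLieC h, X * Pool.Agent.Work.MP_0da4e0_ag.dag h S B =
        Pool.Agent.Work.MP_0da4e0_ag.dag h S B * X := by
    intro B hB X hX
    have h1 := hB _ (dag_mem hS hX)
    have h2 := congrArg (Pool.Agent.Work.MP_0da4e0_ag.dag h S) h1
    rw [dag_mul hS, dag_mul hS, dag_dag hS] at h2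
    exact h2.symm
  refine ⟨key Z hZ.1, ?_⟩
  intro A hA
  have h1 : ∀ X ∈ mtLieC h, X * cx A = cx A * X := fun X hX => mt_commute hX hA
  have h2 := mem_span_endo (key _ h1)
  have h3 : Pool.Agent.Work.MP_0da4e0_ag.dag h S (cx A) * Z =
      Z * Pool.Agent.Work.MP_0da4e0_ag.dag h S (cx A) := by
    have h4 := hZ.2
    generalize Pool.Agent.Work.MP_0da4e0_ag.dag h S (cx A) = y at h2
    induction h2 using Submodule.span_induction with
    | mem x hx => obtain ⟨A, hA, rfl⟩ := hx; exact h4 A hA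
    | zero => rw [Matrix.zero_mul, Matrix.mul_zero]
    | add x y _ _ hx hy => rw [Matrix.add_mul, Matrix.mul_add, hx, hy]
    | smul c x _ hx => rw [Matrix.smul_mul, Matrix.mul_smul, hx]
  have h5 := congrArg (Pool.Agent.Work.MP_0da4e0_ag.dag h S) h3
  rw [dag_mul hS, dag_mul hS, dag_dag hS] at h5
  exact h5.symm

end Pool.Agent.Work.MP_0da4e0_ag
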