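import Pool.Agent.Work.MP_0da4e0_ag.WeilInt
import Pool.Agent.Work.MP_0da4e0_ag.FinPow

/-! MP_0da4e0_ag: the Weil criterion. -/

open Matrix

namespace Pool.Agent.Work.MP_0da4e0_ag

variable {ι : Type} [Fintype ι] [DecidableEq ι]

/-- rational matrices commuting with Hodge endomorphisms commute with the center -/
theorem rat_comm_cen {h : HodgeStr ι} {A : Matrix ι ι ℚ}
    (hA : ∀ C : Matrix ι ι ℚ, IsHodge h (matT C) → A * C = C * A) {Z : Matrix ι ι ℂ} (hZ : Cen h Z) :
    cx A * Z = Z * cx A := by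
  have hspan := mem_span_endo hZ.1
  clear hZ
  induction hspan using Submodule.span_induction with
  | mem x hx => obtain ⟨C, hC, rfl⟩ := hx; rw [← cx_mul, ← cx_mul, hA C hC]
  | zero => rw [Matrix.zero_mul, Matrix.mul_zero]
  | add x y _ _ hx hy => rw [Matrix.add_mul, Matrix.mul_add, hx, hy]
  | smul c x _ hx => rw [Matrix.smul_mul, Matrix.mul_smul, hx]

/-- the condition on a rational matrix: it is in the rational Lie algebra or is a commutator of matrices
commuting with the Hodge endomorphisms -/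
def Good (h : HodgeStr ι) (X : Matrix ι ι ℚ) : Prop :=
  X ∈ mtLie h ∨ ∃ A B : Matrix ι ι ℚ,
    (∀ C : Matrix ι ι ℚ, IsHodge h (matT C) → A * C = C * A) ∧
    (∀ C : Matrix ι ι ℚ, IsHodge h (matT C) → B * C = C * B) ∧ X = A * B - B * A

/-- a tensor killed by the Lie algebra and the commutators is a combination of Hodge tensors which are
Weil tensors -/
theorem mem_span_weil {h : HodgeStr ι} {a b : ℕ} {D : Tens ι a b ℂ}
    (hD : ∀ X : Matrix ι ι ℚ, Good h X → dact (cx X) D = 0) :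
    D ∈ Submodule.span ℂ {w : Tens ι a b ℂ | ∃ u : Tens ι a b ℚ, IsHodge h u ∧ IsWeil h u ∧ w = ratT ℂ u} := by
  have hspan := mem_span_ker (M := {X : Matrix ι ι ℚ // Good h X} × ((Fin a → ι) × (Fin b → ι)))
    (Matrix.of fun r f => dmat a b r.1.1 r.2 f) D (by
    funext r
    have h1 := congrFun (hD r.1.1 r.1.2) r.2
    rw [Pi.zero_apply] at h1 ⊢
    rw [← h1]
    simp only [Matrix.mulVec, dotProduct, dact]
    apply Finset.sum_congr rfl
    intro f _
    congr 1
    rw [Matrix.map_apply, Matrix.of_apply]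
    have h2 : (fun q : ℚ => (q : ℂ)) = (Rat.castHom ℂ : ℚ → ℂ) := rfl
    have h3 : ∀ i j, (Rat.castHom ℂ) ((1 : Matrix ι ι ℚ) i j) = (1 : Matrix ι ι ℂ) i j := by
      intro i j
      rw [Matrix.one_apply, Matrix.one_apply]
      split_ifs <;> simp
    have h4 : ((dmat a b r.1.1 r.2 f : ℚ) : ℂ) = (Rat.castHom ℂ) (dmat a b r.1.1 r.2 f) := rfl
    rw [h4]
    simp only [dmat, map_sub, map_mul, map_sum, map_prod, h3]
    rfl)
  refine Submodule.span_mono ?_ hspan
  rintro _ ⟨u, hu, rfl⟩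
  have hu' : ∀ X : Matrix ι ι ℚ, Good h X → dact X u = 0 := by
    intro X hX
    funext e
    exact congrFun hu (⟨X, hX⟩, e)
  exact ⟨u, isHodge_of_lie (fun X hX => hu' X (Or.inl hX)),
    fun A B hA hB => hu' _ (Or.inr ⟨A, B, hA, hB, rfl⟩), rfl⟩

/-- the Lie algebra is generated by its commutators and its central elements -/
theorem mt_decomp {h : HodgeStr ι} {S : Matrix ι ι ℚ} (hS : Polarizes h S) {X : Matrix ι ι ℂ}
    (hX : X ∈ mtLieC h) : ∃ Z ∈ mtLieC h, Cen h Z ∧
      ∀ W, Cen h W → Matrix.trace (Z * W) = Matrix.trace (X * W) := by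
  let Q : Submodule ℂ (Matrix ι ι ℂ) :=
    { carrier := {X | ∃ Z ∈ mtLieC h, Cen h Z ∧
        ∀ W, Cen h W → Matrix.trace (Z * W) = Matrix.trace (X * W)}
      add_mem' := by
        rintro X X' ⟨Z, hZ, hZc, hZt⟩ ⟨Z', hZ', hZ'c, hZ't⟩
        refine ⟨Z + Z', Submodule.add_mem _ hZ hZ', ⟨?_, ?_⟩, ?_⟩
        · intro Y hY
          rw [Matrix.mul_add, Matrix.add_mul, hZc.1 Y hY, hZ'c.1 Y hY]
        · intro A hA
          rw [Matrix.mul_add, Matrix.add_mul, hZc.2 A hA, hZ'c.2 A hA]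
        · intro W hW
          rw [Matrix.add_mul, Matrix.add_mul, Matrix.trace_add, Matrix.trace_add, hZt W hW, hZ't W hW]
      zero_mem' := ⟨0, Submodule.zero_mem _, ⟨fun Y _ => by simp, fun A _ => by simp⟩, fun W _ => rfl⟩
      smul_mem' := by
        rintro c X ⟨Z, hZ, hZc, hZt⟩
        refine ⟨c • Z, Submodule.smul_mem _ _ hZ, ⟨?_, ?_⟩, ?_⟩
        · intro Y hY
          rw [Matrix.mul_smul, Matrix.smul_mul, hZc.1 Y hY]
        · intro A hA
          rw [Matrix.mul_smul, Matrix.smul_mul, hZc.2 A hA]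
        · intro W hW
          rw [Matrix.smul_mul, Matrix.smul_mul, Matrix.trace_smul, Matrix.trace_smul, hZt W hW] }
  by_contra hcon
  have hXQ : X ∉ Q := hcon
  obtain ⟨f, hf, hfX⟩ : ∃ f : Matrix ι ι ℂ →ₗ[ℂ] ℂ, f X ≠ 0 ∧ Q ≤ LinearMap.ker f := by
    obtain ⟨f, h1, h2⟩ := Submodule.exists_le_ker_of_notMem (p := Q) hXQ
    exact ⟨f, h1, h2⟩
  apply hf
  apply functional_zero hS f ?_ ?_ X hX
  · intro A hA B hB
    apply hfX
    refine ⟨0, Submodule.zero_mem _, ⟨fun Y _ => by simp, fun A _ => by simp⟩, ?_⟩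
    intro W hW
    rw [Matrix.zero_mul, Matrix.trace_zero, Matrix.sub_mul, Matrix.trace_sub]
    have h1 : Matrix.trace (A * B * W) = Matrix.trace (B * A * W) := by
      rw [Matrix.mul_assoc, hW.1 B hB, ← Matrix.mul_assoc, Matrix.trace_mul_comm, ← Matrix.mul_assoc]
    rw [h1, sub_self]
  · intro Z hZ hZc
    apply hfX
    exact ⟨Z, hZ, hZc, fun W _ => rfl⟩

/-- the bound for the bidegree -/
def weilN (n H : ℕ) : ℕ := n ^ 2 * n.factorial * (n * H + 1) ^ n

/-- A central matrix killing the Hodge tensors of bounded bidegree which are Weil tensors belongs to the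
Lie algebra. -/
theorem cen_mem {h : HodgeStr ι} {S : Matrix ι ι ℚ} (hS : Polarizes h S) {H : ℕ}
    (hH : ∀ p q : ℤ, h.V (p, q) ≠ ⊥ → |p| ≤ H) {Y : Matrix ι ι ℂ} (hY : Cen h Y)
    (hW : ∀ a b : ℕ, a ≤ weilN (Fintype.card ι) H → b ≤ weilN (Fintype.card ι) H →
      ∀ t : Tens ι a b ℚ, IsHodge h t → IsWeil h t → dact Y (ratT ℂ t) = 0) : Y ∈ mtLieC h := by
  obtain ⟨d⟩ := exists_Diag hS
  obtain ⟨F1, hF1, hF1'⟩ := exists_gen h 1 0
  obtain ⟨F2, hF2, hF2'⟩ := exists_gen h 0 1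
  -- commutation with the center
  have hmtc : ∀ X ∈ mtLieC h, ∀ Z, Cen h Z → X * Z = Z * X := fun X hX Z hZ => hZ.1 X hX
  -- integrality for all conjugates
  have hint : ∀ (F : Matrix ι ι ℂ), F ∈ mtLieC h → ∀ α β : ℤ, ((α = 1 ∧ β = 0) ∨ (α = 0 ∧ β = 1)) →
      (∀ p q v, v ∈ h.V (p, q) → F *ᵥ v = ((α * p + β * q : ℤ) : ℂ) • v) → ∀ (θ : ℂ ≃+* ℂ) (j : ι),
      ∃ m : ℤ, Matrix.trace (F.map (θ : ℂ →+* ℂ) * d.q j) = m ∧ |m| ≤ Fintype.card ι * H := by
    intro F hF α β hαβ hFv θ j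
    set p := (d.q j).map (θ.symm : ℂ →+* ℂ) with hp
    have hpθ : p.map (θ : ℂ →+* ℂ) = d.q j := by
      rw [hp]; ext a b; simp
    have hpp : p * p = p := by
      rw [hp, ← Matrix.map_mul, d.q_idem]
    have hFp : F * p = p * F := by
      have h1 := hmtc _ (map_mem_mt (θ : ℂ →+* ℂ) hF) _ (d.q_cen j)
      have h2 := congrArg (fun M : Matrix ι ι ℂ => M.map (θ.symm : ℂ →+* ℂ)) h1
      simp only [Matrix.map_mul] at h2
      have h3 : (F.map (θ : ℂ →+* ℂ)).map (θ.symm : ℂ →+* ℂ) = F := by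
        ext a b; simp
      rw [h3] at h2
      exact h2
    obtain ⟨m, hm, hmle⟩ := gen_trace_int hH hαβ hFv p hpp hFp
    refine ⟨m, ?_, hmle⟩
    have h1 : F.map (θ : ℂ →+* ℂ) * d.q j = (F * p).map (θ : ℂ →+* ℂ) := by
      rw [Matrix.map_mul, hpθ]
    rw [h1]
    have h2 : Matrix.trace ((F * p).map (θ : ℂ →+* ℂ)) = θ (Matrix.trace (F * p)) := by
      rw [Matrix.trace, Matrix.trace, map_sum]
      rfl
    rw [h2, hm]
    simp
  let 𝓓 : Set (ι → ℤ) := {w | ∃ θ : ℂ ≃+* ℂ, ∃ F : Matrix ι ι ℂ, (F = F1 ∨ F = F2) ∧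
    ∀ j, Matrix.trace (F.map (θ : ℂ →+* ℂ) * d.q j) = ((w j : ℤ) : ℂ)}
  have h𝓓 : ∀ w ∈ 𝓓, ∀ j, |w j| ≤ ((Fintype.card ι * H : ℕ) : ℤ) := by
    rintro w ⟨θ, F, hF, hw⟩ j
    have key : ∃ m : ℤ, Matrix.trace (F.map (θ : ℂ →+* ℂ) * d.q j) = m ∧ |m| ≤ Fintype.card ι * H := by
      rcases hF with rfl | rfl
      · exact hint _ hF1 1 0 (Or.inl ⟨rfl, rfl⟩) hF1' θ j
      · exact hint _ hF2 0 1 (Or.inr ⟨rfl, rfl⟩) hF2' θ j
    obtain ⟨m, hm, hmle⟩ := key
    rw [hw j] at hm
    have : w j = m := by exact_mod_cast hm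
    rw [this]
    push_cast
    exact hmle
  by_cases hspan : (fun j => Matrix.trace (Y * d.q j)) ∈
      Submodule.span ℂ {v : ι → ℂ | ∃ w ∈ 𝓓, v = fun j => ((w j : ℤ) : ℂ)}
  · -- the weights of Y are those of an element of the Lie algebra
    obtain ⟨X, hX, hXt⟩ : ∃ X ∈ mtLieC h, (fun j => Matrix.trace (Y * d.q j)) = fun j => Matrix.trace (X * d.q j) := by
      generalize (fun j => Matrix.trace (Y * d.q j)) = y at hspan
      induction hspan using Submodule.span_induction with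
      | mem x hx =>
        obtain ⟨w, ⟨θ, F, hF, hw⟩, rfl⟩ := hx
        refine ⟨F.map (θ : ℂ →+* ℂ), ?_, ?_⟩
        · rcases hF with rfl | rfl
          · exact map_mem_mt _ hF1
          · exact map_mem_mt _ hF2
        · funext j
          exact (hw j).symm
      | zero => exact ⟨0, Submodule.zero_mem _, by funext j; simp⟩
      | add x y _ _ hx hy =>
        obtain ⟨X, hX, rfl⟩ := hx
        obtain ⟨X', hX', rfl⟩ := hy
        refine ⟨X + X', Submodule.add_mem _ hX hX', ?_⟩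
        funext j
        rw [Pi.add_apply, Matrix.add_mul, Matrix.trace_add]
      | smul c x _ hx =>
        obtain ⟨X, hX, rfl⟩ := hx
        refine ⟨c • X, Submodule.smul_mem _ _ hX, ?_⟩
        funext j
        rw [Pi.smul_apply, Matrix.smul_mul, Matrix.trace_smul]
    obtain ⟨Z, hZ, hZc, hZt⟩ := mt_decomp hS hX
    have hall : ∀ W, Cen h W → Matrix.trace ((Y - Z) * W) = 0 := by
      intro W hW
      have hWs := d.cen_span hW
      clear hW
      induction hWs using Submodule.span_induction with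
      | mem x hx =>
        obtain ⟨j, rfl⟩ := hx
        rw [Matrix.sub_mul, Matrix.trace_sub, hZt _ (d.q_cen j), congrFun hXt j, sub_self]
      | zero => rw [Matrix.mul_zero, Matrix.trace_zero]
      | add x y _ _ hx hy => rw [Matrix.mul_add, Matrix.trace_add, hx, hy, add_zero]
      | smul c x _ hx => rw [Matrix.mul_smul, Matrix.trace_smul, hx, smul_zero]
    have hYZ : Cen h (Y - Z) := by
      refine ⟨fun X hX => ?_, fun A hA => ?_⟩
      · rw [Matrix.mul_sub, Matrix.sub_mul, hY.1 X hX, hZc.1 X hX]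
      · rw [Matrix.mul_sub, Matrix.sub_mul, hY.2 A hA, hZc.2 A hA]
    have h0 : Y - Z = 0 := trace_dag_ne hS (hall _ (hYZ.dag hS))
    rw [sub_eq_zero.1 h0]
    exact hZ
  · -- otherwise there is a Weil tensor which is not killed
    exfalso
    obtain ⟨e, he1, he2, he3⟩ := small_orth 𝓓 (Fintype.card ι * H) h𝓓 _ hspan
    obtain ⟨a, ha, b, hb, D, hD0, hD⟩ := d.exists_weight _ e rfl
    have hsum : ∑ j, (e j).natAbs ≤ Fintype.card ι * ((Fintype.card ι).factorial * (Fintype.card ι * H + 1) ^ (Fintype.card ι)) := by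
      calc ∑ j, (e j).natAbs ≤ ∑ j : ι, ((Fintype.card ι).factorial * (Fintype.card ι * H + 1) ^ (Fintype.card ι)) := by
            apply Finset.sum_le_sum
            intro j _
            have := he1 j
            zify
            exact_mod_cast this
        _ = _ := by rw [Finset.sum_const, Finset.card_univ, smul_eq_mul]
    have hbound : Fintype.card ι * ∑ j, (e j).natAbs ≤ weilN (Fintype.card ι) H := by
      calc Fintype.card ι * ∑ j, (e j).natAbs ≤ Fintype.card ι * (Fintype.card ι * ((Fintype.card ι).factorial * (Fintype.card ι * H + 1) ^ (Fintype.card ι))) :=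
            Nat.mul_le_mul_left _ hsum
        _ = _ := by rw [weilN]; ring
    have hFD : ∀ (θ : ℂ ≃+* ℂ) (F : Matrix ι ι ℂ), (F = F1 ∨ F = F2) → dact (F.map (θ : ℂ →+* ℂ)) D = 0 := by
      intro θ F hF
      have hFmem : F.map (θ : ℂ →+* ℂ) ∈ mtLieC h := by
        rcases hF with rfl | rfl
        · exact map_mem_mt _ hF1
        · exact map_mem_mt _ hF2
      have hw : ∀ j, ∃ m : ℤ, Matrix.trace (F.map (θ : ℂ →+* ℂ) * d.q j) = m := by
        intro j
        rcases hF with rfl | rfl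
        · exact (hint _ hF1 1 0 (Or.inl ⟨rfl, rfl⟩) hF1' θ j).imp fun m hm => hm.1
        · exact (hint _ hF2 0 1 (Or.inr ⟨rfl, rfl⟩) hF2' θ j).imp fun m hm => hm.1
      choose w hw using hw
      have h1 := he2 w ⟨θ, F, hF, hw⟩
      rw [hD _ (hmtc _ hFmem)]
      have h2 : ∑ j, (e j : ℂ) * Matrix.trace (F.map (θ : ℂ →+* ℂ) * d.q j) = 0 := by
        simp only [hw]
        exact_mod_cast h1
      rw [h2, zero_smul]
    have hfix : D ∈ fixM h a b := mem_fixM hF1' hF2' (fun θ => hFD θ F1 (Or.inl rfl)) (fun θ => hFD θ F2 (Or.inr rfl))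
    have hgood : ∀ X : Matrix ι ι ℚ, Good h X → dact (cx X) D = 0 := by
      rintro X (hX | ⟨A, B, hA, hB, rfl⟩)
      · exact fixM_killed hfix (cx_mem hX)
      · rw [cx_sub, cx_mul, cx_mul]
        have hAB : ∀ Z, Cen h Z → (cx A * cx B - cx B * cx A) * Z = Z * (cx A * cx B - cx B * cx A) := by
          intro Z hZ
          have e1 : cx A * cx B * Z = Z * (cx A * cx B) := by
            rw [Matrix.mul_assoc, rat_comm_cen hB hZ, ← Matrix.mul_assoc, rat_comm_cen hA hZ, Matrix.mul_assoc]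
          have e2 : cx B * cx A * Z = Z * (cx B * cx A) := by
            rw [Matrix.mul_assoc, rat_comm_cen hA hZ, ← Matrix.mul_assoc, rat_comm_cen hB hZ, Matrix.mul_assoc]
          rw [Matrix.sub_mul, Matrix.mul_sub, e1, e2]
        rw [hD _ hAB]
        have h1 : ∀ j, Matrix.trace ((cx A * cx B - cx B * cx A) * d.q j) = 0 := by
          intro j
          rw [Matrix.sub_mul, Matrix.trace_sub]
          have h2 : Matrix.trace (cx A * cx B * d.q j) = Matrix.trace (cx B * cx A * d.q j) := by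
            rw [Matrix.mul_assoc, rat_comm_cen hB (d.q_cen j), ← Matrix.mul_assoc, Matrix.trace_mul_comm,
              ← Matrix.mul_assoc]
          rw [h2, sub_self]
        simp only [h1, mul_zero, Finset.sum_const_zero, zero_smul]
    have hYD : dact Y D = 0 := by
      have hsp := mem_span_weil hgood
      have ha' := ha.trans hbound
      have hb' := hb.trans hbound
      clear hgood hfix hFD hD hD0
      induction hsp using Submodule.span_induction with
      | mem x hx => obtain ⟨u, hu1, hu2, rfl⟩ := hx; exact hW a b ha' hb' u hu1 hu2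
      | zero => rw [dact, Matrix.mulVec_zero]
      | add x y _ _ hx hy => rw [dact, Matrix.mulVec_add]; change dact Y x + dact Y y = 0; rw [hx, hy, add_zero]
      | smul c x _ hx => rw [dact_tsmul, hx, smul_zero]
    rw [hD Y (fun Z hZ => hY.comm hZ)] at hYD
    rcases smul_eq_zero.1 hYD with h | h
    · exact he3 h
    · exact hD0 h

theorem isWeil_endo {h : HodgeStr ι} {C : Matrix ι ι ℚ} (hC : IsHodge h (matT C)) : IsWeil h (matT C) := by
  intro A B hA hB
  have h1 : dact (cx (A * B - B * A)) (ratT ℂ (matT C)) = 0 := by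
    rw [ratT_matT, dact_matT, ← cx_mul, ← cx_mul]
    have h2 : (A * B - B * A) * C = C * (A * B - B * A) := by
      rw [Matrix.sub_mul, Matrix.mul_sub, Matrix.mul_assoc, hB C hC, ← Matrix.mul_assoc, hA C hC,
        Matrix.mul_assoc B, hA C hC, ← Matrix.mul_assoc B, hB C hC, Matrix.mul_assoc, Matrix.mul_assoc]
    rw [h2, sub_self]
    rfl
  rw [dact_ratT] at h1
  exact ratT_injective (R := ℂ) (by rw [h1, ratT_zero])

/-- A matrix killing the Lie algebra projector and the Hodge tensors of bounded bidegree which are Weil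
tensors kills all Hodge tensors. -/
theorem weil_kills' {h : HodgeStr ι} {S : Matrix ι ι ℚ} (hS : Polarizes h S) {H : ℕ}
    (hH : ∀ p q : ℤ, h.V (p, q) ≠ ⊥ → |p| ≤ H) {π : Tens ι 2 2 ℚ} (hπ : IsLieProj h π) (Y : Matrix ι ι ℂ)
    (hYπ : dact Y (ratT ℂ π) = 0)
    (hW : ∀ a b : ℕ, a ≤ weilN (Fintype.card ι) H → b ≤ weilN (Fintype.card ι) H →
      ∀ t : Tens ι a b ℚ, IsHodge h t → IsWeil h t → dact Y (ratT ℂ t) = 0) : Y ∈ mtLieC h := by
  rcases isEmpty_or_nonempty ι with hι | hι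
  · have : Y = 0 := Subsingleton.elim _ _
    rw [this]
    exact Submodule.zero_mem _
  have hN : 1 ≤ weilN (Fintype.card ι) H := by
    have hc : 0 < Fintype.card ι := Fintype.card_pos
    have : 0 < weilN (Fintype.card ι) H := by
      rw [weilN]
      have := Nat.factorial_pos (Fintype.card ι)
      positivity
    exact this
  obtain ⟨Y1, hY1, hcen⟩ := splitProj hS hπ Y hYπ (fun A hA => hW 1 1 hN hN _ hA (isWeil_endo hA))
  have h2 : Y - Y1 ∈ mtLieC h := by
    apply cen_mem hS hH hcen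
    intro a b ha hb t ht htW
    rw [dact_sub, hW a b ha hb t ht htW, hY1 a b t ht, sub_zero]
  have h3 : Y = Y1 + (Y - Y1) := by abel
  rw [h3]
  exact Submodule.add_mem _ hY1 h2

variable {k : Type} [Field k]

/-- The Weil criterion. -/
theorem weil_criterion [IsAlgClosed k] (X : RealSys k ι) (σ : k →+* ℂ) (S : Matrix ι ι ℚ)
    (hS : Polarizes (X.hodge σ) S) (H : ℕ) (hH : ∀ p q : ℤ, (X.hodge σ).V (p, q) ≠ ⊥ → |p| ≤ H)
    {π : Tens ι 2 2 ℚ} (hπ : IsLieProj (X.hodge σ) π) :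
    (∃ N₀, ∀ (a b : ℕ) (x : Tens ι a b ℚ), IsHodge (X.hodge σ) x → IsFinAH X σ N₀ x) ↔
      (∃ N₀, IsFinAH X σ N₀ π) ∧
      ∀ a b : ℕ, a ≤ weilN (Fintype.card ι) H → b ≤ weilN (Fintype.card ι) H →
        ∀ x : Tens ι a b ℚ, IsHodge (X.hodge σ) x → IsWeil (X.hodge σ) x → ∃ N₀, IsFinAH X σ N₀ x := by
  constructor
  · rintro ⟨N₀, h⟩
    exact ⟨⟨N₀, h 2 2 π (hπ.isHodge hS)⟩, fun a b _ _ x hx _ => ⟨N₀, h a b x hx⟩⟩
  · rintro ⟨⟨N₁, h1⟩, h2⟩
    let I := Σ d : ℕ × ℕ, AHTensor X d.1 d.2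
    let T : ∀ i : I, AHTensor X i.1.1 i.1.2 := fun i => i.2
    obtain ⟨N₀, hN₀⟩ := exists_orb_bound T σ
    refine ⟨N₀, fun a b x hx => ?_⟩
    have hfin : (orbC T σ x).Finite := by
      apply orbC_finite
      intro g hg e
      refine alg_of_lie (fun i : I => (T i).betti σ) x ?_ g hg e
      intro Y hY
      have hY' : ∀ (m n : ℕ) (s : AHTensor X m n), dact Y (ratT ℂ (s.betti σ)) = 0 :=
        fun m n s => hY ⟨(m, n), s⟩
      have hmem : Y ∈ mtLieC (X.hodge σ) := by
        apply weil_kills' hS hH hπ Y (finAH_killed h1 Y hY')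
        intro a' b' ha hb t ht htW
        obtain ⟨N₂, h3⟩ := h2 a' b' ha hb t ht htW
        exact finAH_killed h3 Y hY'
      exact hmem a b x hx
    exact isFinAH_of_finite T x σ hfin N₀ (hN₀ a b x hfin)

end Pool.Agent.Work.MP_0da4e0_ag
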