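import Pool.Agent.Work.MP_0da4e0_ag.Defs

open Matrix

namespace Pool.Agent.Work.MP_0da4e0_ag

variable {ι : Type} [Fintype ι] [DecidableEq ι] {m n : ℕ}

/-- The infinitesimal action of a matrix on mixed tensors. -/
def dmat {R : Type} [CommRing R] (m n : ℕ) (X : Matrix ι ι R) :
    Matrix ((Fin m → ι) × (Fin n → ι)) ((Fin m → ι) × (Fin n → ι)) R :=
  fun e f =>
    (∑ j, (∏ i ∈ Finset.univ.erase j, (1 : Matrix ι ι R) (e.1 i) (f.1 i)) * X (e.1 j) (f.1 j)) *
      (∏ j, (1 : Matrix ι ι R) (f.2 j) (e.2 j)) -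
    (∏ j, (1 : Matrix ι ι R) (e.1 j) (f.1 j)) *
      (∑ j, (∏ i ∈ Finset.univ.erase j, (1 : Matrix ι ι R) (f.2 i) (e.2 i)) * X (f.2 j) (e.2 j))

def dact {R : Type} [CommRing R] (X : Matrix ι ι R) (t : Tens ι m n R) : Tens ι m n R :=
  dmat m n X *ᵥ t

omit [Fintype ι] in
theorem dmat_add {R : Type} [CommRing R] (X Y : Matrix ι ι R) :
    dmat m n (X + Y) = dmat m n X + dmat m n Y := by
  ext e f
  simp only [dmat, Matrix.add_apply, mul_add, Finset.sum_add_distrib, add_mul]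
  ring

omit [Fintype ι] in
theorem dmat_smul {R : Type} [CommRing R] (c : R) (X : Matrix ι ι R) :
    dmat m n (c • X) = c • dmat m n X := by
  ext e f
  simp only [dmat, Matrix.smul_apply, smul_eq_mul]
  have h1 : ∑ j, (∏ i ∈ Finset.univ.erase j, (1 : Matrix ι ι R) (e.1 i) (f.1 i)) * (c * X (e.1 j) (f.1 j)) =
      c * ∑ j, (∏ i ∈ Finset.univ.erase j, (1 : Matrix ι ι R) (e.1 i) (f.1 i)) * X (e.1 j) (f.1 j) := by
    rw [Finset.mul_sum]
    exact Finset.sum_congr rfl (fun j _ => by ring)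
  have h2 : ∑ j, (∏ i ∈ Finset.univ.erase j, (1 : Matrix ι ι R) (f.2 i) (e.2 i)) * (c * X (f.2 j) (e.2 j)) =
      c * ∑ j, (∏ i ∈ Finset.univ.erase j, (1 : Matrix ι ι R) (f.2 i) (e.2 i)) * X (f.2 j) (e.2 j) := by
    rw [Finset.mul_sum]
    exact Finset.sum_congr rfl (fun j _ => by ring)
  rw [h1, h2]
  ring

theorem dact_add {R : Type} [CommRing R] (X Y : Matrix ι ι R) (t : Tens ι m n R) :
    dact (X + Y) t = dact X t + dact Y t := by
  rw [dact, dmat_add, Matrix.add_mulVec]; rfl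

theorem dact_smul {R : Type} [CommRing R] (c : R) (X : Matrix ι ι R) (t : Tens ι m n R) :
    dact (c • X) t = c • dact X t := by
  rw [dact, dmat_smul, Matrix.smul_mulVec]; rfl

theorem dact_zero {R : Type} [CommRing R] (t : Tens ι m n R) :
    dact (0 : Matrix ι ι R) t = 0 := by
  have := dact_smul (0 : R) (0 : Matrix ι ι R) t
  simpa using this

theorem dact_sub {R : Type} [CommRing R] (X Y : Matrix ι ι R) (t : Tens ι m n R) :
    dact (X - Y) t = dact X t - dact Y t := by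
  have : X - Y = X + (-1 : R) • Y := by rw [neg_one_smul, sub_eq_add_neg]
  rw [this, dact_add, dact_smul, neg_one_smul, sub_eq_add_neg]

/-- derivative of the action along a path through the identity -/
theorem hasDerivAt_act {g : ℂ → GL ι ℂ} {s₀ : ℂ} {X : Matrix ι ι ℂ} (h1 : g s₀ = 1)
    (hg : ∀ i j, HasDerivAt (fun s => (g s : Matrix ι ι ℂ) i j) (X i j) s₀)
    (hg' : ∀ i j, HasDerivAt (fun s => (((g s)⁻¹ : GL ι ℂ) : Matrix ι ι ℂ) i j) (-X i j) s₀)
    (t : Tens ι m n ℂ) (e : (Fin m → ι) × (Fin n → ι)) :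
    HasDerivAt (fun s => act (g s) t e) (dact X t e) s₀ := by
  simp only [act, dact, Matrix.mulVec, dotProduct]
  apply HasDerivAt.fun_sum
  intro f _
  apply HasDerivAt.mul_const
  have e1 : HasDerivAt (fun s => ∏ j, (g s : Matrix ι ι ℂ) (e.1 j) (f.1 j))
      (∑ j, (∏ i ∈ Finset.univ.erase j, (1 : Matrix ι ι ℂ) (e.1 i) (f.1 i)) * X (e.1 j) (f.1 j)) s₀ := by
    have := HasDerivAt.fun_finsetProd (u := Finset.univ) (f := fun j s => (g s : Matrix ι ι ℂ) (e.1 j) (f.1 j))
      (f' := fun j => X (e.1 j) (f.1 j)) (x := s₀) (fun j _ => hg _ _)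
    simpa [h1] using this
  have e2 : HasDerivAt (fun s => ∏ j, (((g s)⁻¹ : GL ι ℂ) : Matrix ι ι ℂ) (f.2 j) (e.2 j))
      (∑ j, (∏ i ∈ Finset.univ.erase j, (1 : Matrix ι ι ℂ) (f.2 i) (e.2 i)) * (-X (f.2 j) (e.2 j))) s₀ := by
    have := HasDerivAt.fun_finsetProd (u := Finset.univ) (f := fun j s => (((g s)⁻¹ : GL ι ℂ) : Matrix ι ι ℂ) (f.2 j) (e.2 j))
      (f' := fun j => -X (f.2 j) (e.2 j)) (x := s₀) (fun j _ => hg' _ _)
    simpa [h1] using this
  have e3 := e1.mul e2
  refine e3.congr_deriv ?_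
  simp only [dmat, h1, inv_one, Units.val_one, mul_neg, Finset.sum_neg_distrib]
  ring


/-- the action of a matrix is natural for ring homomorphisms -/
theorem map_dact {R S : Type} [CommRing R] [CommRing S] (f : R →+* S) (X : Matrix ι ι R) (t : Tens ι m n R) :
    (fun e => f (dact X t e)) = dact (X.map f) (fun e => f (t e)) := by
  funext e
  simp only [dact, Matrix.mulVec, dotProduct, map_sum, map_mul, dmat, map_sub, map_prod, Matrix.map_apply]
  apply Finset.sum_congr rfl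
  intro x _
  have h1 : ∀ i j, f ((1 : Matrix ι ι R) i j) = (1 : Matrix ι ι S) i j := by
    intro i j
    rw [Matrix.one_apply, Matrix.one_apply]
    split_ifs <;> simp
  simp only [h1]

section exp
open NormedSpace

attribute [local instance] Matrix.linftyOpNormedRing Matrix.linftyOpNormedAlgebra

/-- the one-parameter group exp(sX) -/
noncomputable def expGL (X : Matrix ι ι ℂ) (s : ℂ) : GL ι ℂ :=
  ⟨exp (s • X), exp (s • (-X)), by
    rw [← Matrix.exp_add_of_commute _ _ (((Commute.refl X).neg_right.smul_left s).smul_right s)]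
    simp, by
    rw [← Matrix.exp_add_of_commute _ _ (((Commute.refl X).neg_left.smul_left s).smul_right s)]
    simp⟩

theorem expGL_zero (X : Matrix ι ι ℂ) : expGL X 0 = 1 := by
  apply Units.ext
  simp [expGL]

theorem hasDerivAt_exp_entry (X : Matrix ι ι ℂ) (i j : ι) :
    HasDerivAt (fun s : ℂ => (exp (s • X) : Matrix ι ι ℂ) i j) (X i j) 0 := by
  have h := hasDerivAt_exp_smul_const (𝕂 := ℂ) X (0 : ℂ)
  simp only [zero_smul, exp_zero, one_mul] at h
  exact (hasDerivAt_pi.1 ((hasDerivAt_pi.1 h i)) j)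

theorem hasDerivAt_expGL (X : Matrix ι ι ℂ) (i j : ι) :
    HasDerivAt (fun s => (expGL X s : Matrix ι ι ℂ) i j) (X i j) 0 :=
  hasDerivAt_exp_entry X i j

theorem hasDerivAt_expGL_inv (X : Matrix ι ι ℂ) (i j : ι) :
    HasDerivAt (fun s => (((expGL X s)⁻¹ : GL ι ℂ) : Matrix ι ι ℂ) i j) (-X i j) 0 :=
  hasDerivAt_exp_entry (-X) i j

end exp

theorem hasDerivAt_act_exp (X : Matrix ι ι ℂ) (t : Tens ι m n ℂ) (e : (Fin m → ι) × (Fin n → ι)) :
    HasDerivAt (fun s => act (expGL X s) t e) (dact X t e) 0 :=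
  hasDerivAt_act (expGL_zero X) (hasDerivAt_expGL X) (hasDerivAt_expGL_inv X) t e

theorem expGL_conj (g : GL ι ℂ) (X : Matrix ι ι ℂ) (s : ℂ) :
    expGL ((g : Matrix ι ι ℂ) * X * ((g⁻¹ : GL ι ℂ) : Matrix ι ι ℂ)) s = g * expGL X s * g⁻¹ := by
  apply Units.ext
  simp only [expGL, Units.val_mul]
  have := Matrix.exp_units_conj g (s • X)
  rw [← this]
  congr 1
  simp

/-- equivariance of the infinitesimal action -/
theorem act_dact (g : GL ι ℂ) (X : Matrix ι ι ℂ) (t : Tens ι m n ℂ) :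
    act g (dact X t) = dact ((g : Matrix ι ι ℂ) * X * ((g⁻¹ : GL ι ℂ) : Matrix ι ι ℂ)) (act g t) := by
  funext e
  have h1 := hasDerivAt_act_exp ((g : Matrix ι ι ℂ) * X * ((g⁻¹ : GL ι ℂ) : Matrix ι ι ℂ)) (act g t) e
  have h2 : HasDerivAt (fun s => act g (act (expGL X s) t) e) (act g (dact X t) e) 0 := by
    simp only [act_eq g, Matrix.mulVec, dotProduct]
    apply HasDerivAt.fun_sum
    intro f _
    exact (hasDerivAt_act_exp X t f).const_mul _
  have h3 : (fun s => act (expGL ((g : Matrix ι ι ℂ) * X * ((g⁻¹ : GL ι ℂ) : Matrix ι ι ℂ)) s) (act g t) e) =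
      fun s => act g (act (expGL X s) t) e := by
    funext s
    rw [expGL_conj, ← act_mul, ← act_mul, inv_mul_cancel_right]
  rw [h3] at h1
  exact h2.unique h1

omit [Fintype ι] in
theorem hasDerivAt_dmat {Y : ℂ → Matrix ι ι ℂ} {Y' : Matrix ι ι ℂ} {s₀ : ℂ}
    (h : ∀ i j, HasDerivAt (fun s => Y s i j) (Y' i j) s₀) (e f : (Fin m → ι) × (Fin n → ι)) :
    HasDerivAt (fun s => dmat m n (Y s) e f) (dmat m n Y' e f) s₀ := by
  simp only [dmat]
  apply HasDerivAt.fun_sub
  · apply HasDerivAt.mul_const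
    apply HasDerivAt.fun_sum
    intro j _
    exact (h _ _).const_mul _
  · apply HasDerivAt.const_mul
    apply HasDerivAt.fun_sum
    intro j _
    exact (h _ _).const_mul _

section exp
open NormedSpace
attribute [local instance] Matrix.linftyOpNormedRing Matrix.linftyOpNormedAlgebra

theorem hasDerivAt_conj (X Y : Matrix ι ι ℂ) (i j : ι) :
    HasDerivAt (fun s => ((expGL X s : Matrix ι ι ℂ) * Y * (((expGL X s)⁻¹ : GL ι ℂ) : Matrix ι ι ℂ)) i j)
      ((X * Y - Y * X) i j) 0 := by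
  have h1 := hasDerivAt_exp_smul_const (𝕂 := ℂ) X (0 : ℂ)
  have h2 := hasDerivAt_exp_smul_const (𝕂 := ℂ) (-X) (0 : ℂ)
  simp only [zero_smul, exp_zero, one_mul] at h1 h2
  have h3 := (h1.mul_const Y).mul h2
  have h4 := hasDerivAt_pi.1 (hasDerivAt_pi.1 h3 i) j
  refine h4.congr_deriv ?_
  simp [sub_eq_add_neg]

end exp

/-- bracket relation -/
theorem dact_bracket (X Y : Matrix ι ι ℂ) (t : Tens ι m n ℂ) :
    dact (X * Y - Y * X) t = dact X (dact Y t) - dact Y (dact X t) := by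
  funext e
  have h1 := hasDerivAt_act_exp X (dact Y t) e
  have h2 : HasDerivAt (fun s => dact ((expGL X s : Matrix ι ι ℂ) * Y * (((expGL X s)⁻¹ : GL ι ℂ) : Matrix ι ι ℂ))
      (act (expGL X s) t) e) (dact (X * Y - Y * X) t e + dact Y (dact X t) e) 0 := by
    simp only [dact, Matrix.mulVec, dotProduct]
    rw [← Finset.sum_add_distrib]
    apply HasDerivAt.fun_sum
    intro f _
    have h3 := (hasDerivAt_dmat (m := m) (n := n) (hasDerivAt_conj X Y) e f).mul (hasDerivAt_act_exp X t f)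
    refine h3.congr_deriv ?_
    rw [expGL_zero]
    simp only [act_one, inv_one, Units.val_one, one_mul, mul_one]
    rfl
  have h3 : (fun s => act (expGL X s) (dact Y t) e) =
      fun s => dact ((expGL X s : Matrix ι ι ℂ) * Y * (((expGL X s)⁻¹ : GL ι ℂ) : Matrix ι ι ℂ))
      (act (expGL X s) t) e := by
    funext s
    rw [act_dact]
  rw [h3] at h1
  have h4 := h1.unique h2
  rw [Pi.sub_apply, h4]
  ring

end Pool.Agent.Work.MP_0da4e0_ag
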