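import Pool.Agent.Work.MP_0da4e0_ag.LieHodge
import Pool.Agent.Work.MP_0da4e0_ag.Orbit

open Matrix Polynomial

namespace Pool.Agent.Work.MP_0da4e0_ag


theorem exists_dual (c : ℂ) (hc : Transcendental ℚ c) :
    ∃ Θ : ℂ →+* DualNumber ℂ, (∀ z, (Θ z).fst = z) ∧ (Θ c).snd ≠ 0 := by
  have hinj : Function.Injective (Polynomial.aeval (R := ℚ) c) := transcendental_iff_injective.1 hc
  let K := FractionRing ℚ[X]
  let f : K →+* ℂ := IsFractionRing.lift (K := K) (g := (Polynomial.aeval (R := ℚ) c).toRingHom) hinj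
  let _ : Algebra K ℂ := f.toAlgebra
  have : CharZero K := inferInstance
  -- ℂ is formally smooth over K
  have hsm : Algebra.FormallySmooth K ℂ := by
    obtain ⟨s, hs⟩ := exists_isTranscendenceBasis K ℂ
    have h1 : Algebra.IsAlgebraic (IntermediateField.adjoin K (Set.range ((↑) : s → ℂ))) ℂ := hs.isAlgebraic_field
    have : Algebra.IsSeparable (IntermediateField.adjoin K (Set.range ((↑) : s → ℂ))) ℂ := inferInstance
    exact Algebra.FormallySmooth.of_algebraicIndependent_of_isSeparable hs.1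
  let ψ : ℚ[X] →+* DualNumber ℂ := Polynomial.eval₂RingHom (algebraMap ℚ (DualNumber ℂ)) (TrivSqZeroExt.inl c + DualNumber.eps)
  have hψ : ∀ p, (ψ p).fst = Polynomial.aeval c p := by
    intro p
    have : (TrivSqZeroExt.fstHom ℂ ℂ ℂ).toRingHom.comp ψ = (Polynomial.aeval (R := ℚ) c).toRingHom := by
      apply Polynomial.ringHom_ext
      · intro a
        simp [ψ]
      · simp [ψ]
    exact congrArg (fun φ => φ p) this
  have hunit : ∀ y : nonZeroDivisors ℚ[X], IsUnit (ψ y) := by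
    intro y
    rw [TrivSqZeroExt.isUnit_iff_isUnit_fst, hψ]
    have : (y : ℚ[X]) ≠ 0 := nonZeroDivisors.ne_zero y.2
    have h2 : Polynomial.aeval c (y : ℚ[X]) ≠ 0 := fun h => this (hinj (by rw [h, map_zero]))
    exact isUnit_iff_ne_zero.2 h2
  let φ : K →+* DualNumber ℂ := IsLocalization.lift (M := nonZeroDivisors ℚ[X]) hunit
  let _ : Algebra K (DualNumber ℂ) := φ.toAlgebra
  let g : DualNumber ℂ →ₐ[K] ℂ := 
    { (TrivSqZeroExt.fstHom ℂ ℂ ℂ).toRingHom with
      commutes' := by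
        intro r
        change (φ r).fst = f r
        have : (TrivSqZeroExt.fstHom ℂ ℂ ℂ).toRingHom.comp φ = f := by
          apply IsLocalization.ringHom_ext (nonZeroDivisors ℚ[X])
          ext p
          · simp [φ, f]
          · simp [φ, f, hψ]
        exact congrArg (fun φ => φ r) this }
  have hgs : Function.Surjective g := fun z => ⟨TrivSqZeroExt.inl z, rfl⟩
  have hgk : IsNilpotent (RingHom.ker (g : DualNumber ℂ →+* ℂ)) := by
    refine ⟨2, ?_⟩
    exact TrivSqZeroExt.kerIdeal_sq ℂ ℂ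
  let Θ := Algebra.FormallySmooth.liftOfSurjective (AlgHom.id K ℂ) g hgs hgk
  have hΘ : ∀ z, (Θ z).fst = z := fun z => 
    Algebra.FormallySmooth.liftOfSurjective_apply (AlgHom.id K ℂ) g hgs hgk z
  refine ⟨Θ.toRingHom, hΘ, ?_⟩
  have h1 : Θ (algebraMap K ℂ (algebraMap ℚ[X] K X)) = algebraMap K (DualNumber ℂ) (algebraMap ℚ[X] K X) := Θ.commutes _
  have h2 : algebraMap K ℂ (algebraMap ℚ[X] K X) = c := by
    change f _ = _
    simp [f]
  have h3 : algebraMap K (DualNumber ℂ) (algebraMap ℚ[X] K X) = TrivSqZeroExt.inl c + DualNumber.eps := by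
    change φ _ = _
    simp [φ, ψ]
  change (Θ c).snd ≠ 0
  rw [← h2, h1, h3]
  simp


variable {ι : Type} [Fintype ι] [DecidableEq ι] {m n : ℕ}

theorem snd_prod {J : Type} [DecidableEq J] (s : Finset J) (f : J → DualNumber ℂ) :
    (∏ j ∈ s, f j).snd = ∑ j ∈ s, (∏ i ∈ s.erase j, (f i).fst) * (f j).snd := by
  induction s using Finset.induction_on with
  | empty => simp
  | insert a s ha ih =>
    have hfst : ∀ (s : Finset J), (∏ j ∈ s, f j).fst = ∏ j ∈ s, (f j).fst := fun s =>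
      map_prod (TrivSqZeroExt.fstHom ℂ ℂ ℂ) f s
    rw [Finset.prod_insert ha, TrivSqZeroExt.snd_mul, ih, Finset.sum_insert ha, hfst,
      Finset.erase_insert ha]
    simp only [smul_eq_mul, MulOpposite.smul_eq_mul_unop, MulOpposite.unop_op]
    rw [Finset.mul_sum, add_comm]
    congr 1
    · ring
    · apply Finset.sum_congr rfl
      intro j hj
      have hne : a ≠ j := fun h => ha (h ▸ hj)
      rw [Finset.erase_insert_of_ne hne, Finset.prod_insert (by simp [ha])]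
      ring

theorem fst_prod {J : Type} (s : Finset J) (f : J → DualNumber ℂ) :
    (∏ j ∈ s, f j).fst = ∏ j ∈ s, (f j).fst := map_prod (TrivSqZeroExt.fstHom ℂ ℂ ℂ) f s

theorem fst_sum' {J : Type} (s : Finset J) (f : J → DualNumber ℂ) :
    (∑ j ∈ s, f j).fst = ∑ j ∈ s, (f j).fst := map_sum (TrivSqZeroExt.fstHom ℂ ℂ ℂ) f s

theorem snd_sum' {J : Type} (s : Finset J) (f : J → DualNumber ℂ) :
    (∑ j ∈ s, f j).snd = ∑ j ∈ s, (f j).snd := map_sum (TrivSqZeroExt.sndHom ℂ ℂ) f s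

/-- the matrix 1 + ε Z -/
def epsMat (Z : Matrix ι ι ℂ) : Matrix ι ι (DualNumber ℂ) :=
  fun i j => TrivSqZeroExt.inl ((1 : Matrix ι ι ℂ) i j) + TrivSqZeroExt.inr (Z i j)

theorem epsMat_mul (Z W : Matrix ι ι ℂ) : epsMat Z * epsMat W = epsMat (Z + W) := by
  ext i j
  · rw [Matrix.mul_apply, fst_sum']
    simp [epsMat, ← Matrix.mul_apply]
  · rw [Matrix.mul_apply, snd_sum']
    simp only [epsMat, TrivSqZeroExt.snd_mul, TrivSqZeroExt.fst_add, TrivSqZeroExt.fst_inl,
      TrivSqZeroExt.fst_inr, add_zero, TrivSqZeroExt.snd_add, TrivSqZeroExt.snd_inl,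
      TrivSqZeroExt.snd_inr, zero_add, smul_eq_mul, MulOpposite.smul_eq_mul_unop, MulOpposite.unop_op]
    rw [Finset.sum_add_distrib]
    simp only [Matrix.one_apply, ite_mul, one_mul, zero_mul, mul_ite, mul_one, mul_zero,
      Finset.sum_ite_eq, Finset.sum_ite_eq', Finset.mem_univ, if_true, Matrix.add_apply]
    ring

omit [Fintype ι] in
theorem epsMat_zero : epsMat (0 : Matrix ι ι ℂ) = 1 := by
  ext i j
  · simp [epsMat, Matrix.one_apply]
    split_ifs <;> simp
  · simp [epsMat, Matrix.one_apply]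
    split_ifs <;> simp

/-- the invertible matrix 1 + ε Z -/
def epsGL (Z : Matrix ι ι ℂ) : GL ι (DualNumber ℂ) :=
  ⟨epsMat Z, epsMat (-Z), by rw [epsMat_mul, add_neg_cancel, epsMat_zero],
    by rw [epsMat_mul, neg_add_cancel, epsMat_zero]⟩

/-- constant tensors -/
def inlT (t : Tens ι m n ℂ) : Tens ι m n (DualNumber ℂ) := fun e => TrivSqZeroExt.inl (t e)

theorem act_eps (Z : Matrix ι ι ℂ) (t : Tens ι m n ℂ) (e) :
    (act (epsGL Z) (inlT t) e).snd = dact Z t e := by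
  rw [act, snd_sum', dact, Matrix.mulVec, dotProduct]
  apply Finset.sum_congr rfl
  intro f _
  have h1 : ((epsGL Z : GL ι (DualNumber ℂ)) : Matrix ι ι (DualNumber ℂ)) = epsMat Z := rfl
  have h2 : (((epsGL Z)⁻¹ : GL ι (DualNumber ℂ)) : Matrix ι ι (DualNumber ℂ)) = epsMat (-Z) := rfl
  rw [h1, h2]
  simp only [inlT, TrivSqZeroExt.snd_mul, TrivSqZeroExt.fst_mul, snd_prod, fst_prod, TrivSqZeroExt.snd_inl,
    TrivSqZeroExt.fst_inl, smul_eq_mul, MulOpposite.smul_eq_mul_unop, MulOpposite.unop_op, epsMat,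
    TrivSqZeroExt.fst_add, TrivSqZeroExt.snd_add, TrivSqZeroExt.fst_inr, TrivSqZeroExt.snd_inr,
    add_zero, zero_add, mul_zero, Matrix.neg_apply, mul_neg, Finset.sum_neg_distrib, dmat]
  ring

theorem act_eps_fst (Z : Matrix ι ι ℂ) (t : Tens ι m n ℂ) (e) :
    (act (epsGL Z) (inlT t) e).fst = t e := by
  rw [act, fst_sum']
  have h1 : ((epsGL Z : GL ι (DualNumber ℂ)) : Matrix ι ι (DualNumber ℂ)) = epsMat Z := rfl
  have h2 : (((epsGL Z)⁻¹ : GL ι (DualNumber ℂ)) : Matrix ι ι (DualNumber ℂ)) = epsMat (-Z) := rfl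
  rw [h1, h2]
  simp only [inlT, TrivSqZeroExt.fst_mul, fst_prod,
    TrivSqZeroExt.fst_inl, epsMat,
    TrivSqZeroExt.fst_add, TrivSqZeroExt.fst_inr, add_zero]
  exact congrFun (act_one t) e


theorem fst_inlT_act (t : Tens ι m n ℂ) (Z : Matrix ι ι ℂ) :
    act (epsGL Z) (inlT t) = inlT t ↔ dact Z t = 0 := by
  constructor
  · intro h
    funext e
    rw [← act_eps, h]
    simp [inlT]
  · intro h
    funext e
    apply TrivSqZeroExt.ext
    · rw [act_eps_fst]; simp [inlT]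
    · rw [act_eps, h]; simp [inlT]

open Matrix.GeneralLinearGroup in
/-- infinitesimal criterion for algebraicity of the orbit -/
theorem alg_of_lie {I : Type} {m n : I → ℕ} (t : ∀ i, Tens ι (m i) (n i) ℚ) {a b : ℕ} (x : Tens ι a b ℚ)
    (h : ∀ Y : Matrix ι ι ℂ, (∀ i, dact Y (ratT ℂ (t i)) = 0) → dact Y (ratT ℂ x) = 0)
    (g : GL ι ℂ) (hg : ∀ i, act g (ratT ℂ (t i)) = ratT ℂ (t i)) (e) :
    IsAlgebraic ℚ (act g (ratT ℂ x) e) := by
  by_contra hc
  obtain ⟨Θ, hΘ1, hΘ2⟩ := exists_dual _ hc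
  apply hΘ2
  let inl : ℂ →+* DualNumber ℂ := TrivSqZeroExt.inlHom ℂ ℂ
  let g' : Matrix ι ι ℂ := fun i j => (Θ ((g : Matrix ι ι ℂ) i j)).snd
  let Z : Matrix ι ι ℂ := ((g⁻¹ : GL ι ℂ) : Matrix ι ι ℂ) * g'
  have hgZ : (g : Matrix ι ι ℂ) * Z = g' := by
    rw [← Matrix.mul_assoc, ← Units.val_mul, mul_inv_cancel, Units.val_one, Matrix.one_mul]
  have hmap : map Θ g = map inl g * epsGL Z := by
    apply Units.ext
    funext i j
    rw [Units.val_mul, Matrix.mul_apply]
    apply TrivSqZeroExt.ext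
    · rw [fst_sum']
      change (Θ ((g : Matrix ι ι ℂ) i j)).fst = ∑ k, ((inl ((g : Matrix ι ι ℂ) i k)) * epsMat Z k j).fst
      rw [hΘ1]
      simp [inl, epsMat, Matrix.one_apply]
    · rw [snd_sum']
      change (Θ ((g : Matrix ι ι ℂ) i j)).snd = ∑ k, ((inl ((g : Matrix ι ι ℂ) i k)) * epsMat Z k j).snd
      have h1 := congrFun (congrFun hgZ i) j
      rw [Matrix.mul_apply] at h1
      change _ = (Θ ((g : Matrix ι ι ℂ) i j)).snd at h1
      rw [← h1]
      simp [inl, epsMat]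
  have hrat : ∀ {m n : ℕ} (s : Tens ι m n ℚ), (fun e => Θ (ratT ℂ s e)) = inlT (ratT ℂ s) := by
    intro m n s
    funext e
    have h1 : Θ.comp (algebraMap ℚ ℂ) = inl.comp (algebraMap ℚ ℂ) := Subsingleton.elim _ _
    have h2 := congrArg (fun φ => φ (s e)) h1
    simpa [ratT, inlT, inl] using h2
  have hinl : ∀ {m n : ℕ} (s : Tens ι m n ℂ), (fun e => inl (s e)) = inlT s := fun s => rfl
  have key : ∀ {m n : ℕ} (s : Tens ι m n ℚ), (fun e => Θ (act g (ratT ℂ s) e)) =
      act (map inl g) (act (epsGL Z) (inlT (ratT ℂ s))) := by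
    intro m n s
    rw [map_act, hrat, hmap, act_mul]
  have hZ : ∀ i, dact Z (ratT ℂ (t i)) = 0 := by
    intro i
    rw [← fst_inlT_act]
    apply act_injective (map inl g)
    rw [← key, ← hinl, ← map_act, hg i, hrat]
    rfl
  have hZx := h Z hZ
  rw [← fst_inlT_act] at hZx
  have h3 := key x
  rw [hZx, ← hinl, ← map_act] at h3
  rw [congrFun h3 e]
  simp [inl]

end Pool.Agent.Work.MP_0da4e0_ag
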