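import Pool.Agent.Work.MP_0da4e0_ag.LieAct

open Matrix

namespace Pool.Agent.Work.MP_0da4e0_ag

variable {ι : Type} [Fintype ι] [DecidableEq ι] {m n : ℕ}

section exp
open NormedSpace
attribute [local instance] Matrix.linftyOpNormedRing Matrix.linftyOpNormedAlgebra

theorem exp_mulVec_eigen (A : Matrix ι ι ℂ) (v : ι → ℂ) (c : ℂ) (h : A *ᵥ v = c • v) :
    exp A *ᵥ v = Complex.exp c • v := by
  have hpow : ∀ N : ℕ, A ^ N *ᵥ v = c ^ N • v := by
    intro N
    induction N with
    | zero => simp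
    | succ N ih =>
      rw [pow_succ', ← Matrix.mulVec_mulVec, ih, Matrix.mulVec_smul, h, smul_smul, pow_succ]
  have h1 := NormedSpace.exp_series_hasSum_exp' (𝕂 := ℂ) A
  let φ : Matrix ι ι ℂ →ₗ[ℂ] (ι → ℂ) := 
    { toFun := fun M => M *ᵥ v
      map_add' := fun M N => Matrix.add_mulVec M N v
      map_smul' := fun c M => Matrix.smul_mulVec c M v }
  have hφ : Continuous φ := LinearMap.continuous_of_finiteDimensional φ
  have h2 := h1.map φ hφ
  have h3 : HasSum (fun N : ℕ => ((N.factorial : ℂ)⁻¹ • c ^ N) • v) (Complex.exp c • v) := by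
    have := NormedSpace.exp_series_hasSum_exp' (𝕂 := ℂ) c
    rw [← Complex.exp_eq_exp_ℂ] at this
    exact this.smul_const v
  refine h2.unique ?_
  convert h3 using 1
  funext N
  simp only [Function.comp_apply, map_smul]
  change _ • (A ^ N *ᵥ v) = _
  rw [hpow, smul_smul, smul_eq_mul]

end exp

/-- a matrix with integral eigenvalues along the Hodge decomposition kills Hodge tensors -/
theorem dact_hodge {h : HodgeStr ι} {t : Tens ι m n ℚ} (ht : IsHodge h t) (F : Matrix ι ι ℂ) (α β : ℤ)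
    (hF : ∀ p q v, v ∈ h.V (p, q) → F *ᵥ v = ((α * p + β * q : ℤ) : ℂ) • v) :
    dact F (ratT ℂ t) = 0 := by
  have key : ∀ s : ℂ, act (expGL F s) (ratT ℂ t) = ratT ℂ t := by
    intro s
    apply ht (Units.mk0 (Complex.exp (α * s)) (Complex.exp_ne_zero _))
      (Units.mk0 (Complex.exp (β * s)) (Complex.exp_ne_zero _))
    intro p q v hv
    have h1 : (s • F) *ᵥ v = (s * ((α * p + β * q : ℤ) : ℂ)) • v := by
      rw [Matrix.smul_mulVec, hF p q v hv, smul_smul]
    have h2 := exp_mulVec_eigen (s • F) v _ h1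
    change NormedSpace.exp (s • F) *ᵥ v = _
    rw [h2]
    congr 1
    simp only [Units.val_mul, Units.val_zpow_eq_zpow_val, Units.val_mk0]
    rw [← Complex.exp_int_mul, ← Complex.exp_int_mul, ← Complex.exp_add]
    congr 1
    push_cast
    ring
  funext e
  have h1 := hasDerivAt_act_exp F (ratT ℂ t) e
  simp only [key] at h1
  exact h1.unique (hasDerivAt_const _ _)

/-- the kernel of a rational matrix is spanned by rational vectors -/
theorem mem_span_ker {N M : Type} [Fintype N] (A : Matrix M N ℚ) (v : N → ℂ)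
    (hv : (A.map (fun q : ℚ => (q : ℂ))) *ᵥ v = 0) :
    v ∈ Submodule.span ℂ {w | ∃ u : N → ℚ, A *ᵥ u = 0 ∧ w = fun i => (u i : ℂ)} := by
  let b := Module.Basis.ofVectorSpace ℚ ℂ
  classical
  let S : Finset (Module.Basis.ofVectorSpaceIndex ℚ ℂ) := Finset.univ.biUnion (fun i => (b.repr (v i)).support)
  have hS : ∀ i, v i = ∑ s ∈ S, b.repr (v i) s • (b s : ℂ) := by
    intro i
    conv_lhs => rw [← b.linearCombination_repr (v i)]
    rw [Finsupp.linearCombination_apply, Finsupp.sum]
    apply Finset.sum_subset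
    · intro s hs
      exact Finset.mem_biUnion.2 ⟨i, Finset.mem_univ _, hs⟩
    · intro s _ hs
      rw [Finsupp.notMem_support_iff.1 hs, zero_smul]
  have hker : ∀ s, A *ᵥ (fun i => b.repr (v i) s) = 0 := by
    intro s
    funext r
    have h1 := congrFun hv r
    simp only [Matrix.mulVec, dotProduct, Matrix.map_apply, Pi.zero_apply] at h1
    have h2 : ∑ i, A r i • v i = 0 := by
      rw [← h1]
      exact Finset.sum_congr rfl (fun i _ => by rw [Rat.smul_def])
    have h3 := congrArg (fun z => b.repr z s) h2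
    simp only [map_sum, map_smul, map_zero, Finsupp.coe_zero, Pi.zero_apply, Finsupp.coe_finsetSum,
      Finset.sum_apply, Finsupp.coe_smul, Pi.smul_apply, smul_eq_mul] at h3
    simpa [Matrix.mulVec, dotProduct] using h3
  have hsum : v = ∑ s ∈ S, (b s : ℂ) • (fun i => ((b.repr (v i) s : ℚ) : ℂ)) := by
    funext i
    rw [Finset.sum_apply, hS i]
    apply Finset.sum_congr rfl
    intro s _
    rw [Pi.smul_apply, smul_eq_mul, Rat.smul_def, mul_comm]
  rw [hsum]
  apply Submodule.sum_mem
  intro s _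
  apply Submodule.smul_mem
  exact Submodule.subset_span ⟨_, hker s, rfl⟩


/-- bilinear forms as tensors -/
def bilT {R : Type} (S : Matrix ι ι R) : Tens ι 0 2 R := fun e => S (e.2 0) (e.2 1)

omit [Fintype ι] [DecidableEq ι] in
theorem bilT_injective {R : Type} : Function.Injective (bilT : Matrix ι ι R → Tens ι 0 2 R) := by
  intro S S' h
  ext i j
  have := congrFun h (Fin.elim0, ![i, j])
  simpa [bilT] using this

omit [Fintype ι] [DecidableEq ι] in
theorem exists_bilT {R : Type} (t : Tens ι 0 2 R) : ∃ S, t = bilT S := by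
  refine ⟨fun i j => t (Fin.elim0, ![i, j]), ?_⟩
  funext e
  simp only [bilT]
  congr 1
  apply Prod.ext
  · funext j; exact j.elim0
  · funext j
    fin_cases j <;> rfl

theorem act_bilT {R : Type} [CommRing R] (g : GL ι R) (S : Matrix ι ι R) :
    act g (bilT S) = bilT (((g⁻¹ : GL ι R) : Matrix ι ι R)ᵀ * S * ((g⁻¹ : GL ι R) : Matrix ι ι R)) := by
  funext e
  simp only [act, bilT, Finset.univ_eq_empty, Finset.prod_empty, one_mul, Fin.prod_univ_two]
  rw [Fintype.sum_prod_type]
  simp only [Finset.univ_unique, Finset.sum_singleton]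
  rw [← (finTwoArrowEquiv ι).symm.sum_comp, Fintype.sum_prod_type]
  simp only [finTwoArrowEquiv_symm_apply, Matrix.cons_val_zero, Matrix.cons_val_one, Matrix.mul_apply,
    Matrix.transpose_apply, Finset.sum_mul]
  rw [Finset.sum_comm]
  apply Finset.sum_congr rfl
  intro j _
  apply Finset.sum_congr rfl
  intro i _
  ring

section exp
open NormedSpace
attribute [local instance] Matrix.linftyOpNormedRing Matrix.linftyOpNormedAlgebra

theorem dact_bilT (Y S : Matrix ι ι ℂ) : dact Y (bilT S) = bilT (-(Yᵀ * S + S * Y)) := by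
  funext e
  have h1 := hasDerivAt_act_exp Y (bilT S) e
  have h2 : HasDerivAt (fun s : ℂ => ((exp (s • (-Y)))ᵀ * S * exp (s • (-Y))) (e.2 0) (e.2 1))
      ((-(Yᵀ * S + S * Y)) (e.2 0) (e.2 1)) 0 := by
    have h3 := hasDerivAt_exp_smul_const (𝕂 := ℂ) (-Y) (0 : ℂ)
    have h4 := hasDerivAt_exp_smul_const (𝕂 := ℂ) (-Yᵀ) (0 : ℂ)
    simp only [zero_smul, exp_zero, one_mul] at h3 h4
    have h5 := (h4.mul_const S).mul h3
    have h6 := hasDerivAt_pi.1 (hasDerivAt_pi.1 h5 (e.2 0)) (e.2 1)
    have h7 : (fun s : ℂ => ((exp (s • (-Y)))ᵀ * S * exp (s • (-Y))) (e.2 0) (e.2 1)) =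
        fun s : ℂ => (exp (s • (-Yᵀ)) * S * exp (s • (-Y))) (e.2 0) (e.2 1) := by
      funext s
      rw [← Matrix.exp_transpose]
      simp
    rw [h7]
    refine h6.congr_deriv ?_
    simp [neg_mul, mul_neg]
    ring
  have h3 : (fun s => act (expGL Y s) (bilT S) e) =
      fun s : ℂ => ((exp (s • (-Y)))ᵀ * S * exp (s • (-Y))) (e.2 0) (e.2 1) := by
    funext s
    rw [act_bilT]
    rfl
  rw [h3] at h1
  exact h1.unique h2

end exp

/-- matrices which are skew for the bilinear form S -/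
theorem dact_bilT_eq_zero (Y S : Matrix ι ι ℂ) : dact Y (bilT S) = 0 ↔ Yᵀ * S + S * Y = 0 := by
  rw [dact_bilT]
  constructor
  · intro h
    have : (-(Yᵀ * S + S * Y)) = 0 := bilT_injective (by rw [h]; rfl)
    rwa [neg_eq_zero] at this
  · intro h
    rw [h, neg_zero]; rfl

end Pool.Agent.Work.MP_0da4e0_ag
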