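import Pool.Agent.Work.MP_0da4e0_ag.MtLie

open Matrix

namespace Pool.Agent.Work.MP_0da4e0_ag

variable {ι : Type} [Fintype ι] [DecidableEq ι]

omit [Fintype ι] [DecidableEq ι] in
theorem cx_injective : Function.Injective (cx : Matrix ι ι ℚ → Matrix ι ι ℂ) := by
  intro A B h
  ext i j
  have := congrFun (congrFun h i) j
  simpa [cx] using this

omit [DecidableEq ι] in
theorem cx_mul (A B : Matrix ι ι ℚ) : cx (A * B) = cx A * cx B := by
  simp only [cx]
  exact Matrix.map_mul (f := Rat.castHom ℂ)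

omit [Fintype ι] [DecidableEq ι] in
theorem cx_transpose (A : Matrix ι ι ℚ) : cx Aᵀ = (cx A)ᵀ := rfl

omit [Fintype ι] in
theorem cx_one : cx (1 : Matrix ι ι ℚ) = 1 := by
  ext i j
  simp [cx, Matrix.one_apply]
  split_ifs <;> simp

theorem det_cx (S : Matrix ι ι ℚ) : (cx S).det = (S.det : ℂ) := by
  have := (Rat.castHom ℂ).map_det S
  simpa [cx, RingHom.mapMatrix_apply] using this.symm

theorem rat_isUnit {h : HodgeStr ι} {w : ℤ} {S : Matrix ι ι ℚ} (hS : IsPolarization h w S) : IsUnit S.det := by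
  have h1 := (Matrix.isUnit_iff_isUnit_det _).1 (cx_isUnit hS)
  rw [det_cx] at h1
  rw [isUnit_iff_ne_zero] at h1 ⊢
  intro h0
  rw [h0] at h1
  exact h1 (by simp)

theorem cx_inv {h : HodgeStr ι} {w : ℤ} {S : Matrix ι ι ℚ} (hS : IsPolarization h w S) :
    cx S⁻¹ = (cx S)⁻¹ := by
  symm
  apply Matrix.inv_eq_right_inv
  rw [← cx_mul, Matrix.mul_nonsing_inv _ (rat_isUnit hS), cx_one]

/-- the trace form on matrices defined by S -/
noncomputable def trForm (S : Matrix ι ι ℚ) : LinearMap.BilinForm ℚ (Matrix ι ι ℚ) :=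
  LinearMap.mk₂ ℚ (fun A B => Matrix.trace (A * (S⁻¹ * Bᵀ * S)))
    (by intro A A' B; simp [Matrix.add_mul])
    (by intro c A B; simp)
    (by intro A B B'; simp [Matrix.mul_add, Matrix.add_mul])
    (by intro c A B; simp)

theorem trForm_apply (S A B : Matrix ι ι ℚ) : trForm S A B = Matrix.trace (A * (S⁻¹ * Bᵀ * S)) := rfl

theorem trForm_symm {h : HodgeStr ι} {w : ℤ} {S : Matrix ι ι ℚ} (hS : IsPolarization h w S) :
    (trForm S).IsSymm := by
  constructor
  intro A B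
  rw [trForm_apply]
  rw [trForm_apply]
  have hcc : ((-1 : ℚ) ^ w) * ((-1 : ℚ) ^ w) = 1 := by
    rw [← _root_.mul_zpow]; norm_num
  have hSi : (S⁻¹)ᵀ = ((-1 : ℚ) ^ w) • S⁻¹ := by
    rw [Matrix.transpose_nonsing_inv, hS.symm]
    apply Matrix.inv_eq_right_inv
    rw [Matrix.smul_mul, Matrix.mul_smul, smul_smul, hcc, one_smul, Matrix.mul_nonsing_inv _ (rat_isUnit hS)]
  calc Matrix.trace (A * (S⁻¹ * Bᵀ * S)) = Matrix.trace ((A * (S⁻¹ * Bᵀ * S))ᵀ) := (Matrix.trace_transpose _).symm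
    _ = Matrix.trace (Sᵀ * (B * (S⁻¹)ᵀ) * Aᵀ) := by
        simp only [Matrix.transpose_mul, Matrix.transpose_transpose, Matrix.mul_assoc]
    _ = Matrix.trace (S * (B * S⁻¹) * Aᵀ) := by
        rw [hS.symm, hSi]
        simp only [Matrix.mul_smul, Matrix.smul_mul, smul_smul, hcc, one_smul]
    _ = Matrix.trace (S * (B * S⁻¹ * Aᵀ)) := by simp only [Matrix.mul_assoc]
    _ = Matrix.trace ((B * S⁻¹ * Aᵀ) * S) := Matrix.trace_mul_comm _ _
    _ = _ := by simp only [Matrix.mul_assoc]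

/-- vanishing against the Lie algebra, over ℂ -/
def Orth (h : HodgeStr ι) (S : Matrix ι ι ℚ) (A : Matrix ι ι ℂ) : Prop :=
  ∀ Z ∈ mtLieC h, Matrix.trace (Z * ((cx S)⁻¹ * Aᵀ * cx S)) = 0

theorem Orth.add {h : HodgeStr ι} {S : Matrix ι ι ℚ} {A B : Matrix ι ι ℂ} (hA : Orth h S A) (hB : Orth h S B) :
    Orth h S (A + B) := by
  intro Z hZ
  rw [Matrix.transpose_add, Matrix.mul_add, Matrix.add_mul, Matrix.mul_add, Matrix.trace_add, hA Z hZ, hB Z hZ,
    add_zero]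

theorem Orth.smul {h : HodgeStr ι} {S : Matrix ι ι ℚ} {A : Matrix ι ι ℂ} (c : ℂ) (hA : Orth h S A) :
    Orth h S (c • A) := by
  intro Z hZ
  rw [Matrix.transpose_smul, Matrix.mul_smul, Matrix.smul_mul, Matrix.mul_smul, Matrix.trace_smul, hA Z hZ,
    smul_zero]

theorem Orth.sub {h : HodgeStr ι} {S : Matrix ι ι ℚ} {A B : Matrix ι ι ℂ} (hA : Orth h S A) (hB : Orth h S B) :
    Orth h S (A - B) := by
  have : A - B = A + (-1 : ℂ) • B := by rw [neg_one_smul, sub_eq_add_neg]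
  rw [this]
  exact hA.add (hB.smul _)

theorem orth_zero {h : HodgeStr ι} {w : ℤ} {S : Matrix ι ι ℚ} (hS : IsPolarization h w S) {A : Matrix ι ι ℂ}
    (hA : A ∈ mtLieC h) (hA' : Orth h S A) : A = 0 := by
  by_contra hne
  obtain ⟨C, hC⟩ := exists_torus h unitI unitI⁻¹
  exact trace_pos_ne hS hC A hne (hA' _ (torus_mem_mt hC (conj_mem_mt hA)))

theorem orth_torus {h : HodgeStr ι} {w : ℤ} {S : Matrix ι ι ℚ} (hS : IsPolarization h w S) {z z' : ℂˣ} {g : GL ι ℂ}
    (hg : IsTorus h z z' g) {A : Matrix ι ι ℂ} (hA : Orth h S A) :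
    Orth h S ((g : Matrix ι ι ℂ) * A * ((g⁻¹ : GL ι ℂ) : Matrix ι ι ℂ)) := by
  intro Z hZ
  have hZ' := torus_mem_mt hg.inv hZ
  rw [inv_inv] at hZ'
  have h1 := hA _ hZ'
  set G : Matrix ι ι ℂ := (g : Matrix ι ι ℂ) with hG
  set G' : Matrix ι ι ℂ := ((g⁻¹ : GL ι ℂ) : Matrix ι ι ℂ) with hG'
  have hGG' : G * G' = 1 := by rw [hG, hG', ← Units.val_mul, mul_inv_cancel, Units.val_one]
  have hG'G : G' * G = 1 := by rw [hG, hG', ← Units.val_mul, inv_mul_cancel, Units.val_one]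
  have hSu := (Matrix.isUnit_iff_isUnit_det _).1 (cx_isUnit hS)
  have hSi : cx S * (cx S)⁻¹ = 1 := Matrix.mul_nonsing_inv _ hSu
  have hiS : (cx S)⁻¹ * cx S = 1 := Matrix.nonsing_inv_mul _ hSu
  have h2 : Gᵀ * cx S * G = (((z * z') ^ w : ℂˣ) : ℂ) • cx S := torus_bil hS hg
  set c : ℂ := (((z * z') ^ w : ℂˣ) : ℂ) with hc
  have hc0 : c ≠ 0 := Units.ne_zero _
  -- consequences
  have h3 : Gᵀ * cx S = c • (cx S * G') := by
    calc Gᵀ * cx S = Gᵀ * cx S * (G * G') := by rw [hGG', Matrix.mul_one]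
      _ = (Gᵀ * cx S * G) * G' := by simp only [Matrix.mul_assoc]
      _ = _ := by rw [h2, Matrix.smul_mul]
  have h4 : (cx S)⁻¹ * G'ᵀ = c⁻¹ • (G * (cx S)⁻¹) := by
    have e1 : G'ᵀ * Gᵀ = 1 := by rw [← Matrix.transpose_mul, hGG', Matrix.transpose_one]
    have e2 : G'ᵀ * (c • (cx S * G')) = cx S := by
      rw [← h3, ← Matrix.mul_assoc, e1, Matrix.one_mul]
    have e3 : G'ᵀ * cx S = c⁻¹ • (cx S * G) := by
      calc G'ᵀ * cx S = c⁻¹ • ((G'ᵀ * (c • (cx S * G'))) * G) := by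
            rw [Matrix.mul_smul, Matrix.smul_mul, smul_smul, inv_mul_cancel₀ hc0, one_smul]
            calc G'ᵀ * cx S = G'ᵀ * (cx S * (G' * G)) := by rw [hG'G, Matrix.mul_one]
              _ = _ := by simp only [Matrix.mul_assoc]
        _ = _ := by rw [e2]
    calc (cx S)⁻¹ * G'ᵀ = (cx S)⁻¹ * (G'ᵀ * cx S) * (cx S)⁻¹ := by
          rw [Matrix.mul_assoc, Matrix.mul_assoc, hSi, Matrix.mul_one]
      _ = c⁻¹ • (((cx S)⁻¹ * cx S) * G * (cx S)⁻¹) := by
          rw [e3]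
          simp only [Matrix.mul_smul, Matrix.smul_mul, Matrix.mul_assoc]
      _ = _ := by rw [hiS, Matrix.one_mul]
  calc Matrix.trace (Z * ((cx S)⁻¹ * (G * A * G')ᵀ * cx S))
      = Matrix.trace (Z * (((cx S)⁻¹ * G'ᵀ) * Aᵀ * (Gᵀ * cx S))) := by
        simp only [Matrix.transpose_mul, Matrix.mul_assoc]
    _ = Matrix.trace ((Z * G * ((cx S)⁻¹ * Aᵀ * cx S)) * G') := by
        rw [h3, h4]
        simp only [Matrix.mul_smul, Matrix.smul_mul, smul_smul, mul_inv_cancel₀ hc0, one_smul, Matrix.mul_assoc]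
    _ = Matrix.trace (G' * (Z * G * ((cx S)⁻¹ * Aᵀ * cx S))) := Matrix.trace_mul_comm _ _
    _ = Matrix.trace ((G' * Z * G) * ((cx S)⁻¹ * Aᵀ * cx S)) := by simp only [Matrix.mul_assoc]
    _ = 0 := h1

/-- the orthogonal projector onto the Lie algebra as a Hodge tensor -/
theorem exists_proj {h : HodgeStr ι} {w : ℤ} {S : Matrix ι ι ℚ} (hS : IsPolarization h w S) :
    ∃ t : Tens ι 2 2 ℚ, IsHodge h t ∧ (∀ A, endL (ratT ℂ t) A ∈ mtLieC h) ∧
      (∀ A ∈ mtLieC h, endL (ratT ℂ t) A = A) := by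
  have hdisj : Disjoint (mtLie h) ((trForm S).orthogonal (mtLie h)) := by
    rw [Submodule.disjoint_def]
    intro X hX hX'
    have h1 : Orth h S (cx X) := by
      intro Z hZ
      have hZ' := mtLieC_span hZ
      refine Submodule.span_induction (p := fun Z _ => Matrix.trace (Z * ((cx S)⁻¹ * (cx X)ᵀ * cx S)) = 0) ?_ ?_ ?_ ?_ hZ'
      · rintro _ ⟨Y, hY, rfl⟩
        have h2 : trForm S Y X = 0 := hX' Y hY
        rw [trForm_apply] at h2
        rw [← cx_inv hS, ← cx_transpose, ← cx_mul, ← cx_mul, ← cx_mul]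
        have h3 : ∀ B : Matrix ι ι ℚ, Matrix.trace (cx B) = ((Matrix.trace B : ℚ) : ℂ) := by
          intro B
          simp [Matrix.trace, cx]
        rw [h3, h2]
        simp
      · simp
      · intro Z Z' _ _ h1 h2
        rw [Matrix.add_mul, Matrix.trace_add, h1, h2, add_zero]
      · intro c Z _ h1
        rw [Matrix.smul_mul, Matrix.trace_smul, h1, smul_zero]
    exact cx_injective (by rw [orth_zero hS (cx_mem hX) h1]; ext i j; simp [cx])
  have hcompl := (LinearMap.BilinForm.isCompl_orthogonal_iff_disjoint (trForm_symm hS).isRefl).2 hdisj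
  let P : Matrix ι ι ℚ →ₗ[ℚ] Matrix ι ι ℚ := (mtLie h).subtype ∘ₗ Submodule.projectionOnto _ _ hcompl
  have hP1 : ∀ A, P A ∈ mtLie h := fun A => (Submodule.projectionOnto _ _ hcompl A).2
  have hP2 : ∀ A ∈ mtLie h, P A = A := by
    intro A hA
    have := Submodule.projectionOnto_apply_left hcompl ⟨A, hA⟩
    simp only [P, LinearMap.comp_apply, Submodule.subtype_apply]
    rw [this]
  have hP3 : ∀ A, A - P A ∈ (trForm S).orthogonal (mtLie h) := by
    intro A
    rw [← Submodule.ker_projectionOnto hcompl, LinearMap.mem_ker, map_sub]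
    have : Submodule.projectionOnto _ _ hcompl (P A) = Submodule.projectionOnto _ _ hcompl A :=
      Submodule.projectionOnto_apply_left hcompl _
    rw [this, sub_self]
  obtain ⟨t, ht⟩ := exists_endT P
  have hC1 : ∀ A, endL (ratT ℂ t) (cx A) = cx (P A) := by
    intro A
    rw [endL_ratT, ht]
  have hmem : ∀ A, endL (ratT ℂ t) A ∈ mtLieC h := by
    intro A
    rw [mat_sum_single A, map_sum]
    apply Submodule.sum_mem
    intro e _
    rw [map_smul, ← cx_single, hC1]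
    exact Submodule.smul_mem _ _ (cx_mem (hP1 _))
  have hfix : ∀ A ∈ mtLieC h, endL (ratT ℂ t) A = A := by
    intro A hA
    refine Submodule.span_induction (p := fun A _ => endL (ratT ℂ t) A = A) ?_ ?_ ?_ ?_ (mtLieC_span hA)
    · rintro _ ⟨Y, hY, rfl⟩
      rw [hC1, hP2 Y hY]
    · simp
    · intro Z Z' _ _ h1 h2
      rw [map_add, h1, h2]
    · intro c Z _ h1
      rw [map_smul, h1]
  have horthQ : ∀ A : Matrix ι ι ℚ, Orth h S (cx (A - P A)) := by
    intro A Z hZ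
    refine Submodule.span_induction (p := fun Z _ => Matrix.trace (Z * ((cx S)⁻¹ * (cx (A - P A))ᵀ * cx S)) = 0) ?_ ?_ ?_ ?_ (mtLieC_span hZ)
    · rintro _ ⟨Y, hY, rfl⟩
      have h2 : trForm S Y (A - P A) = 0 := hP3 A Y hY
      rw [trForm_apply] at h2
      rw [← cx_inv hS, ← cx_transpose, ← cx_mul, ← cx_mul, ← cx_mul]
      have h3 : ∀ B : Matrix ι ι ℚ, Matrix.trace (cx B) = ((Matrix.trace B : ℚ) : ℂ) := by
        intro B
        simp [Matrix.trace, cx]
      rw [h3, h2]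
      simp
    · simp
    · intro Z Z' _ _ h1 h2
      rw [Matrix.add_mul, Matrix.trace_add, h1, h2, add_zero]
    · intro c Z _ h1
      rw [Matrix.smul_mul, Matrix.trace_smul, h1, smul_zero]
  have horth : ∀ A : Matrix ι ι ℂ, Orth h S (A - endL (ratT ℂ t) A) := by
    intro A
    have h1 : A - endL (ratT ℂ t) A = ∑ e : ι × ι, A e.1 e.2 • cx (Matrix.single e.1 e.2 1 - P (Matrix.single e.1 e.2 1)) := by
      conv_lhs => rw [mat_sum_single A]
      rw [map_sum, ← Finset.sum_sub_distrib]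
      apply Finset.sum_congr rfl
      intro e _
      have h3 : ∀ B B' : Matrix ι ι ℚ, cx (B - B') = cx B - cx B' := by
        intro B B'
        ext i j
        simp [cx]
      rw [map_smul, ← smul_sub, h3, ← hC1, cx_single]
    rw [h1]
    refine Finset.sum_induction _ (Orth h S) (fun _ _ => Orth.add) ?_ ?_
    · intro Z _
      simp
    · intro e _
      exact (horthQ _).smul _
  refine ⟨t, ?_, hmem, hfix⟩
  intro z z' g hg
  apply endL_injective
  apply LinearMap.ext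
  intro A
  rw [endL_act]
  set B : Matrix ι ι ℂ := ((g⁻¹ : GL ι ℂ) : Matrix ι ι ℂ) * A * (g : Matrix ι ι ℂ) with hB
  have hA : A = (g : Matrix ι ι ℂ) * B * ((g⁻¹ : GL ι ℂ) : Matrix ι ι ℂ) := by
    have e1 : (g : Matrix ι ι ℂ) * ((g⁻¹ : GL ι ℂ) : Matrix ι ι ℂ) = 1 := by
      rw [← Units.val_mul, mul_inv_cancel, Units.val_one]
    rw [hB]
    calc A = ((g : Matrix ι ι ℂ) * ((g⁻¹ : GL ι ℂ) : Matrix ι ι ℂ)) * A * ((g : Matrix ι ι ℂ) * ((g⁻¹ : GL ι ℂ) : Matrix ι ι ℂ)) := by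
          rw [e1, Matrix.one_mul, Matrix.mul_one]
      _ = _ := by simp only [Matrix.mul_assoc]
  have h1 : Orth h S (A - (g : Matrix ι ι ℂ) * endL (ratT ℂ t) B * ((g⁻¹ : GL ι ℂ) : Matrix ι ι ℂ)) := by
    have := orth_torus hS hg (horth B)
    rw [Matrix.mul_sub, Matrix.sub_mul, ← hA] at this
    exact this
  have h2 := h1.sub (horth A)
  rw [sub_sub_sub_cancel_left] at h2
  have h3 : endL (ratT ℂ t) A - (g : Matrix ι ι ℂ) * endL (ratT ℂ t) B * ((g⁻¹ : GL ι ℂ) : Matrix ι ι ℂ) ∈ mtLieC h :=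
    Submodule.sub_mem _ (hmem A) (torus_mem_mt hg (hmem B))
  have h4 := orth_zero hS h3 h2
  exact (sub_eq_zero.1 h4).symm

end Pool.Agent.Work.MP_0da4e0_ag
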