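import Pool.Agent.Work.MP_0da4e0_ag.FinOrbit

open Matrix

namespace Pool.Agent.Work.MP_0da4e0_ag

variable {ι : Type} [Fintype ι] [DecidableEq ι]

/-- the complexification of a rational matrix -/
def cx (A : Matrix ι ι ℚ) : Matrix ι ι ℂ := A.map (fun q : ℚ => (q : ℂ))

/-- `S` is the matrix of a polarization of the Hodge structure `h`, which is pure of weight `w`: a
rational bilinear form which is `(-1) ^ w`-symmetric, for which V (p, q) is orthogonal
to every V (p', q') except V (q, p), and such that `i ^ (p - q) * S (v, conj v)` is positive for all non-zero `v`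
in V (p, q). -/
structure IsPolarization (h : HodgeStr ι) (w : ℤ) (S : Matrix ι ι ℚ) : Prop where
  pure : ∀ p q : ℤ, p + q ≠ w → h.V (p, q) = ⊥
  symm : Sᵀ = ((-1 : ℚ) ^ w) • S
  orth : ∀ (p q p' q' : ℤ), (p', q') ≠ (q, p) → ∀ u ∈ h.V (p, q), ∀ v ∈ h.V (p', q'),
    u ⬝ᵥ (cx S *ᵥ v) = 0
  pos : ∀ (p q : ℤ), ∀ v ∈ h.V (p, q), v ≠ 0 →
    0 < (Complex.I ^ (p - q) * (v ⬝ᵥ (cx S *ᵥ fun i => starRingEnd ℂ (v i)))).re

theorem bil_ext {h : HodgeStr ι} {A B : Matrix ι ι ℂ}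
    (hAB : ∀ p q p' q', ∀ u ∈ h.V (p, q), ∀ v ∈ h.V (p', q'), u ⬝ᵥ (A *ᵥ v) = u ⬝ᵥ (B *ᵥ v)) : A = B := by
  have key : ∀ u v : ι → ℂ, u ⬝ᵥ (A *ᵥ v) = u ⬝ᵥ (B *ᵥ v) := by
    intro u v
    refine h.induct (P := fun u => u ⬝ᵥ (A *ᵥ v) = u ⬝ᵥ (B *ᵥ v)) (by simp) ?_ ?_ u
    · intro u u' h1 h2; rw [add_dotProduct, add_dotProduct, h1, h2]
    · intro p q u hu
      refine h.induct (P := fun v => u ⬝ᵥ (A *ᵥ v) = u ⬝ᵥ (B *ᵥ v)) (by simp) ?_ ?_ v
      · intro v v' h1 h2; rw [Matrix.mulVec_add, Matrix.mulVec_add, dotProduct_add, dotProduct_add, h1, h2]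
      · intro p' q' v hv
        exact hAB p q p' q' u hu v hv
  ext i j
  have := key (Pi.single i 1) (Pi.single j 1)
  simpa using this

omit [DecidableEq ι] in
theorem mulVec_ext {h : HodgeStr ι} {A B : Matrix ι ι ℂ}
    (hAB : ∀ p q, ∀ u ∈ h.V (p, q), A *ᵥ u = B *ᵥ u) : A = B := by
  apply Matrix.mulVec_injective
  funext v
  refine h.induct (P := fun v => A *ᵥ v = B *ᵥ v) (by simp) ?_ ?_ v
  · intro v w h1 h2
    rw [Matrix.mulVec_add, Matrix.mulVec_add, h1, h2]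
  · intro p q v hv
    exact hAB p q v hv

/-- the point i of the Deligne torus: I as a unit -/
noncomputable def unitI : ℂˣ := Units.mk0 Complex.I Complex.I_ne_zero

theorem torus_bil {h : HodgeStr ι} {w : ℤ} {S : Matrix ι ι ℚ} (hS : IsPolarization h w S) {z z' : ℂˣ} {g : GL ι ℂ}
    (hg : IsTorus h z z' g) : (g : Matrix ι ι ℂ)ᵀ * cx S * (g : Matrix ι ι ℂ) = (((z * z') ^ w : ℂˣ) : ℂ) • cx S := by
  apply bil_ext (h := h)
  intro p q p' q' u hu v hv
  rw [Matrix.smul_mulVec, dotProduct_smul]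
  have h1 : u ⬝ᵥ (((g : Matrix ι ι ℂ)ᵀ * cx S * (g : Matrix ι ι ℂ)) *ᵥ v) = ((g : Matrix ι ι ℂ) *ᵥ u) ⬝ᵥ (cx S *ᵥ ((g : Matrix ι ι ℂ) *ᵥ v)) := by
    rw [← Matrix.mulVec_mulVec, ← Matrix.mulVec_mulVec, Matrix.dotProduct_mulVec, Matrix.vecMul_transpose]
  rw [h1, hg p q u hu, hg p' q' v hv, Matrix.mulVec_smul, smul_dotProduct, dotProduct_smul, smul_smul]
  by_cases hne : (p', q') = (q, p)
  · obtain ⟨rfl, rfl⟩ := Prod.mk.inj hne
    by_cases hw : q' + p' = w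
    · subst hw
      congr 1
      rw [← Units.val_mul]
      congr 1
      rw [mul_zpow, _root_.zpow_add, _root_.zpow_add]
      ac_rfl
    · have := hS.pure _ _ hw
      rw [this] at hu
      rw [(Submodule.mem_bot ℂ).1 hu]
      simp
  · rw [hS.orth p q p' q' hne u hu v hv]
    simp

theorem weil_sq {h : HodgeStr ι} {w : ℤ} {S : Matrix ι ι ℚ} (hS : IsPolarization h w S) {C : GL ι ℂ}
    (hC : IsTorus h unitI unitI⁻¹ C) : (C : Matrix ι ι ℂ) * C = (((-1) ^ w : ℂˣ) : ℂ) • (1 : Matrix ι ι ℂ) := by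
  apply mulVec_ext (h := h)
  intro p q u hu
  rw [← Matrix.mulVec_mulVec, hC p q u hu, Matrix.mulVec_smul, hC p q u hu, smul_smul, Matrix.smul_mulVec,
    Matrix.one_mulVec]
  by_cases hw : p + q = w
  · subst hw
    congr 1
    rw [← Units.val_mul]
    congr 1
    have h2 : unitI ^ (2 : ℤ) = -1 := by
      apply Units.ext
      simp [unitI]
    rw [_root_.inv_zpow', ← _root_.zpow_add, ← _root_.zpow_add, show p + -q + (p + -q) = 2 * (p - q) by ring, _root_.zpow_mul, h2,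
      show p - q = p + q - 2 * q by ring, _root_.zpow_sub, _root_.zpow_mul]
    norm_num
  · have := hS.pure _ _ hw
    rw [this] at hu
    rw [(Submodule.mem_bot ℂ).1 hu]
    simp

theorem conj_unitI_zpow (n : ℤ) : starRingEnd ℂ ((unitI ^ n : ℂˣ) : ℂ) = ((unitI ^ (-n) : ℂˣ) : ℂ) := by
  simp only [unitI, Units.val_zpow_eq_zpow_val, Units.val_mk0, map_zpow₀, Complex.conj_I]
  rw [_root_.zpow_neg, ← _root_.inv_zpow, Complex.inv_I]

theorem weil_real {h : HodgeStr ι} {C : GL ι ℂ}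
    (hC : IsTorus h unitI unitI⁻¹ C) : (C : Matrix ι ι ℂ).map (starRingEnd ℂ) = C := by
  apply mulVec_ext (h := h)
  intro p q u hu
  have h1 : (C : Matrix ι ι ℂ).map (starRingEnd ℂ) *ᵥ u =
      fun i => starRingEnd ℂ (((C : Matrix ι ι ℂ) *ᵥ (fun i => starRingEnd ℂ (u i))) i) := by
    funext i
    simp [Matrix.mulVec, dotProduct]
  rw [h1, hC q p _ (h.conj_mem p q u hu), hC p q u hu]
  funext i
  simp only [Pi.smul_apply, smul_eq_mul, map_mul, starRingEnd_self_apply]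
  congr 1
  rw [_root_.inv_zpow', _root_.inv_zpow', ← _root_.zpow_add, ← _root_.zpow_add, conj_unitI_zpow]
  congr 2
  ring

end Pool.Agent.Work.MP_0da4e0_ag
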