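import Pool.Agent.Work.MP_0da4e0_ag.Polar0

open Matrix

namespace Pool.Agent.Work.MP_0da4e0_ag

variable {ι : Type} [Fintype ι] [DecidableEq ι]

section
open scoped ComplexOrder

omit [DecidableEq ι] in
theorem hodge_decomp (h : HodgeStr ι) (v : ι → ℂ) :
    ∃ f : (ℤ × ℤ) →₀ (ι → ℂ), (∀ i, f i ∈ h.V i) ∧ v = f.sum (fun _ x => x) := by
  have hv : v ∈ ⨆ i, h.V i := by
    rw [h.internal.submodule_iSup_eq_top]; trivial
  obtain ⟨f, hf, h1⟩ := (Submodule.mem_iSup_iff_exists_finsupp _ _).1 hv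
  exact ⟨f, hf, h1.symm⟩

omit [DecidableEq ι] in
theorem conj_cx (S : Matrix ι ι ℚ) : (cx S)ᴴ = cx Sᵀ := by
  ext i j
  simp [cx, Matrix.conjTranspose_apply]

theorem weil_posDef {h : HodgeStr ι} {w : ℤ} {S : Matrix ι ι ℚ} (hS : IsPolarization h w S) {C : GL ι ℂ}
    (hC : IsTorus h unitI unitI⁻¹ C) :
    (cx S * ((C⁻¹ : GL ι ℂ) : Matrix ι ι ℂ)).PosDef := by
  have hCi : (C : Matrix ι ι ℂ) * ((C⁻¹ : GL ι ℂ) : Matrix ι ι ℂ) = 1 := by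
    rw [← Units.val_mul, mul_inv_cancel, Units.val_one]
  have hiC : ((C⁻¹ : GL ι ℂ) : Matrix ι ι ℂ) * (C : Matrix ι ι ℂ) = 1 := by
    rw [← Units.val_mul, inv_mul_cancel, Units.val_one]
  have h1 : (C : Matrix ι ι ℂ)ᵀ * cx S * (C : Matrix ι ι ℂ) = cx S := by
    have := torus_bil hS hC
    simpa using this
  have h2 := weil_sq hS hC
  have h3 := weil_real hC
  have h4 : (cx S)ᴴ = ((-1 : ℂ) ^ w) • cx S := by
    rw [conj_cx, hS.symm]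
    ext i j
    simp [cx]
  have h5 : ((-1 : ℂ) ^ w) * ((-1 : ℂ) ^ w) = 1 := by
    rw [← _root_.mul_zpow]; norm_num
  have h6 : (((-1) ^ w : ℂˣ) : ℂ) = (-1 : ℂ) ^ w := by
    rw [Units.val_zpow_eq_zpow_val]; norm_num
  rw [h6] at h2
  have h7 : (C : Matrix ι ι ℂ) = ((-1 : ℂ) ^ w) • ((C⁻¹ : GL ι ℂ) : Matrix ι ι ℂ) := by
    calc (C : Matrix ι ι ℂ) = (C : Matrix ι ι ℂ) * C * ((C⁻¹ : GL ι ℂ) : Matrix ι ι ℂ) := by
          rw [Matrix.mul_assoc, hCi, Matrix.mul_one]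
      _ = _ := by rw [h2, Matrix.smul_mul, Matrix.one_mul]
  have h8 : ((C : Matrix ι ι ℂ)ᵀ) * ((C⁻¹ : GL ι ℂ) : Matrix ι ι ℂ)ᵀ = 1 := by
    rw [← Matrix.transpose_mul, hiC, Matrix.transpose_one]
  have h8' : ((C⁻¹ : GL ι ℂ) : Matrix ι ι ℂ)ᵀ * ((C : Matrix ι ι ℂ)ᵀ) = 1 := by
    rw [← Matrix.transpose_mul, hCi, Matrix.transpose_one]
  have h9 : ((C⁻¹ : GL ι ℂ) : Matrix ι ι ℂ)ᴴ = ((C⁻¹ : GL ι ℂ) : Matrix ι ι ℂ)ᵀ := by
    have hc : ((C : Matrix ι ι ℂ))ᴴ = ((C : Matrix ι ι ℂ))ᵀ := by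
      conv_rhs => rw [← h3]
      rfl
    have e1 : ((C⁻¹ : GL ι ℂ) : Matrix ι ι ℂ)ᴴ * ((C : Matrix ι ι ℂ)ᵀ) = 1 := by
      rw [← hc, ← Matrix.conjTranspose_mul, hCi, Matrix.conjTranspose_one]
    calc ((C⁻¹ : GL ι ℂ) : Matrix ι ι ℂ)ᴴ = ((C⁻¹ : GL ι ℂ) : Matrix ι ι ℂ)ᴴ * (((C : Matrix ι ι ℂ)ᵀ) * ((C⁻¹ : GL ι ℂ) : Matrix ι ι ℂ)ᵀ) := by
          rw [h8, Matrix.mul_one]
      _ = _ := by rw [← Matrix.mul_assoc, e1, Matrix.one_mul]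
  have h10 : ((C⁻¹ : GL ι ℂ) : Matrix ι ι ℂ)ᵀ * cx S = cx S * (C : Matrix ι ι ℂ) := by
    calc ((C⁻¹ : GL ι ℂ) : Matrix ι ι ℂ)ᵀ * cx S = ((C⁻¹ : GL ι ℂ) : Matrix ι ι ℂ)ᵀ * ((C : Matrix ι ι ℂ)ᵀ * cx S * (C : Matrix ι ι ℂ)) := by rw [h1]
      _ = (((C⁻¹ : GL ι ℂ) : Matrix ι ι ℂ)ᵀ * (C : Matrix ι ι ℂ)ᵀ) * (cx S * (C : Matrix ι ι ℂ)) := by
          simp only [Matrix.mul_assoc]
      _ = _ := by rw [h8', Matrix.one_mul]
  have hherm : (cx S * ((C⁻¹ : GL ι ℂ) : Matrix ι ι ℂ)).IsHermitian := by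
    rw [Matrix.IsHermitian, Matrix.conjTranspose_mul, h4, h9, Matrix.mul_smul, h10]
    conv_lhs => rw [h7]
    rw [Matrix.mul_smul, smul_smul, h5, one_smul]
  refine PosDef.of_dotProduct_mulVec_pos hherm ?_
  intro x hx
  have him := hherm.im_star_dotProduct_mulVec_self x
  -- decomposition of the conjugate vector
  obtain ⟨f, hf, hfx⟩ := hodge_decomp h (star x)
  have hpure : ∀ i j : ℤ × ℤ, (f i) ⬝ᵥ ((cx S * ((C⁻¹ : GL ι ℂ) : Matrix ι ι ℂ)) *ᵥ (star (f j))) =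
      if i = j then Complex.I ^ (i.1 - i.2) * ((f i) ⬝ᵥ (cx S *ᵥ star (f i))) else 0 := by
    intro i j
    have hj : star (f j) ∈ h.V (j.2, j.1) := h.conj_mem j.1 j.2 _ (hf j)
    have hCj : ((C⁻¹ : GL ι ℂ) : Matrix ι ι ℂ) *ᵥ star (f j) = (Complex.I ^ (j.1 - j.2)) • star (f j) := by
      have e1 := hC j.2 j.1 _ hj
      have e2 : ((C⁻¹ : GL ι ℂ) : Matrix ι ι ℂ) *ᵥ ((C : Matrix ι ι ℂ) *ᵥ star (f j)) = star (f j) := by
        rw [Matrix.mulVec_mulVec, hiC, Matrix.one_mulVec]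
      rw [e1, Matrix.mulVec_smul] at e2
      have e3 : ((unitI ^ j.2 * unitI⁻¹ ^ j.1 : ℂˣ) : ℂ) * Complex.I ^ (j.1 - j.2) = 1 := by
        have : Complex.I ^ (j.1 - j.2) = ((unitI ^ (j.1 - j.2) : ℂˣ) : ℂ) := by
          rw [Units.val_zpow_eq_zpow_val]; rfl
        rw [this, ← Units.val_mul, _root_.inv_zpow', ← _root_.zpow_add, ← _root_.zpow_add]
        rw [show j.2 + -j.1 + (j.1 - j.2) = 0 by ring]
        simp
      conv_rhs => rw [← e2]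
      rw [smul_smul, mul_comm, e3, one_smul]
    rw [← Matrix.mulVec_mulVec, hCj, Matrix.mulVec_smul, dotProduct_smul]
    split_ifs with hij
    · subst hij
      rfl
    · rw [hS.orth i.1 i.2 j.2 j.1 (by
        intro h
        apply hij
        obtain ⟨h1, h2⟩ := Prod.mk.inj h
        exact Prod.ext h2.symm h1.symm) (f i) (hf i) _ hj, smul_zero]
  have hval : star x ⬝ᵥ ((cx S * ((C⁻¹ : GL ι ℂ) : Matrix ι ι ℂ)) *ᵥ x) =
      ∑ i ∈ f.support, Complex.I ^ (i.1 - i.2) * ((f i) ⬝ᵥ (cx S *ᵥ star (f i))) := by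
    have hx' : x = ∑ i ∈ f.support, star (f i) := by
      have := congrArg star hfx
      rw [star_star] at this
      rw [this, Finsupp.sum, star_sum]
    conv_lhs => rw [hfx, Finsupp.sum, hx']
    rw [Matrix.mulVec_sum, sum_dotProduct]
    apply Finset.sum_congr rfl
    intro i hi
    rw [dotProduct_sum, Finset.sum_eq_single i]
    · rw [hpure, if_pos rfl]
    · intro j _ hj
      rw [hpure, if_neg (Ne.symm hj)]
    · intro h; exact absurd hi h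
  have hre : 0 < (star x ⬝ᵥ ((cx S * ((C⁻¹ : GL ι ℂ) : Matrix ι ι ℂ)) *ᵥ x)).re := by
    rw [hval, Complex.re_sum]
    apply Finset.sum_pos
    · intro i hi
      exact hS.pos i.1 i.2 (f i) (hf i) (Finsupp.mem_support_iff.1 hi)
    · rw [Finsupp.support_nonempty_iff]
      rintro rfl
      rw [Finsupp.sum_zero_index] at hfx
      exact hx (by simpa using hfx)
  exact Complex.lt_def.2 ⟨hre, him.symm⟩

end

end Pool.Agent.Work.MP_0da4e0_ag
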