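import Pool.Agent.Work.MP_0da4e0_ag.Polar1

open Matrix

namespace Pool.Agent.Work.MP_0da4e0_ag

variable {ι : Type} [Fintype ι] [DecidableEq ι]

section
open scoped ComplexOrder MatrixOrder

theorem weil_inv {h : HodgeStr ι} {w : ℤ} {S : Matrix ι ι ℚ} (hS : IsPolarization h w S) {C : GL ι ℂ}
    (hC : IsTorus h unitI unitI⁻¹ C) :
    (C : Matrix ι ι ℂ) = ((-1 : ℂ) ^ w) • ((C⁻¹ : GL ι ℂ) : Matrix ι ι ℂ) := by
  have hCi : (C : Matrix ι ι ℂ) * ((C⁻¹ : GL ι ℂ) : Matrix ι ι ℂ) = 1 := by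
    rw [← Units.val_mul, mul_inv_cancel, Units.val_one]
  have h2 := weil_sq hS hC
  have h6 : (((-1) ^ w : ℂˣ) : ℂ) = (-1 : ℂ) ^ w := by
    rw [Units.val_zpow_eq_zpow_val]; norm_num
  rw [h6] at h2
  calc (C : Matrix ι ι ℂ) = (C : Matrix ι ι ℂ) * C * ((C⁻¹ : GL ι ℂ) : Matrix ι ι ℂ) := by
        rw [Matrix.mul_assoc, hCi, Matrix.mul_one]
    _ = _ := by rw [h2, Matrix.smul_mul, Matrix.one_mul]

theorem cx_isUnit {h : HodgeStr ι} {w : ℤ} {S : Matrix ι ι ℚ} (hS : IsPolarization h w S) : IsUnit (cx S) := by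
  obtain ⟨C, hC⟩ := exists_torus h unitI unitI⁻¹
  have h1 := (weil_posDef hS hC).isUnit
  have h2 : cx S = (cx S * ((C⁻¹ : GL ι ℂ) : Matrix ι ι ℂ)) * (C : Matrix ι ι ℂ) := by
    rw [Matrix.mul_assoc, ← Units.val_mul, inv_mul_cancel, Units.val_one, Matrix.mul_one]
  rw [h2]
  exact h1.mul C.isUnit

theorem trace_pos_ne {h : HodgeStr ι} {w : ℤ} {S : Matrix ι ι ℚ} (hS : IsPolarization h w S) {C : GL ι ℂ}
    (hC : IsTorus h unitI unitI⁻¹ C) (X : Matrix ι ι ℂ) (hX : X ≠ 0) :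
    Matrix.trace (((C : Matrix ι ι ℂ) * X.map (starRingEnd ℂ) * ((C⁻¹ : GL ι ℂ) : Matrix ι ι ℂ)) *
      ((cx S)⁻¹ * Xᵀ * cx S)) ≠ 0 := by
  set Ci : Matrix ι ι ℂ := ((C⁻¹ : GL ι ℂ) : Matrix ι ι ℂ) with hCidef
  have hCi : (C : Matrix ι ι ℂ) * Ci = 1 := by
    rw [hCidef, ← Units.val_mul, mul_inv_cancel, Units.val_one]
  have hiC : Ci * (C : Matrix ι ι ℂ) = 1 := by
    rw [hCidef, ← Units.val_mul, inv_mul_cancel, Units.val_one]
  have hSu := (Matrix.isUnit_iff_isUnit_det _).1 (cx_isUnit hS)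
  have hSi : cx S * (cx S)⁻¹ = 1 := Matrix.mul_nonsing_inv _ hSu
  have hiS : (cx S)⁻¹ * cx S = 1 := Matrix.nonsing_inv_mul _ hSu
  have hpd := weil_posDef hS hC
  obtain ⟨B, hB⟩ := CStarAlgebra.nonneg_iff_eq_star_mul_self.mp hpd.posSemidef.nonneg
  rw [Matrix.star_eq_conjTranspose] at hB
  have hBu : IsUnit B.det := by
    have h1 := (Matrix.isUnit_iff_isUnit_det _).1 hpd.isUnit
    rw [hB, Matrix.det_mul] at h1
    exact isUnit_of_mul_isUnit_right h1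
  have hBi : B * B⁻¹ = 1 := Matrix.mul_nonsing_inv _ hBu
  have hiB : B⁻¹ * B = 1 := Matrix.nonsing_inv_mul _ hBu
  have hBH : (B⁻¹)ᴴ * Bᴴ = 1 := by rw [← Matrix.conjTranspose_mul, hBi, Matrix.conjTranspose_one]
  have hHB : Bᴴ * (B⁻¹)ᴴ = 1 := by rw [← Matrix.conjTranspose_mul, hiB, Matrix.conjTranspose_one]
  -- the inverse of the hermitian form
  have hinv : (C : Matrix ι ι ℂ) * (cx S)⁻¹ = B⁻¹ * (B⁻¹)ᴴ := by
    have e1 : (cx S * Ci) * ((C : Matrix ι ι ℂ) * (cx S)⁻¹) = 1 := by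
      calc (cx S * Ci) * ((C : Matrix ι ι ℂ) * (cx S)⁻¹) = cx S * (Ci * (C : Matrix ι ι ℂ)) * (cx S)⁻¹ := by
            simp only [Matrix.mul_assoc]
        _ = 1 := by rw [hiC, Matrix.mul_one, hSi]
    have e2 : (B⁻¹ * (B⁻¹)ᴴ) * (cx S * Ci) = 1 := by
      rw [hB]
      calc (B⁻¹ * (B⁻¹)ᴴ) * (Bᴴ * B) = B⁻¹ * ((B⁻¹)ᴴ * Bᴴ) * B := by simp only [Matrix.mul_assoc]
        _ = 1 := by rw [hBH, Matrix.mul_one, hiB]
    calc (C : Matrix ι ι ℂ) * (cx S)⁻¹ = (B⁻¹ * (B⁻¹)ᴴ) * (cx S * Ci) * ((C : Matrix ι ι ℂ) * (cx S)⁻¹) := by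
          rw [e2, Matrix.one_mul]
      _ = _ := by rw [Matrix.mul_assoc, e1, Matrix.mul_one]
  have hCs := weil_inv hS hC
  rw [← hCidef] at hCs
  set c : ℂ := (-1 : ℂ) ^ w with hc
  have hcc : c * c = 1 := by
    rw [hc, ← _root_.mul_zpow]; norm_num
  have hCis : Ci = c • (C : Matrix ι ι ℂ) := by
    rw [hCs, smul_smul, hcc, one_smul]
  set N : Matrix ι ι ℂ := B * X.map (starRingEnd ℂ) * B⁻¹ with hN
  have hXH : (X.map (starRingEnd ℂ))ᴴ = Xᵀ := by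
    ext i j
    simp [Matrix.conjTranspose_apply]
  have hNH : Nᴴ = (B⁻¹)ᴴ * (Xᵀ * Bᴴ) := by
    rw [hN, Matrix.conjTranspose_mul, Matrix.conjTranspose_mul, hXH]
  have key : Matrix.trace (((C : Matrix ι ι ℂ) * X.map (starRingEnd ℂ) * Ci) *
      ((cx S)⁻¹ * Xᵀ * cx S)) = Matrix.trace (N * Nᴴ) := by
    calc Matrix.trace (((C : Matrix ι ι ℂ) * X.map (starRingEnd ℂ) * Ci) * ((cx S)⁻¹ * Xᵀ * cx S))
        = Matrix.trace ((C : Matrix ι ι ℂ) * (X.map (starRingEnd ℂ) * (Ci * (cx S)⁻¹) * Xᵀ * cx S)) := by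
          simp only [Matrix.mul_assoc]
      _ = Matrix.trace ((X.map (starRingEnd ℂ) * (Ci * (cx S)⁻¹) * Xᵀ * cx S) * (C : Matrix ι ι ℂ)) := by
          rw [Matrix.trace_mul_comm]
      _ = Matrix.trace (X.map (starRingEnd ℂ) * (c • ((C : Matrix ι ι ℂ) * (cx S)⁻¹)) * Xᵀ * (c • (cx S * Ci))) := by
          congr 1
          have e1 : Ci * (cx S)⁻¹ = c • ((C : Matrix ι ι ℂ) * (cx S)⁻¹) := by
            rw [hCis, Matrix.smul_mul]
          have e2 : cx S * (C : Matrix ι ι ℂ) = c • (cx S * Ci) := by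
            conv_lhs => rw [hCs]
            rw [Matrix.mul_smul]
          rw [Matrix.mul_assoc (_ * Xᵀ), e1, e2]
      _ = Matrix.trace (X.map (starRingEnd ℂ) * (B⁻¹ * (B⁻¹)ᴴ) * Xᵀ * (Bᴴ * B)) := by
          rw [hinv, hB]
          simp only [Matrix.mul_smul, Matrix.smul_mul, smul_smul, hcc, one_smul]
      _ = Matrix.trace (((X.map (starRingEnd ℂ) * B⁻¹) * ((B⁻¹)ᴴ * (Xᵀ * Bᴴ))) * B) := by
          simp only [Matrix.mul_assoc]
      _ = Matrix.trace (B * ((X.map (starRingEnd ℂ) * B⁻¹) * ((B⁻¹)ᴴ * (Xᵀ * Bᴴ)))) := by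
          rw [Matrix.trace_mul_comm]
      _ = Matrix.trace (N * Nᴴ) := by
          rw [hNH, hN]
          simp only [Matrix.mul_assoc]
  rw [key]
  intro h0
  have hN0 : N = 0 := Matrix.trace_mul_conjTranspose_self_eq_zero_iff.1 h0
  apply hX
  have h1 : X.map (starRingEnd ℂ) = 0 := by
    calc X.map (starRingEnd ℂ) = B⁻¹ * N * B := by
          rw [hN]
          calc X.map (starRingEnd ℂ) = (B⁻¹ * B) * X.map (starRingEnd ℂ) * (B⁻¹ * B) := by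
                rw [hiB, Matrix.one_mul, Matrix.mul_one]
            _ = _ := by simp only [Matrix.mul_assoc]
      _ = 0 := by rw [hN0, Matrix.mul_zero, Matrix.zero_mul]
  ext i j
  have := congrFun (congrFun h1 i) j
  simpa using this

end

end Pool.Agent.Work.MP_0da4e0_ag
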