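import Pool.Agent.Work.MP_0da4e0_ag.MtProj

open Matrix

namespace Pool.Agent.Work.MP_0da4e0_ag

variable {ι : Type} [Fintype ι] [DecidableEq ι]

/-- the adjoint for S as a Hodge tensor -/
theorem exists_adj {h : HodgeStr ι} {w : ℤ} {S : Matrix ι ι ℚ} (hS : IsPolarization h w S) :
    ∃ t : Tens ι 2 2 ℚ, IsHodge h t ∧ ∀ A, endL (ratT ℂ t) A = (cx S)⁻¹ * Aᵀ * cx S := by
  let P : Matrix ι ι ℚ →ₗ[ℚ] Matrix ι ι ℚ :=
    { toFun := fun A => S⁻¹ * Aᵀ * S
      map_add' := by intro A B; simp [Matrix.mul_add, Matrix.add_mul]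
      map_smul' := by intro c A; simp }
  obtain ⟨t, ht⟩ := exists_endT P
  have hC1 : ∀ A, endL (ratT ℂ t) A = (cx S)⁻¹ * Aᵀ * cx S := by
    intro A
    conv_lhs => rw [mat_sum_single A, map_sum]
    conv_rhs => rw [mat_sum_single A, Matrix.transpose_sum, Matrix.mul_sum, Matrix.sum_mul]
    apply Finset.sum_congr rfl
    intro e _
    rw [map_smul, ← cx_single, endL_ratT, ht, Matrix.transpose_smul, Matrix.mul_smul, Matrix.smul_mul]
    congr 1
    change cx (S⁻¹ * _ᵀ * S) = _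
    rw [cx_mul, cx_mul, cx_transpose, cx_inv hS]
  refine ⟨t, ?_, hC1⟩
  intro z z' g hg
  apply endL_injective
  apply LinearMap.ext
  intro A
  rw [endL_act, hC1, hC1]
  set G : Matrix ι ι ℂ := (g : Matrix ι ι ℂ) with hG
  set G' : Matrix ι ι ℂ := ((g⁻¹ : GL ι ℂ) : Matrix ι ι ℂ) with hG'
  have hGG' : G * G' = 1 := by rw [hG, hG', ← Units.val_mul, mul_inv_cancel, Units.val_one]
  have hG'G : G' * G = 1 := by rw [hG, hG', ← Units.val_mul, inv_mul_cancel, Units.val_one]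
  have hSu := (Matrix.isUnit_iff_isUnit_det _).1 (cx_isUnit hS)
  have hSi : cx S * (cx S)⁻¹ = 1 := Matrix.mul_nonsing_inv _ hSu
  have hiS : (cx S)⁻¹ * cx S = 1 := Matrix.nonsing_inv_mul _ hSu
  have h2 : Gᵀ * cx S * G = (((z * z') ^ w : ℂˣ) : ℂ) • cx S := torus_bil hS hg
  set c : ℂ := (((z * z') ^ w : ℂˣ) : ℂ) with hc
  have hc0 : c ≠ 0 := Units.ne_zero _
  have h3 : Gᵀ * cx S = c • (cx S * G') := by
    calc Gᵀ * cx S = Gᵀ * cx S * (G * G') := by rw [hGG', Matrix.mul_one]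
      _ = (Gᵀ * cx S * G) * G' := by simp only [Matrix.mul_assoc]
      _ = _ := by rw [h2, Matrix.smul_mul]
  have e1 : G'ᵀ * Gᵀ = 1 := by rw [← Matrix.transpose_mul, hGG', Matrix.transpose_one]
  have e2 : G'ᵀ * (c • (cx S * G')) = cx S := by
    rw [← h3, ← Matrix.mul_assoc, e1, Matrix.one_mul]
  -- G S⁻¹ Gᵀ = c S⁻¹ and G'ᵀ S G' = c⁻¹ S
  have e3 : G'ᵀ * cx S * G' = c⁻¹ • cx S := by
    have : G'ᵀ * cx S * G' = c⁻¹ • (G'ᵀ * (c • (cx S * G'))) := by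
      rw [Matrix.mul_smul, smul_smul, inv_mul_cancel₀ hc0, one_smul, Matrix.mul_assoc]
    rw [this, e2]
  have e4 : G * (cx S)⁻¹ * Gᵀ = c • (cx S)⁻¹ := by
    calc G * (cx S)⁻¹ * Gᵀ = G * (cx S)⁻¹ * (Gᵀ * (cx S * (cx S)⁻¹)) := by
          rw [hSi, Matrix.mul_one]
      _ = G * (cx S)⁻¹ * (Gᵀ * cx S) * (cx S)⁻¹ := by simp only [Matrix.mul_assoc]
      _ = c • (G * ((cx S)⁻¹ * cx S) * G' * (cx S)⁻¹) := by
          rw [h3]
          simp only [Matrix.mul_smul, Matrix.smul_mul, Matrix.mul_assoc]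
      _ = _ := by rw [hiS, Matrix.mul_one, hGG', Matrix.one_mul]
  calc G * ((cx S)⁻¹ * (G' * A * G)ᵀ * cx S) * G' = (G * (cx S)⁻¹ * Gᵀ) * Aᵀ * (G'ᵀ * cx S * G') := by
        simp only [Matrix.transpose_mul, Matrix.mul_assoc]
    _ = _ := by
        rw [e3, e4]
        simp only [Matrix.mul_smul, Matrix.smul_mul, smul_smul, inv_mul_cancel₀ hc0, one_smul]

theorem scalar_of_commute {Y : Matrix ι ι ℂ} (h : ∀ A : Matrix ι ι ℂ, Y * A = A * Y) : ∃ c : ℂ, Y = c • 1 := by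
  have h1 : Y ∈ Set.range (Matrix.scalar ι) := by
    apply Matrix.mem_range_scalar_of_commute_single
    intro i j _
    exact (h _).symm
  obtain ⟨c, hc⟩ := h1
  refine ⟨c, ?_⟩
  rw [← hc]
  ext i j
  simp [Matrix.scalar_apply, Matrix.diagonal_apply, Matrix.one_apply]

variable {k : Type} [Field k]

/-- left multiplication by a Hodge endomorphism as a Hodge tensor -/
theorem exists_left {h : HodgeStr ι} {A : Matrix ι ι ℚ} (hA : IsHodge h (matT A)) :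
    ∃ t : Tens ι 2 2 ℚ, IsHodge h t ∧ ∀ B, endL (ratT ℂ t) B = cx A * B := by
  let P : Matrix ι ι ℚ →ₗ[ℚ] Matrix ι ι ℚ :=
    { toFun := fun B => A * B
      map_add' := by intro B B'; simp [Matrix.mul_add]
      map_smul' := by intro c B; simp }
  obtain ⟨t, ht⟩ := exists_endT P
  have hC1 : ∀ B, endL (ratT ℂ t) B = cx A * B := by
    intro B
    conv_lhs => rw [mat_sum_single B, map_sum]
    conv_rhs => rw [mat_sum_single B, Matrix.mul_sum]
    apply Finset.sum_congr rfl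
    intro e _
    rw [map_smul, ← cx_single, endL_ratT, ht, Matrix.mul_smul]
    congr 1
    change cx (A * _) = _
    rw [cx_mul]
  refine ⟨t, ?_, hC1⟩
  intro z z' g hg
  apply endL_injective
  apply LinearMap.ext
  intro B
  rw [endL_act, hC1, hC1]
  set G : Matrix ι ι ℂ := (g : Matrix ι ι ℂ) with hG
  set G' : Matrix ι ι ℂ := ((g⁻¹ : GL ι ℂ) : Matrix ι ι ℂ) with hG'
  have hGG' : G * G' = 1 := by rw [hG, hG', ← Units.val_mul, mul_inv_cancel, Units.val_one]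
  have h1 := hA z z' g hg
  rw [ratT_matT, act_matT] at h1
  have h2 : G * cx A * G' = cx A := matT_injective h1
  calc G * (cx A * (G' * B * G)) * G' = (G * cx A * G') * B * (G * G') := by
        simp only [Matrix.mul_assoc]
    _ = cx A * B := by rw [h2, hGG', Matrix.mul_one]

/-- the skew part of a central Hodge endomorphism -/
theorem central_skew {h : HodgeStr ι} {w : ℤ} {S : Matrix ι ι ℚ} (hS : IsPolarization h w S) {Z : Matrix ι ι ℚ}
    (hZ : IsHodge h (matT Z)) (hcen : ∀ B : Matrix ι ι ℚ, IsHodge h (matT B) → Z * B = B * Z) :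
    IsHodge h (matT (Z - S⁻¹ * Zᵀ * S)) ∧
      (∀ B : Matrix ι ι ℚ, IsHodge h (matT B) → (Z - S⁻¹ * Zᵀ * S) * B = B * (Z - S⁻¹ * Zᵀ * S)) ∧
      (Z - S⁻¹ * Zᵀ * S)ᵀ * S = -(S * (Z - S⁻¹ * Zᵀ * S)) := by
  have hSu := rat_isUnit hS
  have hSi : S * S⁻¹ = 1 := Matrix.mul_nonsing_inv _ hSu
  have hiS : S⁻¹ * S = 1 := Matrix.nonsing_inv_mul _ hSu
  have hcc : ((-1 : ℚ) ^ w) * ((-1 : ℚ) ^ w) = 1 := by
    rw [← _root_.mul_zpow]; norm_num
  have hSit : (S⁻¹)ᵀ = ((-1 : ℚ) ^ w) • S⁻¹ := by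
    rw [Matrix.transpose_nonsing_inv, hS.symm]
    apply Matrix.inv_eq_right_inv
    rw [Matrix.smul_mul, Matrix.mul_smul, smul_smul, hcc, one_smul, hSi]
  -- adjoints of Hodge endomorphisms
  have hadj : ∀ B : Matrix ι ι ℚ, IsHodge h (matT B) → IsHodge h (matT (S⁻¹ * Bᵀ * S)) := by
    intro B hB z z' g hg
    obtain ⟨tS, htS, htS'⟩ := exists_adj hS
    have h1 := htS z z' g hg
    have h2 := congrArg (fun t => endL t (cx B)) h1
    simp only [endL_act, htS'] at h2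
    have h3 := hg.inv
    have h4 := hB _ _ _ h3
    rw [ratT_matT, act_matT, inv_inv] at h4
    have h5 : ((g⁻¹ : GL ι ℂ) : Matrix ι ι ℂ) * cx B * (g : Matrix ι ι ℂ) = cx B := matT_injective h4
    rw [h5] at h2
    rw [ratT_matT, act_matT, cx_mul, cx_mul, cx_transpose, cx_inv hS, h2]
  have hadj2 : ∀ B : Matrix ι ι ℚ, S⁻¹ * (S⁻¹ * Bᵀ * S)ᵀ * S = B := by
    intro B
    rw [Matrix.transpose_mul, Matrix.transpose_mul, Matrix.transpose_transpose, hS.symm, hSit]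
    simp only [Matrix.mul_smul, Matrix.smul_mul, smul_smul, hcc, one_smul]
    calc S⁻¹ * (S * (B * S⁻¹)) * S = (S⁻¹ * S) * B * (S⁻¹ * S) := by simp only [Matrix.mul_assoc]
      _ = B := by rw [hiS, Matrix.one_mul, Matrix.mul_one]
  have hmul : ∀ B C : Matrix ι ι ℚ, S⁻¹ * (B * C)ᵀ * S = (S⁻¹ * Cᵀ * S) * (S⁻¹ * Bᵀ * S) := by
    intro B C
    calc S⁻¹ * (B * C)ᵀ * S = S⁻¹ * Cᵀ * (S * S⁻¹) * Bᵀ * S := by
          rw [hSi, Matrix.mul_one, Matrix.transpose_mul]; simp only [Matrix.mul_assoc]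
      _ = _ := by simp only [Matrix.mul_assoc]
  refine ⟨?_, ?_, ?_⟩
  · intro z z' g hg
    have h1 := hZ z z' g hg
    have h2 := hadj Z hZ z z' g hg
    rw [ratT_matT, act_matT] at h1 h2 ⊢
    have hsub : cx (Z - S⁻¹ * Zᵀ * S) = cx Z - cx (S⁻¹ * Zᵀ * S) := by
      ext i j
      simp [cx]
    rw [hsub, Matrix.mul_sub, Matrix.sub_mul, matT_injective h1, matT_injective h2]
  · intro B hB
    obtain ⟨B', hB'1, hB'2⟩ : ∃ B' : Matrix ι ι ℚ, IsHodge h (matT B') ∧ S⁻¹ * B'ᵀ * S = B :=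
      ⟨_, hadj B hB, hadj2 B⟩
    have h1 := hcen B' hB'1
    have h2 : S⁻¹ * (Z * B')ᵀ * S = S⁻¹ * (B' * Z)ᵀ * S := by rw [h1]
    rw [hmul, hmul, hB'2] at h2
    rw [Matrix.sub_mul, Matrix.mul_sub, hcen B hB, h2]
  · rw [Matrix.transpose_sub, Matrix.transpose_mul, Matrix.transpose_mul, Matrix.transpose_transpose, hS.symm, hSit]
    simp only [Matrix.mul_smul, Matrix.smul_mul, smul_smul, hcc, one_smul]
    rw [Matrix.sub_mul, Matrix.mul_sub]
    have e1 : S * (Z * S⁻¹) * S = S * Z := by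
      rw [Matrix.mul_assoc, Matrix.mul_assoc, hiS, Matrix.mul_one]
    have e2 : S * (S⁻¹ * Zᵀ * S) = Zᵀ * S := by
      rw [← Matrix.mul_assoc, ← Matrix.mul_assoc, hSi, Matrix.one_mul]
    rw [e1, e2]
    abel

/-- The main infinitesimal statement. -/
theorem kills_hodge {H : RealSys k ι} {σ : k →+* ℂ} {w : ℤ} {S : Matrix ι ι ℚ}
    (hS : IsPolarization (H.hodge σ) w S)
    (h22 : ∀ t : Tens ι 2 2 ℚ, IsHodge (H.hodge σ) t → ∃ s : AHTensor H 2 2, s.betti σ = t)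
    (Y : Matrix ι ι ℂ) (hY : ∀ (m n : ℕ) (s : AHTensor H m n), dact Y (ratT ℂ (s.betti σ)) = 0)
    {a b : ℕ} (x : Tens ι a b ℚ) (hx : IsHodge (H.hodge σ) x)
    (hc : ∀ A : Matrix ι ι ℚ, IsHodge (H.hodge σ) (matT A) →
      (∀ B : Matrix ι ι ℚ, IsHodge (H.hodge σ) (matT B) → A * B = B * A) → Aᵀ * S = -(S * A) → dact A x = 0)
    (hab : a = b ∨ ∃ s : AHTensor H 0 2, s.betti σ = bilT S) :
    dact Y (ratT ℂ x) = 0 := by
  obtain ⟨t, ht, hmem, hfix⟩ := exists_proj hS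
  obtain ⟨s, hs⟩ := h22 t ht
  have hYt : ∀ A, endL (ratT ℂ t) (Y * A - A * Y) = Y * endL (ratT ℂ t) A - endL (ratT ℂ t) A * Y := by
    intro A
    have h1 := endL_dact Y (ratT ℂ t) A
    have h2 := hY 2 2 s
    rw [hs] at h2
    rw [h2] at h1
    have h3 : endL (0 : Tens ι 2 2 ℂ) A = 0 := by
      ext i j
      simp [endL_apply]
    rw [h3] at h1
    exact (sub_eq_zero.1 h1.symm).symm
  set Y1 := endL (ratT ℂ t) Y with hY1
  have hY1mem : Y1 ∈ mtLieC (H.hodge σ) := hmem Y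
  -- elements of the Lie algebra also commute with the projector
  have hXt : ∀ X ∈ mtLieC (H.hodge σ), ∀ A, endL (ratT ℂ t) (X * A - A * X) = X * endL (ratT ℂ t) A - endL (ratT ℂ t) A * X := by
    intro X hX A
    have h1 := endL_dact X (ratT ℂ t) A
    rw [hX 2 2 t ht] at h1
    have h3 : endL (0 : Tens ι 2 2 ℂ) A = 0 := by
      ext i j
      simp [endL_apply]
    rw [h3] at h1
    exact (sub_eq_zero.1 h1.symm).symm
  set Y2 := Y - Y1 with hY2
  have hcomm : ∀ X ∈ mtLieC (H.hodge σ), X * Y2 = Y2 * X := by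
    intro X hX
    have h1 := hYt X
    rw [hfix X hX] at h1
    have h2 := hXt X hX Y
    rw [← hY1] at h2
    have h3 : endL (ratT ℂ t) (X * Y - Y * X) = X * Y - Y * X := by
      have e1 : X * Y - Y * X = - (Y * X - X * Y) := by abel
      rw [e1, map_neg, h1]
    rw [h3] at h2
    rw [hY2, Matrix.mul_sub, Matrix.sub_mul]
    rw [sub_eq_sub_iff_add_eq_add] at h2 ⊢
    rw [h2]
    abel
  have hY2AH : ∀ (m n : ℕ) (s : AHTensor H m n), dact Y2 (ratT ℂ (s.betti σ)) = 0 := by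
    intro m n s
    rw [hY2, dact_sub, hY m n s, hY1mem m n _ (s.hodge σ), sub_zero]
  have hcommE : ∀ A : Matrix ι ι ℚ, IsHodge (H.hodge σ) (matT A) → cx A * Y2 = Y2 * cx A := by
    intro A hA
    obtain ⟨tA, htA, htA'⟩ := exists_left hA
    obtain ⟨s, hs⟩ := h22 _ htA
    have h1 := endL_dact Y2 (ratT ℂ tA) 1
    have h2 := hY2AH 2 2 s
    rw [hs] at h2
    rw [h2] at h1
    have h3 : endL (0 : Tens ι 2 2 ℂ) (1 : Matrix ι ι ℂ) = 0 := by
      ext i j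
      simp [endL_apply]
    rw [h3, htA', htA', Matrix.mul_one, Matrix.mul_one, Matrix.one_mul, sub_self, Matrix.mul_zero, sub_zero] at h1
    exact (sub_eq_zero.1 h1.symm).symm
  -- Y2 is in the span of the center
  have hspan : Y2 ∈ Submodule.span ℂ {Z | ∃ Z' : Matrix ι ι ℚ,
      ((∀ X ∈ mtLie (H.hodge σ), X * Z' = Z' * X) ∧
        ∀ A : Matrix ι ι ℚ, IsHodge (H.hodge σ) (matT A) → A * Z' = Z' * A) ∧ Z = cx Z'} := by
    let M := {A : Matrix ι ι ℚ // A ∈ mtLie (H.hodge σ) ∨ IsHodge (H.hodge σ) (matT A)} × (ι × ι)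
    let L : M → (Matrix ι ι ℚ →ₗ[ℚ] ℚ) := fun r =>
      { toFun := fun Z => (r.1.1 * Z - Z * r.1.1) r.2.1 r.2.2
        map_add' := fun X Y => by simp [Matrix.mul_add, Matrix.add_mul]; ring
        map_smul' := fun c X => by simp; ring }
    let LC : M → (Matrix ι ι ℂ →ₗ[ℂ] ℂ) := fun r =>
      { toFun := fun Z => (cx r.1.1 * Z - Z * cx r.1.1) r.2.1 r.2.2
        map_add' := fun X Y => by simp [Matrix.mul_add, Matrix.add_mul]; ring
        map_smul' := fun c X => by simp; ring }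
    have h1 := mat_span L LC (fun r Z => by
      change (cx r.1.1 * cx Z - cx Z * cx r.1.1) r.2.1 r.2.2 = (((r.1.1 * Z - Z * r.1.1) r.2.1 r.2.2 : ℚ) : ℂ)
      rw [← cx_mul, ← cx_mul]
      simp [cx]) Y2 (fun r => by
      change (cx r.1.1 * Y2 - Y2 * cx r.1.1) r.2.1 r.2.2 = 0
      have : cx r.1.1 * Y2 = Y2 * cx r.1.1 := by
        rcases r.1.2 with h | h
        · exact hcomm _ (cx_mem h)
        · exact hcommE _ h
      rw [this, sub_self]
      rfl)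
    refine Submodule.span_mono ?_ h1
    rintro _ ⟨Z', hZ', rfl⟩
    refine ⟨Z', ⟨?_, ?_⟩, rfl⟩
    · intro X hX
      rw [← sub_eq_zero]
      ext i j
      exact hZ' (⟨X, Or.inl hX⟩, (i, j))
    · intro X hX
      rw [← sub_eq_zero]
      ext i j
      exact hZ' (⟨X, Or.inr hX⟩, (i, j))
  have hSu := (Matrix.isUnit_iff_isUnit_det _).1 (cx_isUnit hS)
  have hSi : cx S * (cx S)⁻¹ = 1 := Matrix.mul_nonsing_inv _ hSu
  have hiS : (cx S)⁻¹ * cx S = 1 := Matrix.nonsing_inv_mul _ hSu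
  obtain ⟨tS, htS, htS'⟩ := exists_adj hS
  obtain ⟨s', hs'⟩ := h22 tS htS
  -- the skew part of the central element
  set Y3 : Matrix ι ι ℂ := (cx S)⁻¹ * Y2ᵀ * cx S with hY3
  have hskew : dact (Y2 - Y3) (ratT ℂ x) = 0 := by
    rw [hY3]
    refine Submodule.span_induction (p := fun Z _ => dact (Z - (cx S)⁻¹ * Zᵀ * cx S) (ratT ℂ x) = 0) ?_ ?_ ?_ ?_ hspan
    · rintro _ ⟨Z', ⟨hZ1, hZ2⟩, rfl⟩
      have hcomm' : ∀ X ∈ mtLieC (H.hodge σ), X * cx Z' = cx Z' * X := by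
        intro X hX
        refine Submodule.span_induction (p := fun X _ => X * cx Z' = cx Z' * X) ?_ ?_ ?_ ?_ (mtLieC_span hX)
        · rintro _ ⟨X', hX', rfl⟩
          rw [← cx_mul, ← cx_mul, hZ1 X' hX']
        · simp
        · intro A B _ _ h1 h2
          rw [Matrix.add_mul, Matrix.mul_add, h1, h2]
        · intro c A _ h1
          rw [Matrix.smul_mul, Matrix.mul_smul, h1]
      have hZH : IsHodge (H.hodge σ) (matT Z') := by
        intro z z' g hg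
        rw [ratT_matT, act_matT, commute_torus hcomm' hg, Matrix.mul_assoc, ← Units.val_mul, mul_inv_cancel,
          Units.val_one, Matrix.mul_one]
      rw [← cx_inv hS, ← cx_transpose, ← cx_mul, ← cx_mul]
      have hsub : cx Z' - cx (S⁻¹ * Z'ᵀ * S) = cx (Z' - S⁻¹ * Z'ᵀ * S) := by
        ext i j
        simp [cx]
      rw [hsub, dact_ratT]
      have hcen := central_skew hS hZH (fun B hB => (hZ2 B hB).symm)
      rw [hc _ hcen.1 hcen.2.1 hcen.2.2, ratT_zero]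
    · simp [dact_zero]
    · intro A B _ _ h1 h2
      have e1 : A + B - (cx S)⁻¹ * (A + B)ᵀ * cx S = (A - (cx S)⁻¹ * Aᵀ * cx S) + (B - (cx S)⁻¹ * Bᵀ * cx S) := by
        rw [Matrix.transpose_add, Matrix.mul_add, Matrix.add_mul]
        abel
      rw [e1, dact_add, h1, h2, add_zero]
    · intro c A _ h1
      have e1 : c • A - (cx S)⁻¹ * (c • A)ᵀ * cx S = c • (A - (cx S)⁻¹ * Aᵀ * cx S) := by
        rw [Matrix.transpose_smul, Matrix.mul_smul, Matrix.smul_mul, smul_sub]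
      rw [e1, dact_smul, h1, smul_zero]
  have hcen : ∀ A : Matrix ι ι ℂ, (Y2 + Y3) * ((cx S)⁻¹ * Aᵀ * cx S) = ((cx S)⁻¹ * Aᵀ * cx S) * (Y2 + Y3) := by
    intro A
    have h1 := endL_dact Y2 (ratT ℂ tS) A
    have h2 := hY2AH 2 2 s'
    rw [hs'] at h2
    rw [h2] at h1
    have h3 : endL (0 : Tens ι 2 2 ℂ) A = 0 := by
      ext i j
      simp [endL_apply]
    rw [h3, htS', htS'] at h1
    have h4 : (cx S)⁻¹ * (Y2 * A - A * Y2)ᵀ * cx S =
        ((cx S)⁻¹ * Aᵀ * cx S) * Y3 - Y3 * ((cx S)⁻¹ * Aᵀ * cx S) := by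
      rw [Matrix.transpose_sub, Matrix.transpose_mul, Matrix.transpose_mul, Matrix.mul_sub, Matrix.sub_mul, hY3]
      congr 1
      · calc (cx S)⁻¹ * (Aᵀ * Y2ᵀ) * cx S = (cx S)⁻¹ * Aᵀ * (cx S * (cx S)⁻¹) * Y2ᵀ * cx S := by
              rw [hSi, Matrix.mul_one]; simp only [Matrix.mul_assoc]
          _ = _ := by simp only [Matrix.mul_assoc]
      · calc (cx S)⁻¹ * (Y2ᵀ * Aᵀ) * cx S = (cx S)⁻¹ * Y2ᵀ * (cx S * (cx S)⁻¹) * Aᵀ * cx S := by
              rw [hSi, Matrix.mul_one]; simp only [Matrix.mul_assoc]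
          _ = _ := by simp only [Matrix.mul_assoc]
    rw [h4] at h1
    rw [Matrix.add_mul, Matrix.mul_add]
    have h5 := h1.symm
    have h6 : Y2 * ((cx S)⁻¹ * Aᵀ * cx S) + Y3 * ((cx S)⁻¹ * Aᵀ * cx S) -
        ((cx S)⁻¹ * Aᵀ * cx S * Y2 + (cx S)⁻¹ * Aᵀ * cx S * Y3) = 0 := by
      rw [← h5]
      abel
    exact sub_eq_zero.1 h6
  have hcen' : ∀ A : Matrix ι ι ℂ, (Y2 + Y3) * A = A * (Y2 + Y3) := by
    intro A
    have h1 := hcen ((cx S * A * (cx S)⁻¹)ᵀ)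
    have h2 : (cx S)⁻¹ * ((cx S * A * (cx S)⁻¹)ᵀ)ᵀ * cx S = A := by
      rw [Matrix.transpose_transpose]
      calc (cx S)⁻¹ * (cx S * A * (cx S)⁻¹) * cx S = ((cx S)⁻¹ * cx S) * A * ((cx S)⁻¹ * cx S) := by
            simp only [Matrix.mul_assoc]
        _ = A := by rw [hiS, Matrix.one_mul, Matrix.mul_one]
    rwa [h2] at h1
  obtain ⟨c, hcY⟩ := scalar_of_commute hcen'
  have hY12 : Y = Y1 + Y2 := by rw [hY2]; abel
  have hsc : dact (Y2 + Y3) (ratT ℂ x) = 0 := by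
    rcases hab with h | ⟨s, hs⟩
    · subst h
      rw [hcY, dact_smul, dact_one, smul_smul, sub_self, mul_zero, zero_smul]
    · have h1 := hY2AH 0 2 s
      rw [hs] at h1
      have h2 : Y2ᵀ * cx S + cx S * Y2 = 0 := (dact_bilT_eq_zero Y2 (cx S)).1 h1
      have h3 : Y2 + Y3 = 0 := by
        have e1 : Y3 = - Y2 := by
          rw [hY3, Matrix.mul_assoc, eq_neg_of_add_eq_zero_left h2, Matrix.mul_neg, ← Matrix.mul_assoc, hiS,
            Matrix.one_mul]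
        rw [e1, add_neg_cancel]
      rw [h3, dact_zero]
  have hY2x : dact Y2 (ratT ℂ x) = 0 := by
    have e1 : (2 : ℂ) • Y2 = (Y2 - Y3) + (Y2 + Y3) := by
      rw [two_smul]; abel
    have e2 : (2 : ℂ) • dact Y2 (ratT ℂ x) = 0 := by
      rw [← dact_smul, e1, dact_add, hskew, hsc, add_zero]
    rcases smul_eq_zero.1 e2 with h | h
    · norm_num at h
    · exact h
  rw [hY12, dact_add, hY1mem a b x hx, hY2x, add_zero]

/-- The quartic criterion. -/
theorem quartic [IsAlgClosed k] (H : RealSys k ι) (σ : k →+* ℂ) (w : ℤ) (S : Matrix ι ι ℚ)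
    (hS : IsPolarization (H.hodge σ) w S)
    (h22 : ∀ t : Tens ι 2 2 ℚ, IsHodge (H.hodge σ) t → ∃ s : AHTensor H 2 2, s.betti σ = t) :
    ∃ N₀ : ℕ, ∀ (a b : ℕ) (x : Tens ι a b ℚ), IsHodge (H.hodge σ) x →
      (∀ A : Matrix ι ι ℚ, IsHodge (H.hodge σ) (matT A) →
        (∀ B : Matrix ι ι ℚ, IsHodge (H.hodge σ) (matT B) → A * B = B * A) →
        Aᵀ * S = -(S * A) → dact A x = 0) →
      (a = b ∨ ∃ s : AHTensor H 0 2, s.betti σ = bilT S) →
      IsFinAH H σ N₀ x := by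
  let I := Σ d : ℕ × ℕ, AHTensor H d.1 d.2
  let T : ∀ i : I, AHTensor H i.1.1 i.1.2 := fun i => i.2
  obtain ⟨N₀, hN₀⟩ := exists_orb_bound T σ
  refine ⟨N₀, fun a b x hx hc hab => ?_⟩
  have hfin : (orbC T σ x).Finite := by
    apply orbC_finite
    intro g hg e
    refine alg_of_lie (fun i : I => (T i).betti σ) x ?_ g hg e
    intro Y hY
    exact kills_hodge hS h22 Y (fun m n s => hY ⟨(m, n), s⟩) x hx hc hab
  exact isFinAH_of_finite T x σ hfin N₀ (hN₀ a b x hfin)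

end Pool.Agent.Work.MP_0da4e0_ag
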