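import Pool.Agent.Work.MP_0da4e0_ag.WeilWt

/-! MP_0da4e0_ag: integrality of the weights of the Hodge cocharacters. -/

open Matrix

namespace Pool.Agent.Work.MP_0da4e0_ag

variable {ι : Type} [Fintype ι] [DecidableEq ι]

/-- the trace of a product of a diagonalizable matrix with small integral eigenvalues and a
commuting idempotent -/
theorem trace_int (F p : Matrix ι ι ℂ) (U : GL ι ℂ) (lam : ι → ℤ) (H : ℕ) (hlam : ∀ i, |lam i| ≤ H)
    (hF : F * (U : Matrix ι ι ℂ) = (U : Matrix ι ι ℂ) * Matrix.diagonal (fun i => (lam i : ℂ)))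
    (hp : p * p = p) (hc : F * p = p * F) :
    ∃ m : ℤ, Matrix.trace (F * p) = m ∧ |m| ≤ Fintype.card ι * H := by
  classical
  set V : Matrix ι ι ℂ := ((U⁻¹ : GL ι ℂ) : Matrix ι ι ℂ) with hV
  have hUV : (U : Matrix ι ι ℂ) * V = 1 := by
    rw [hV, ← Units.val_mul, mul_inv_cancel, Units.val_one]
  have hVU : V * (U : Matrix ι ι ℂ) = 1 := by
    rw [hV, ← Units.val_mul, inv_mul_cancel, Units.val_one]
  set L : Matrix ι ι ℂ := Matrix.diagonal (fun i => (lam i : ℂ)) with hL
  set p' : Matrix ι ι ℂ := V * p * (U : Matrix ι ι ℂ) with hp'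
  have hF' : F = (U : Matrix ι ι ℂ) * L * V := by
    rw [← hF, Matrix.mul_assoc, hUV, Matrix.mul_one]
  have hLV : L = V * F * (U : Matrix ι ι ℂ) := by
    rw [Matrix.mul_assoc, hF, ← Matrix.mul_assoc, hVU, Matrix.one_mul]
  have hp'2 : p' * p' = p' := by
    rw [hp']
    calc V * p * (U : Matrix ι ι ℂ) * (V * p * (U : Matrix ι ι ℂ))
        = V * p * ((U : Matrix ι ι ℂ) * V) * p * (U : Matrix ι ι ℂ) := by simp only [Matrix.mul_assoc]
      _ = V * (p * p) * (U : Matrix ι ι ℂ) := by rw [hUV, Matrix.mul_one]; simp only [Matrix.mul_assoc]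
      _ = _ := by rw [hp]
  have hcomm : L * p' = p' * L := by
    rw [hLV, hp']
    calc V * F * (U : Matrix ι ι ℂ) * (V * p * (U : Matrix ι ι ℂ))
        = V * F * ((U : Matrix ι ι ℂ) * V) * p * (U : Matrix ι ι ℂ) := by simp only [Matrix.mul_assoc]
      _ = V * (F * p) * (U : Matrix ι ι ℂ) := by rw [hUV, Matrix.mul_one]; simp only [Matrix.mul_assoc]
      _ = V * p * ((U : Matrix ι ι ℂ) * V) * F * (U : Matrix ι ι ℂ) := by
          rw [hUV, Matrix.mul_one, hc]; simp only [Matrix.mul_assoc]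
      _ = _ := by simp only [Matrix.mul_assoc]
  have hoff : ∀ i j, lam i ≠ lam j → p' i j = 0 := by
    intro i j hij
    have h1 := congrFun (congrFun hcomm i) j
    rw [hL, Matrix.diagonal_mul, Matrix.mul_diagonal] at h1
    have h2 : ((lam i : ℂ) - (lam j : ℂ)) * p' i j = 0 := by
      rw [sub_mul, h1]; ring
    refine (mul_eq_zero.1 h2).resolve_left ?_
    rw [sub_eq_zero]
    exact_mod_cast hij
  -- the blocks
  let P : ℤ → Matrix ι ι ℂ := fun a => Matrix.diagonal (fun i => if lam i = a then (1 : ℂ) else 0) * p'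
  have hPc : ∀ a, Matrix.diagonal (fun i => if lam i = a then (1 : ℂ) else 0) * p' =
      p' * Matrix.diagonal (fun i => if lam i = a then (1 : ℂ) else 0) := by
    intro a
    ext i j
    rw [Matrix.diagonal_mul, Matrix.mul_diagonal]
    by_cases hij : lam i = lam j
    · rw [hij]; ring
    · rw [hoff i j hij]; ring
  have hPidem : ∀ a, P a * P a = P a := by
    intro a
    change Matrix.diagonal (fun i => if lam i = a then (1 : ℂ) else 0) * p' *
      (Matrix.diagonal (fun i => if lam i = a then (1 : ℂ) else 0) * p') =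
      Matrix.diagonal (fun i => if lam i = a then (1 : ℂ) else 0) * p'
    calc Matrix.diagonal (fun i => if lam i = a then (1 : ℂ) else 0) * p' *
          (Matrix.diagonal (fun i => if lam i = a then (1 : ℂ) else 0) * p')
        = Matrix.diagonal (fun i => if lam i = a then (1 : ℂ) else 0) *
          (p' * Matrix.diagonal (fun i => if lam i = a then (1 : ℂ) else 0)) * p' := by
          simp only [Matrix.mul_assoc]
      _ = (Matrix.diagonal (fun i => if lam i = a then (1 : ℂ) else 0) *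
          Matrix.diagonal (fun i => if lam i = a then (1 : ℂ) else 0)) * (p' * p') := by
          rw [← hPc]; simp only [Matrix.mul_assoc]
      _ = _ := by
          rw [hp'2, Matrix.diagonal_mul_diagonal]
          congr 2
          funext i
          split_ifs <;> simp
  choose m hm hmle using fun a => trace_idem (P a) (hPidem a)
  have hmem : ∀ i, lam i ∈ Finset.Icc (-(H : ℤ)) H := fun i => Finset.mem_Icc.2 (abs_le.1 (hlam i))
  have htrP : ∀ a, Matrix.trace (P a) = ∑ i, if lam i = a then p' i i else 0 := by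
    intro a
    rw [Matrix.trace]
    apply Finset.sum_congr rfl
    intro i _
    change (Matrix.diagonal (fun i => if lam i = a then (1 : ℂ) else 0) * p') i i = _
    rw [Matrix.diagonal_mul]
    split_ifs <;> simp
  obtain ⟨M, hM, hMle⟩ := trace_idem p' hp'2
  have hsum : ∑ a ∈ Finset.Icc (-(H : ℤ)) H, (m a : ℂ) = M := by
    rw [← hM, Matrix.trace]
    simp only [← hm, htrP]
    rw [Finset.sum_comm]
    apply Finset.sum_congr rfl
    intro i _
    rw [Finset.sum_ite_eq, if_pos (hmem i), Matrix.diag_apply]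
  have hsum' : ∑ a ∈ Finset.Icc (-(H : ℤ)) H, m a = M := by exact_mod_cast hsum
  have htr : Matrix.trace (F * p) = ∑ a ∈ Finset.Icc (-(H : ℤ)) H, (a : ℂ) * (m a : ℂ) := by
    have h1 : Matrix.trace (F * p) = Matrix.trace (L * p') := by
      rw [hF', hp']
      calc Matrix.trace ((U : Matrix ι ι ℂ) * L * V * p) = Matrix.trace ((U : Matrix ι ι ℂ) * (L * V * p)) := by
            simp only [Matrix.mul_assoc]
        _ = Matrix.trace ((L * V * p) * (U : Matrix ι ι ℂ)) := by rw [Matrix.trace_mul_comm]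
        _ = _ := by simp only [Matrix.mul_assoc]
    rw [h1, Matrix.trace]
    simp only [← hm, htrP, Finset.mul_sum]
    rw [Finset.sum_comm]
    apply Finset.sum_congr rfl
    intro i _
    rw [Matrix.diag_apply, hL, Matrix.diagonal_mul]
    simp only [mul_ite, mul_zero]
    rw [Finset.sum_ite_eq, if_pos (hmem i)]
  refine ⟨∑ a ∈ Finset.Icc (-(H : ℤ)) H, a * m a, ?_, ?_⟩
  · rw [htr]
    push_cast
    rfl
  · calc |∑ a ∈ Finset.Icc (-(H : ℤ)) H, a * (m a : ℤ)| ≤ ∑ a ∈ Finset.Icc (-(H : ℤ)) H, |a * (m a : ℤ)| :=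
          Finset.abs_sum_le_sum_abs _ _
      _ ≤ ∑ a ∈ Finset.Icc (-(H : ℤ)) H, (H : ℤ) * (m a : ℤ) := by
          apply Finset.sum_le_sum
          intro a ha
          rw [abs_mul, Nat.abs_cast]
          exact mul_le_mul_of_nonneg_right (abs_le.2 (Finset.mem_Icc.1 ha)) (Nat.cast_nonneg _)
      _ = (H : ℤ) * (M : ℤ) := by
          rw [← Finset.mul_sum, ← hsum']
          push_cast
          rfl
      _ ≤ (H : ℤ) * (Fintype.card ι : ℤ) := by
          apply mul_le_mul_of_nonneg_left _ (Nat.cast_nonneg _)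
          exact_mod_cast hMle
      _ = _ := mul_comm _ _

/-- the Hodge structure has a basis of homogeneous vectors -/
theorem exists_hodge_basis (h : HodgeStr ι) : ∃ (U : GL ι ℂ) (P Q : ι → ℤ),
    ∀ j, (fun i => (U : Matrix ι ι ℂ) i j) ∈ h.V (P j, Q j) := by
  have hspan : Submodule.span ℂ {v : ι → ℂ | ∃ p q, v ∈ h.V (p, q)} = ⊤ := by
    rw [eq_top_iff]
    intro v _
    refine h.induct (P := fun v => v ∈ Submodule.span ℂ {v : ι → ℂ | ∃ p q, v ∈ h.V (p, q)}) ?_ ?_ ?_ v
    · exact Submodule.zero_mem _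
    · intro v w hv hw; exact Submodule.add_mem _ hv hw
    · intro p q v hv; exact Submodule.subset_span ⟨p, q, hv⟩
  obtain ⟨U, hU⟩ := exists_cols _ hspan
  choose P Q hPQ using hU
  exact ⟨U, P, Q, hPQ⟩

/-- integrality of the traces of the generators of the Hodge torus on idempotents -/
theorem gen_trace_int {h : HodgeStr ι} {H : ℕ} (hH : ∀ p q : ℤ, h.V (p, q) ≠ ⊥ → |p| ≤ H)
    {F : Matrix ι ι ℂ} {α β : ℤ} (hαβ : (α = 1 ∧ β = 0) ∨ (α = 0 ∧ β = 1))
    (hF : ∀ p q v, v ∈ h.V (p, q) → F *ᵥ v = ((α * p + β * q : ℤ) : ℂ) • v)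
    (p : Matrix ι ι ℂ) (hp : p * p = p) (hc : F * p = p * F) :
    ∃ m : ℤ, Matrix.trace (F * p) = m ∧ |m| ≤ Fintype.card ι * H := by
  have hH' : ∀ p q : ℤ, h.V (p, q) ≠ ⊥ → |q| ≤ H := by
    intro p q hne
    apply hH q p
    intro hbot
    apply hne
    rw [Submodule.eq_bot_iff]
    intro v hv
    have h1 := h.conj_mem p q v hv
    rw [hbot] at h1
    have h2 := (Submodule.mem_bot ℂ).1 h1
    funext i
    have := congrFun h2 i
    simpa using this
  obtain ⟨U, P, Q, hPQ⟩ := exists_hodge_basis h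
  refine trace_int F p U (fun j => α * P j + β * Q j) H ?_ ?_ hp hc
  · intro j
    have hne : h.V (P j, Q j) ≠ ⊥ := by
      intro hbot
      have h1 := hPQ j
      rw [hbot] at h1
      have h2 := (Submodule.mem_bot ℂ).1 h1
      have h3 : (((U⁻¹ : GL ι ℂ) : Matrix ι ι ℂ) * (U : Matrix ι ι ℂ)) j j = 0 := by
        rw [Matrix.mul_apply]
        apply Finset.sum_eq_zero
        intro i _
        have : (U : Matrix ι ι ℂ) i j = 0 := congrFun h2 i
        rw [this, mul_zero]
      rw [← Units.val_mul, inv_mul_cancel, Units.val_one, Matrix.one_apply_eq] at h3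
      exact one_ne_zero h3
    rcases hαβ with ⟨rfl, rfl⟩ | ⟨rfl, rfl⟩
    · simpa using hH _ _ hne
    · simpa using hH' _ _ hne
  · ext i j
    rw [Matrix.mul_diagonal]
    have h1 := congrFun (hF _ _ _ (hPQ j)) i
    rw [Pi.smul_apply, smul_eq_mul, mul_comm] at h1
    rw [← h1]
    rfl

section exp
open NormedSpace
attribute [local instance] Matrix.linftyOpNormedRing Matrix.linftyOpNormedAlgebra

/-- the torus is the exponential of the generators -/
theorem tor_eq_exp {h : HodgeStr ι} {F1 F2 : Matrix ι ι ℂ}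
    (hF1 : ∀ p q v, v ∈ h.V (p, q) → F1 *ᵥ v = ((1 * p + 0 * q : ℤ) : ℂ) • v)
    (hF2 : ∀ p q v, v ∈ h.V (p, q) → F2 *ᵥ v = ((0 * p + 1 * q : ℤ) : ℂ) • v) (z : ℂˣ) :
    ∃ s : ℂ, tor h z 1 = expGL F1 s ∧ tor h 1 z = expGL F2 s := by
  obtain ⟨s, hs⟩ : ∃ s, Complex.exp s = z := ⟨Complex.log z, Complex.exp_log z.ne_zero⟩
  refine ⟨s, ?_, ?_⟩
  · apply Units.ext
    change ((tor h z 1 : GL ι ℂ) : Matrix ι ι ℂ) = exp (s • F1)
    apply mulVec_ext (h := h)
    intro p q v hv
    have h1 : (s • F1) *ᵥ v = (s * p) • v := by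
      rw [Matrix.smul_mulVec, hF1 p q v hv, smul_smul]
      congr 1
      push_cast
      ring
    rw [exp_mulVec_eigen _ _ _ h1, tor_spec h z 1 p q v hv]
    congr 1
    rw [_root_.one_zpow, mul_one, Units.val_zpow_eq_zpow_val, ← hs, ← Complex.exp_int_mul]
    congr 1
    ring
  · apply Units.ext
    change ((tor h 1 z : GL ι ℂ) : Matrix ι ι ℂ) = exp (s • F2)
    apply mulVec_ext (h := h)
    intro p q v hv
    have h1 : (s • F2) *ᵥ v = (s * q) • v := by
      rw [Matrix.smul_mulVec, hF2 p q v hv, smul_smul]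
      congr 1
      push_cast
      ring
    rw [exp_mulVec_eigen _ _ _ h1, tor_spec h 1 z p q v hv]
    congr 1
    rw [_root_.one_zpow, one_mul, Units.val_zpow_eq_zpow_val, ← hs, ← Complex.exp_int_mul]
    congr 1
    ring

end exp

/-- tensors killed by all conjugates of the generators are fixed by the conjugates of the torus -/
theorem mem_fixM {h : HodgeStr ι} {F1 F2 : Matrix ι ι ℂ}
    (hF1 : ∀ p q v, v ∈ h.V (p, q) → F1 *ᵥ v = ((1 * p + 0 * q : ℤ) : ℂ) • v)
    (hF2 : ∀ p q v, v ∈ h.V (p, q) → F2 *ᵥ v = ((0 * p + 1 * q : ℤ) : ℂ) • v)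
    {a b : ℕ} {t : Tens ι a b ℂ}
    (h1 : ∀ θ : ℂ ≃+* ℂ, dact (F1.map (θ : ℂ →+* ℂ)) t = 0)
    (h2 : ∀ θ : ℂ ≃+* ℂ, dact (F2.map (θ : ℂ →+* ℂ)) t = 0) : t ∈ fixM h a b := by
  have key : ∀ (F : Matrix ι ι ℂ) (θ : ℂ ≃+* ℂ), dact (F.map (θ : ℂ →+* ℂ)) t = 0 → ∀ s : ℂ,
      act (GeneralLinearGroup.map (θ : ℂ →+* ℂ) (expGL F s)) t = t := by
    intro F θ hF s
    set t' : Tens ι a b ℂ := fun e => θ.symm (t e) with ht'
    have e1 : (fun e => (θ : ℂ →+* ℂ) (t' e)) = t := by
      funext e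
      simp [ht']
    have e2 : dact F t' = 0 := by
      have h3 := map_dact (θ : ℂ →+* ℂ) F t'
      rw [e1, hF] at h3
      funext e
      have h4 := congrFun h3 e
      simpa using h4
    have e3 := act_expGL_of_dact e2 s
    have e4 := map_act (θ : ℂ →+* ℂ) (expGL F s) t'
    rw [e3, e1] at e4
    exact e4.symm
  rintro ⟨θ, b⟩ z
  obtain ⟨z', rfl⟩ : ∃ z', z = Units.map (θ : ℂ →* ℂ) z' := ⟨Units.map (θ.symm : ℂ →* ℂ) z, by
    apply Units.ext; simp⟩
  obtain ⟨s, hs1, hs2⟩ := tor_eq_exp hF1 hF2 z'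
  cases b
  · rw [muG_false, hs2]
    exact key F2 θ (h2 θ) s
  · rw [muG_true, hs1]
    exact key F1 θ (h1 θ) s

end Pool.Agent.Work.MP_0da4e0_ag
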