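import Pool.Agent.Work.MP_0da4e0_ag.WeilDefs
import Pool.Agent.Work.MP_0da4e0_ag.WeilCen
import Pool.Agent.Work.MP_0da4e0_ag.WeilTens

/-! MP_0da4e0_ag: the invariants of the conjugates of the torus, and linear functionals on the Lie
algebra. -/

open Matrix

namespace Pool.Agent.Work.MP_0da4e0_ag

variable {ι : Type} [Fintype ι] [DecidableEq ι]

/-- the tensors fixed by the conjugates of the torus -/
def fixM (h : HodgeStr ι) (a b : ℕ) : Submodule ℂ (Tens ι a b ℂ) where
  carrier := {t | ∀ j z, act (muG h j z) t = t}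
  add_mem' := by
    intro x y hx hy j z
    rw [act_add, hx, hy]
  zero_mem' := by
    intro j z
    rw [act_eq, Matrix.mulVec_zero]
  smul_mem' := by
    intro c x hx j z
    rw [act_smul, hx]

theorem fixM_killed {h : HodgeStr ι} {a b : ℕ} {t : Tens ι a b ℂ} (ht : t ∈ fixM h a b)
    {X : Matrix ι ι ℂ} (hX : X ∈ mtLieC h) : dact X t = 0 := by
  have hspan := fixed_span t ht
  clear ht
  induction hspan using Submodule.span_induction with
  | mem x hx => obtain ⟨s, hs, rfl⟩ := hx; exact hX a b s hs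
  | zero => rw [dact, Matrix.mulVec_zero]
  | add x y _ _ hx hy => rw [dact, Matrix.mulVec_add]; change dact X x + dact X y = 0; rw [hx, hy, add_zero]
  | smul c x _ hx => rw [dact, Matrix.mulVec_smul]; change c • dact X x = 0; rw [hx, smul_zero]

/-- linear functionals on matrices are given by the trace form -/
theorem exists_trace (f : Matrix ι ι ℂ →ₗ[ℂ] ℂ) : ∃ D : Matrix ι ι ℂ, ∀ X, f X = Matrix.trace (X * D) := by
  refine ⟨Matrix.of fun j i => f (Matrix.single i j 1), fun X => ?_⟩
  conv_lhs => rw [mat_sum_single X, map_sum]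
  rw [Matrix.trace, Fintype.sum_prod_type]
  apply Finset.sum_congr rfl
  intro i _
  rw [Matrix.diag_apply, Matrix.mul_apply]
  apply Finset.sum_congr rfl
  intro j _
  rw [map_smul, smul_eq_mul]
  rfl

/-- a linear functional vanishing on commutators of the Lie algebra and on its central elements
vanishes on the Lie algebra -/
theorem functional_zero {h : HodgeStr ι} {S : Matrix ι ι ℚ} (hS : Polarizes h S)
    (f : Matrix ι ι ℂ →ₗ[ℂ] ℂ)
    (h1 : ∀ A ∈ mtLieC h, ∀ B ∈ mtLieC h, f (A * B - B * A) = 0)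
    (h2 : ∀ Z ∈ mtLieC h, Cen h Z → f Z = 0) (X : Matrix ι ι ℂ) (hX : X ∈ mtLieC h) : f X = 0 := by
  obtain ⟨P, hmem, hfix, horth⟩ := exists_projC hS
  obtain ⟨D, hD⟩ := exists_trace f
  have hC : ∀ A ∈ mtLieC h, f A = Matrix.trace (A * P D) := by
    intro A hA
    have h3 := horth D A hA
    rw [Matrix.mul_sub, Matrix.trace_sub, sub_eq_zero] at h3
    rw [hD, h3]
  have hcomm : ∀ B ∈ mtLieC h, B * P D = P D * B := by
    intro B hB
    have hQ := bracket_mem_mt hB (hmem D)
    have h3 : ∀ A ∈ mtLieC h, Matrix.trace (A * (B * P D - P D * B)) = 0 := by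
      intro A hA
      have h4 := h1 A hA B hB
      rw [hC _ (bracket_mem_mt hA hB)] at h4
      rw [← h4, Matrix.mul_sub, Matrix.trace_sub, Matrix.sub_mul, Matrix.trace_sub]
      congr 1
      · rw [Matrix.mul_assoc]
      · rw [← Matrix.mul_assoc, Matrix.trace_mul_comm, Matrix.mul_assoc]
    have h5 : B * P D - P D * B = 0 := by
      apply trace_dag_ne hS
      rw [Matrix.trace_mul_comm]
      exact h3 _ (dag_mem hS hQ)
    exact sub_eq_zero.1 h5
  have hcen : Cen h (P D) := ⟨hcomm, fun A hA => (mt_commute (hmem D) hA).symm⟩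
  have h6 := h2 _ (dag_mem hS (hmem D)) (hcen.dag hS)
  rw [hC _ (dag_mem hS (hmem D)), Matrix.trace_mul_comm] at h6
  have h7 := trace_dag_ne hS h6
  rw [hC X hX, h7, Matrix.mul_zero, Matrix.trace_zero]

section exp
open NormedSpace
attribute [local instance] Matrix.linftyOpNormedRing Matrix.linftyOpNormedAlgebra

/-- a rational tensor killed by the rational Lie algebra is a Hodge tensor -/
theorem isHodge_of_lie {h : HodgeStr ι} {a b : ℕ} {u : Tens ι a b ℚ} (hu : ∀ X ∈ mtLie h, dact X u = 0) :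
    IsHodge h u := by
  have hC : ∀ X ∈ mtLieC h, dact X (ratT ℂ u) = 0 := by
    intro X hX
    have hspan := mtLieC_span hX
    clear hX
    induction hspan using Submodule.span_induction with
    | mem x hx => obtain ⟨X', hX', rfl⟩ := hx; rw [dact_ratT, hu X' hX', ratT_zero]
    | zero => exact dact_zero _
    | add x y _ _ hx hy => rw [dact_add, hx, hy, add_zero]
    | smul c x _ hx => rw [dact_smul, hx, smul_zero]
  intro z w g hg
  obtain ⟨F1, hF1, hF1'⟩ := exists_gen h 1 0
  obtain ⟨F2, hF2, hF2'⟩ := exists_gen h 0 1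
  obtain ⟨α, hα⟩ : ∃ α, Complex.exp α = z := ⟨Complex.log z, Complex.exp_log z.ne_zero⟩
  obtain ⟨β, hβ⟩ : ∃ β, Complex.exp β = w := ⟨Complex.log w, Complex.exp_log w.ne_zero⟩
  have hgexp : g = expGL (α • F1 + β • F2) 1 := by
    apply Units.ext
    change (g : Matrix ι ι ℂ) = exp ((1 : ℂ) • (α • F1 + β • F2))
    rw [one_smul]
    apply mulVec_ext (h := h)
    intro p q v hv
    have h1 : (α • F1 + β • F2) *ᵥ v = (α * p + β * q) • v := by
      rw [Matrix.add_mulVec, Matrix.smul_mulVec, Matrix.smul_mulVec, hF1' p q v hv, hF2' p q v hv,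
        smul_smul, smul_smul, ← add_smul]
      congr 1
      push_cast
      ring
    rw [exp_mulVec_eigen _ _ _ h1, hg p q v hv]
    congr 1
    rw [Units.val_mul, Units.val_zpow_eq_zpow_val, Units.val_zpow_eq_zpow_val, ← hα, ← hβ,
      ← Complex.exp_int_mul, ← Complex.exp_int_mul, ← Complex.exp_add]
    congr 1
    ring
  rw [hgexp]
  apply act_expGL_of_dact
  rw [dact_add, dact_smul, dact_smul, hC F1 hF1, hC F2 hF2, smul_zero, smul_zero, add_zero]

end exp

end Pool.Agent.Work.MP_0da4e0_ag
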