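import Pool.Agent.Work.MP_0da4e0_ag.EffMain
import Pool.Agent.Work.MP_0da4e0_ag.MtProj

/-! MP_0da4e0_ag: the Lie algebra killing all Hodge tensors is closed under the adjoint for the
polarization. -/

open Matrix

namespace Pool.Agent.Work.MP_0da4e0_ag

variable {ι : Type} [Fintype ι] [DecidableEq ι]

section exp
open NormedSpace
attribute [local instance] Matrix.linftyOpNormedRing Matrix.linftyOpNormedAlgebra

theorem expGL_add (X : Matrix ι ι ℂ) (s t : ℂ) : expGL X (s + t) = expGL X s * expGL X t := by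
  apply Units.ext
  simp only [expGL, Units.val_mul]
  rw [← Matrix.exp_add_of_commute _ _ (((Commute.refl X).smul_left s).smul_right t), add_smul]

theorem expGL_conjTranspose (X B : Matrix ι ι ℂ) (hB : IsUnit B) (s : ℂ) :
    B * (expGL (B⁻¹ * Xᴴ * B) s : Matrix ι ι ℂ) =
      ((expGL X (starRingEnd ℂ s) : Matrix ι ι ℂ))ᴴ * B := by
  have hBu := (Matrix.isUnit_iff_isUnit_det _).1 hB
  have h1 : ((expGL X (starRingEnd ℂ s) : Matrix ι ι ℂ))ᴴ = exp (s • Xᴴ) := by
    change (exp ((starRingEnd ℂ s) • X))ᴴ = _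
    rw [← Matrix.exp_conjTranspose, Matrix.conjTranspose_smul]
    simp
  have h2 : (expGL (B⁻¹ * Xᴴ * B) s : Matrix ι ι ℂ) = B⁻¹ * exp (s • Xᴴ) * B := by
    change exp (s • (B⁻¹ * Xᴴ * B)) = _
    have := Matrix.exp_conj' B (s • Xᴴ) hB
    rw [← this]
    congr 1
    simp
  rw [h1, h2]
  simp only [← Matrix.mul_assoc]
  rw [Matrix.mul_nonsing_inv _ hBu, Matrix.one_mul]

end exp

/-- derivative of the action of a one-parameter group at any point -/
theorem hasDerivAt_act_exp' {m n : ℕ} (X : Matrix ι ι ℂ) (t : Tens ι m n ℂ) (e : (Fin m → ι) × (Fin n → ι))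
    (s : ℂ) : HasDerivAt (fun s => act (expGL X s) t e) (act (expGL X s) (dact X t) e) s := by
  have h1 : HasDerivAt (fun r => act (expGL X s) (act (expGL X r) t) e)
      (act (expGL X s) (dact X t) e) 0 := by
    simp only [act_eq (expGL X s), Matrix.mulVec, dotProduct]
    apply HasDerivAt.fun_sum
    intro f _
    exact (hasDerivAt_act_exp X t f).const_mul _
  have h2 : (fun s' => act (expGL X s') t e) =
      (fun r => act (expGL X s) (act (expGL X r) t) e) ∘ (fun s' => s' - s) := by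
    funext s'
    simp only [Function.comp_apply]
    rw [← act_mul, ← expGL_add, add_sub_cancel]
  rw [h2]
  have h3 : HasDerivAt (fun s' : ℂ => s' - s) 1 s := (hasDerivAt_id s).sub_const s
  have h4 : HasDerivAt (fun r => act (expGL X s) (act (expGL X r) t) e)
      (act (expGL X s) (dact X t) e) (s - s) := by rwa [sub_self]
  have := HasDerivAt.comp (h := fun s' : ℂ => s' - s) s h4 h3
  simpa using this

/-- a tensor killed by X is fixed by the one-parameter group of X -/
theorem act_expGL_of_dact {m n : ℕ} {X : Matrix ι ι ℂ} {t : Tens ι m n ℂ} (h : dact X t = 0) (s : ℂ) :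
    act (expGL X s) t = t := by
  funext e
  have h1 : ∀ s, HasDerivAt (fun s => act (expGL X s) t e) 0 s := by
    intro s
    have := hasDerivAt_act_exp' X t e s
    rw [h] at this
    have h2 : act (expGL X s) (0 : Tens ι m n ℂ) e = 0 := by
      rw [act_eq, Matrix.mulVec_zero]; rfl
    rwa [h2] at this
  have h2 := is_const_of_deriv_eq_zero (f := fun s => act (expGL X s) t e)
    (fun s => (h1 s).differentiableAt) (fun s => (h1 s).deriv) s 0
  rw [h2, expGL_zero, act_one]

theorem dact_of_act_expGL {m n : ℕ} {X : Matrix ι ι ℂ} {t : Tens ι m n ℂ}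
    (h : ∀ s, act (expGL X s) t = t) : dact X t = 0 := by
  funext e
  have h1 := hasDerivAt_act_exp X t e
  simp only [h] at h1
  exact h1.unique (hasDerivAt_const _ _)

/-- the hermitian form of the polarization -/
noncomputable def hform (h : HodgeStr ι) (S : Matrix ι ι ℚ) : Matrix ι ι ℂ :=
  cx S * (((tor h unitI unitI⁻¹)⁻¹ : GL ι ℂ) : Matrix ι ι ℂ)

section
open scoped ComplexOrder MatrixOrder

theorem hform_posDef {h : HodgeStr ι} {S : Matrix ι ι ℚ} (hS : Polarizes h S) : (hform h S).PosDef :=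
  weil_posDef' hS (tor_spec h unitI unitI⁻¹)

/-- the adjoint for the hermitian form of the polarization -/
noncomputable def dag (h : HodgeStr ι) (S : Matrix ι ι ℚ) (X : Matrix ι ι ℂ) : Matrix ι ι ℂ :=
  (hform h S)⁻¹ * Xᴴ * hform h S

theorem hform_dag {h : HodgeStr ι} {S : Matrix ι ι ℚ} (hS : Polarizes h S) (X : Matrix ι ι ℂ) :
    hform h S * dag h S X = Xᴴ * hform h S := by
  have hu := (Matrix.isUnit_iff_isUnit_det _).1 (hform_posDef hS).isUnit
  rw [dag, ← Matrix.mul_assoc, ← Matrix.mul_assoc, Matrix.mul_nonsing_inv _ hu, Matrix.one_mul]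

theorem dag_mul {h : HodgeStr ι} {S : Matrix ι ι ℚ} (hS : Polarizes h S) (X Y : Matrix ι ι ℂ) :
    dag h S (X * Y) = dag h S Y * dag h S X := by
  have hu := (Matrix.isUnit_iff_isUnit_det _).1 (hform_posDef hS).isUnit
  simp only [dag, Matrix.conjTranspose_mul]
  calc (hform h S)⁻¹ * (Yᴴ * Xᴴ) * hform h S
      = (hform h S)⁻¹ * Yᴴ * (hform h S * (hform h S)⁻¹) * Xᴴ * hform h S := by
        rw [Matrix.mul_nonsing_inv _ hu, Matrix.mul_one]
        simp only [Matrix.mul_assoc]
    _ = _ := by simp only [Matrix.mul_assoc]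

theorem dag_dag {h : HodgeStr ι} {S : Matrix ι ι ℚ} (hS : Polarizes h S) (X : Matrix ι ι ℂ) :
    dag h S (dag h S X) = X := by
  have hu := (Matrix.isUnit_iff_isUnit_det _).1 (hform_posDef hS).isUnit
  have hH : (hform h S)ᴴ = hform h S := (hform_posDef hS).isHermitian
  have h1 : (hform h S)⁻¹ * hform h S = 1 := Matrix.nonsing_inv_mul _ hu
  have h2 : ((hform h S)⁻¹)ᴴ = (hform h S)⁻¹ := by
    rw [Matrix.conjTranspose_nonsing_inv, hH]
  simp only [dag, Matrix.conjTranspose_mul, Matrix.conjTranspose_conjTranspose, hH, h2]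
  calc (hform h S)⁻¹ * (hform h S * (X * (hform h S)⁻¹)) * hform h S
      = ((hform h S)⁻¹ * hform h S) * X * ((hform h S)⁻¹ * hform h S) := by
        simp only [Matrix.mul_assoc]
    _ = X := by rw [h1, Matrix.one_mul, Matrix.mul_one]

/-- positivity of the trace form -/
theorem trace_dag_ne {h : HodgeStr ι} {S : Matrix ι ι ℚ} (hS : Polarizes h S) {X : Matrix ι ι ℂ}
    (hX : Matrix.trace (X * dag h S X) = 0) : X = 0 := by
  obtain ⟨B, hB⟩ := CStarAlgebra.nonneg_iff_eq_star_mul_self.mp (hform_posDef hS).posSemidef.nonneg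
  rw [Matrix.star_eq_conjTranspose] at hB
  have hBu : IsUnit B.det := by
    have h1 := (Matrix.isUnit_iff_isUnit_det _).1 (hform_posDef hS).isUnit
    rw [hB, Matrix.det_mul] at h1
    exact isUnit_of_mul_isUnit_right h1
  have hBi : B * B⁻¹ = 1 := Matrix.mul_nonsing_inv _ hBu
  have hiB : B⁻¹ * B = 1 := Matrix.nonsing_inv_mul _ hBu
  have hu := (Matrix.isUnit_iff_isUnit_det _).1 (hform_posDef hS).isUnit
  have hinv : (hform h S)⁻¹ = B⁻¹ * (B⁻¹)ᴴ := by
    apply Matrix.inv_eq_left_inv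
    rw [hB]
    have e1 : (B⁻¹)ᴴ * Bᴴ = 1 := by rw [← Matrix.conjTranspose_mul, hBi, Matrix.conjTranspose_one]
    calc (B⁻¹ * (B⁻¹)ᴴ) * (Bᴴ * B) = B⁻¹ * ((B⁻¹)ᴴ * Bᴴ) * B := by simp only [Matrix.mul_assoc]
      _ = 1 := by rw [e1, Matrix.mul_one, hiB]
  set N : Matrix ι ι ℂ := B * X * B⁻¹ with hN
  have key : Matrix.trace (X * dag h S X) = Matrix.trace (N * Nᴴ) := by
    rw [dag, hinv, hB, hN, Matrix.conjTranspose_mul, Matrix.conjTranspose_mul]
    calc Matrix.trace (X * (B⁻¹ * (B⁻¹)ᴴ * Xᴴ * (Bᴴ * B)))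
        = Matrix.trace ((X * (B⁻¹ * (B⁻¹)ᴴ * Xᴴ * Bᴴ)) * B) := by simp only [Matrix.mul_assoc]
      _ = Matrix.trace (B * (X * (B⁻¹ * (B⁻¹)ᴴ * Xᴴ * Bᴴ))) := by rw [Matrix.trace_mul_comm]
      _ = _ := by simp only [Matrix.mul_assoc]
  rw [key] at hX
  have hN0 : N = 0 := Matrix.trace_mul_conjTranspose_self_eq_zero_iff.1 hX
  calc X = B⁻¹ * N * B := by
        rw [hN]
        calc X = (B⁻¹ * B) * X * (B⁻¹ * B) := by rw [hiB, Matrix.one_mul, Matrix.mul_one]
          _ = _ := by simp only [Matrix.mul_assoc]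
    _ = 0 := by rw [hN0, Matrix.mul_zero, Matrix.zero_mul]

/-- The Lie algebra killing all Hodge tensors is closed under adjoints. -/
theorem dag_mem {h : HodgeStr ι} {S : Matrix ι ι ℚ} (hS : Polarizes h S) {X : Matrix ι ι ℂ}
    (hX : X ∈ mtLieC h) : dag h S X ∈ mtLieC h := by
  intro a b t ht
  apply dact_of_act_expGL
  intro s
  set B := hform h S with hBdef
  have hBpos := hform_posDef hS
  rw [← hBdef] at hBpos
  set N := max a b with hN
  set g := expGL X (starRingEnd ℂ s) with hg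
  set g' := expGL (dag h S X) s with hg'
  have hgg' : B * (g' : Matrix ι ι ℂ) = (g : Matrix ι ι ℂ)ᴴ * B :=
    expGL_conjTranspose X B hBpos.isUnit s
  have hspan := rho_mem_span hS N g (fun a' b' _ _ u hu => act_expGL_of_dact (hX a' b' u hu) _)
  have hspan' : rho N (g' : Matrix ι ι ℂ) ∈ Submodule.span ℂ (((MTm h).map (rho N) : Submonoid _) : Set (Matrix (Idx ι N) (Idx ι N) ℂ)) := by
    have hRu : IsUnit (rho N B) := hBpos.isUnit.map (rho N)
    have hRd := (Matrix.isUnit_iff_isUnit_det _).1 hRu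
    have hRi : (rho N B)⁻¹ * rho N B = 1 := Matrix.nonsing_inv_mul _ hRd
    have h1 : rho N (g' : Matrix ι ι ℂ) = (rho N B)⁻¹ * ((rho N (g : Matrix ι ι ℂ))ᴴ * rho N B) := by
      rw [← rho_star, ← map_mul, ← hgg', map_mul, ← Matrix.mul_assoc, hRi, Matrix.one_mul]
    rw [h1]
    generalize rho N (g : Matrix ι ι ℂ) = y at hspan
    induction hspan using Submodule.span_induction with
    | mem x hx =>
      obtain ⟨a, ha, rfl⟩ := hx
      obtain ⟨a', ha', h2⟩ := star_closed hS a ha
      have h3 : (rho N a)ᴴ * rho N B = rho N B * rho N a' := by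
        rw [← rho_star, ← map_mul, ← map_mul]
        congr 1
        exact h2.symm
      rw [h3, ← Matrix.mul_assoc, hRi, Matrix.one_mul]
      exact Submodule.subset_span ⟨a', ha', rfl⟩
    | zero =>
      rw [Matrix.conjTranspose_zero, Matrix.zero_mul, Matrix.mul_zero]
      exact Submodule.zero_mem _
    | add x y _ _ hx hy =>
      rw [Matrix.conjTranspose_add, Matrix.add_mul, Matrix.mul_add]
      exact Submodule.add_mem _ hx hy
    | smul c x _ hx =>
      rw [Matrix.conjTranspose_smul, Matrix.smul_mul, Matrix.mul_smul]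
      exact Submodule.smul_mem _ _ hx
  -- a linear condition
  let fa : Fin (N + 1) := ⟨a, by omega⟩
  let fb : Fin (N + 1) := ⟨b, by omega⟩
  let L : Matrix (Idx ι N) (Idx ι N) ℂ →ₗ[ℂ] Matrix (Fin a → ι) (Fin b → ι) ℂ :=
    { toFun := fun y => (Matrix.of fun e f => y ⟨fa, e⟩ ⟨fa, f⟩) * toMat (ratT ℂ t) -
        toMat (ratT ℂ t) * (Matrix.of fun e f => y ⟨fb, e⟩ ⟨fb, f⟩)
      map_add' := by
        intro x y
        ext e f
        simp only [Matrix.sub_apply, Matrix.add_apply, Matrix.mul_apply, Matrix.of_apply, add_mul, mul_add,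
          Finset.sum_add_distrib]
        ring
      map_smul' := by
        intro c x
        ext e f
        simp only [Matrix.sub_apply, Matrix.mul_apply, Matrix.of_apply, Matrix.smul_apply, smul_eq_mul,
          RingHom.id_apply, mul_sub, Finset.mul_sum]
        congr 1
        · exact Finset.sum_congr rfl (fun _ _ => by ring)
        · exact Finset.sum_congr rfl (fun _ _ => by ring) }
  have hL : ∀ x : Matrix ι ι ℂ, L (rho N x) = tpow a x * toMat (ratT ℂ t) - toMat (ratT ℂ t) * tpow b x := by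
    intro x
    have h1 : (Matrix.of fun e f => rho N x ⟨fa, e⟩ ⟨fa, f⟩ : Matrix (Fin a → ι) (Fin a → ι) ℂ) = tpow a x := by
      ext e f
      exact rho_apply_eq x fa e f
    have h2 : (Matrix.of fun e f => rho N x ⟨fb, e⟩ ⟨fb, f⟩ : Matrix (Fin b → ι) (Fin b → ι) ℂ) = tpow b x := by
      ext e f
      exact rho_apply_eq x fb e f
    change (Matrix.of fun e f => rho N x ⟨fa, e⟩ ⟨fa, f⟩) * toMat (ratT ℂ t) -
        toMat (ratT ℂ t) * (Matrix.of fun e f => rho N x ⟨fb, e⟩ ⟨fb, f⟩) = _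
    rw [h1, h2]
  have hle : Submodule.span ℂ (((MTm h).map (rho N) : Submonoid _) : Set (Matrix (Idx ι N) (Idx ι N) ℂ)) ≤
      LinearMap.ker L := by
    rw [Submodule.span_le]
    rintro _ ⟨x, hx, rfl⟩
    change L (rho N x) = 0
    rw [hL, fixed_monoid (fun j z => hodge_fixed ht j z) x hx, sub_self]
  have h5 : L (rho N (g' : Matrix ι ι ℂ)) = 0 := hle hspan'
  rw [hL, sub_eq_zero] at h5
  exact (act_eq_iff g' _).2 h5

end

end Pool.Agent.Work.MP_0da4e0_ag
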