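import Pool.Agent.Work.MP_0da4e0_ag.WeilMain

/-! MP_0da4e0_ag: the criterion relative to a family of Hodge tensors. -/

open Matrix

namespace Pool.Agent.Work.MP_0da4e0_ag

variable {ι : Type} [Fintype ι] [DecidableEq ι]

/-- A matrix in the center of the algebra of Hodge endomorphisms kills the projector. -/
theorem central_kills_proj {h : HodgeStr ι} {π : Tens ι 2 2 ℚ} (hπ : IsLieProj h π) {S : Matrix ι ι ℚ}
    (hS : Polarizes h S) {Z : Matrix ι ι ℚ} (hZ : IsHodge h (matT Z)) : dact Z π = 0 := by
  have h0 : dact (cx Z) (ratT ℂ π) = 0 := by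
    apply endL_injective
    apply LinearMap.ext
    intro A
    have h1 : endL (0 : Tens ι 2 2 ℂ) A = 0 := by
      ext i j
      simp [endL_apply]
    rw [endL_dact, h1, ← mt_commute (hπ.mem A) hZ, sub_self, zero_sub, neg_eq_zero]
    apply hπ.uniq hS _ _ (Submodule.zero_mem _)
    intro X hX
    rw [sub_zero, Matrix.mul_sub, Matrix.trace_sub]
    have h2 : Matrix.trace (X * (cx Z * A)) = Matrix.trace (X * (A * cx Z)) := by
      rw [← Matrix.mul_assoc, mt_commute hX hZ, Matrix.mul_assoc, Matrix.trace_mul_comm, Matrix.mul_assoc]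
    rw [h2, sub_self]
  rw [dact_ratT] at h0
  exact ratT_injective (R := ℂ) (by rw [h0, ratT_zero])

variable {k : Type} [Field k]

/-- The criterion relative to a family of Hodge tensors: all Hodge tensors killed by the central Hodge
endomorphisms which kill the family are absolutely Hodge up to finite ambiguity if and only if the
projector onto the Lie algebra, the Hodge endomorphisms and the members of the family are. -/
theorem one_class [IsAlgClosed k] (X : RealSys k ι) (σ : k →+* ℂ) (S : Matrix ι ι ℚ)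
    (hS : Polarizes (X.hodge σ) S) {π : Tens ι 2 2 ℚ} (hπ : IsLieProj (X.hodge σ) π)
    {I : Type} {m n : I → ℕ} (T : ∀ i, Tens ι (m i) (n i) ℚ) (hT : ∀ i, IsHodge (X.hodge σ) (T i)) :
    (∃ N₀, ∀ (a b : ℕ) (x : Tens ι a b ℚ), IsHodge (X.hodge σ) x →
      (∀ Z : Matrix ι ι ℚ, IsHodge (X.hodge σ) (matT Z) →
        (∀ A : Matrix ι ι ℚ, IsHodge (X.hodge σ) (matT A) → Z * A = A * Z) →
        (∀ i, dact Z (T i) = 0) → dact Z x = 0) → IsFinAH X σ N₀ x) ↔
      (∃ N₀, IsFinAH X σ N₀ π) ∧
      (∀ A : Matrix ι ι ℚ, IsHodge (X.hodge σ) (matT A) → ∃ N₀, IsFinAH X σ N₀ (matT A)) ∧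
      ∀ i, ∃ N₀, IsFinAH X σ N₀ (T i) := by
  constructor
  · rintro ⟨N₀, h⟩
    refine ⟨⟨N₀, h 2 2 π (hπ.isHodge hS) (fun Z hZ _ _ => central_kills_proj hπ hS hZ)⟩, ?_, ?_⟩
    · intro A hA
      refine ⟨N₀, h 1 1 (matT A) hA ?_⟩
      intro Z hZ hZc _
      have h0 : dact (cx Z) (ratT ℂ (matT A)) = 0 := by
        rw [ratT_matT, dact_matT, ← cx_mul, ← cx_mul, hZc A hA, sub_self]
        rfl
      rw [dact_ratT] at h0
      exact ratT_injective (R := ℂ) (by rw [h0, ratT_zero])
    · intro i
      exact ⟨N₀, h _ _ (T i) (hT i) (fun Z _ _ hZT => hZT i)⟩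
  · rintro ⟨⟨N₁, h1⟩, h2, h3⟩
    let J := Σ d : ℕ × ℕ, AHTensor X d.1 d.2
    let T' : ∀ i : J, AHTensor X i.1.1 i.1.2 := fun i => i.2
    obtain ⟨N₀, hN₀⟩ := exists_orb_bound T' σ
    refine ⟨N₀, fun a b x hx hxZ => ?_⟩
    have hfin : (orbC T' σ x).Finite := by
      apply orbC_finite
      intro g hg e
      refine alg_of_lie (fun i : J => (T' i).betti σ) x ?_ g hg e
      intro Y hY
      have hY' : ∀ (m n : ℕ) (s : AHTensor X m n), dact Y (ratT ℂ (s.betti σ)) = 0 :=
        fun m n s => hY ⟨(m, n), s⟩
      obtain ⟨Y1, hY1, hcen⟩ := splitProj hS hπ Y (finAH_killed h1 Y hY') (fun A hA => by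
        obtain ⟨N₂, h4⟩ := h2 A hA
        exact finAH_killed h4 Y hY')
      set Y2 := Y - Y1 with hY2
      have hY2T : ∀ i, dact Y2 (ratT ℂ (T i)) = 0 := by
        intro i
        obtain ⟨N₂, h4⟩ := h3 i
        rw [hY2, dact_sub, finAH_killed h4 Y hY', hY1 _ _ (T i) (hT i), sub_zero]
      -- the central part is a combination of rational central matrices killing the family
      have hspan : Y2 ∈ Submodule.span ℂ {Z | ∃ Z' : Matrix ι ι ℚ,
          ((∀ X' ∈ mtLie (X.hodge σ), X' * Z' = Z' * X') ∧
            (∀ A : Matrix ι ι ℚ, IsHodge (X.hodge σ) (matT A) → A * Z' = Z' * A) ∧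
            ∀ i, dact Z' (T i) = 0) ∧ Z = cx Z'} := by
        let M := ({A : Matrix ι ι ℚ // A ∈ mtLie (X.hodge σ) ∨ IsHodge (X.hodge σ) (matT A)} × (ι × ι)) ⊕
          (Σ i : I, (Fin (m i) → ι) × (Fin (n i) → ι))
        let L : M → (Matrix ι ι ℚ →ₗ[ℚ] ℚ) := Sum.elim
          (fun r =>
            { toFun := fun Z => (r.1.1 * Z - Z * r.1.1) r.2.1 r.2.2
              map_add' := fun X Y => by simp [Matrix.mul_add, Matrix.add_mul]; ring
              map_smul' := fun c X => by simp; ring })
          (fun r =>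
            { toFun := fun Z => dact Z (T r.1) r.2
              map_add' := fun X Y => by rw [dact_add]; rfl
              map_smul' := fun c X => by rw [dact_smul]; rfl })
        let LC : M → (Matrix ι ι ℂ →ₗ[ℂ] ℂ) := Sum.elim
          (fun r =>
            { toFun := fun Z => (cx r.1.1 * Z - Z * cx r.1.1) r.2.1 r.2.2
              map_add' := fun X Y => by simp [Matrix.mul_add, Matrix.add_mul]; ring
              map_smul' := fun c X => by simp; ring })
          (fun r =>
            { toFun := fun Z => dact Z (ratT ℂ (T r.1)) r.2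
              map_add' := fun X Y => by rw [dact_add]; rfl
              map_smul' := fun c X => by rw [dact_smul]; rfl })
        have h4 := mat_span L LC (fun r Z => by
          rcases r with r | r
          · change (cx r.1.1 * cx Z - cx Z * cx r.1.1) r.2.1 r.2.2 = (((r.1.1 * Z - Z * r.1.1) r.2.1 r.2.2 : ℚ) : ℂ)
            rw [← cx_mul, ← cx_mul]
            simp [cx]
          · change dact (cx Z) (ratT ℂ (T r.1)) r.2 = _
            rw [dact_ratT]; rfl) Y2 (fun r => by
          rcases r with r | r
          · change (cx r.1.1 * Y2 - Y2 * cx r.1.1) r.2.1 r.2.2 = 0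
            have : cx r.1.1 * Y2 = Y2 * cx r.1.1 := by
              rcases r.1.2 with h | h
              · exact hcen.1 _ (cx_mem h)
              · exact hcen.2 _ h
            rw [this, sub_self]
            rfl
          · exact congrFun (hY2T r.1) r.2)
        refine Submodule.span_mono ?_ h4
        rintro _ ⟨Z', hZ', rfl⟩
        refine ⟨Z', ⟨?_, ?_, ?_⟩, rfl⟩
        · intro X' hX'
          rw [← sub_eq_zero]
          ext i j
          exact hZ' (Sum.inl (⟨X', Or.inl hX'⟩, (i, j)))
        · intro X' hX'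
          rw [← sub_eq_zero]
          ext i j
          exact hZ' (Sum.inl (⟨X', Or.inr hX'⟩, (i, j)))
        · intro i
          funext e
          exact hZ' (Sum.inr ⟨i, e⟩)
      have h5 : Y = Y1 + Y2 := by rw [hY2]; abel
      have hY2x : dact Y2 (ratT ℂ x) = 0 := by
        clear h5 hcen hY2T hY2
        clear_value Y2
        induction hspan using Submodule.span_induction with
        | mem W hW =>
          obtain ⟨Z', ⟨hZ1, hZ2, hZ3⟩, rfl⟩ := hW
          have hcomm' : ∀ X' ∈ mtLieC (X.hodge σ), X' * cx Z' = cx Z' * X' := by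
            intro X' hX'
            have hsp := mtLieC_span hX'
            clear hX'
            induction hsp using Submodule.span_induction with
            | mem y hy => obtain ⟨Y', hY', rfl⟩ := hy; rw [← cx_mul, ← cx_mul, hZ1 Y' hY']
            | zero => rw [Matrix.zero_mul, Matrix.mul_zero]
            | add y z _ _ hy hz => rw [Matrix.add_mul, Matrix.mul_add, hy, hz]
            | smul c y _ hy => rw [Matrix.smul_mul, Matrix.mul_smul, hy]
          have hZH : IsHodge (X.hodge σ) (matT Z') := by
            intro z z' g hg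
            rw [ratT_matT, act_matT, commute_torus hcomm' hg, Matrix.mul_assoc, ← Units.val_mul, mul_inv_cancel,
              Units.val_one, Matrix.mul_one]
          rw [dact_ratT, hxZ Z' hZH (fun A hA => (hZ2 A hA).symm) hZ3, ratT_zero]
        | zero => exact dact_zero _
        | add y z _ _ hy hz => rw [dact_add, hy, hz, add_zero]
        | smul c y _ hy => rw [dact_smul, hy, smul_zero]
      rw [h5, dact_add, hY1 a b x hx, hY2x, add_zero]
    exact isFinAH_of_finite T' x σ hfin N₀ (hN₀ a b x hfin)

end Pool.Agent.Work.MP_0da4e0_ag
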