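import Pool.Agent.Work.MP_0da4e0_ag.WeilTens

/-! MP_0da4e0_ag: products of two tensors, vectors and covectors as tensors. -/

open Matrix

namespace Pool.Agent.Work.MP_0da4e0_ag

variable {ι : Type} [Fintype ι] [DecidableEq ι] {a b a' b' : ℕ}

/-- cutting an index of bidegree (a + a', b + b') in two -/
def addEquiv (ι : Type) (a b a' b' : ℕ) : ((Fin (a + a') → ι) × (Fin (b + b') → ι)) ≃
    ((Fin a → ι) × (Fin b → ι)) × ((Fin a' → ι) × (Fin b' → ι)) where
  toFun e := ((fun i => e.1 (Fin.castAdd a' i), fun i => e.2 (Fin.castAdd b' i)),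
    (fun i => e.1 (Fin.natAdd a i), fun i => e.2 (Fin.natAdd b i)))
  invFun x := (Fin.append x.1.1 x.2.1, Fin.append x.1.2 x.2.2)
  left_inv e := by
    apply Prod.ext
    · funext i
      refine Fin.addCases (fun i => ?_) (fun i => ?_) i
      · simp
      · simp
    · funext i
      refine Fin.addCases (fun i => ?_) (fun i => ?_) i
      · simp
      · simp
  right_inv x := by
    rcases x with ⟨⟨x1, x2⟩, ⟨x3, x4⟩⟩
    simp

/-- the product of two tensors -/
def tmul {R : Type} [CommRing R] (s : Tens ι a b R) (t : Tens ι a' b' R) : Tens ι (a + a') (b + b') R :=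
  fun e => s ((addEquiv ι a b a' b' e).1) * t ((addEquiv ι a b a' b' e).2)

theorem actMat_add {R : Type} [CommRing R] (g : GL ι R) (e f : (Fin (a + a') → ι) × (Fin (b + b') → ι)) :
    actMat g e f = actMat g (addEquiv ι a b a' b' e).1 (addEquiv ι a b a' b' f).1 *
      actMat g (addEquiv ι a b a' b' e).2 (addEquiv ι a b a' b' f).2 := by
  simp only [actMat, addEquiv, Equiv.coe_fn_mk, Fin.prod_univ_add]
  ring

theorem act_tmul {R : Type} [CommRing R] (g : GL ι R) (s : Tens ι a b R) (t : Tens ι a' b' R) :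
    act g (tmul s t) = tmul (act g s) (act g t) := by
  funext e
  have h1 : act g (tmul s t) e = ∑ f, (actMat g (addEquiv ι a b a' b' e).1 (addEquiv ι a b a' b' f).1 *
      s (addEquiv ι a b a' b' f).1) *
        (actMat g (addEquiv ι a b a' b' e).2 (addEquiv ι a b a' b' f).2 * t (addEquiv ι a b a' b' f).2) := by
    rw [act_eq]
    simp only [Matrix.mulVec, dotProduct]
    apply Finset.sum_congr rfl
    intro f _
    rw [actMat_add, tmul]
    ring
  have h2 : (∑ f, (actMat g (addEquiv ι a b a' b' e).1 (addEquiv ι a b a' b' f).1 *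
      s (addEquiv ι a b a' b' f).1) *
        (actMat g (addEquiv ι a b a' b' e).2 (addEquiv ι a b a' b' f).2 * t (addEquiv ι a b a' b' f).2)) =
      ∑ x : ((Fin a → ι) × (Fin b → ι)) × ((Fin a' → ι) × (Fin b' → ι)),
        (actMat g (addEquiv ι a b a' b' e).1 x.1 * s x.1) *
        (actMat g (addEquiv ι a b a' b' e).2 x.2 * t x.2) :=
    Fintype.sum_equiv (addEquiv ι a b a' b') _ _ (fun _ => rfl)
  rw [h1, h2, Fintype.sum_prod_type]
  simp only [tmul, act_eq, Matrix.mulVec, dotProduct]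
  rw [Finset.sum_mul_sum]

theorem dact_tmul (X : Matrix ι ι ℂ) (s : Tens ι a b ℂ) (t : Tens ι a' b' ℂ) :
    dact X (tmul s t) = tmul (dact X s) t + tmul s (dact X t) := by
  funext e
  have h1 := hasDerivAt_act_exp X (tmul s t) e
  have h2 : (fun r => act (expGL X r) (tmul s t) e) =
      fun r => act (expGL X r) s (addEquiv ι a b a' b' e).1 * act (expGL X r) t (addEquiv ι a b a' b' e).2 := by
    funext r
    rw [act_tmul]
    rfl
  rw [h2] at h1
  have h3 := (hasDerivAt_act_exp X s (addEquiv ι a b a' b' e).1).mul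
    (hasDerivAt_act_exp X t (addEquiv ι a b a' b' e).2)
  rw [h1.unique h3, expGL_zero, act_one, act_one]
  rfl

theorem dact_tmul_eigen {X : Matrix ι ι ℂ} {s : Tens ι a b ℂ} {t : Tens ι a' b' ℂ} {α β : ℂ}
    (hs : dact X s = α • s) (ht : dact X t = β • t) : dact X (tmul s t) = (α + β) • tmul s t := by
  rw [dact_tmul, hs, ht]
  funext e
  simp only [Pi.add_apply, tmul, Pi.smul_apply, smul_eq_mul]
  ring

omit [Fintype ι] [DecidableEq ι] in
theorem tmul_ne_zero {s : Tens ι a b ℂ} {t : Tens ι a' b' ℂ} (hs : s ≠ 0) (ht : t ≠ 0) : tmul s t ≠ 0 := by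
  obtain ⟨e, he⟩ := Function.ne_iff.1 hs
  obtain ⟨f, hf⟩ := Function.ne_iff.1 ht
  intro h0
  have h1 := congrFun h0 ((addEquiv ι a b a' b').symm (e, f))
  simp only [tmul, Equiv.apply_symm_apply, Pi.zero_apply] at h1
  exact (mul_ne_zero he hf) h1

/-- vectors as tensors -/
def vecT (v : ι → ℂ) : Tens ι 1 0 ℂ := fun e => v (e.1 0)

/-- covectors as tensors -/
def covT (w : ι → ℂ) : Tens ι 0 1 ℂ := fun e => w (e.2 0)

theorem act_vecT (g : GL ι ℂ) (v : ι → ℂ) : act g (vecT v) = vecT ((g : Matrix ι ι ℂ) *ᵥ v) := by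
  funext e
  simp only [act, vecT, Fin.prod_univ_one, Finset.univ_eq_empty, Finset.prod_empty, mul_one]
  rw [Fintype.sum_prod_type, ← (Equiv.funUnique (Fin 1) ι).symm.sum_comp]
  simp only [Finset.univ_unique, Finset.sum_singleton, Equiv.funUnique_symm_apply, uniqueElim_const]
  rfl

theorem act_covT (g : GL ι ℂ) (w : ι → ℂ) :
    act g (covT w) = covT (w ᵥ* ((g⁻¹ : GL ι ℂ) : Matrix ι ι ℂ)) := by
  funext e
  simp only [act, covT, Fin.prod_univ_one, Finset.univ_eq_empty, Finset.prod_empty, one_mul]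
  rw [Fintype.sum_prod_type]
  simp only [Finset.univ_unique, Finset.sum_singleton]
  rw [← (Equiv.funUnique (Fin 1) ι).symm.sum_comp]
  simp only [Equiv.funUnique_symm_apply, uniqueElim_const, Matrix.vecMul, dotProduct]
  apply Finset.sum_congr rfl
  intro i _
  ring

theorem dact_vecT (X : Matrix ι ι ℂ) (v : ι → ℂ) : dact X (vecT v) = vecT (X *ᵥ v) := by
  funext e
  have h1 := hasDerivAt_act_exp X (vecT v) e
  have h2 : (fun r => act (expGL X r) (vecT v) e) = fun r => ∑ i, (expGL X r : Matrix ι ι ℂ) (e.1 0) i * v i := by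
    funext r
    rw [act_vecT]
    rfl
  rw [h2] at h1
  have h3 : HasDerivAt (fun r => ∑ i, (expGL X r : Matrix ι ι ℂ) (e.1 0) i * v i) (∑ i, X (e.1 0) i * v i) 0 := by
    apply HasDerivAt.fun_sum
    intro i _
    exact (hasDerivAt_expGL X _ _).mul_const _
  rw [h1.unique h3]
  rfl

theorem dact_covT (X : Matrix ι ι ℂ) (w : ι → ℂ) : dact X (covT w) = covT (-(w ᵥ* X)) := by
  funext e
  have h1 := hasDerivAt_act_exp X (covT w) e
  have h2 : (fun r => act (expGL X r) (covT w) e) =
      fun r => ∑ i, w i * (((expGL X r)⁻¹ : GL ι ℂ) : Matrix ι ι ℂ) i (e.2 0) := by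
    funext r
    rw [act_covT]
    rfl
  rw [h2] at h1
  have h3 : HasDerivAt (fun r => ∑ i, w i * (((expGL X r)⁻¹ : GL ι ℂ) : Matrix ι ι ℂ) i (e.2 0))
      (∑ i, w i * (-X i (e.2 0))) 0 := by
    apply HasDerivAt.fun_sum
    intro i _
    exact (hasDerivAt_expGL_inv X _ _).const_mul _
  rw [h1.unique h3]
  simp only [covT, Pi.neg_apply, Matrix.vecMul, dotProduct, mul_neg, Finset.sum_neg_distrib]

omit [Fintype ι] [DecidableEq ι] in
theorem vecT_injective : Function.Injective (vecT : (ι → ℂ) → Tens ι 1 0 ℂ) := by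
  intro v w h
  funext i
  exact congrFun h (fun _ => i, Fin.elim0)

omit [Fintype ι] [DecidableEq ι] in
theorem covT_injective : Function.Injective (covT : (ι → ℂ) → Tens ι 0 1 ℂ) := by
  intro v w h
  funext i
  exact congrFun h (Fin.elim0, fun _ => i)

/-- the linear map `vecT` -/
def vecL (ι : Type) : (ι → ℂ) →ₗ[ℂ] Tens ι 1 0 ℂ where
  toFun := vecT
  map_add' _ _ := rfl
  map_smul' _ _ := rfl

/-- the linear map `covT` -/
def covL (ι : Type) : (ι → ℂ) →ₗ[ℂ] Tens ι 0 1 ℂ where
  toFun := covT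
  map_add' _ _ := rfl
  map_smul' _ _ := rfl

end Pool.Agent.Work.MP_0da4e0_ag
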