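import Pool.Agent.Work.MP_0da4e0_ag.WeilProj
import Pool.Agent.Work.MP_0da4e0_ag.WeilLin
import Pool.Agent.Work.MP_0da4e0_ag.WeilMul

/-! MP_0da4e0_ag: weights of the center of the algebra of Hodge endomorphisms. -/

open Matrix

namespace Pool.Agent.Work.MP_0da4e0_ag

variable {ι : Type} [Fintype ι] [DecidableEq ι]

section
open scoped ComplexOrder MatrixOrder

/-- the center is simultaneously diagonalizable -/
theorem exists_cen_diag {h : HodgeStr ι} {S : Matrix ι ι ℚ} (hS : Polarizes h S) :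
    ∃ U : GL ι ℂ, ∀ Z, Cen h Z → ∃ c : ι → ℂ, Z * (U : Matrix ι ι ℂ) = (U : Matrix ι ι ℂ) * Matrix.diagonal c := by
  obtain ⟨B, hB⟩ := CStarAlgebra.nonneg_iff_eq_star_mul_self.mp (hform_posDef hS).posSemidef.nonneg
  rw [Matrix.star_eq_conjTranspose] at hB
  have hBu : IsUnit B := by
    rw [Matrix.isUnit_iff_isUnit_det]
    have h1 := (Matrix.isUnit_iff_isUnit_det _).1 (hform_posDef hS).isUnit
    rw [hB, Matrix.det_mul] at h1
    exact isUnit_of_mul_isUnit_right h1
  obtain ⟨β, rfl⟩ := hBu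
  have hββ : (β : Matrix ι ι ℂ) * ((β⁻¹ : GL ι ℂ) : Matrix ι ι ℂ) = 1 := by
    rw [← Units.val_mul, mul_inv_cancel, Units.val_one]
  have hββ' : ((β⁻¹ : GL ι ℂ) : Matrix ι ι ℂ) * (β : Matrix ι ι ℂ) = 1 := by
    rw [← Units.val_mul, inv_mul_cancel, Units.val_one]
  let K : Matrix ι ι ℂ → Matrix ι ι ℂ := fun Z => (β : Matrix ι ι ℂ) * Z * ((β⁻¹ : GL ι ℂ) : Matrix ι ι ℂ)
  have hK : ∀ Z, K Z = (β : Matrix ι ι ℂ) * Z * ((β⁻¹ : GL ι ℂ) : Matrix ι ι ℂ) := fun _ => rfl
  have hKmul : ∀ Z W, K Z * K W = K (Z * W) := by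
    intro Z W
    calc K Z * K W = (β : Matrix ι ι ℂ) * Z * (((β⁻¹ : GL ι ℂ) : Matrix ι ι ℂ) * (β : Matrix ι ι ℂ)) * W *
          ((β⁻¹ : GL ι ℂ) : Matrix ι ι ℂ) := by simp only [hK, Matrix.mul_assoc]
      _ = K (Z * W) := by rw [hββ', Matrix.mul_one, hK]; simp only [Matrix.mul_assoc]
  have hKstar : ∀ Z, (K Z)ᴴ = K (dag h S Z) := by
    intro Z
    have e1 : (((β⁻¹ : GL ι ℂ) : Matrix ι ι ℂ))ᴴ * (β : Matrix ι ι ℂ)ᴴ = 1 := by
      rw [← Matrix.conjTranspose_mul, hββ, Matrix.conjTranspose_one]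
    have e2 : (hform h S)⁻¹ = ((β⁻¹ : GL ι ℂ) : Matrix ι ι ℂ) * (((β⁻¹ : GL ι ℂ) : Matrix ι ι ℂ))ᴴ := by
      apply Matrix.inv_eq_left_inv
      rw [hB]
      calc (((β⁻¹ : GL ι ℂ) : Matrix ι ι ℂ) * (((β⁻¹ : GL ι ℂ) : Matrix ι ι ℂ))ᴴ) * ((β : Matrix ι ι ℂ)ᴴ * (β : Matrix ι ι ℂ))
          = ((β⁻¹ : GL ι ℂ) : Matrix ι ι ℂ) * ((((β⁻¹ : GL ι ℂ) : Matrix ι ι ℂ))ᴴ * (β : Matrix ι ι ℂ)ᴴ) * (β : Matrix ι ι ℂ) := by
            simp only [Matrix.mul_assoc]
        _ = 1 := by rw [e1, Matrix.mul_one, hββ']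
    rw [hK, hK, dag, e2, hB, Matrix.conjTranspose_mul, Matrix.conjTranspose_mul]
    calc (((β⁻¹ : GL ι ℂ) : Matrix ι ι ℂ))ᴴ * (Zᴴ * (β : Matrix ι ι ℂ)ᴴ)
        = ((β : Matrix ι ι ℂ) * ((β⁻¹ : GL ι ℂ) : Matrix ι ι ℂ)) * (((β⁻¹ : GL ι ℂ) : Matrix ι ι ℂ))ᴴ * (Zᴴ * (β : Matrix ι ι ℂ)ᴴ) *
            ((β : Matrix ι ι ℂ) * ((β⁻¹ : GL ι ℂ) : Matrix ι ι ℂ)) := by
            rw [hββ, Matrix.one_mul, Matrix.mul_one]
      _ = _ := by simp only [Matrix.mul_assoc]
  obtain ⟨U, hU⟩ := exists_diag {A | ∃ Z, Cen h Z ∧ A = K Z} (by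
      rintro _ ⟨Z, hZ, rfl⟩ _ ⟨Z', hZ', rfl⟩
      rw [hKmul, hKmul, hZ.comm hZ']) (by
      rintro _ ⟨Z, hZ, rfl⟩
      exact ⟨dag h S Z, hZ.dag hS, hKstar Z⟩)
  refine ⟨β⁻¹ * U, fun Z hZ => ?_⟩
  obtain ⟨c, hc⟩ := hU _ ⟨Z, hZ, rfl⟩
  refine ⟨c, ?_⟩
  rw [Units.val_mul, Matrix.mul_assoc, ← hc, hK]
  calc Z * (((β⁻¹ : GL ι ℂ) : Matrix ι ι ℂ) * (U : Matrix ι ι ℂ))
      = (((β⁻¹ : GL ι ℂ) : Matrix ι ι ℂ) * (β : Matrix ι ι ℂ)) * Z * (((β⁻¹ : GL ι ℂ) : Matrix ι ι ℂ) * (U : Matrix ι ι ℂ)) := by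
        rw [hββ', Matrix.one_mul]
    _ = _ := by simp only [Matrix.mul_assoc]

end

/-- Data diagonalizing the center. -/
structure Diag (h : HodgeStr ι) where
  U : GL ι ℂ
  κ : Matrix ι ι ℂ → ι → ℂ
  spec : ∀ Z, Cen h Z → Z * (U : Matrix ι ι ℂ) = (U : Matrix ι ι ℂ) * Matrix.diagonal (κ Z)

theorem exists_Diag {h : HodgeStr ι} {S : Matrix ι ι ℚ} (hS : Polarizes h S) : Nonempty (Diag h) := by
  obtain ⟨U, hU⟩ := exists_cen_diag hS
  choose! κ hκ using hU
  exact ⟨⟨U, κ, hκ⟩⟩

namespace Diag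

variable {h : HodgeStr ι} (d : Diag h)

/-- the equivalence relation of indices -/
def rel (i j : ι) : Prop := ∀ Z, Cen h Z → d.κ Z i = d.κ Z j

theorem rel_refl (i : ι) : d.rel i i := fun _ _ => rfl
theorem rel_symm {i j : ι} (hij : d.rel i j) : d.rel j i := fun Z hZ => (hij Z hZ).symm
theorem rel_trans {i j k : ι} (hij : d.rel i j) (hjk : d.rel j k) : d.rel i k :=
  fun Z hZ => (hij Z hZ).trans (hjk Z hZ)

/-- the inverse of U -/
noncomputable def V : Matrix ι ι ℂ := ((d.U⁻¹ : GL ι ℂ) : Matrix ι ι ℂ)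

theorem UV : (d.U : Matrix ι ι ℂ) * d.V = 1 := by
  rw [V, ← Units.val_mul, mul_inv_cancel, Units.val_one]

theorem VU : d.V * (d.U : Matrix ι ι ℂ) = 1 := by
  rw [V, ← Units.val_mul, inv_mul_cancel, Units.val_one]

/-- matrices commuting with the center, in the diagonalizing basis -/
theorem entry_zero {X : Matrix ι ι ℂ} (hX : ∀ Z, Cen h Z → X * Z = Z * X) {i j : ι} (hij : ¬ d.rel i j) :
    (d.V * X * (d.U : Matrix ι ι ℂ)) i j = 0 := by
  unfold rel at hij
  push Not at hij
  obtain ⟨Z, hZ, hne⟩ := hij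
  have h1 : (d.V * X * (d.U : Matrix ι ι ℂ)) * Matrix.diagonal (d.κ Z) =
      Matrix.diagonal (d.κ Z) * (d.V * X * (d.U : Matrix ι ι ℂ)) := by
    have e1 : Matrix.diagonal (d.κ Z) = d.V * Z * (d.U : Matrix ι ι ℂ) := by
      rw [Matrix.mul_assoc, d.spec Z hZ, ← Matrix.mul_assoc, d.VU, Matrix.one_mul]
    calc (d.V * X * (d.U : Matrix ι ι ℂ)) * Matrix.diagonal (d.κ Z)
        = d.V * X * ((d.U : Matrix ι ι ℂ) * Matrix.diagonal (d.κ Z)) := by simp only [Matrix.mul_assoc]
      _ = d.V * (X * Z) * (d.U : Matrix ι ι ℂ) := by rw [← d.spec Z hZ]; simp only [Matrix.mul_assoc]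
      _ = d.V * Z * ((d.U : Matrix ι ι ℂ) * d.V) * X * (d.U : Matrix ι ι ℂ) := by
          rw [hX Z hZ, d.UV, Matrix.mul_one]; simp only [Matrix.mul_assoc]
      _ = _ := by rw [e1]; simp only [Matrix.mul_assoc]
  have h2 := congrFun (congrFun h1 i) j
  rw [Matrix.mul_diagonal, Matrix.diagonal_mul] at h2
  have h3 : (d.κ Z i - d.κ Z j) * (d.V * X * (d.U : Matrix ι ι ℂ)) i j = 0 := by
    rw [sub_mul, ← h2]; ring
  exact (mul_eq_zero.1 h3).resolve_left (sub_ne_zero.2 hne)

open Classical in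
/-- the idempotent of the center attached to the class of j -/
noncomputable def q (j : ι) : Matrix ι ι ℂ :=
  (d.U : Matrix ι ι ℂ) * Matrix.diagonal (fun i => if d.rel i j then (1 : ℂ) else 0) * d.V

theorem q_comm {X : Matrix ι ι ℂ} (hX : ∀ Z, Cen h Z → X * Z = Z * X) (j : ι) : X * d.q j = d.q j * X := by
  classical
  set X' := d.V * X * (d.U : Matrix ι ι ℂ) with hX'
  have e1 : X = (d.U : Matrix ι ι ℂ) * X' * d.V := by
    calc X = ((d.U : Matrix ι ι ℂ) * d.V) * X * ((d.U : Matrix ι ι ℂ) * d.V) := by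
          rw [d.UV, Matrix.one_mul, Matrix.mul_one]
      _ = _ := by rw [hX']; simp only [Matrix.mul_assoc]
  have e2 : X' * Matrix.diagonal (fun i => if d.rel i j then (1 : ℂ) else 0) =
      Matrix.diagonal (fun i => if d.rel i j then (1 : ℂ) else 0) * X' := by
    ext a b
    rw [Matrix.mul_diagonal, Matrix.diagonal_mul]
    by_cases hab : d.rel a b
    · by_cases ha : d.rel a j
      · rw [if_pos ha, if_pos (d.rel_trans (d.rel_symm hab) ha)]; ring
      · rw [if_neg ha, if_neg (fun hb => ha (d.rel_trans hab hb))]; ring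
    · have h0 : X' a b = 0 := d.entry_zero hX hab
      rw [h0]; ring
  rw [q]
  conv_lhs => rw [e1]
  conv_rhs => rw [e1]
  calc (d.U : Matrix ι ι ℂ) * X' * d.V * ((d.U : Matrix ι ι ℂ) * Matrix.diagonal (fun i => if d.rel i j then (1 : ℂ) else 0) * d.V)
      = (d.U : Matrix ι ι ℂ) * X' * (d.V * (d.U : Matrix ι ι ℂ)) * Matrix.diagonal (fun i => if d.rel i j then (1 : ℂ) else 0) * d.V := by
        simp only [Matrix.mul_assoc]
    _ = (d.U : Matrix ι ι ℂ) * (Matrix.diagonal (fun i => if d.rel i j then (1 : ℂ) else 0) * X') * d.V := by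
        rw [d.VU, Matrix.mul_one, ← e2]; simp only [Matrix.mul_assoc]
    _ = (d.U : Matrix ι ι ℂ) * Matrix.diagonal (fun i => if d.rel i j then (1 : ℂ) else 0) * (d.V * (d.U : Matrix ι ι ℂ)) * X' * d.V := by
        rw [d.VU, Matrix.mul_one]; simp only [Matrix.mul_assoc]
    _ = _ := by simp only [Matrix.mul_assoc]

theorem q_cen (j : ι) : Cen h (d.q j) := by
  refine ⟨fun X hX => d.q_comm (fun Z hZ => hZ.1 X hX) j, fun A hA => ?_⟩
  exact d.q_comm (fun Z hZ => hZ.2 A hA) j

theorem q_idem (j : ι) : d.q j * d.q j = d.q j := by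
  classical
  rw [q]
  calc (d.U : Matrix ι ι ℂ) * Matrix.diagonal (fun i => if d.rel i j then (1 : ℂ) else 0) * d.V *
        ((d.U : Matrix ι ι ℂ) * Matrix.diagonal (fun i => if d.rel i j then (1 : ℂ) else 0) * d.V)
      = (d.U : Matrix ι ι ℂ) * Matrix.diagonal (fun i => if d.rel i j then (1 : ℂ) else 0) *
        (d.V * (d.U : Matrix ι ι ℂ)) * Matrix.diagonal (fun i => if d.rel i j then (1 : ℂ) else 0) * d.V := by
        simp only [Matrix.mul_assoc]
    _ = (d.U : Matrix ι ι ℂ) * (Matrix.diagonal (fun i => if d.rel i j then (1 : ℂ) else 0) *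
        Matrix.diagonal (fun i => if d.rel i j then (1 : ℂ) else 0)) * d.V := by
        rw [d.VU, Matrix.mul_one]; simp only [Matrix.mul_assoc]
    _ = _ := by
        rw [Matrix.diagonal_mul_diagonal]
        congr 2
        congr 1
        funext i
        split_ifs <;> simp

open Classical in
theorem trace_mul_q (X : Matrix ι ι ℂ) (j : ι) :
    Matrix.trace (X * d.q j) = ∑ i, if d.rel i j then (d.V * X * (d.U : Matrix ι ι ℂ)) i i else 0 := by
  rw [q]
  calc Matrix.trace (X * ((d.U : Matrix ι ι ℂ) * Matrix.diagonal (fun i => if d.rel i j then (1 : ℂ) else 0) * d.V))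
      = Matrix.trace ((X * (d.U : Matrix ι ι ℂ) * Matrix.diagonal (fun i => if d.rel i j then (1 : ℂ) else 0)) * d.V) := by
        simp only [Matrix.mul_assoc]
    _ = Matrix.trace (d.V * (X * (d.U : Matrix ι ι ℂ) * Matrix.diagonal (fun i => if d.rel i j then (1 : ℂ) else 0))) := by
        rw [Matrix.trace_mul_comm]
    _ = Matrix.trace ((d.V * X * (d.U : Matrix ι ι ℂ)) * Matrix.diagonal (fun i => if d.rel i j then (1 : ℂ) else 0)) := by
        simp only [Matrix.mul_assoc]
    _ = _ := by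
        rw [Matrix.trace]
        apply Finset.sum_congr rfl
        intro i _
        rw [Matrix.diag_apply, Matrix.mul_diagonal]
        split_ifs <;> simp

/-- the idempotents span the center -/
theorem cen_span {Z : Matrix ι ι ℂ} (hZ : Cen h Z) : Z ∈ Submodule.span ℂ (Set.range d.q) := by
  classical
  let n : ι → ℕ := fun j => (Finset.univ.filter (fun i => d.rel i j)).card
  have hn : ∀ j, (n j : ℂ) ≠ 0 := by
    intro j
    rw [Nat.cast_ne_zero]
    exact Finset.card_ne_zero_of_mem (Finset.mem_filter.2 ⟨Finset.mem_univ j, d.rel_refl j⟩)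
  have hneq : ∀ i j, d.rel i j → n i = n j := by
    intro i j hij
    have : (Finset.univ.filter (fun k => d.rel k i)) = (Finset.univ.filter (fun k => d.rel k j)) := by
      ext k
      simp only [Finset.mem_filter, Finset.mem_univ, true_and]
      exact ⟨fun hk => d.rel_trans hk hij, fun hk => d.rel_trans hk (d.rel_symm hij)⟩
    change Finset.card _ = Finset.card _
    rw [this]
  have key : Z = ∑ j, (d.κ Z j / n j) • d.q j := by
    have h1 : ∑ j, (d.κ Z j / n j) • d.q j = (d.U : Matrix ι ι ℂ) * Matrix.diagonal (d.κ Z) * d.V := by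
      have h2 : ∀ j, (d.κ Z j / n j) • d.q j = (d.U : Matrix ι ι ℂ) *
          Matrix.diagonal (fun i => if d.rel i j then (d.κ Z j / n j : ℂ) else 0) * d.V := by
        intro j
        rw [q, ← Matrix.smul_mul, ← Matrix.mul_smul]
        congr 2
        ext a b
        rw [Matrix.smul_apply, Matrix.diagonal_apply, Matrix.diagonal_apply]
        split_ifs <;> simp
      rw [Finset.sum_congr rfl (fun j _ => h2 j), ← Finset.sum_mul, ← Finset.mul_sum]
      congr 2
      ext a b
      rw [Matrix.sum_apply]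
      simp only [Matrix.diagonal_apply]
      by_cases hab : a = b
      · subst hab
        simp only [if_true]
        have h3 : ∀ j, (if d.rel a j then (d.κ Z j / n j : ℂ) else 0) =
            if d.rel j a then (d.κ Z a / n a : ℂ) else 0 := by
          intro j
          by_cases hj : d.rel a j
          · rw [if_pos hj, if_pos (d.rel_symm hj), hj Z hZ, hneq a j hj]
          · rw [if_neg hj, if_neg (fun hj' => hj (d.rel_symm hj'))]
        rw [Finset.sum_congr rfl (fun j _ => h3 j), ← Finset.sum_filter, Finset.sum_const, nsmul_eq_mul]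
        change (n a : ℂ) * (d.κ Z a / n a) = _
        rw [mul_div_cancel₀ _ (hn a)]
      · simp only [if_neg hab, Finset.sum_const_zero]
    rw [h1, ← d.spec Z hZ, Matrix.mul_assoc, d.UV, Matrix.mul_one]
  rw [key]
  apply Submodule.sum_mem
  intro j _
  exact Submodule.smul_mem _ _ (Submodule.subset_span ⟨j, rfl⟩)

/-- determinants of the isotypic components: the tensor with weight the trace on the image of q j -/
theorem exists_pos (j : ι) : ∃ N ≤ Fintype.card ι, ∃ D : Tens ι (N * 1) (N * 0) ℂ, D ≠ 0 ∧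
    ∀ X : Matrix ι ι ℂ, (∀ Z, Cen h Z → X * Z = Z * X) → dact X D = Matrix.trace (X * d.q j) • D := by
  classical
  let B := {i : ι // d.rel i j}
  let N := Fintype.card B
  let ε : B ≃ Fin N := Fintype.equivFin B
  let t : Fin N → Tens ι 1 0 ℂ := fun l => vecT (fun a => (d.U : Matrix ι ι ℂ) a (ε.symm l))
  have hcols : LinearIndependent ℂ (fun (i : ι) => (fun a => (d.U : Matrix ι ι ℂ) a i)) := by
    have h1 := Matrix.linearIndependent_cols_iff_isUnit.2 d.U.isUnit
    exact h1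
  have htli : LinearIndependent ℂ t := by
    have h1 : LinearIndependent ℂ (fun l : Fin N => (fun a => (d.U : Matrix ι ι ℂ) a (ε.symm l))) :=
      hcols.comp (fun l : Fin N => ((ε.symm l : B) : ι)) (Subtype.val_injective.comp ε.symm.injective)
    exact h1.map' (vecL ι) (LinearMap.ker_eq_bot.2 vecT_injective)
  refine ⟨N, Fintype.card_subtype_le _, altT t, altT_ne_zero t htli, ?_⟩
  intro X hX
  set X' := d.V * X * (d.U : Matrix ι ι ℂ) with hX'
  have hXU : X * (d.U : Matrix ι ι ℂ) = (d.U : Matrix ι ι ℂ) * X' := by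
    rw [hX', ← Matrix.mul_assoc, ← Matrix.mul_assoc, d.UV, Matrix.one_mul]
  have h1 : ∀ l, dact X (t l) = ∑ m, X' (ε.symm m) (ε.symm l) • t m := by
    intro l
    have h2 : dact X (t l) = vecT (fun a => (X * (d.U : Matrix ι ι ℂ)) a (ε.symm l)) := by
      rw [dact_vecT]
      rfl
    rw [h2, hXU]
    have h3 : (fun a => ((d.U : Matrix ι ι ℂ) * X') a (ε.symm l)) =
        ∑ m : Fin N, X' (ε.symm m) (ε.symm l) • (fun a => (d.U : Matrix ι ι ℂ) a (ε.symm m)) := by
      funext a
      rw [Matrix.mul_apply, Finset.sum_apply]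
      rw [← Equiv.sum_comp ε]
      simp only [Equiv.symm_apply_apply, Pi.smul_apply, smul_eq_mul]
      have h4 : ∀ i : ι, ¬ d.rel i j → (d.U : Matrix ι ι ℂ) a i * X' i (ε.symm l) = 0 := by
        intro i hi
        have h5 : ¬ d.rel i (ε.symm l) := fun h => hi (d.rel_trans h (ε.symm l).2)
        rw [hX', d.entry_zero hX h5, mul_zero]
      have h6 : (∑ i : ι, (d.U : Matrix ι ι ℂ) a i * X' i (ε.symm l)) =
          ∑ i ∈ Finset.univ.filter (fun i => d.rel i j), (d.U : Matrix ι ι ℂ) a i * X' i (ε.symm l) := by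
        symm
        apply Finset.sum_subset (Finset.filter_subset _ _)
        intro i _ hi
        apply h4
        intro hi'
        exact hi (Finset.mem_filter.2 ⟨Finset.mem_univ i, hi'⟩)
      rw [h6, Finset.sum_subtype (p := fun i => d.rel i j) _ (by simp)]
      apply Finset.sum_congr rfl
      intro i _
      ring
    have h7 := congrArg (vecL ι) h3
    rw [map_sum] at h7
    refine h7.trans ?_
    apply Finset.sum_congr rfl
    intro m _
    rw [map_smul]
    rfl
  rw [dact_altT_eigen X t _ h1]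
  congr 1
  rw [d.trace_mul_q X j, ← Finset.sum_filter, Finset.sum_subtype (p := fun i => d.rel i j) _ (by simp)]
  exact Equiv.sum_comp ε.symm (fun i : B => X' i i)

/-- the dual tensor -/
theorem exists_neg (j : ι) : ∃ N ≤ Fintype.card ι, ∃ D : Tens ι (N * 0) (N * 1) ℂ, D ≠ 0 ∧
    ∀ X : Matrix ι ι ℂ, (∀ Z, Cen h Z → X * Z = Z * X) → dact X D = (-Matrix.trace (X * d.q j)) • D := by
  classical
  let B := {i : ι // d.rel i j}
  let N := Fintype.card B
  let ε : B ≃ Fin N := Fintype.equivFin B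
  let t : Fin N → Tens ι 0 1 ℂ := fun l => covT (d.V (ε.symm l))
  have hrows : LinearIndependent ℂ (fun (i : ι) => d.V i) := by
    have h1 := Matrix.linearIndependent_rows_iff_isUnit.2 (d.U⁻¹).isUnit
    exact h1
  have htli : LinearIndependent ℂ t := by
    have h1 : LinearIndependent ℂ (fun l : Fin N => d.V (ε.symm l)) :=
      hrows.comp (fun l : Fin N => ((ε.symm l : B) : ι)) (Subtype.val_injective.comp ε.symm.injective)
    exact h1.map' (covL ι) (LinearMap.ker_eq_bot.2 covT_injective)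
  refine ⟨N, Fintype.card_subtype_le _, altT t, altT_ne_zero t htli, ?_⟩
  intro X hX
  set X' := d.V * X * (d.U : Matrix ι ι ℂ) with hX'
  have hVX : d.V * X = X' * d.V := by
    rw [hX']
    simp only [Matrix.mul_assoc]
    rw [d.UV, Matrix.mul_one]
  have h1 : ∀ l, dact X (t l) = ∑ m, (-X' (ε.symm l) (ε.symm m)) • t m := by
    intro l
    have h2 : dact X (t l) = covT (-((d.V * X) (ε.symm l))) := by
      rw [dact_covT]
      rfl
    rw [h2, hVX]
    have h3 : -((X' * d.V) (ε.symm l)) =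
        ∑ m : Fin N, (-X' (ε.symm l) (ε.symm m)) • (d.V (ε.symm m)) := by
      funext a
      rw [Pi.neg_apply, Matrix.mul_apply, Finset.sum_apply]
      rw [← Equiv.sum_comp ε]
      simp only [Equiv.symm_apply_apply, Pi.smul_apply, smul_eq_mul]
      have h4 : ∀ i : ι, ¬ d.rel i j → X' (ε.symm l) i * d.V i a = 0 := by
        intro i hi
        have h5 : ¬ d.rel (ε.symm l) i := fun h => hi (d.rel_trans (d.rel_symm h) (ε.symm l).2)
        rw [hX', d.entry_zero hX h5, zero_mul]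
      have h6 : (∑ i : ι, X' (ε.symm l) i * d.V i a) =
          ∑ i ∈ Finset.univ.filter (fun i => d.rel i j), X' (ε.symm l) i * d.V i a := by
        symm
        apply Finset.sum_subset (Finset.filter_subset _ _)
        intro i _ hi
        apply h4
        intro hi'
        exact hi (Finset.mem_filter.2 ⟨Finset.mem_univ i, hi'⟩)
      rw [h6, Finset.sum_subtype (p := fun i => d.rel i j) _ (by simp), ← Finset.sum_neg_distrib]
      apply Finset.sum_congr rfl
      intro i _
      ring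
    have h7 := congrArg (covL ι) h3
    rw [map_sum] at h7
    refine h7.trans ?_
    apply Finset.sum_congr rfl
    intro m _
    rw [map_smul]
    rfl
  rw [dact_altT_eigen X t _ h1]
  congr 1
  rw [d.trace_mul_q X j, ← Finset.sum_filter, Finset.sum_subtype (p := fun i => d.rel i j) _ (by simp),
    Finset.sum_neg_distrib]
  congr 1
  exact Equiv.sum_comp ε.symm (fun i : B => X' i i)

/-- existence of a tensor of weight w, with bounded bidegree -/
theorem exists_weight (k : ℕ) : ∀ w : ι → ℤ, ∑ j, (w j).natAbs = k →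
    ∃ a ≤ Fintype.card ι * k, ∃ b ≤ Fintype.card ι * k, ∃ D : Tens ι a b ℂ, D ≠ 0 ∧
      ∀ X : Matrix ι ι ℂ, (∀ Z, Cen h Z → X * Z = Z * X) →
        dact X D = (∑ j, (w j : ℂ) * Matrix.trace (X * d.q j)) • D := by
  induction k with
  | zero =>
    intro w hw
    have hw0 : ∀ j, w j = 0 := by
      intro j
      have := (Finset.sum_eq_zero_iff.1 hw) j (Finset.mem_univ j)
      exact Int.natAbs_eq_zero.1 this
    refine ⟨0, Nat.zero_le _, 0, Nat.zero_le _, fun _ => 1, ?_, ?_⟩
    · intro h0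
      have := congrFun h0 (Fin.elim0, Fin.elim0)
      simp at this
    · intro X _
      have h1 : dmat 0 0 X = 0 := by
        ext e f
        simp [dmat]
      simp only [dact, h1, Matrix.zero_mulVec, hw0, Int.cast_zero, zero_mul, Finset.sum_const_zero, zero_smul]
  | succ k ih =>
    intro w hw
    obtain ⟨j, hj⟩ : ∃ j, w j ≠ 0 := by
      by_contra hcon
      push Not at hcon
      rw [Finset.sum_eq_zero (fun j _ => by rw [hcon j]; rfl)] at hw
      omega
    have hsplit : ∀ w' : ι → ℤ, (∀ i, i ≠ j → w' i = w i) →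
        ∑ i, (w' i).natAbs = (w' j).natAbs + ∑ i ∈ Finset.univ.erase j, (w i).natAbs := by
      intro w' hw'
      rw [← Finset.add_sum_erase _ _ (Finset.mem_univ j)]
      congr 1
      apply Finset.sum_congr rfl
      intro i hi
      rw [hw' i (Finset.ne_of_mem_erase hi)]
    have hw1 := hsplit w (fun _ _ => rfl)
    have hwt : ∀ (w' : ι → ℤ) (c : ℤ), (∀ i, i ≠ j → w' i = w i) → w j = w' j + c → ∀ X : Matrix ι ι ℂ,
        ∑ i, (w i : ℂ) * Matrix.trace (X * d.q i) =
          (c : ℂ) * Matrix.trace (X * d.q j) + ∑ i, (w' i : ℂ) * Matrix.trace (X * d.q i) := by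
      intro w' c hw' hc X
      rw [← Finset.add_sum_erase _ _ (Finset.mem_univ j),
        ← Finset.add_sum_erase _ (fun i => (w' i : ℂ) * Matrix.trace (X * d.q i)) (Finset.mem_univ j)]
      rw [hc, Finset.sum_congr rfl (fun i hi => by rw [← hw' i (Finset.ne_of_mem_erase hi)])]
      push_cast
      ring
    rcases lt_or_gt_of_ne hj with hneg | hpos
    · -- w j < 0
      let w' := Function.update w j (w j + 1)
      have hw'j : w' j = w j + 1 := Function.update_self _ _ _
      have hw'i : ∀ i, i ≠ j → w' i = w i := fun i hi => Function.update_of_ne hi _ _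
      have h1 := hsplit w' hw'i
      obtain ⟨a, ha, b, hb, D, hD, hDw⟩ := ih w' (by omega)
      obtain ⟨N, hN, D', hD', hD'w⟩ := d.exists_neg j
      refine ⟨N * 0 + a, ?_, N * 1 + b, ?_, tmul D' D, tmul_ne_zero hD' hD, ?_⟩
      · calc N * 0 + a ≤ Fintype.card ι * k := by omega
          _ ≤ Fintype.card ι * (k + 1) := Nat.mul_le_mul_left _ (Nat.le_succ k)
      · calc N * 1 + b ≤ Fintype.card ι + Fintype.card ι * k := by omega
          _ = Fintype.card ι * (k + 1) := by ring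
      · intro X hX
        rw [dact_tmul_eigen (hD'w X hX) (hDw X hX), hwt w' (-1) hw'i (by rw [hw'j]; ring) X]
        push_cast
        ring_nf
    · let w' := Function.update w j (w j - 1)
      have hw'j : w' j = w j - 1 := Function.update_self _ _ _
      have hw'i : ∀ i, i ≠ j → w' i = w i := fun i hi => Function.update_of_ne hi _ _
      have h1 := hsplit w' hw'i
      obtain ⟨a, ha, b, hb, D, hD, hDw⟩ := ih w' (by omega)
      obtain ⟨N, hN, D', hD', hD'w⟩ := d.exists_pos j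
      refine ⟨N * 1 + a, ?_, N * 0 + b, ?_, tmul D' D, tmul_ne_zero hD' hD, ?_⟩
      · calc N * 1 + a ≤ Fintype.card ι + Fintype.card ι * k := by omega
          _ = Fintype.card ι * (k + 1) := by ring
      · calc N * 0 + b ≤ Fintype.card ι * k := by omega
          _ ≤ Fintype.card ι * (k + 1) := Nat.mul_le_mul_left _ (Nat.le_succ k)
      · intro X hX
        rw [dact_tmul_eigen (hD'w X hX) (hDw X hX), hwt w' 1 hw'i (by rw [hw'j]; ring) X]
        push_cast
        ring_nf

end Diag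

end Pool.Agent.Work.MP_0da4e0_ag
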